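import Pool.Agent.P.MP_37b794_lc.I0.Defs
import Pool.Agent.Lib.Constructible.Code

/-!
Hulls, collapses and levels of the constructible hierarchy that are models of ZF.
-/

universe u

set_option synthInstance.maxSize 16384

namespace Pool.Agent.P.MP_37b794_lc.I0

open ZFSet Pool.Agent.Lib.Forcing Pool.Agent.P.MP_af0a18_lc

/-- Tarski-Vaught test. -/
theorem Hull_tv_elem {H N : Set ZFSet.{u}} (hHN : H ⊆ N)
    (htv : ∀ (φ : Fml) (e : Env.{u}), (∀ i, e i ∈ H) → (∃ x ∈ N, ¬ Sat N φ (cons x e)) →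
      ∃ x ∈ H, ¬ Sat N φ (cons x e)) (φ : Fml) :
    ∀ e : Env.{u}, (∀ i, e i ∈ H) → (Sat H φ e ↔ Sat N φ e) := by
  induction φ with
  | mem i j => exact fun _ _ => Iff.rfl
  | eq i j => exact fun _ _ => Iff.rfl
  | neg φ ih => exact fun e he => not_congr (ih e he)
  | and φ ψ ih1 ih2 => exact fun e he => and_congr (ih1 e he) (ih2 e he)
  | all φ ih =>
    intro e he
    refine ⟨fun h x hx => ?_, fun h x hx => (ih _ (cons_mem hx he)).2 (h x (hHN hx))⟩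
    by_contra hcon
    obtain ⟨y, hy, h2⟩ := htv φ e he ⟨x, hx, hcon⟩
    exact h2 ((ih _ (cons_mem hy he)).1 (h y hy))

/-- One round of Skolem witnesses for the parameters in a set. -/
theorem Hull_exists_witnesses (N : Set ZFSet.{u}) (S : ZFSet.{u}) : ∃ T : ZFSet.{u},
    (∀ x ∈ T, x ∈ N) ∧ ∀ (φ : Fml) (e : Env.{u}) (n : ℕ), (∀ i < n, e i ∈ S) →
      (∀ e1 e2 : Env.{u}, (∀ i < n, e1 i = e2 i) → (Sat N φ e1 ↔ Sat N φ e2)) →
      (∃ x ∈ N, ¬ Sat N φ (cons x e)) → ∃ x ∈ T, ¬ Sat N φ (cons x e) := by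
  classical
  let P : Fml × List S → ZFSet.{u} → Prop := fun t x =>
    x ∈ N ∧ ¬ Sat N t.1 (cons x fun i => (t.2.map Subtype.val).getD i ∅)
  let sk : {t : Fml × List S // ∃ x, P t x} → ZFSet.{u} := fun t => t.2.choose
  refine ⟨range sk, fun x hx => ?_, fun φ e n he hn hex => ?_⟩
  · obtain ⟨t, rfl⟩ := mem_range.1 hx
    exact t.2.choose_spec.1
  · let l : List S := List.ofFn fun i : Fin n => (⟨e i, he i i.2⟩ : S)
    have hl : ∀ x, Sat N φ (cons x fun i => (l.map Subtype.val).getD i ∅) ↔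
        Sat N φ (cons x e) := by
      intro x
      refine hn _ _ ?_
      rintro (_ | i) hi
      · rfl
      · have : i < n := by omega
        simp [l, this]
    have hex' : ∃ x, P (φ, l) x := hex.imp fun x hx => ⟨hx.1, mt (hl x).1 hx.2⟩
    exact ⟨sk ⟨(φ, l), hex'⟩, mem_range_self _, mt (hl _).2 hex'.choose_spec.2⟩

/-- The union of a chain of sets that absorbs witnesses is elementary. -/
theorem Hull_elem_of_chain {N : Set ZFSet.{u}} (S : ℕ → ZFSet.{u}) (hm : ∀ n, S n ⊆ S (n + 1))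
    (hN : ∀ n, ∀ x ∈ S n, x ∈ N)
    (hw : ∀ k (φ : Fml) (e : Env.{u}) (n : ℕ), (∀ i < n, e i ∈ S k) →
      (∀ e1 e2 : Env.{u}, (∀ i < n, e1 i = e2 i) → (Sat N φ e1 ↔ Sat N φ e2)) →
      (∃ x ∈ N, ¬ Sat N φ (cons x e)) → ∃ x ∈ S (k + 1), ¬ Sat N φ (cons x e))
    {H : Set ZFSet.{u}} (hH : ∀ x, x ∈ H ↔ ∃ n, x ∈ S n) (φ : Fml) (e : Env.{u})
    (he : ∀ i, e i ∈ H) : Sat H φ e ↔ Sat N φ e := by
  have hmono : ∀ {a b}, a ≤ b → S a ⊆ S b := by
    intro a b h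
    induction h with
    | refl => exact fun _ h => h
    | step _ ih => exact fun _ h => hm _ (ih h)
  refine Hull_tv_elem (fun x hx => ((hH x).1 hx).elim fun n h => hN n x h) ?_ φ e he
  intro φ e he hex
  obtain ⟨n, hn⟩ := sat_finite N φ
  obtain ⟨k, hk⟩ : ∃ k, ∀ i < n, e i ∈ S k := by
    clear hn
    induction n with
    | zero => exact ⟨0, fun _ h => absurd h (Nat.not_lt_zero _)⟩
    | succ n ihn =>
      obtain ⟨k, hk⟩ := ihn
      obtain ⟨k', hk'⟩ := (hH _).1 (he n)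
      refine ⟨max k k', fun i hi => ?_⟩
      rcases Nat.lt_succ_iff_lt_or_eq.1 hi with hi | rfl
      exacts [hmono (le_max_left _ _) (hk i hi), hmono (le_max_right _ _) hk']
  obtain ⟨x, hx, h⟩ := hw k φ e n hk hn hex
  exact ⟨x, (hH x).2 ⟨_, hx⟩, h⟩

/-- The hull of a set inside a class is a set. -/
theorem Hull_exists_hull (N : Set ZFSet.{u}) (S : ZFSet.{u}) (hS : ∀ x ∈ S, x ∈ N) :
    ∃ H : ZFSet.{u}, S ⊆ H ∧ (∀ x ∈ H, x ∈ N) ∧ ∀ (φ : Fml) (e : Env.{u}), (∀ i, e i ∈ H) →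
      (Sat (H : Set ZFSet.{u}) φ e ↔ Sat N φ e) := by
  choose T hT1 hT2 using Hull_exists_witnesses N
  let C : ℕ → ZFSet.{u} := fun k => Nat.rec S (fun _ Y => Y ∪ T Y) k
  have hC : ∀ k, C (k + 1) = C k ∪ T (C k) := fun _ => rfl
  have hN : ∀ n, ∀ x ∈ C n, x ∈ N := by
    intro n
    induction n with
    | zero => exact hS
    | succ n ih => exact fun x hx => (mem_union.1 hx).elim (ih x) (hT1 _ x)
  have hH : ∀ x, x ∈ (⋃₀ range fun n : ULift.{u} ℕ => C n.down : ZFSet.{u}) ↔ ∃ n, x ∈ C n := by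
    intro x
    rw [mem_sUnion]
    constructor
    · rintro ⟨_, h, hx⟩
      obtain ⟨n, rfl⟩ := mem_range.1 h
      exact ⟨_, hx⟩
    · rintro ⟨n, hx⟩
      exact ⟨_, mem_range.2 ⟨⟨n⟩, rfl⟩, hx⟩
  refine ⟨_, fun x hx => (hH x).2 ⟨0, hx⟩, fun x hx => ((hH x).1 hx).elim fun n h => hN n x h,
    Hull_elem_of_chain C (fun n x hx => mem_union.2 (Or.inl hx)) hN ?_ hH⟩
  intro k φ e n he hn hex
  obtain ⟨x, hx, h⟩ := hT2 (C k) φ e n he hn hex
  exact ⟨x, mem_union.2 (Or.inr hx), h⟩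

/-- Reflection in the universe: above every ordinal there is a level that is
elementary in the constructible class. -/
theorem Hull_exists_level_elem (b : ZFSet.{u}) {α : ZFSet.{u}} (hα : α.IsOrdinal) :
    ∃ β : ZFSet.{u}, β.IsOrdinal ∧ α ⊆ β ∧ ∀ (φ : Fml) (e : Env.{u}), (∀ i, e i ∈ level b β) →
      (Sat (level b β : Set ZFSet.{u}) φ e ↔ Sat (constr Set.univ b) φ e) := by
  choose T hT1 hT2 using Hull_exists_witnesses (constr Set.univ b)
  have hstep : ∀ γ : ZFSet.{u}, ∃ δ : ZFSet.{u}, γ.IsOrdinal →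
      δ.IsOrdinal ∧ γ ⊆ δ ∧ T (level b γ) ⊆ level b δ := by
    intro γ
    choose f hf using fun x : T (level b γ) => hT1 _ x.1 x.2
    refine ⟨γ ∪ rk (range f), fun hγ => ⟨isOrdinal_union hγ (isOrdinal_rk _),
      subset_union_left' _ _, fun x hx => ?_⟩⟩
    obtain ⟨-, h1, h2⟩ := hf ⟨x, hx⟩
    refine level_mono (fun z hz => subset_union_right' _ _ ?_) h2
    exact (isOrdinal_rk _).subset_of_mem (mem_rk_of_isOrdinal h1 (mem_range_self _)) hz
  choose nx hnx using hstep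
  let o : ℕ → ZFSet.{u} := fun k => Nat.rec α (fun _ γ => nx γ) k
  have ho : ∀ k, (o k).IsOrdinal := by
    intro k
    induction k with
    | zero => exact hα
    | succ k ih => exact (hnx _ ih).1
  have hH : ∀ x, x ∈ (⋃₀ range fun n : ULift.{u} ℕ => o n.down : ZFSet.{u}) ↔ ∃ n, x ∈ o n := by
    intro x
    rw [mem_sUnion]
    constructor
    · rintro ⟨_, h, hx⟩
      obtain ⟨n, rfl⟩ := mem_range.1 h
      exact ⟨_, hx⟩
    · rintro ⟨n, hx⟩
      exact ⟨_, mem_range.2 ⟨⟨n⟩, rfl⟩, hx⟩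
  refine ⟨_, ?_, fun x hx => (hH x).2 ⟨0, hx⟩, Hull_elem_of_chain (N := constr Set.univ b)
    (fun k => level b (o k))
    (fun n => level_mono (hnx _ (ho n)).2.1) (fun n x hx => ⟨o n, trivial, ho n, hx⟩) ?_ ?_⟩
  · refine isOrdinal_iff_forall_mem_isOrdinal.2 ⟨fun x hx y hy => ?_, fun x hx => ?_⟩
    · obtain ⟨n, hn⟩ := (hH x).1 hx
      exact (hH y).2 ⟨n, (ho n).subset_of_mem hn hy⟩
    · obtain ⟨n, hn⟩ := (hH x).1 hx
      exact (ho n).mem hn
  · intro k φ e n he hn hex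
    obtain ⟨x, hx, h⟩ := hT2 _ φ e n he hn hex
    exact ⟨x, (hnx _ (ho k)).2.2 hx, h⟩
  · intro x
    simp only [SetLike.mem_coe, mem_level]
    constructor
    · rintro (h | ⟨β, hβ, h⟩)
      · exact ⟨0, Or.inl h⟩
      · obtain ⟨n, hn⟩ := (hH β).1 hβ
        exact ⟨n, Or.inr ⟨β, hn, h⟩⟩
    · rintro ⟨n, h | ⟨β, hβ, h⟩⟩
      · exact Or.inl h
      · exact Or.inr ⟨β, (hH β).2 ⟨n, hβ⟩, h⟩

/-- A transitive class that embeds elementarily into a model of ZF is a model of ZF. -/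
theorem Hull_isZFModel_of_elem {M M2 : Set ZFSet.{u}} {j : ZFSet.{u} → ZFSet.{u}} [hT : Trans M]
    (hj : ∀ x ∈ M, j x ∈ M2)
    (h : ∀ (φ : Fml) (e : Env.{u}), (∀ i, e i ∈ M) → (Sat M φ e ↔ Sat M2 φ (fun i => j (e i))))
    (h2 : IsZFModel M2) : IsZFModel M := by
  have hz := h2.zfm
  have tr : ∀ (R : Set ZFSet.{u} → Env.{u} → Prop) [UDf R] (e : Env.{u}), (∀ i, e i ∈ M) →
      (R M e ↔ R M2 (fun i => j (e i))) := by
    intro R hR e he
    obtain ⟨φ, hφ⟩ := hR.out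
    rw [hφ M hT e he, hφ M2 inferInstance _ fun i => hj _ (he i), h φ e he]
  have se : ∀ (R : Set ZFSet.{u} → Prop) [UDf (fun M _ => R M)], R M2 → R M :=
    fun R _ hR => (tr (fun M _ => R M) (fun _ => ∅) fun _ => hT.empty).2 hR
  refine ⟨hT.trans, ?_, ?_, ?_, ?_, ?_, ?_⟩
  · intro x hx y hy
    obtain ⟨z, hz, rfl⟩ := se (fun M => ∀ x ∈ M, ∀ y ∈ M, ∃ z ∈ M, z = {x, y})
      (fun x hx y hy => ⟨_, h2.pairing x hx y hy, rfl⟩) x hx y hy
    exact hz
  · intro x hx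
    obtain ⟨z, hz, h1, h2⟩ := se
      (fun M => ∀ x ∈ M, ∃ z ∈ M, (∀ y ∈ x, y ⊆ z) ∧ ∀ w ∈ z, ∃ y ∈ x, w ∈ y)
      (fun x hx => ⟨⋃₀ x, h2.union x hx, fun y hy w hw => mem_sUnion.2 ⟨y, hy, hw⟩,
        fun w hw => mem_sUnion.1 hw⟩) x hx
    convert hz using 1
    ext w
    rw [mem_sUnion]
    exact ⟨fun ⟨y, hy, hw⟩ => h1 y hy hw, h2 w⟩
  · exact se (fun M => ∀ x ∈ M, ∃ y ∈ M, ∀ z ∈ M, z ⊆ x → z ∈ y) h2.powerSet
  · obtain ⟨w, hw, h1⟩ := se (fun M => ∃ w ∈ M, IsOmega w)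
      ⟨omega, h2.infinity, isOmega_iff.2 rfl⟩
    exact isOmega_iff.1 h1 ▸ hw
  · intro φ e he a ha
    have h1 := (UDf.sat.{u} φ).rename (fun i => match i with | 0 => 0 | i + 1 => i + 1 + 1 + 1)
    have h3 : UDf.{u} (fun M e => Sat M φ (cons (e 0) fun i => e (i + 1 + 1 + 1))) :=
      h1.congr fun _ _ e _ => by
        congr! 2 with i; cases i <;> rfl
    obtain ⟨b, hb, h3⟩ := (tr (fun M e => ∃ b ∈ M, ∀ x ∈ M,
      (x ∈ b ↔ x ∈ e 0 ∧ Sat M φ (cons x fun i => e (i + 1)))) (cons a e) (cons_mem ha he)).2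
      ⟨(j a).sep fun x => Sat M2 φ (cons x fun i => j (e i)),
        h2.separation φ _ (fun i => hj _ (he i)) _ (hj _ ha), fun x _ => mem_sep⟩
    convert hb using 1
    ext x
    rw [mem_sep]
    exact ⟨fun hx => (h3 x (mem_of_mem ha hx.1)).2 hx, fun hx => (h3 x (mem_of_mem hb hx)).1 hx⟩
  · intro φ e he a ha hex
    have h1 : UDf.{u} (fun M e => Sat M φ (cons (e 0) (cons (e 1) fun i => e (i + 1 + 1 + 1 + 1)))) :=
      ((UDf.sat.{u} φ).rename (fun i => match i with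
        | 0 => 0 | 1 => 1 | i + 2 => i + 1 + 1 + 1 + 1)).congr fun _ _ e _ => by
        congr! 2 with i; rcases i with _ | _ | i <;> rfl
    have h3 : UDf.{u} (fun M e => Sat M φ (cons (e 0) (cons (e 1) fun i => e (i + 1 + 1 + 1)))) :=
      ((UDf.sat.{u} φ).rename (fun i => match i with
        | 0 => 0 | 1 => 1 | i + 2 => i + 1 + 1 + 1)).congr fun _ _ e _ => by
        congr! 2 with i; rcases i with _ | _ | i <;> rfl
    have h4 : UDf.{u} (fun M e => Sat M φ (cons (e 0) (cons (e 2) fun i => e (i + 1 + 1 + 1 + 1)))) :=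
      ((UDf.sat.{u} φ).rename (fun i => match i with
        | 0 => 0 | 1 => 2 | i + 2 => i + 1 + 1 + 1 + 1)).congr fun _ _ e _ => by
        congr! 2 with i; rcases i with _ | _ | i <;> rfl
    refine (tr (fun M e =>
      (∀ x ∈ e 0, ∃ y ∈ M, Sat M φ (cons y (cons x fun i => e (i + 1))) ∧
        ∀ y' ∈ M, Sat M φ (cons y' (cons x fun i => e (i + 1))) → y' = y) →
      ∃ b ∈ M, ∀ x ∈ e 0, ∃ y ∈ b, Sat M φ (cons y (cons x fun i => e (i + 1))))
      (cons a e) (cons_mem ha he)).2 ?_ fun x hx => ?_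
    · intro H
      refine h2.replacement φ _ (fun i => hj _ (he i)) _ (hj _ ha) fun x hx => ?_
      obtain ⟨y, hy, h5, h6⟩ := H x hx
      exact ⟨y, ⟨hy, h5⟩, fun y' hy' => h6 y' hy'.1 hy'.2⟩
    · obtain ⟨y, ⟨hy, h5⟩, h6⟩ := hex x hx
      exact ⟨y, hy, h5, fun y' h7 h8 => h6 y' ⟨h7, h8⟩⟩

/-- The collapse of an extensional class is an isomorphism onto a transitive class. -/
theorem Hull_collapse_facts {H : Set ZFSet.{u}} {c : ZFSet.{u} → ZFSet.{u}}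
    (hc : ∀ x z, z ∈ c x ↔ ∃ y ∈ x, y ∈ H ∧ c y = z)
    (hext : ∀ x ∈ H, ∀ y ∈ H, (∀ z ∈ H, z ∈ x → z ∈ y) → x ⊆ y) :
    (∀ x ∈ H, ∀ y ∈ H, c x = c y → x = y) ∧ (∀ x ∈ c '' H, ∀ y ∈ x, y ∈ c '' H) ∧
    ∀ (φ : Fml) (e : Env.{u}), (∀ i, e i ∈ H) →
      (Sat (c '' H) φ (fun i => c (e i)) ↔ Sat H φ e) := by
  have hinj : ∀ x, x ∈ H → ∀ y ∈ H, c x = c y → x = y := by
    intro x
    induction x using ZFSet.inductionOn with
    | h x ih =>
      intro hx y hy h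
      apply subset_antisymm
      · refine hext x hx y hy fun z hz hzx => ?_
        obtain ⟨w, h1, h2, h3⟩ := (hc y _).1 (h ▸ (hc x _).2 ⟨z, hzx, hz, rfl⟩)
        rwa [ih z hzx hz w h2 h3.symm]
      · refine hext y hy x hx fun z hz hzy => ?_
        obtain ⟨w, h1, h2, h3⟩ := (hc x _).1 (h ▸ (hc y _).2 ⟨z, hzy, hz, rfl⟩)
        rwa [← ih w h1 h2 z hz h3]
  refine ⟨hinj, ?_, ?_⟩
  · rintro _ ⟨x, -, rfl⟩ z hz
    obtain ⟨y, -, h1, h2⟩ := (hc x z).1 hz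
    exact ⟨y, h1, h2⟩
  · intro φ
    induction φ with
    | mem i j =>
      intro e he
      simp only [Sat, hc]
      exact ⟨fun ⟨y, h1, h2, h3⟩ => hinj y h2 _ (he i) h3 ▸ h1, fun h => ⟨_, h, he i, rfl⟩⟩
    | eq i j => exact fun e he => ⟨hinj _ (he i) _ (he j), fun h => congrArg c h⟩
    | neg φ ih => exact fun e he => not_congr (ih e he)
    | and φ ψ ih1 ih2 => exact fun e he => and_congr (ih1 e he) (ih2 e he)
    | all φ ih =>
      intro e he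
      have : ∀ x, (fun i => c (cons x e i)) = cons (c x) (fun i => c (e i)) := by
        intro x; funext i; cases i <;> rfl
      simp only [Sat]
      constructor
      · intro h x hx
        rw [← ih _ (cons_mem hx he), this]
        exact h _ ⟨x, hx, rfl⟩
      · rintro h _ ⟨x, hx, rfl⟩
        rw [← this, ih _ (cons_mem hx he)]
        exact h x hx

/-- An elementary subclass of a transitive class is extensional. -/
theorem Hull_ext_of_elem {H X : Set ZFSet.{u}} (hX : ∀ x ∈ X, ∀ y ∈ x, y ∈ X) (hHX : H ⊆ X)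
    (h : ∀ (φ : Fml) (e : Env.{u}), (∀ i, e i ∈ H) → (Sat H φ e ↔ Sat X φ e)) :
    ∀ x ∈ H, ∀ y ∈ H, (∀ z ∈ H, z ∈ x → z ∈ y) → x ⊆ y := by
  intro x hx y hy H1
  have := (h (.all (.neg (.and (.mem 0 1) (.neg (.mem 0 2))))) (cons x (cons y fun _ => x))
    (cons_mem hx (cons_mem hy fun _ => hx))).1 (fun z hz h' => h'.2 (H1 z hz h'.1))
  intro z hz
  by_contra h'
  exact this z (hX x (hHX hx) z hz) ⟨hz, h'⟩

theorem Hull_univ : IsZFModel (Set.univ : Set ZFSet.{u}) :=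
  IsElem.isZFModel (j := id) ⟨inferInstance, fun _ _ _ => Iff.rfl⟩

theorem Elem.isZFModel {M M' : Set ZFSet.{u}} {k : ZFSet.{u} → ZFSet.{u}} (h : Elem M M' M k)
    (ht : ∀ x ∈ M, ∀ y ∈ x, y ∈ M) (hne : M.Nonempty) (hM' : IsZFModel M') : IsZFModel M := by
  have h0 : ∀ x : ZFSet.{u}, x ∈ M → ∅ ∈ M := by
    intro x
    induction x using ZFSet.inductionOn with
    | h x ih =>
      intro hx
      rcases ZFSet.eq_empty_or_nonempty x with rfl | ⟨y, hy⟩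
      exacts [hx, ih y hy (ht x hx y hy)]
  have : Trans M := ⟨ht, hne.elim h0⟩
  exact Hull_isZFModel_of_elem h.maps h.sat hM'

theorem exists_collapse_elem {H X : Set ZFSet.{u}} (hX : IsZFModel X) (hHX : H ⊆ X)
    (hne : H.Nonempty)
    (hel : ∀ (φ : Fml) (e : Env.{u}), (∀ i, e i ∈ H) → (Sat H φ e ↔ Sat X φ e))
    {c : ZFSet.{u} → ZFSet.{u}} (hc : ∀ x z, z ∈ c x ↔ ∃ y ∈ x, y ∈ H ∧ c y = z) :
    ∃ σ : ZFSet.{u} → ZFSet.{u}, Elem (c '' H) X (c '' H) σ ∧ (∀ x ∈ H, σ (c x) = x) ∧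
      IsZFModel (c '' H) := by
  obtain ⟨h1, h2, h3⟩ := Hull_collapse_facts hc (Hull_ext_of_elem hX.transitive hHX hel)
  have h4 : ∀ z : ZFSet.{u}, ∃ x : ZFSet.{u}, z ∈ c '' H → x ∈ H ∧ c x = z := fun z => by
    by_cases h : z ∈ c '' H
    · exact h.imp fun x hx _ => hx
    · exact ⟨∅, fun h' => (h h').elim⟩
  choose σ hσ using h4
  have h5 : Elem (c '' H) X (c '' H) σ := by
    refine ⟨subset_rfl, fun z hz => hHX (hσ z hz).1, fun φ e he => ?_⟩
    rw [← hel φ _ fun i => (hσ _ (he i)).1, ← h3 φ _ fun i => (hσ _ (he i)).1,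
      funext fun i => (hσ _ (he i)).2]
  exact ⟨σ, h5, fun x hx => h1 _ (hσ _ ⟨x, hx, rfl⟩).1 _ hx (hσ _ ⟨x, hx, rfl⟩).2,
    h5.isZFModel h2 (hne.image c) hX⟩

instance zdIsZFModel {s : Set ZFSet.{u} → Env.{u} → ZFSet.{u}} [hs : ZT s] :
    ZD (fun M e => IsZFModel (s M e : Set ZFSet.{u})) := by
  refine ZD.subst1 (R := fun _ a => IsZFModel (a : Set ZFSet.{u})) ?_ hs
  simp only [isZFModel_set_iff]
  infer_instance

theorem Hull_mem_constr_iff {b X x : ZFSet.{u}} : x ∈ constr (X : Set ZFSet.{u}) b ↔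
    ∃ α ∈ X, α.IsOrdinal ∧ x ∈ level b α := Iff.rfl

instance zdZFLevel {s t : Set ZFSet.{u} → Env.{u} → ZFSet.{u}} [hs : ZT s] [ht : ZT t] :
    ZD (fun M e => ZFLevel (s M e) (t M e)) := by
  refine ZD.subst2 (R := fun _ => ZFLevel) ?_ hs ht
  simp only [ZFLevel, Hull_mem_constr_iff]
  infer_instance

theorem Hull_isOrdinal_ords {X : ZFSet.{u}} (h : IsZFModel (X : Set ZFSet.{u})) :
    (ords X).IsOrdinal :=
  isOrdinal_iff_forall_mem_isOrdinal.2 ⟨fun x hx y hy => mem_sep.2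
    ⟨h.transitive x (mem_sep.1 hx).1 y hy, (mem_sep.1 hx).2.mem hy⟩, fun _ hx => (mem_sep.1 hx).2⟩

theorem ZFLevel.eq_level {b X : ZFSet.{u}} (h : ZFLevel b X) : X = level b (ords X) := by
  obtain ⟨h1, h2, h3⟩ := h
  have := h1.zfm
  ext x
  constructor
  · intro hx
    obtain ⟨α, h4, h5, h6⟩ := h3 x hx
    exact level_mono (fun y hy => mem_sep.2 ⟨h1.transitive α h4 y hy, h5.mem hy⟩) h6
  · intro hx
    rcases mem_level.1 hx with h4 | ⟨β, h4, h5⟩
    · exact h1.transitive b h2 x h4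
    · exact mem_model_of_mem_defPow (M := (X : Set ZFSet.{u}))
        ((tm_level h1.powerSet h2).mem1 (mem_sep.1 h4).1) h5

theorem ZFLevel.trichotomy {b X X' : ZFSet.{u}} (hb : b.IsTransitive) (h0 : ∅ ∈ b)
    (h : ZFLevel b X) (h' : ZFLevel b X') : X ∈ X' ∨ X = X' ∨ X' ∈ X := by
  have : Trans (b : Set ZFSet.{u}) := ⟨fun x hx _ hy => hb x hx hy, h0⟩
  rw [h.eq_level, h'.eq_level]
  rcases (Hull_isOrdinal_ords h.1).mem_trichotomous (Hull_isOrdinal_ords h'.1) with k | k | k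
  exacts [Or.inl (level_mem_level k), Or.inr (Or.inl (by rw [k])),
    Or.inr (Or.inr (level_mem_level k))]

theorem ZFLevel.mem_constr {b X : ZFSet.{u}} (hb : b.IsTransitive) (h0 : ∅ ∈ b)
    (h : ZFLevel b X) : X ∈ constr Set.univ b := by
  have : Trans (b : Set ZFSet.{u}) := ⟨fun x hx _ hy => hb x hx hy, h0⟩
  have := Hull_univ.{u}.zfm
  rw [h.eq_level]
  exact level_mem_constr trivial (Hull_isOrdinal_ords h.1)

theorem exists_zfLevel {b x : ZFSet.{u}} (hb : b.IsTransitive) (h0 : ∅ ∈ b)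
    (hx : x ∈ constr Set.univ b) : ∃ X, ZFLevel b X ∧ x ∈ X := by
  have : Trans (b : Set ZFSet.{u}) := ⟨fun x hx _ hy => hb x hx hy, h0⟩
  have := Hull_univ.{u}.zfm
  obtain ⟨α, -, h1, h2⟩ := hx
  obtain ⟨β, h3, h4, h5⟩ := Hull_exists_level_elem b
    (isOrdinal_union h1 (isOrdinal_succ isOrdinal_empty))
  have := trans_level (b := b) β
  have h6 : IsZFModel (level b β : Set ZFSet.{u}) :=
    Hull_isZFModel_of_elem (M2 := constr Set.univ b) (j := fun x => x)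
      (fun x hx => ⟨β, trivial, h3, hx⟩) h5
      (isZFModel_constr Hull_univ.powerSet trivial)
  refine ⟨_, ⟨h6, ?_, level_subset_constr h3 h6⟩,
    level_mono ((subset_union_left' _ _).trans h4) h2⟩
  have h7 := level_mem_level (b := b) (h4 (subset_union_right' _ _ (mem_insert _ _)))
  rwa [level_empty] at h7

end Pool.Agent.P.MP_37b794_lc.I0
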