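import Pool.Agent.P.MP_37b794_lc.I0.Gro
import Pool.Agent.P.MP_37b794_lc.I0.Hull

/-!
Codes for the elements of the constructible closure of a power set, and definable hulls.
-/

universe u

set_option synthInstance.maxSize 16384

namespace Pool.Agent.P.MP_37b794_lc.I0

open ZFSet Pool.Agent.Lib.Forcing Pool.Agent.P.MP_af0a18_lc

theorem Cd.ordinal {M : Set ZFSet.{u}} {b γ a x : ZFSet.{u}} (h : Cd M b γ a x) : γ.IsOrdinal :=
  Lib.Forcing.Cd.isOrdinal (M := M) (A := b) (a := a) (x := x) h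

theorem Cd.unique {M : Set ZFSet.{u}} {b γ a x x' : ZFSet.{u}} (h : Cd M b γ a x)
    (h' : Cd M b γ a x') : x = x' :=
  Lib.Forcing.Cd.unique (M := M) (A := b) (γ := γ) (a := a) h h'

theorem Cd.mem {M : Set ZFSet.{u}} (hM : IsZFModel M) {b γ a x : ZFSet.{u}} (h : Cd M b γ a x) :
    γ ∈ M ∧ x ∈ M :=
  have := hM.zfm
  ⟨Lib.Forcing.Cd.code_mem (M := M) (A := b) (a := a) (x := x) h,
    Lib.Forcing.Cd.mem (M := M) (A := b) (γ := γ) (a := a) h⟩

theorem Code_powerset_mem {M : Set ZFSet.{u}} (hM : IsZFModel M) {v : ZFSet.{u}}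
    (hsub : ∀ a, a ⊆ v → a ∈ M) : powerset v ∈ M := by
  rw [← pow_eq hsub]
  exact (inferInstance : ZT (fun M e => pow M (e 0))).mem M hM (fun _ => v)
    fun _ => hsub v fun _ h => h

theorem Code_trans_powerset {Y : ℕ → ZFSet.{u}} {v : ZFSet.{u}} (hT : Tower Y v) :
    Trans (powerset v : Set ZFSet.{u}) :=
  ⟨fun _ hx _ hy => mem_powerset.2 (hT.sub_of_mem (mem_powerset.1 hx hy)),
    mem_powerset.2 (empty_subset _)⟩

theorem cd_total {Y : ℕ → ZFSet.{u}} {v : ZFSet.{u}} (hT : Tower Y v) {M : Set ZFSet.{u}}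
    (hM : IsZFModel M) (hsub : ∀ a, a ⊆ v → a ∈ M) {x : ZFSet.{u}}
    (hx : x ∈ constr M (powerset v)) : ∃ a, a ⊆ v ∧ ∃ γ, Cd M (powerset v) γ a x := by
  have := Code_trans_powerset hT
  obtain ⟨γ, -, a, ha, h⟩ := exists_cd hM (Code_powerset_mem hM hsub)
    (fun a ha b hb => dsum_mem_powerset hT.empty_mem
      (fun x hx y hy => hT.insert_mem hx (hT.singleton_mem hy)) ha hb) hx
  exact ⟨a, mem_powerset.1 ha, γ, h⟩

theorem cd_total_NN {Y : ℕ → ZFSet.{u}} {v : ZFSet.{u}} (hT : Tower Y v) {x : ZFSet.{u}}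
    (hx : x ∈ NN v) : ∃ a, a ⊆ v ∧ ∃ γ, Cd (NN v) (powerset v) γ a x := by
  have := Code_trans_powerset hT
  have := Hull_univ.{u}.zfm
  refine cd_total hT (isZFModel_constr Hull_univ.powerSet trivial) (fun a ha => ?_) ?_
  · exact ⟨∅, trivial, isOrdinal_empty, base_subset_level _ (mem_powerset.2 ha)⟩
  · rw [constr_constr Hull_univ trivial]
    exact hx

theorem Code_subset_dcl {X B : Set ZFSet.{u}} (hBX : B ⊆ X) : B ⊆ Dcl X B :=
  fun b hb => ⟨hBX hb, .eq 0 1, fun _ => b, fun _ => hb, fun _ _ => Iff.rfl⟩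

/-- Definable parameters can be replaced by parameters from the base. -/
theorem Code_elim_list {X B : Set ZFSet.{u}} (hBX : B ⊆ X) {v : ZFSet.{u}} (hv : v ∈ B) (n : ℕ) :
    ∀ l : List ℕ, l.length = n → ∀ (φ : Fml) (e : Env.{u}), (∀ i, e i ∈ Dcl X B) →
      (∀ i, i ∉ l → e i ∈ B) → ∃ (ψ : Fml) (e' : Env.{u}), (∀ i, e' i ∈ B) ∧
        ∀ y ∈ X, (Sat X φ (cons y e) ↔ Sat X ψ (cons y e')) := by
  induction n with
  | zero =>
    intro l hl φ e _ h
    obtain rfl := List.length_eq_zero_iff.1 hl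
    exact ⟨φ, e, fun i => h i (by simp), fun _ _ => Iff.rfl⟩
  | succ n ih =>
    intro l hl φ e he h
    obtain ⟨k, l, rfl⟩ := List.exists_cons_of_length_eq_add_one hl
    obtain ⟨hk, θ, d, hd, hθ⟩ := he k
    let e2 : Env.{u} := fun i =>
      if i % 2 = 0 then (if i / 2 = k then v else e (i / 2)) else d (i / 2)
    let f : ℕ → ℕ := fun i => match i with | 0 => 0 | i + 1 => 2 * i + 1 + 1 + 1
    let g : ℕ → ℕ := fun i => match i with
      | 0 => 1
      | i + 1 => if i = k then 0 else 2 * i + 1 + 1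
    obtain ⟨ψ, e', h1, h2⟩ := ih (l.map (2 * ·)) (by simpa using hl)
      (.neg (.all (.neg (.and (θ.rename f) (φ.rename g))))) e2 (fun i => by
        simp only [e2]
        split_ifs
        exacts [Code_subset_dcl hBX hv, he _, Code_subset_dcl hBX (hd _)]) (fun i hi => by
        simp only [e2]
        split_ifs with h3 h4
        · exact hv
        · refine h _ fun h5 => ?_
          rcases List.mem_cons.1 h5 with h5 | h5
          · exact h4 h5
          · exact hi (List.mem_map.2 ⟨_, h5, by omega⟩)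
        · exact hd _)
    refine ⟨ψ, e', h1, fun y hy => Iff.trans ?_ (h2 y hy)⟩
    have hf : ∀ z, (fun i => cons z (cons y e2) (f i)) = cons z d := by
      intro z
      funext i
      rcases i with _ | i
      · rfl
      · have h3 : ¬ (2 * i + 1) % 2 = 0 := by omega
        have h4 : (2 * i + 1) / 2 = i := by omega
        simp only [f, cons_succ, e2, if_neg h3, h4]
    have hg : (fun i => cons (e k) (cons y e2) (g i)) = cons y e := by
      funext i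
      rcases i with _ | i
      · rfl
      · by_cases h5 : i = k
        · simp only [g, h5, if_true, cons_zero, cons_succ]
        · have h3 : (2 * i) % 2 = 0 := by omega
          have h4 : (2 * i) / 2 = i := by omega
          simp only [g, if_neg h5, cons_succ, e2, if_pos h3, h4]
    simp only [Sat, sat_rename, hf]
    constructor
    · intro H H'
      exact H' _ hk ⟨(hθ _ hk).2 rfl, hg ▸ H⟩
    · intro H
      by_contra H'
      refine H fun z hz hz' => ?_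
      obtain rfl := (hθ z hz).1 hz'.1
      exact H' (hg ▸ hz'.2)

theorem Code_elim {X B : Set ZFSet.{u}} (hBX : B ⊆ X) {v : ZFSet.{u}} (hv : v ∈ B) (φ : Fml)
    (e : Env.{u}) (he : ∀ i, e i ∈ Dcl X B) : ∃ (ψ : Fml) (e' : Env.{u}), (∀ i, e' i ∈ B) ∧
      ∀ y ∈ X, (Sat X φ (cons y e) ↔ Sat X ψ (cons y e')) := by
  obtain ⟨n, hn⟩ := sat_finite X φ
  obtain ⟨ψ, e', h1, h2⟩ := Code_elim_list hBX hv _ (List.range n) rfl φ
    (fun i => if i < n then e i else v) (fun i => by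
      split_ifs
      exacts [he i, Code_subset_dcl hBX hv]) (fun i hi => by
      rw [if_neg fun h => hi (List.mem_range.2 h)]
      exact hv)
  refine ⟨ψ, e', h1, fun y hy => Iff.trans (hn _ _ ?_) (h2 y hy)⟩
  rintro (_ | i) hi
  · rfl
  · simp only [cons_succ, if_pos (show i < n by omega)]

/-- `γ` is the least ordinal that codes a counterexample to `ψ`. -/
def Code_Min (M : Set ZFSet.{u}) (ψ : Fml) (v γ : ZFSet.{u}) (e : Env.{u}) : Prop :=
  ∀ γ' ∈ γ, ∀ a ∈ pow M v, ∀ x ∈ M, Cd M (pow M v) γ' a x → Sat M ψ (cons x e)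

theorem Code_zd_sat (ψ : Fml) (k n : ℕ) :
    ZD.{u} (fun M e => Sat M ψ (cons (e k) fun i => e (i + n))) :=
  ((ZD.sat.{u} ψ).rename (fun i => match i with | 0 => k | i + 1 => i + n)).congr
    fun _ _ e _ => iff_of_eq (congrArg _ (funext fun i => by cases i <;> rfl))

theorem Code_zd_min (ψ : Fml) (a b n : ℕ) :
    ZD.{u} (fun M e => Code_Min M ψ (e a) (e b) fun i => e (i + n)) := by
  have h1 : ZD.{u} (fun M e => Sat M ψ (cons (e 0) fun i => e (i + n + 1 + 1 + 1))) :=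
    Code_zd_sat ψ 0 (n + 3)
  unfold Code_Min
  infer_instance

theorem dcl_elem {Y : ℕ → ZFSet.{u}} {v : ZFSet.{u}} (hT : Tower Y v) {X : Set ZFSet.{u}}
    (hX : IsZFModel X) (hsub : ∀ a, a ⊆ v → a ∈ X) (hL : ∀ x ∈ X, x ∈ constr X (powerset v))
    {B : Set ZFSet.{u}} (hB : ∀ b ∈ B, b ⊆ v) (hv : v ∈ B)
    (wit : ∀ (φ : Fml) (e : Env.{u}), (∀ i, e i ∈ B) → (∃ a, a ⊆ v ∧ Sat X φ (cons a e)) →
      ∃ a ∈ B, Sat X φ (cons a e)) :
    B ⊆ Dcl X B ∧ powerset v ∈ Dcl X B ∧ (∀ x ∈ Dcl X B, x ⊆ v → x ∈ B) ∧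
      ∀ (φ : Fml) (e : Env.{u}), (∀ i, e i ∈ Dcl X B) → (Sat (Dcl X B) φ e ↔ Sat X φ e) := by
  have hBX : B ⊆ X := fun b hb => hsub b (hB b hb)
  have hp : pow X v = powerset v := pow_eq hsub
  refine ⟨Code_subset_dcl hBX, ⟨Code_powerset_mem hX hsub, ?_⟩, ?_,
    Hull_tv_elem (fun x hx => hx.1) ?_⟩
  · obtain ⟨φ, hφ⟩ := (inferInstance : ZD.{u} (fun M e => e 0 = pow M (e 1))).out
    refine ⟨φ, fun _ => v, fun _ => hv, fun y hy => ?_⟩
    rw [← hφ X hX _ (cons_mem hy fun _ => hBX hv), ← hp]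
    exact Iff.rfl
  · rintro x ⟨hx, φ, e, he, h⟩ hxv
    obtain ⟨a, ha, h1⟩ := wit φ e he ⟨x, hxv, (h x hx).2 rfl⟩
    exact (h a (hBX ha)).1 h1 ▸ ha
  · intro φ e0 he0 hex
    obtain ⟨ψ, e, he, hψ⟩ := Code_elim hBX hv φ e0 he0
    have heX : ∀ i, e i ∈ X := fun i => hBX (he i)
    have h1 : ∃ γ, ∃ a, a ⊆ v ∧ ∃ x ∈ X, Cd X (pow X v) γ a x ∧ ¬ Sat X ψ (cons x e) := by
      obtain ⟨x, hx, h⟩ := hex
      obtain ⟨a, ha, γ, hc⟩ := cd_total hT hX hsub (hL x hx)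
      exact ⟨γ, a, ha, x, hx, hp ▸ hc, mt (hψ x hx).2 h⟩
    obtain ⟨γ0, ⟨a0, ha0, x0, hx0, hc0, hn0⟩, hmin⟩ := mem_wf.has_min _ h1
    have hm0 : Code_Min X ψ v γ0 e := fun γ' hγ' a ha x hx hc => by
      by_contra h
      exact hmin γ' ⟨a, (mem_pow.1 ha).1, x, hx, hc, h⟩ hγ'
    have i1 : ZD.{u} (fun M e => Sat M ψ (cons (e 0) fun i => e (i + 1 + 1 + 1 + 1))) :=
      Code_zd_sat ψ 0 4
    have i2 : ZD.{u} (fun M e => Code_Min M ψ (e 3) (e 1) fun i => e (i + 1 + 1 + 1 + 1)) :=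
      Code_zd_min ψ 3 1 4
    obtain ⟨χ, hχ⟩ := (inferInstance : ZD.{u} (fun M e => ∃ γ ∈ M, ∃ x ∈ M,
      Cd M (pow M (e 1)) γ (e 0) x ∧ ¬ Sat M ψ (cons x fun i => e (i + 1 + 1)) ∧
        Code_Min M ψ (e 1) γ fun i => e (i + 1 + 1))).out
    obtain ⟨a, ha, h2⟩ := wit χ (cons v e) (cons_mem hv he) ⟨a0, ha0,
      (hχ X hX _ (cons_mem (hsub _ ha0) (cons_mem (hBX hv) heX))).1
        ⟨γ0, (hc0.mem hX).1, x0, hx0, hc0, hn0, hm0⟩⟩
    obtain ⟨γ, hγ, x, hx, hc, hn, hm⟩ :=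
      (hχ X hX _ (cons_mem (hBX ha) (cons_mem (hBX hv) heX))).2 h2
    refine ⟨x, ⟨hx, ?_⟩, mt (hψ x hx).1 hn⟩
    have i3 : ZD.{u} (fun M e => Sat M ψ (cons (e 1) fun i => e (i + 1 + 1 + 1 + 1))) :=
      Code_zd_sat ψ 1 4
    have i4 : ZD.{u} (fun M e => Code_Min M ψ (e 3) (e 0) fun i => e (i + 1 + 1 + 1 + 1)) :=
      Code_zd_min ψ 3 0 4
    obtain ⟨θ, hθ⟩ := (inferInstance : ZD.{u} (fun M e => ∃ γ ∈ M,
      Cd M (pow M (e 2)) γ (e 1) (e 0) ∧ ¬ Sat M ψ (cons (e 0) fun i => e (i + 1 + 1 + 1)) ∧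
        Code_Min M ψ (e 2) γ fun i => e (i + 1 + 1 + 1))).out
    refine ⟨θ, cons a (cons v e), cons_mem ha (cons_mem hv he), fun y hy => ?_⟩
    rw [← hθ X hX _ (cons_mem hy (cons_mem (hBX ha) (cons_mem (hBX hv) heX)))]
    have hap : a ∈ pow X v := mem_pow.2 ⟨hB a ha, hBX ha⟩
    constructor
    · rintro ⟨δ, -, hc', hn', hm'⟩
      rcases hc.ordinal.mem_trichotomous hc'.ordinal with h | h | h
      · exact (hn (hm' γ h a hap x hx hc)).elim
      · subst h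
        exact hc'.unique hc
      · exact (hn' (hm δ h a hap y hy hc')).elim
    · rintro rfl
      exact ⟨γ, hγ, hc, hn, hm⟩

end Pool.Agent.P.MP_37b794_lc.I0
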