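import Pool.Agent.P.MP_37b794_lc.I0.Lim
import Pool.Agent.P.MP_37b794_lc.I0.Hull
import Pool.Agent.P.MP_37b794_lc.I0.Code

/-!
Over a least level all inverse limits with the same parameter have the same theory.
-/

universe u

set_option synthInstance.maxSize 16384

namespace Pool.Agent.P.MP_37b794_lc.I0

open ZFSet Pool.Agent.Lib.Forcing Pool.Agent.P.MP_af0a18_lc

/-- The collapse of the definable hull of a set `B` that is closed under witnesses. -/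
theorem ag_hull {X v : ZFSet.{u}} {W : ℕ → ZFSet.{u}} (hB : Base (X : Set ZFSet.{u}) W v)
    (hX : ZFLevel (powerset v) X) {B : Set ZFSet.{u}} (h1 : ∀ b ∈ B, b ⊆ v) (hv : v ∈ B)
    (wit : ∀ (φ : Fml) (e : Env.{u}), (∀ i, e i ∈ B) →
      (∃ a, a ⊆ v ∧ Sat (X : Set ZFSet.{u}) φ (cons a e)) →
      ∃ a ∈ B, Sat (X : Set ZFSet.{u}) φ (cons a e)) :
    ∃ (Y b : ZFSet.{u}) (c σ : ZFSet.{u} → ZFSet.{u}),
      Elem (Y : Set ZFSet.{u}) X (Y : Set ZFSet.{u}) σ ∧ ZFLevel b Y ∧ b.IsTransitive ∧ ∅ ∈ b ∧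
      σ b = powerset v ∧ (∀ x ∈ B, c x ∈ Y ∧ σ (c x) = x) ∧
      (∀ z, z ∈ b ↔ ∃ y ∈ B, c y = z) ∧
      ∀ x ∈ B, ∀ z, z ∈ c x ↔ ∃ y ∈ B, y ∈ x ∧ c y = z := by
  obtain ⟨d1, d2, d3, d4⟩ := dcl_elem hB.tower hB.model hB.sub hX.2.2 h1 hv wit
  obtain ⟨c, hc⟩ := exists_collapse (Dcl (X : Set ZFSet.{u}) B)
  obtain ⟨σ, e1, e2, e3⟩ := exists_collapse_elem hB.model (fun x hx => hx.1) ⟨_, d2⟩ d4 hc
  have hY : ((img c (X.sep fun x => x ∈ Dcl (X : Set ZFSet.{u}) B) : ZFSet.{u}) :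
      Set ZFSet.{u}) = c '' Dcl (X : Set ZFSet.{u}) B := by
    ext z
    simp only [SetLike.mem_coe, mem_img, mem_sep, Set.mem_image]
    exact ⟨fun ⟨y, hy, h⟩ => ⟨y, hy.2, h⟩, fun ⟨y, hy, h⟩ => ⟨y, ⟨hy.1, hy⟩, h⟩⟩
  have hA : c (powerset v) ∈ c '' Dcl (X : Set ZFSet.{u}) B := ⟨_, d2, rfl⟩
  refine ⟨img c (X.sep fun x => x ∈ Dcl (X : Set ZFSet.{u}) B), c (powerset v), c, σ,
    hY ▸ e1, ⟨hY ▸ e3, ?_, ?_⟩, ?_, ?_, e2 _ d2, fun x hx => ⟨?_, e2 _ (d1 hx)⟩, ?_, ?_⟩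
  · rw [← SetLike.mem_coe, hY]; exact hA
  · intro x hx
    rw [← SetLike.mem_coe, hY] at hx
    rw [hY, e1.zd2 e3 hB.model (fun M a b => a ∈ constr M b) hx hA, e2 _ d2]
    exact hX.2.2 _ (e1.maps _ hx)
  · rw [e1.zd1 e3 hB.model (fun _ a => a.IsTransitive) hA, e2 _ d2]
    exact fun x hx y hy => mem_powerset.2 (hB.tower.sub_of_mem (mem_powerset.1 hx hy))
  · rw [e1.zd1 e3 hB.model (fun _ a => ∅ ∈ a) hA, e2 _ d2]
    exact mem_powerset.2 (empty_subset _)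
  · rw [← SetLike.mem_coe, hY]; exact ⟨_, d1 hx, rfl⟩
  · intro z
    rw [hc]
    exact ⟨fun ⟨y, h2, h3, h4⟩ => ⟨y, d3 y h3 (mem_powerset.1 h2), h4⟩,
      fun ⟨y, h2, h3⟩ => ⟨y, mem_powerset.2 (h1 y h2), d1 h2, h3⟩⟩
  · intro x hx z
    rw [hc]
    exact ⟨fun ⟨y, h2, h3, h4⟩ => ⟨y, d3 y h3 (hB.tower.sub_of_mem (h1 x hx h2)), h2, h4⟩,
      fun ⟨y, h2, h3, h4⟩ => ⟨y, h3, d1 h2, h4⟩⟩

/-- A collapsed hull is not an element of another one over the same base. -/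
theorem ag_notMem {X A v τ Y Y' b cv cτ : ZFSet.{u}} {σ σ' : ZFSet.{u} → ZFSet.{u}} {χ : Fml}
    (hXm : IsZFModel (X : Set ZFSet.{u}))
    (h1 : Sat (X : Set ZFSet.{u}) χ (cons v fun _ => τ))
    (h2 : ∀ x ∈ X, ZFLevel A x → ¬ Sat (x : Set ZFSet.{u}) χ (cons v fun _ => τ))
    (hσ : Elem (Y : Set ZFSet.{u}) X (Y : Set ZFSet.{u}) σ) (hY : ZFLevel b Y)
    (hσ' : Elem (Y' : Set ZFSet.{u}) X (Y' : Set ZFSet.{u}) σ') (hY' : ZFLevel b Y')
    (hb : σ' b = A) (m1 : cv ∈ Y) (m2 : cτ ∈ Y) (s1 : σ cv = v) (s2 : σ cτ = τ)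
    (s1' : σ' cv = v) (s2' : σ' cτ = τ) : Y ∉ Y' := by
  intro hm
  have hz : ZD.{u} (fun _ e => Sat (e 0 : Set ZFSet.{u}) χ (cons (e 1) fun _ => e 2)) :=
    ((ZD.satSet χ).rename (fun i => match i with | 0 => 0 | 1 => 1 | _ + 2 => 2)).congr
      fun _ _ e _ => iff_of_eq (congrArg _ (funext fun i => by cases i <;> rfl))
  have t1 := hY'.1.transitive _ hm _ m1
  have t2 := hY'.1.transitive _ hm _ m2
  have k1 : Sat (Y : Set ZFSet.{u}) χ (cons cv fun _ => cτ) := by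
    rw [hσ.sat χ _ (cons_mem m1 fun _ => m2)]
    convert h1 using 2 with i
    cases i
    exacts [s1, s2]
  have k2 := (hσ'.zd3 hY'.1 hXm
    (fun _ x a t => Sat (x : Set ZFSet.{u}) χ (cons a fun _ => t)) hm t1 t2).1 k1
  have k3 := (hσ'.zd2 hY'.1 hXm (fun _ a x => ZFLevel a x) hY'.2.1 hm).1 hY
  rw [s1', s2'] at k2
  rw [hb] at k3
  exact h2 _ (hσ'.maps _ hm) k3 k2

/-- Two maps with closed ranges that preserve membership have the same theory. -/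
theorem ag_two {X v τ : ZFSet.{u}} {W : ℕ → ZFSet.{u}} (hB : Base (X : Set ZFSet.{u}) W v)
    (hX : ZFLevel (powerset v) X) (χ : Fml)
    (h1 : Sat (X : Set ZFSet.{u}) χ (cons v fun _ => τ))
    (h2 : ∀ x ∈ X, ZFLevel (powerset v) x → ¬ Sat (x : Set ZFSet.{u}) χ (cons v fun _ => τ))
    {s : Set ZFSet.{u}} {F F' : ZFSet.{u} → ZFSet.{u}}
    (f1 : ∀ a ∈ s, F a ⊆ v) (f1' : ∀ a ∈ s, F' a ⊆ v)
    (f2 : ∀ a ∈ s, ∀ b ∈ s, (F a ∈ F b ↔ a ∈ b)) (f2' : ∀ a ∈ s, ∀ b ∈ s, (F' a ∈ F' b ↔ a ∈ b))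
    (f3 : ∀ (φ : Fml) (e : Env.{u}), (∀ i, e i ∈ s) →
      (∃ a, a ⊆ v ∧ Sat (X : Set ZFSet.{u}) φ (cons a fun i => F (e i))) →
      ∃ a ∈ s, Sat (X : Set ZFSet.{u}) φ (cons (F a) fun i => F (e i)))
    (f3' : ∀ (φ : Fml) (e : Env.{u}), (∀ i, e i ∈ s) →
      (∃ a, a ⊆ v ∧ Sat (X : Set ZFSet.{u}) φ (cons a fun i => F' (e i))) →
      ∃ a ∈ s, Sat (X : Set ZFSet.{u}) φ (cons (F' a) fun i => F' (e i)))
    {av aτ : ZFSet.{u}} (hv : av ∈ s) (hτ : aτ ∈ s) (v1 : F av = v) (v2 : F' av = v)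
    (t1 : F aτ = τ) (t2 : F' aτ = τ) (φ : Fml) {e : Env.{u}} (he : ∀ i, e i ∈ s) :
    Sat (X : Set ZFSet.{u}) φ (fun i => F (e i)) ↔
      Sat (X : Set ZFSet.{u}) φ (fun i => F' (e i)) := by
  have aux : ∀ G : ZFSet.{u} → ZFSet.{u}, (∀ (φ : Fml) (e : Env.{u}), (∀ i, e i ∈ s) →
      (∃ a, a ⊆ v ∧ Sat (X : Set ZFSet.{u}) φ (cons a fun i => G (e i))) →
      ∃ a ∈ s, Sat (X : Set ZFSet.{u}) φ (cons (G a) fun i => G (e i))) →
      ∀ (φ : Fml) (e : Env.{u}), (∀ i, e i ∈ G '' s) →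
      (∃ a, a ⊆ v ∧ Sat (X : Set ZFSet.{u}) φ (cons a e)) →
      ∃ a ∈ G '' s, Sat (X : Set ZFSet.{u}) φ (cons a e) := by
    intro G hG φ e he h
    choose e' h3 h4 using he
    obtain rfl : e = fun i => G (e' i) := funext fun i => (h4 i).symm
    obtain ⟨a, ha, h5⟩ := hG φ e' h3 h
    exact ⟨_, ⟨a, ha, rfl⟩, h5⟩
  obtain ⟨Y, b, c, σ, a1, a2, a3, a4, a5, a6, a7, a8⟩ := ag_hull hB hX (B := F '' s)
    (by rintro _ ⟨a, ha, rfl⟩; exact f1 a ha) ⟨av, hv, v1⟩ (aux F f3)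
  obtain ⟨Y', b', c', σ', b1, b2, -, -, b5, b6, b7, b8⟩ := ag_hull hB hX (B := F' '' s)
    (by rintro _ ⟨a, ha, rfl⟩; exact f1' a ha) ⟨av, hv, v2⟩ (aux F' f3')
  have key : ∀ a, a ∈ s → c (F a) = c' (F' a) := by
    intro a
    induction a using ZFSet.inductionOn with
    | h a ih =>
      intro ha
      ext z
      rw [a8 _ ⟨a, ha, rfl⟩, b8 _ ⟨a, ha, rfl⟩]
      constructor
      · rintro ⟨_, ⟨d, hd, rfl⟩, h3, rfl⟩
        have h4 := (f2 d hd a ha).1 h3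
        exact ⟨_, ⟨d, hd, rfl⟩, (f2' d hd a ha).2 h4, (ih d h4 hd).symm⟩
      · rintro ⟨_, ⟨d, hd, rfl⟩, h3, rfl⟩
        have h4 := (f2' d hd a ha).1 h3
        exact ⟨_, ⟨d, hd, rfl⟩, (f2 d hd a ha).2 h4, ih d h4 hd⟩
  obtain rfl : b = b' := by
    ext z
    rw [a7, b7]
    constructor
    · rintro ⟨_, ⟨d, hd, rfl⟩, rfl⟩
      exact ⟨_, ⟨d, hd, rfl⟩, (key d hd).symm⟩
    · rintro ⟨_, ⟨d, hd, rfl⟩, rfl⟩
      exact ⟨_, ⟨d, hd, rfl⟩, key d hd⟩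
  have g : ∀ a ∈ s, c (F a) ∈ Y ∧ σ (c (F a)) = F a := fun a ha => a6 _ ⟨a, ha, rfl⟩
  have g' : ∀ a ∈ s, c (F a) ∈ Y' ∧ σ' (c (F a)) = F' a := fun a ha =>
    key a ha ▸ b6 _ ⟨a, ha, rfl⟩
  rcases ZFLevel.trichotomy a3 a4 a2 b2 with h | h | h
  · exact (ag_notMem hB.model h1 h2 a1 a2 b1 b2 b5 (g av hv).1 (g aτ hτ).1 ((g av hv).2.trans v1)
      ((g aτ hτ).2.trans t1) ((g' av hv).2.trans v2) ((g' aτ hτ).2.trans t2) h).elim
  · subst h
    have k1 := a1.sat φ (fun i => c (F (e i))) fun i => (g _ (he i)).1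
    have k2 := b1.sat φ (fun i => c (F (e i))) fun i => (g _ (he i)).1
    simp only [fun i => (g _ (he i)).2] at k1
    simp only [fun i => (g' _ (he i)).2] at k2
    exact k1.symm.trans k2
  · exact (ag_notMem hB.model h1 h2 b1 b2 a1 a2 a5 (g' av hv).1 (g' aτ hτ).1
      ((g' av hv).2.trans v2) ((g' aτ hτ).2.trans t2) ((g av hv).2.trans v1)
      ((g aτ hτ).2.trans t1) h).elim

section
variable {X : Set ZFSet.{u}} {W U : ℕ → ZFSet.{u}} {v : ZFSet.{u}}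

/-- `K'` and `s'` contain witnesses for all finite tasks over `K` and `s`. -/
def AgWit (X : Set ZFSet.{u}) (v : ZFSet.{u}) (U : ℕ → ZFSet.{u})
    (K K' : ℕ → ZFSet.{u} → ZFSet.{u}) (s s' : Set ZFSet.{u}) : Prop :=
  (∀ a ∈ s, push K' U a 0 = push K U a 0) ∧
    ∀ (φ : Fml) (e : Env.{u}), (∀ i, e i ∈ s) →
      (∃ a, a ⊆ v ∧ Sat X φ (cons a fun i => push K U (e i) 0)) →
      ∃ a ∈ s', Sat X φ (cons (push K' U a 0) fun i => push K U (e i) 0)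

theorem ag_pull {K : ℕ → ZFSet.{u} → ZFSet.{u}} (hK : Adm X W v K U) (hB : Base X W v) (φ : Fml)
    (e : Env.{u}) (h : ∃ a, a ⊆ v ∧ Sat X φ (cons a fun i => push K U (e i) 0)) (n : ℕ) :
    ∃ a, a ⊆ v ∧ Sat X φ (cons a fun i => push K U (e i) n) := by
  induction n with
  | zero => exact h
  | succ n ih =>
    rw [← (hK.step n).pr.sat_ex hB φ (e := fun i => push K U (e i) (n + 1))
      fun i => hK.push_sub hB _ _]
    simpa only [hK.push_step hB] using ih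

theorem ag_step {K : ℕ → ZFSet.{u} → ZFSet.{u}} (hK : Adm X W v K U) (hB : Base X W v)
    {s : Set ZFSet.{u}} (hs : s.Countable) (hne : s.Nonempty) (hsub : ∀ a ∈ s, a ⊆ iUnion U) :
    ∃ K' s', Adm X W v K' U ∧ s ⊆ s' ∧ s'.Countable ∧ (∀ a ∈ s', a ⊆ iUnion U) ∧
      AgWit X v U K K' s s' := by
  classical
  obtain ⟨n, hn⟩ := hK.lev 1
  obtain ⟨a0, ha0⟩ := hne
  have := hs.to_subtype
  have : Nonempty (Fml × List s) := ⟨⟨.eq 0 0, []⟩⟩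
  obtain ⟨f, hf⟩ := exists_surjective_nat (Fml × List s)
  let en : Fml × List s → Env.{u} := fun t i => (t.2.getD i ⟨a0, ha0⟩ : s)
  have hw : ∀ t : Fml × List s, ∃ a, a ⊆ v ∧
      ((∃ a, a ⊆ v ∧ Sat X t.1 (cons a fun i => push K U (en t i) 0)) →
        Sat X t.1 (cons a fun i => push K U (en t i) n)) := by
    intro t
    by_cases h : ∃ a, a ⊆ v ∧ Sat X t.1 (cons a fun i => push K U (en t i) 0)
    · obtain ⟨a, h1, h2⟩ := ag_pull hK hB _ _ h n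
      exact ⟨a, h1, fun _ => h2⟩
    · exact ⟨∅, empty_subset _, fun h' => (h h').elim⟩
  choose w hw1 hw2 using hw
  obtain ⟨K', bb, hK', -, h3, -, h5⟩ := hK.ext hB hn hs
    (hB.tower.seqc_subset (a := fun m => w (f m)) fun m => hw1 _)
  let a : ℕ → ZFSet.{u} := fun m => iUnion fun i => sec (push K' U bb i) (nat m) ∩ U i
  have ha : ∀ m i, push K' U (a m) i = sec (push K' U bb i) (nat m) := by
    intro m i
    refine hK'.thread_eq_push hB (t := fun i => sec (push K' U bb i) (nat m))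
      (fun i => hB.tower.sec_subset (hK'.push_sub hB _ _) _) (fun i => ?_) i
    rw [(hK'.step i).pr.map_sec hB (hK'.push_sub hB _ _)
      (hB.tower.sub_of_mem (hB.tower.nat_mem m)), hK'.push_step hB, (hK'.step i).pr.map_nat hB]
  refine ⟨K', s ∪ Set.range a, hK', Set.subset_union_left, hs.union (Set.countable_range a), ?_,
    fun b hb => h3 b hb 0, fun φ e he h => ?_⟩
  · rintro b (hb | ⟨m, rfl⟩)
    · exact hsub b hb
    · intro z hz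
      obtain ⟨i, hi⟩ := mem_iUnion.1 hz
      exact mem_iUnion.2 ⟨i, (mem_inter.1 hi).2⟩
  · obtain ⟨k, hk⟩ := sat_finite X φ
    obtain ⟨m, hm⟩ := hf (φ, List.ofFn fun i : Fin k => (⟨e i, he i⟩ : s))
    have e1 : ∀ i < k, en (f m) i = e i := by
      intro i hi
      simp [en, hm, List.getD_eq_getElem?_getD, hi]
    have e2 : ∀ (x : ZFSet.{u}) (l : ℕ), Sat X φ (cons x fun i => push K U (en (f m) i) l) ↔
        Sat X φ (cons x fun i => push K U (e i) l) := by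
      intro x l
      refine hk _ _ fun i hi => ?_
      cases i with
      | zero => rfl
      | succ i => exact congrArg (fun y => push K U y l) (e1 i (by omega))
    have e3 : (f m).1 = φ := by rw [hm]
    have e4 := hw2 (f m) (by
      rw [e3]
      obtain ⟨x, h1, h2⟩ := h
      exact ⟨x, h1, (e2 x 0).2 h2⟩)
    rw [e3, e2] at e4
    refine ⟨a m, Or.inr ⟨m, rfl⟩, ?_⟩
    have e5 := hK'.push_sat hB φ (cons (a m) e) n
    have e6 : ∀ l, (fun i => push K' U (cons (a m) e i) l) =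
        cons (push K' U (a m) l) fun i => push K U (e i) l := by
      intro l
      funext i
      cases i with
      | zero => rfl
      | succ i => exact h3 _ (he i) l
    rw [e6, e6, ha m n, h5, sec_seqc] at e5
    exact e5.1 e4

/-- The limit map of a chain of extensions. -/
theorem ag_limit (hB : Base X W v) {K : ℕ → ℕ → ZFSet.{u} → ZFSet.{u}} {s : ℕ → Set ZFSet.{u}}
    (hK : ∀ n, Adm X W v (K n) U) (hs : ∀ n, s n ⊆ s (n + 1))
    (hsub : ∀ n, ∀ a ∈ s n, a ⊆ iUnion U) (hw : ∀ n, AgWit X v U (K n) (K (n + 1)) (s n) (s (n + 1)))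
    (hne : (s 0).Nonempty) :
    ∃ F : ZFSet.{u} → ZFSet.{u}, (∀ a ∈ s 0, F a = push (K 0) U a 0) ∧
      (∀ a ∈ ⋃ n, s n, F a ⊆ v) ∧ (∀ a ∈ ⋃ n, s n, ∀ b ∈ ⋃ n, s n, (F a ∈ F b ↔ a ∈ b)) ∧
      ∀ (φ : Fml) (e : Env.{u}), (∀ i, e i ∈ ⋃ n, s n) →
        (∃ a, a ⊆ v ∧ Sat X φ (cons a fun i => F (e i))) →
        ∃ a ∈ ⋃ n, s n, Sat X φ (cons (F a) fun i => F (e i)) := by
  classical
  have hmono : Monotone s := monotone_nat_of_le_succ hs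
  have hag : ∀ m n, m ≤ n → ∀ a ∈ s m, push (K n) U a 0 = push (K m) U a 0 := by
    intro m n hmn a ha
    induction n, hmn using Nat.le_induction with
    | base => rfl
    | succ n hmn ih => rw [(hw n).1 a (hmono hmn ha), ih]
  let F : ZFSet.{u} → ZFSet.{u} := fun a =>
    if h : ∃ n, a ∈ s n then push (K (Nat.find h)) U a 0 else ∅
  have hF : ∀ n, ∀ a ∈ s n, F a = push (K n) U a 0 := by
    intro n a ha
    have h : ∃ n, a ∈ s n := ⟨n, ha⟩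
    simp only [F, dif_pos h]
    exact (hag _ _ (Nat.find_min' h ha) a (Nat.find_spec h)).symm
  refine ⟨F, hF 0, fun a ha => ?_, fun a ha b hb => ?_, fun φ e he h => ?_⟩
  · obtain ⟨n, hn⟩ := Set.mem_iUnion.1 ha
    rw [hF n a hn]
    exact (hK n).push_sub hB _ _
  · obtain ⟨m, hm⟩ := Set.mem_iUnion.1 ha
    obtain ⟨n, hn⟩ := Set.mem_iUnion.1 hb
    have h1 := hmono (le_max_left m n) hm
    have h2 := hmono (le_max_right m n) hn
    rw [hF _ a h1, hF _ b h2]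
    exact (hK _).push_mem_iff hB (hsub _ a h1) (hsub _ b h2)
  · obtain ⟨k, hk⟩ := sat_finite X φ
    obtain ⟨a0, ha0⟩ := hne
    choose g hg using fun i => Set.mem_iUnion.1 (he i)
    let n := (Finset.range k).sup g
    let e' : Env.{u} := fun i => if i < k then e i else a0
    have he' : ∀ i, e' i ∈ s n := by
      intro i
      simp only [e']
      split_ifs with hi
      · exact hmono (Finset.le_sup (f := g) (Finset.mem_range.2 hi)) (hg i)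
      · exact hmono (Nat.zero_le _) ha0
    have e2 : ∀ x : ZFSet.{u}, Sat X φ (cons x fun i => F (e i)) ↔
        Sat X φ (cons x fun i => push (K n) U (e' i) 0) := by
      intro x
      refine hk _ _ fun i hi => ?_
      cases i with
      | zero => rfl
      | succ i =>
        show F (e i) = push (K n) U (e' i) 0
        rw [← hF n _ (he' i)]
        simp only [e', if_pos (show i < k by omega)]
    obtain ⟨a, ha, h1⟩ := (hw n).2 φ e' he' (by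
      obtain ⟨x, h1, h2⟩ := h
      exact ⟨x, h1, (e2 x).1 h2⟩)
    refine ⟨a, Set.mem_iUnion.2 ⟨n + 1, ha⟩, ?_⟩
    rw [e2, hF _ a ha]
    exact h1

end

theorem all_good {X v τ τb : ZFSet.{u}} {W U : ℕ → ZFSet.{u}} {J : ℕ → ZFSet.{u} → ZFSet.{u}}
    (hB : Base (X : Set ZFSet.{u}) W v) (hX : ZFLevel (powerset v) X) (χ : Fml)
    (h1 : Sat (X : Set ZFSet.{u}) χ (cons v fun _ => τ))
    (h2 : ∀ x ∈ X, ZFLevel (powerset v) x → ¬ Sat (x : Set ZFSet.{u}) χ (cons v fun _ => τ))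
    (hJ : Adm (X : Set ZFSet.{u}) W v J U) (hτ : push J U τb 0 = τ) :
    GoodAt (X : Set ZFSet.{u}) W v J U {τb} := by
  intro K hK hKJ φ e
  have hτ' : push K U τb 0 = τ := (hKJ τb rfl).trans hτ
  let St : Type (u + 1) := {p : (ℕ → ZFSet.{u} → ZFSet.{u}) × (ℕ → ZFSet.{u} → ZFSet.{u}) ×
    Set ZFSet.{u} // Adm (X : Set ZFSet.{u}) W v p.1 U ∧ Adm (X : Set ZFSet.{u}) W v p.2.1 U ∧
      p.2.2.Countable ∧ p.2.2.Nonempty ∧ ∀ a ∈ p.2.2, a ⊆ iUnion U}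
  have step : ∀ p : St, ∃ q : St, p.1.2.2 ⊆ q.1.2.2 ∧
      AgWit (X : Set ZFSet.{u}) v U p.1.1 q.1.1 p.1.2.2 q.1.2.2 ∧
      AgWit (X : Set ZFSet.{u}) v U p.1.2.1 q.1.2.1 p.1.2.2 q.1.2.2 := by
    rintro ⟨⟨K1, K2, s⟩, a1, a2, a3, a4, a5⟩
    obtain ⟨K1', s1, b1, b2, b3, b4, b5⟩ := ag_step a1 hB a3 a4 a5
    obtain ⟨K2', s2, c1, c2, c3, c4, c5⟩ := ag_step a2 hB a3 a4 a5
    refine ⟨⟨⟨K1', K2', s1 ∪ s2⟩, b1, c1, b3.union c3, a4.mono (b2.trans Set.subset_union_left),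
      fun a ha => ha.elim (b4 a) (c4 a)⟩, b2.trans Set.subset_union_left,
      ⟨b5.1, fun φ e he h => ?_⟩, ⟨c5.1, fun φ e he h => ?_⟩⟩
    · obtain ⟨a, ha, h'⟩ := b5.2 φ e he h
      exact ⟨a, Or.inl ha, h'⟩
    · obtain ⟨a, ha, h'⟩ := c5.2 φ e he h
      exact ⟨a, Or.inr ha, h'⟩
  choose nx n1 n2 n3 using step
  let e0 : Env.{u} := cons (iUnion U) (cons (τb ∩ iUnion U) fun i => e i ∩ iUnion U)
  have he0 : ∀ a ∈ Set.range e0, a ⊆ iUnion U := by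
    rintro _ ⟨i, rfl⟩
    rcases i with _ | _ | i
    exacts [subset_rfl, fun z hz => (mem_inter.1 hz).2, fun z hz => (mem_inter.1 hz).2]
  let p0 : St := ⟨⟨K, J, Set.range e0⟩, hK, hJ, Set.countable_range _, Set.range_nonempty _, he0⟩
  let p : ℕ → St := fun n => nx^[n] p0
  have hp : ∀ n, p (n + 1) = nx (p n) := fun n => Function.iterate_succ_apply' _ _ _
  have hs : ∀ n, (p n).1.2.2 ⊆ (p (n + 1)).1.2.2 := fun n => hp n ▸ n1 (p n)
  obtain ⟨F, f0, f1, f2, f3⟩ := ag_limit hB (K := fun n => (p n).1.1) (s := fun n => (p n).1.2.2)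
    (fun n => (p n).2.1) hs (fun n => (p n).2.2.2.2.2) (fun n => hp n ▸ n2 (p n))
    (p 0).2.2.2.2.1
  obtain ⟨F', g0, g1, g2, g3⟩ := ag_limit hB (K := fun n => (p n).1.2.1)
    (s := fun n => (p n).1.2.2) (fun n => (p n).2.2.1) hs (fun n => (p n).2.2.2.2.2)
    (fun n => hp n ▸ n3 (p n)) (p 0).2.2.2.2.1
  have m0 : ∀ i, e0 i ∈ ⋃ n, (p n).1.2.2 := fun i => Set.mem_iUnion.2 ⟨0, i, rfl⟩
  have f0' : ∀ i, F (e0 i) = push K U (e0 i) 0 := fun i => f0 _ ⟨i, rfl⟩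
  have g0' : ∀ i, F' (e0 i) = push J U (e0 i) 0 := fun i => g0 _ ⟨i, rfl⟩
  have := ag_two hB hX χ h1 h2 f1 g1 f2 g2 f3 g3 (m0 0) (m0 1)
    ((f0' 0).trans (hK.push_top hB 0)) ((g0' 0).trans (hJ.push_top hB 0))
    ((f0' 1).trans ((hK.push_bar hB _ 0).trans hτ')) ((g0' 1).trans ((hJ.push_bar hB _ 0).trans hτ))
    φ (e := fun i => e0 (i + 2)) fun i => m0 _
  have k1 : ∀ i, F (e0 (i + 2)) = push K U (e i) 0 := fun i =>
    (f0' _).trans (hK.push_bar hB _ 0)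
  have k2 : ∀ i, F' (e0 (i + 2)) = push J U (e i) 0 := fun i =>
    (g0' _).trans (hJ.push_bar hB _ 0)
  simpa only [k1, k2] using this

end Pool.Agent.P.MP_37b794_lc.I0
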