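import Pool.Agent.P.MP_37b794_lc.I0.Defs

/-!
Cardinality lemmas, transfinite dependent choice and the Baire lemma.
-/

universe u

set_option synthInstance.maxSize 16384

namespace Pool.Agent.P.MP_37b794_lc.I0

open ZFSet Pool.Agent.Lib.Forcing Pool.Agent.P.MP_af0a18_lc

/-! ### Cardinality -/

theorem card_le_iff_surj {x T : ZFSet.{u}} :
    x.card ≤ T.card ↔ ∃ g : ZFSet.{u} → ZFSet.{u}, ∀ y ∈ x, ∃ t ∈ T, g t = y := by
  classical
  rw [← Cardinal.lift_le.{u + 1}, ← cardinalMk_coe_sort, ← cardinalMk_coe_sort, Cardinal.le_def]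
  constructor
  · rintro ⟨e⟩
    refine ⟨fun t => if h : ∃ y : x, (e y : ZFSet.{u}) = t then (h.choose : ZFSet.{u}) else ∅,
      fun y hy => ⟨e ⟨y, hy⟩, (e ⟨y, hy⟩).2, ?_⟩⟩
    have h : ∃ y' : x, (e y' : ZFSet.{u}) = e ⟨y, hy⟩ := ⟨⟨y, hy⟩, rfl⟩
    simp only [dif_pos h]
    have := e.injective (Subtype.ext h.choose_spec)
    exact congrArg Subtype.val this
  · rintro ⟨g, hg⟩
    choose t ht hgt using hg
    refine ⟨⟨fun y => ⟨t y.1 y.2, ht y.1 y.2⟩, fun y y' h => Subtype.ext ?_⟩⟩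
    have h' : t y.1 y.2 = t y'.1 y'.2 := congrArg Subtype.val h
    rw [← hgt y.1 y.2, h', hgt y'.1 y'.2]

theorem Card_of_fn {x T f : ZFSet.{u}} (hf : Fn f) (h : ∀ y ∈ x, ∃ t ∈ T, pair t y ∈ f) :
    x.card ≤ T.card := by
  classical
  refine card_le_iff_surj.2 ⟨fun t => if h : ∃ y, pair t y ∈ f then h.choose else ∅,
    fun y hy => ?_⟩
  obtain ⟨t, ht, hty⟩ := h y hy
  have h' : ∃ y, pair t y ∈ f := ⟨y, hty⟩
  refine ⟨t, ht, ?_⟩
  simp only [dif_pos h']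
  exact hf t _ h'.choose_spec y hty

theorem card_le_iff_fn {x T : ZFSet.{u}} :
    x.card ≤ T.card ↔ ∃ f, f ⊆ T.prod x ∧ Fn f ∧ ∀ y ∈ x, ∃ t ∈ T, pair t y ∈ f := by
  refine ⟨fun h => ?_, fun ⟨f, _, hf, h⟩ => Card_of_fn hf h⟩
  obtain ⟨g, hg⟩ := card_le_iff_surj.1 h
  refine ⟨(T.prod x).sep fun p => ∃ t, p = pair t (g t), fun p hp => (mem_sep.1 hp).1, ?_, ?_⟩
  · intro a b hab c hac
    obtain ⟨t, ht⟩ := (mem_sep.1 hab).2
    obtain ⟨t', ht'⟩ := (mem_sep.1 hac).2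
    obtain ⟨rfl, rfl⟩ := pair_inj.1 ht
    obtain ⟨rfl, rfl⟩ := pair_inj.1 ht'
    rfl
  · intro y hy
    obtain ⟨t, ht, rfl⟩ := hg y hy
    exact ⟨t, ht, mem_sep.2 ⟨pair_mem_prod.2 ⟨ht, hy⟩, t, rfl⟩⟩

theorem surj_univ_iff {x T : ZFSet.{u}} : Surj Set.univ T x ↔ x.card ≤ T.card := by
  refine ⟨fun ⟨r, _, hr, h⟩ => Card_of_fn hr h, fun h => ?_⟩
  obtain ⟨f, -, hf, h⟩ := card_le_iff_fn.1 h
  exact ⟨f, trivial, hf, h⟩

theorem card_prod (a b : ZFSet.{u}) : (a.prod b).card = a.card * b.card := by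
  rw [← Cardinal.lift_inj.{u, u + 1}, Cardinal.lift_mul, ← cardinalMk_coe_sort,
    ← cardinalMk_coe_sort, ← cardinalMk_coe_sort, Cardinal.mul_def]
  symm
  refine Cardinal.mk_congr (Equiv.ofBijective
    (fun p => ⟨pair p.1.1 p.2.1, pair_mem_prod.2 ⟨p.1.2, p.2.2⟩⟩) ⟨?_, ?_⟩)
  · rintro ⟨⟨x, hx⟩, ⟨y, hy⟩⟩ ⟨⟨x', hx'⟩, ⟨y', hy'⟩⟩ h
    obtain ⟨rfl, rfl⟩ := pair_inj.1 (congrArg Subtype.val h)
    rfl
  · rintro ⟨p, hp⟩
    obtain ⟨x, hx, y, hy, rfl⟩ := mem_prod.1 hp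
    exact ⟨(⟨x, hx⟩, ⟨y, hy⟩), rfl⟩

theorem card_img_le (f : ZFSet.{u} → ZFSet.{u}) (a : ZFSet.{u}) : (img f a).card ≤ a.card :=
  card_le_iff_surj.2 ⟨f, fun _ hy => mem_img.1 hy⟩

theorem card_omega : omega.{u}.card = Cardinal.aleph0 := by
  rw [omega_eq, Ordinal.card_toZFSet, Ordinal.card_omega0]

theorem card_prod_le {a b : ZFSet.{u}} {c : Cardinal.{u}} (hc : Cardinal.aleph0 ≤ c)
    (ha : a.card ≤ c) (hb : b.card ≤ c) : (a.prod b).card ≤ c := by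
  rw [card_prod]
  exact (mul_le_mul' ha hb).trans (Cardinal.mul_eq_self hc).le

theorem card_sUnion_img_le {I : ZFSet.{u}} {f : ZFSet.{u} → ZFSet.{u}} {c : Cardinal.{u}}
    (hc : Cardinal.aleph0 ≤ c) (hI : I.card ≤ c) (hf : ∀ i ∈ I, (f i).card ≤ c) :
    (⋃₀ img f I : ZFSet.{u}).card ≤ c := by
  classical
  have hT : (c.ord.toZFSet).card = c := by rw [Ordinal.card_toZFSet, Cardinal.card_ord]
  have h1 : ∀ i, ∃ g : ZFSet.{u} → ZFSet.{u}, i ∈ I → ∀ y ∈ f i, ∃ t ∈ c.ord.toZFSet, g t = y := by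
    intro i
    by_cases hi : i ∈ I
    · obtain ⟨g, hg⟩ := card_le_iff_surj.1 ((hf i hi).trans hT.ge)
      exact ⟨g, fun _ => hg⟩
    · exact ⟨id, fun h => (hi h).elim⟩
  choose g hg using h1
  refine le_trans (card_le_iff_surj.2 ?_) (card_prod_le hc hI hT.le)
  refine ⟨fun p => if h : ∃ q : ZFSet.{u} × ZFSet.{u}, p = pair q.1 q.2 then
    g h.choose.1 h.choose.2 else ∅, fun y hy => ?_⟩
  obtain ⟨z, hz, hyz⟩ := mem_sUnion.1 hy
  obtain ⟨i, hi, rfl⟩ := mem_img.1 hz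
  obtain ⟨t, ht, rfl⟩ := hg i hi y hyz
  refine ⟨pair i t, pair_mem_prod.2 ⟨hi, ht⟩, ?_⟩
  have h : ∃ q : ZFSet.{u} × ZFSet.{u}, pair i t = pair q.1 q.2 := ⟨(i, t), rfl⟩
  simp only [dif_pos h]
  obtain ⟨h1, h2⟩ := pair_inj.1 h.choose_spec
  rw [← h1, ← h2]

theorem mem_Theta {T x : ZFSet.{u}} : x ∈ Theta T ↔ x.IsOrdinal ∧ x.card ≤ T.card := by
  rw [Theta, Ordinal.mem_toZFSet_iff]
  constructor
  · rintro ⟨a, ha, rfl⟩
    refine ⟨isOrdinal_toZFSet a, ?_⟩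
    rw [Ordinal.card_toZFSet]
    exact Order.lt_succ_iff.1 (Cardinal.lt_ord.1 ha)
  · rintro ⟨hx, hc⟩
    refine ⟨x.rank, Cardinal.lt_ord.2 (Order.lt_succ_iff.2 ?_), hx.toZFSet_rank_eq⟩
    rwa [← Ordinal.card_toZFSet, hx.toZFSet_rank_eq]

theorem isOrdinal_Theta (T : ZFSet.{u}) : (Theta T).IsOrdinal := isOrdinal_toZFSet _

theorem insert_mem_Theta {T x : ZFSet.{u}} (hT : Cardinal.aleph0 ≤ T.card) (hx : x ∈ Theta T) :
    insert x x ∈ Theta T := by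
  obtain ⟨ho, hc⟩ := mem_Theta.1 hx
  refine mem_Theta.2 ⟨isOrdinal_succ ho, card_insert_le.trans ?_⟩
  exact (add_le_add hc le_rfl).trans (Cardinal.add_one_eq hT).le

theorem sUnion_img_mem_Theta {T I : ZFSet.{u}} {f : ZFSet.{u} → ZFSet.{u}}
    (hT : Cardinal.aleph0 ≤ T.card) (hI : I.card ≤ T.card) (hf : ∀ i ∈ I, f i ∈ Theta T) :
    (⋃₀ img f I : ZFSet.{u}) ∈ Theta T := by
  refine mem_Theta.2 ⟨?_, card_sUnion_img_le hT hI fun i hi => (mem_Theta.1 (hf i hi)).2⟩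
  have ho : ∀ z ∈ img f I, z.IsOrdinal := fun z hz => by
    obtain ⟨i, hi, rfl⟩ := mem_img.1 hz
    exact (mem_Theta.1 (hf i hi)).1
  refine isOrdinal_iff_forall_mem_isOrdinal.2
    ⟨IsTransitive.sUnion' fun z hz => (ho z hz).isTransitive, fun y hy => ?_⟩
  obtain ⟨z, hz, hyz⟩ := mem_sUnion.1 hy
  exact (ho z hz).mem hyz

theorem isOrdinal_ords {X : ZFSet.{u}} (hX : X.IsTransitive) : (ords X).IsOrdinal := by
  refine isOrdinal_iff_forall_mem_isOrdinal.2 ⟨fun y hy z hz => ?_, fun y hy => (mem_sep.1 hy).2⟩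
  obtain ⟨h1, h2⟩ := mem_sep.1 hy
  exact mem_sep.2 ⟨hX.subset_of_mem h1 hz, h2.mem hz⟩

/-! ### Dependent choice along a well-founded relation and the Baire lemma -/

theorem tdc {ι α : Type*} [Nonempty α] (r : ι → ι → Prop) (hr : WellFounded r)
    (le : α → α → Prop) (P : ι → α → Prop)
    (H : ∀ (i : ι) (q : ι → α), (∀ l, r l i → P l (q l)) →
      (∀ l l', r l l' → r l' i → le (q l) (q l')) → ∃ x, P i x ∧ ∀ l, r l i → le (q l) x) :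
    ∃ q : ι → α, (∀ i, P i (q i)) ∧ ∀ l i, r l i → le (q l) (q i) := by
  classical
  let F : ∀ i, (∀ l, r l i → α) → α := fun i g =>
    Classical.epsilon fun x => P i x ∧ ∀ l (h : r l i), le (g l h) x
  let q : ι → α := hr.fix F
  have hq : ∀ i, q i = Classical.epsilon fun x => P i x ∧ ∀ l, r l i → le (q l) x := fun i =>
    hr.fix_eq F i
  have key : ∀ i, P i (q i) ∧ ∀ l, r l i → le (q l) (q i) := by
    intro i
    induction i using hr.induction with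
    | _ i ih =>
      have hex := H i q (fun l hl => (ih l hl).1) fun l l' h1 h2 => (ih l' h2).2 l h1
      have := Classical.epsilon_spec hex
      rwa [← hq i] at this
  exact ⟨q, fun i => (key i).1, fun l i h => (key i).2 l h⟩

theorem baire {α : Type*} {Q : α → Prop} {le : α → α → Prop} (hrefl : ∀ a, le a a)
    (htrans : ∀ a b c, le a b → le b c → le a c) {c : Cardinal.{u}} (hcl : Clo Q le c)
    {I : ZFSet.{u}} (hI : I.card ≤ c) (D : ZFSet.{u} → α → Prop)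
    (hD : ∀ i ∈ I, ∀ p, Q p → ∃ q, Q q ∧ le p q ∧ D i q) {p : α} (hp : Q p) :
    ∃ q, Q q ∧ le p q ∧ ∀ i ∈ I, ∃ r, Q r ∧ D i r ∧ le p r ∧ le r q := by
  have : Nonempty α := ⟨p⟩
  have bound : ∀ (J : ZFSet.{u}) (f : ZFSet.{u} → α), J.card ≤ c →
      (∀ i ∈ J, Q (f i) ∧ le p (f i)) →
      (∀ i ∈ J, ∀ i' ∈ J, le (f i) (f i') ∨ le (f i') (f i)) →
      ∃ q, Q q ∧ le p q ∧ ∀ i ∈ J, le (f i) q := by
    intro J f hJ h1 h2
    by_cases hne : ∃ i, i ∈ J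
    · obtain ⟨i, hi⟩ := hne
      obtain ⟨q, hq, hq'⟩ := hcl J f hJ (fun i hi => (h1 i hi).1) h2
      exact ⟨q, hq, htrans _ _ _ (h1 i hi).2 (hq' i hi), hq'⟩
    · exact ⟨p, hp, hrefl p, fun i hi => (hne ⟨i, hi⟩).elim⟩
  have hwf : WellFounded fun l i : ZFSet.{u} => l ∈ I ∧ i ∈ I ∧ WellOrderingRel l i :=
    Subrelation.wf (fun h => h.2.2) (IsWellFounded.wf (r := WellOrderingRel))
  obtain ⟨q, hq, hle⟩ := tdc _ hwf le (fun i x => i ∈ I → Q x ∧ D i x ∧ le p x) (by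
    intro i q h1 h2
    by_cases hi : i ∈ I
    · obtain ⟨x, hx, hpx, hx'⟩ := bound (I.sep fun l => WellOrderingRel l i) q
        ((card_mono fun l hl => (mem_sep.1 hl).1).trans hI)
        (fun l hl => by
          obtain ⟨hl1, hl2⟩ := mem_sep.1 hl
          exact ⟨(h1 l ⟨hl1, hi, hl2⟩ hl1).1, (h1 l ⟨hl1, hi, hl2⟩ hl1).2.2⟩)
        (fun l hl l' hl' => by
          obtain ⟨hl1, hl2⟩ := mem_sep.1 hl
          obtain ⟨hl1', hl2'⟩ := mem_sep.1 hl'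
          rcases trichotomous_of WellOrderingRel l l' with h | rfl | h
          · exact Or.inl (h2 l l' ⟨hl1, hl1', h⟩ ⟨hl1', hi, hl2'⟩)
          · exact Or.inl (hrefl _)
          · exact Or.inr (h2 l' l ⟨hl1', hl1, h⟩ ⟨hl1, hi, hl2⟩))
      obtain ⟨y, hy, hxy, hDy⟩ := hD i hi x hx
      exact ⟨y, fun _ => ⟨hy, hDy, htrans _ _ _ hpx hxy⟩,
        fun l hl => htrans _ _ _ (hx' l (mem_sep.2 ⟨hl.1, hl.2.2⟩)) hxy⟩
    · exact ⟨p, fun h => (hi h).elim, fun l hl => (hi hl.2.1).elim⟩)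
  obtain ⟨x, hx, hpx, hx'⟩ := bound I q hI (fun i hi => ⟨(hq i hi).1, (hq i hi).2.2⟩)
    (fun l hl l' hl' => by
      rcases trichotomous_of WellOrderingRel l l' with h | rfl | h
      · exact Or.inl (hle l l' ⟨hl, hl', h⟩)
      · exact Or.inl (hrefl _)
      · exact Or.inr (hle l' l ⟨hl', hl, h⟩))
  exact ⟨x, hx, hpx, fun i hi => ⟨q i, (hq i hi).1, (hq i hi).2.1, (hq i hi).2.2, hx' i hi⟩⟩

end Pool.Agent.P.MP_37b794_lc.I0
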