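import Pool.Agent.P.MP_37b794_lc.I0.Pres
import Pool.Agent.Lib.Constructible.ZRec

/-!
The hierarchy of maps that have roots.
-/

universe u

set_option synthInstance.maxSize 16384

namespace Pool.Agent.P.MP_37b794_lc.I0

open ZFSet Pool.Agent.Lib.Forcing Pool.Agent.P.MP_af0a18_lc

theorem Lev.pres {X : Set ZFSet.{u}} {A v : ZFSet.{u}} {n : ℕ} {k : ZFSet.{u} → ZFSet.{u}}
    (h : Lev X A v n k) : Pres X A v k := by
  induction n with
  | zero => exact h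
  | succ n ih => exact ih h.1

theorem Lev.mono {X : Set ZFSet.{u}} {A v : ZFSet.{u}} {m n : ℕ} {k : ZFSet.{u} → ZFSet.{u}}
    (h : Lev X A v n k) (hmn : m ≤ n) : Lev X A v m k := by
  induction hmn with
  | refl => exact h
  | step _ ih => exact ih h.1

theorem Lev.congr {X : Set ZFSet.{u}} {W : ℕ → ZFSet.{u}} {v : ZFSet.{u}} (hB : Base X W v) {n : ℕ}
    {k k' : ZFSet.{u} → ZFSet.{u}} (h : Lv X v n k) (hk : ∀ a, a ⊆ v → k' a = k a) :
    Lv X v n k' := by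
  induction n with
  | zero =>
    exact ⟨h.elem.congr fun x hx => hk x (mem_powerset.1 hx),
      fun a ha => hk a (mem_powerset.1 ha) ▸ h.maps a ha, (hk v subset_rfl).trans h.fix⟩
  | succ n ih =>
    refine ⟨ih h.1, fun a ha b hb w hw h1 h2 => ?_⟩
    rw [hk a (mem_powerset.1 ha)]
    exact h.2 a ha b hb w hw ((hk w (mem_powerset.1 hw)).symm.trans h1) fun x hx =>
      (hk x (hB.tower.sub_of_mem (mem_powerset.1 hw hx))).symm.trans (h2 x hx)

theorem Root_elem_iff {X A : ZFSet.{u}} {k : ZFSet.{u} → ZFSet.{u}} :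
    Elem (X : Set ZFSet.{u}) X (A : Set ZFSet.{u}) k ↔ A = ∅ ∨ ElemOn X A k := by
  constructor
  · intro h
    exact (eq_empty_or_nonempty A).imp_right fun h0 => ⟨h.sub, h0, h.maps, h.sat⟩
  · rintro (rfl | h)
    · exact ⟨fun x hx => (notMem_empty x hx).elim, fun x hx => (notMem_empty x hx).elim,
        fun _ e he => (notMem_empty _ (he 0)).elim⟩
    · exact ⟨h.1, h.2.2.1, h.2.2.2⟩

theorem zd_lev (n : ℕ) :
    ZD.{u} (fun _ e => Lev (e 0 : Set ZFSet.{u}) (e 1) (e 2) n (app (e 3))) := by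
  induction n with
  | zero =>
    have h0 : ZT.{u} (fun _ e => app (e 4) (e 0)) := inferInstance
    have h1 : ZTm.{u} (fun _ e => app (e (3 + 1)) (e 0)) := ⟨h0.mem, ⟨h0.df.out⟩⟩
    have h2 : ZD.{u} (fun _ e => ElemOn (e 0) (e 1) (app (e 3))) :=
      ⟨(@ZDf.elemOn (fun _ e => e 0) (fun _ e => e 1) _ _ (fun _ x e => app (e 3) x) h1).out⟩
    refine (inferInstance : ZD.{u} (fun _ e => (e 1 = ∅ ∨ ElemOn (e 0) (e 1) (app (e 3))) ∧
      (∀ a ∈ e 1, app (e 3) a ∈ e 1) ∧ app (e 3) (e 2) = e 2)).congr fun _ _ e _ => ?_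
    exact ⟨fun h => ⟨Root_elem_iff.2 h.1, h.2.1, h.2.2⟩,
      fun h => ⟨Root_elem_iff.1 h.elem, h.maps, h.fix⟩⟩
  | succ n ih =>
    have h1 : ZD.{u} (fun _ e => Lev (e (0 + 1 + 1 + 1 + 1) : Set ZFSet.{u}) (e (1 + 1 + 1 + 1 + 1))
        (e (2 + 1 + 1 + 1 + 1)) n (app (e 0))) :=
      ih.rename (fun i => match i with | 0 => 4 | 1 => 5 | 2 => 6 | _ => 0)
    exact (inferInstance : ZD.{u} (fun _ e => Lev (e 0 : Set ZFSet.{u}) (e 1) (e 2) n (app (e 3)) ∧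
      ∀ a ∈ e 1, ∀ b ∈ e 1, ∀ w ∈ e 1, app (e 3) w = w → (∀ x ∈ w, app (e 3) x = x) →
      ∃ g ∈ e 1, Lev (e 0 : Set ZFSet.{u}) (e 1) (e 2) n (app g) ∧ app g a = app (e 3) a ∧
        (∃ c ∈ e 1, app g c = b) ∧ ∀ x ∈ w, app g x = x))

theorem lev_j {j : ZFSet.{u} → ZFSet.{u}} {W : ℕ → ZFSet.{u}} {v X : ZFSet.{u}} (hj : Ctx j W v)
    (hB : Base (X : Set ZFSet.{u}) W v) (hX : X ∈ NN v) (hjX : j X = X) (n : ℕ) :
    Lv (X : Set ZFSet.{u}) v n j := by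
  have hN := hj.tower.model_NN
  have hA : ∀ a ∈ powerset v, a ∈ NN v := fun a ha => hj.tower.mem_NN (mem_powerset.1 ha)
  induction n with
  | zero =>
    refine ⟨⟨fun a ha => hB.sub a (mem_powerset.1 ha),
      fun a ha => hB.sub _ (hj.pr.sub hj.base (mem_powerset.1 ha)), fun φ e he => ?_⟩,
      hj.pr.maps, hj.jv⟩
    have := hj.elem.zd hN hN _ (hR := ZD.satSet φ) (cons X e) (cons_mem hX fun i => hA _ (he i))
    simpa only [cons_zero, cons_succ, hjX] using this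
  | succ n ih =>
    refine ⟨ih, fun a ha b hb w hw h1 h2 => ?_⟩
    have h3 : ZD.{u} (fun _ e => Lev (e (0 + 1) : Set ZFSet.{u}) (e (1 + 1))
        (e (2 + 1)) n (app (e 0))) :=
      (zd_lev n).rename (fun i => match i with | 0 => 1 | 1 => 2 | 2 => 3 | _ => 0)
    have h4 := hj.elem.zd hN hN (fun _ e => ∃ g ∈ e 1,
      Lev (e 0 : Set ZFSet.{u}) (e 1) (e 2) n (app g) ∧ app g (e 3) = e 4 ∧
        (∃ c ∈ e 1, app g c = e 5) ∧ ∀ x ∈ e 6, app g x = x)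
      (cons X (cons (powerset v) (cons v (cons a (cons (j a) (cons b fun _ => w))))))
      (cons_mem hX (cons_mem hj.tower.powerset_mem_NN (cons_mem (hj.tower.mem_NN subset_rfl)
        (cons_mem (hA a ha) (cons_mem (hA _ (hj.pr.maps a ha)) (cons_mem (hA b hb)
          fun _ => hA w hw))))))
    refine h4.2 ?_
    show ∃ g ∈ j (powerset v), Lev (j X : Set ZFSet.{u}) (j (powerset v)) (j v) n (app g) ∧
      app g (j a) = j (j a) ∧ (∃ c ∈ j (powerset v), app g c = j b) ∧ ∀ x ∈ j w, app g x = x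
    rw [hj.jA, hjX, hj.jv, h1]
    have h5 : ∀ a, a ⊆ v → app (graph j v) a = j a := fun a ha => hj.pr.app_graph hj.base ha
    exact ⟨graph j v, mem_powerset.2 (hj.pr.graph_subset hj.base), Lev.congr hB ih h5,
      h5 _ (mem_powerset.1 (hj.pr.maps a ha)), ⟨b, hb, h5 b (mem_powerset.1 hb)⟩, fun x hx =>
        (h5 x (hj.tower.sub_of_mem (mem_powerset.1 hw hx))).trans (h2 x hx)⟩

theorem exists_root {X : Set ZFSet.{u}} {W : ℕ → ZFSet.{u}} {v : ZFSet.{u}} (hB : Base X W v)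
    {n : ℕ} {k : ZFSet.{u} → ZFSet.{u}} (hk : Lv X v (n + 1) k) (a b : ℕ → ZFSet.{u})
    (ha : ∀ i, a i ⊆ v) (hb : ∀ i, b i ⊆ v) {w : ZFSet.{u}} (hw : w ⊆ v) (h1 : k w = w)
    (h2 : ∀ x ∈ w, k x = x) :
    ∃ k', Lv X v n k' ∧ (∀ i, k' (a i) = k (a i)) ∧ (∀ i, ∃ c, c ⊆ v ∧ k' c = b i) ∧
      ∀ x ∈ w, k' x = x := by
  have hT := hB.tower
  obtain ⟨g, -, h3, h4, ⟨c, hc, h5⟩, h6⟩ := hk.2 _ (mem_powerset.2 (hT.seqc_subset ha)) _
    (mem_powerset.2 (hT.seqc_subset hb)) w (mem_powerset.2 hw) h1 h2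
  have hn : ∀ i, nat.{u} i ⊆ v := fun i => hT.sub_of_mem (hT.nat_mem i)
  have hg : Pr X v (app g) := h3.pres
  have hk' : Pr X v k := hk.pres
  refine ⟨app g, h3, fun i => ?_, fun i => ⟨sec c (nat i), hT.sec_subset (mem_powerset.1 hc) _, ?_⟩,
    h6⟩
  · rw [← sec_seqc a i, hg.map_sec hB (hT.seqc_subset ha) (hn i),
      hk'.map_sec hB (hT.seqc_subset ha) (hn i), h4, hg.map_nat hB, hk'.map_nat hB]
  · rw [hg.map_sec hB (mem_powerset.1 hc) (hn i), h5, hg.map_nat hB, sec_seqc]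

theorem Step.root {X : Set ZFSet.{u}} {W : ℕ → ZFSet.{u}} {v c c' : ZFSet.{u}} (hB : Base X W v)
    {n : ℕ} {k : ZFSet.{u} → ZFSet.{u}} (hs : Step X W v c c' k) (hc : c ∈ v) (hc' : c' ∈ v)
    (hk : Lv X v (n + 1) k) (a b : ℕ → ZFSet.{u}) (ha : ∀ i, a i ⊆ v) (hb : ∀ i, b i ⊆ v) :
    ∃ k', Step X W v c c' k' ∧ Lv X v n k' ∧ (∀ i, k' (a i) = k (a i)) ∧
      ∀ i, ∃ d, d ⊆ v ∧ k' d = b i := by
  have hT := hB.tower
  let a' : ℕ → ZFSet.{u} := fun i => if i = 0 then c' else if i % 2 = 0 then W (i / 2 - 1)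
    else a (i / 2)
  obtain ⟨k', h1, h2, h3, h4⟩ := exists_root hB hk a' b (fun i => by
      simp only [a']
      split_ifs
      exacts [hT.sub_of_mem hc', hT.Y_subset _, ha _]) hb
    (hT.sub_of_mem (hT.powerset_mem hc))
    (by rw [hs.pr.map_powerset hB hc, hs.fix c subset_rfl])
    fun x hx => hs.fix x (mem_powerset.1 hx)
  refine ⟨k', ⟨h1.pres, fun x hx => h4 x (mem_powerset.2 hx), ?_, fun m => ?_⟩, h1, fun i => ?_, h3⟩
  · exact (h2 0).trans hs.top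
  · have h5 : a' (2 * (m + 1)) = W m := by
      simp only [a']
      rw [if_neg (by omega), if_pos (by omega)]
      congr 1
      omega
    rw [← hs.shift m, ← h5]
    exact h2 _
  · have h5 : a' (2 * i + 1) = a i := by
      simp only [a']
      rw [if_neg (by omega), if_neg (by omega)]
      congr 1
      omega
    rw [← h5]
    exact h2 _

end Pool.Agent.P.MP_37b794_lc.I0
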