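import Pool.Agent.P.MP_37b794_lc.I0.Push
import Pool.Agent.P.MP_37b794_lc.I0.Root

/-!
Extension of inverse systems and witnesses.
-/

universe u

set_option synthInstance.maxSize 16384

namespace Pool.Agent.P.MP_37b794_lc.I0

open ZFSet Pool.Agent.Lib.Forcing Pool.Agent.P.MP_af0a18_lc

variable {X : Set ZFSet.{u}} {W U : ℕ → ZFSet.{u}} {v : ZFSet.{u}}
  {K K' : ℕ → ZFSet.{u} → ZFSet.{u}}

namespace Adm
variable (hK : Adm X W v K U) (hB : Base X W v)
include hK hB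

theorem exists_lev {n : ℕ} (h1 : ∀ i, n ≤ i → Lv X v 1 (K i)) :
    ∃ l : ℕ → ℕ, (∀ i, n ≤ i → Lv X v (l i + 1) (K i)) ∧ ∀ m, ∃ i0, ∀ i, i0 ≤ i → m ≤ l i := by
  classical
  refine ⟨fun i => Nat.findGreatest (fun m => Lv X v (m + 1) (K i)) i, fun i hi => ?_, fun m => ?_⟩
  · exact Nat.findGreatest_spec (P := fun m => Lv X v (m + 1) (K i)) (Nat.zero_le i) (h1 i hi)
  · obtain ⟨i0, h⟩ := hK.lev (m + 1)
    exact ⟨max i0 m, fun i hi => Nat.le_findGreatest (le_of_max_le_right hi)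
      (h i (le_of_max_le_left hi))⟩

theorem ext {n : ℕ} (h1 : ∀ i, n ≤ i → Lv X v 1 (K i)) {s : Set ZFSet.{u}} (hs : s.Countable)
    {b : ZFSet.{u}} (hb : b ⊆ v) :
    ∃ K' bb, Adm X W v K' U ∧ (∀ i < n, K' i = K i) ∧
      (∀ a ∈ s, ∀ i, push K' U a i = push K U a i) ∧ bb ⊆ iUnion U ∧ push K' U bb n = b := by
  classical
  obtain ⟨l, hl, hl'⟩ := hK.exists_lev hB h1
  obtain ⟨f, hf⟩ := (hs.insert ∅).exists_eq_range (Set.insert_nonempty _ _)
  have H : ∀ (i : ℕ) (c : ZFSet.{u}), ∃ (k : ZFSet.{u} → ZFSet.{u}) (d : ZFSet.{u}),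
      n ≤ i → c ⊆ v → Step X W v (U i) (U (i + 1)) k ∧ Lv X v (l i) k ∧
        (∀ m, k (push K U (f m) (i + 1)) = K i (push K U (f m) (i + 1))) ∧ d ⊆ v ∧ k d = c := by
    intro i c
    by_cases h : n ≤ i ∧ c ⊆ v
    · obtain ⟨k, a1, a2, a3, a4⟩ := Step.root hB (hK.step i) (hK.U_mem_v hB i)
        (hK.U_mem_v hB (i + 1)) (hl i h.1) (fun m => push K U (f m) (i + 1)) (fun _ => c)
        (fun m => hK.push_sub hB _ _) (fun _ => h.2)
      obtain ⟨d, a5, a6⟩ := a4 0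
      exact ⟨k, d, fun _ _ => ⟨a1, a2, a3, a5, a6⟩⟩
    · exact ⟨id, ∅, fun a1 a2 => absurd ⟨a1, a2⟩ h⟩
  choose kk dd H using H
  let t : ℕ → ZFSet.{u} := fun m => Nat.rec b (fun m c => dd (n + m) c) m
  have ht : ∀ m, t m ⊆ v := by
    intro m
    induction m with
    | zero => exact hb
    | succ m ih => exact (H (n + m) (t m) (Nat.le_add_right _ _) ih).2.2.2.1
  let K' : ℕ → ZFSet.{u} → ZFSet.{u} := fun i => if i < n then K i else kk i (t (i - n))
  have e1 : ∀ i < n, K' i = K i := fun i hi => if_pos hi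
  have e2 : ∀ i, n ≤ i → K' i = kk i (t (i - n)) := fun i hi => if_neg (not_lt.2 hi)
  have hK' : Adm X W v K' U := by
    refine ⟨fun i => ?_, hK.mem, hK.trans, fun m => ?_⟩
    · rcases lt_or_ge i n with hi | hi
      · rw [e1 i hi]; exact hK.step i
      · rw [e2 i hi]; exact (H i _ hi (ht _)).1
    · obtain ⟨i0, h⟩ := hl' m
      refine ⟨max i0 n, fun i hi => ?_⟩
      rw [e2 i (le_of_max_le_right hi)]
      exact Lev.mono (H i _ (le_of_max_le_right hi) (ht _)).2.1 (h i (le_of_max_le_left hi))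
  let T : ℕ → ZFSet.{u} := fun i => ar K' (fun i => t (i - n)) (n - i) i
  have hT : ∀ i, T i ⊆ v := fun i => ar_sub hB (fun i => (hK'.step i).pr) (fun i => ht _) _ _
  have hT1 : ∀ i, n ≤ i → T i = t (i - n) := by
    intro i hi
    simp only [T, Nat.sub_eq_zero_of_le hi, ar]
  have hT2 : ∀ i, K' i (T (i + 1)) = T i := by
    intro i
    rcases lt_or_ge i n with hi | hi
    · have : n - i = n - (i + 1) + 1 := by omega
      simp only [T, this, ar]
    · obtain ⟨m, rfl⟩ := Nat.exists_eq_add_of_le hi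
      rw [hT1 _ hi, hT1 _ (by omega), e2 _ hi, show n + m + 1 - n = m + 1 by omega,
        Nat.add_sub_cancel_left]
      exact (H (n + m) (t m) hi (ht m)).2.2.2.2
  refine ⟨K', iUnion fun i => T i ∩ U i, hK', e1, fun a ha => ?_, fun z hz => ?_, ?_⟩
  · obtain ⟨m, rfl⟩ : a ∈ Set.range f := hf ▸ Set.mem_insert_of_mem _ ha
    refine hK.push_congr hB hK' fun i => ?_
    rcases lt_or_ge i n with hi | hi
    · rw [e1 i hi]
    · rw [e2 i hi]; exact (H i _ hi (ht _)).2.2.1 m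
  · obtain ⟨i, hi⟩ := mem_iUnion.1 hz
    exact mem_iUnion.2 ⟨i, (mem_inter.1 hi).2⟩
  · rw [hK'.thread_eq_push hB hT hT2, hT1 n le_rfl, Nat.sub_self]
    rfl

theorem wit {s : Set ZFSet.{u}} (hs : s.Countable) (φ : Fml) {e : Env.{u}} (he : ∀ i, e i ∈ s)
    (h : ∃ a, a ⊆ v ∧ Sat X φ (cons a fun i => push K U (e i) 0)) :
    ∃ K' bb, Adm X W v K' U ∧ (∀ a ∈ s, push K' U a 0 = push K U a 0) ∧ bb ⊆ iUnion U ∧
      Sat X φ (cons (push K' U bb 0) fun i => push K U (e i) 0) := by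
  obtain ⟨n, h1⟩ := hK.lev 1
  have H : ∀ m, ∃ a, a ⊆ v ∧ Sat X φ (cons a fun i => push K U (e i) m) := by
    intro m
    induction m with
    | zero => exact h
    | succ m ih =>
      refine ((hK.step m).pr.sat_ex hB φ fun i => hK.push_sub hB (e i) (m + 1)).1 ?_
      simpa only [hK.push_step hB] using ih
  obtain ⟨a, ha, hφ⟩ := H n
  obtain ⟨K', bb, hK', -, h2, h3, h4⟩ := hK.ext hB h1 hs ha
  have E : ∀ m, (fun i => push K' U (cons bb e i) m) =
      cons (push K' U bb m) fun i => push K U (e i) m := by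
    intro m
    funext i
    cases i with
    | zero => rfl
    | succ i => exact h2 _ (he i) m
  refine ⟨K', bb, hK', fun a ha => h2 a ha 0, h3, ?_⟩
  rw [← E, ← hK'.push_sat hB φ (cons bb e) n, E, h4]
  exact hφ

end Adm

theorem exists_adm (hB : Base X W v) {j : ZFSet.{u} → ZFSet.{u}} (hj : ∀ n, Lv X v n j)
    (hjW : ∀ n, j (W n) = W (n + 1)) (hfix : ∀ x ∈ W 0, j x = x) (a : ℕ → ZFSet.{u})
    (ha : ∀ i, a i ⊆ v) :
    ∃ (J : ℕ → ZFSet.{u} → ZFSet.{u}) (U ab : ℕ → ZFSet.{u}), Adm X W v J U ∧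
      (∀ i, Lv X v 1 (J i)) ∧ ∀ i, push J U (ab i) 0 = a i := by
  classical
  have H : ∀ (i : ℕ) (c : ZFSet.{u}) (b : ℕ → ZFSet.{u}),
      ∃ (k : ZFSet.{u} → ZFSet.{u}) (c' : ZFSet.{u}) (b' : ℕ → ZFSet.{u}),
      c ∈ W 0 → (∀ m, b m ⊆ v) → Step X W v c c' k ∧ Lv X v (i + 1) k ∧ c' ∈ W 0 ∧
        c'.IsTransitive ∧ ∀ m, b' m ⊆ v ∧ k (b' m) = b m := by
    intro i c b
    by_cases h : c ∈ W 0 ∧ ∀ m, b m ⊆ v
    · have hp := hB.gro0.powerset_mem h.1
      obtain ⟨k, a1, a2, a3, a4⟩ := exists_root hB (hj (i + 1 + 1)) W (cons (W 0) b)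
        hB.tower.Y_subset (fun m => by
          cases m with
          | zero => exact hB.tower.Y_subset 0
          | succ m => exact h.2 m)
        (hB.tower.sub_of_mem (hB.tower.Y_subset 0 hp)) (hfix _ hp)
        fun x hx => hfix x (hB.gro0.mem_trans hp hx)
      choose d hd hd' using a3
      have a5 : ∀ m, k (W m) = W (m + 1) := fun m => (a2 m).trans (hjW m)
      have a6 : k (d 0) = W 0 := hd' 0
      have hk : Pr X v k := a1.pres
      refine ⟨k, d 0, fun m => d (m + 1), fun _ _ => ⟨⟨hk, fun x hx => a4 x (mem_powerset.2 hx),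
        a6, a5⟩, a1, ?_, ?_, fun m => ⟨hd _, hd' (m + 1)⟩⟩⟩
      · rw [← hk.mem_iff hB (hd 0) (hB.tower.Y_subset 0), a6, a5]
        exact hB.tower.mem 0
      · rw [← hk.trans_iff hB (hd 0), a6]
        exact hB.tower.trans0
    · exact ⟨id, ∅, b, fun a1 a2 => absurd ⟨a1, a2⟩ h⟩
  choose kk cc bb H using H
  let S : ℕ → ZFSet.{u} × (ℕ → ZFSet.{u}) := fun i =>
    Nat.rec (∅, a) (fun i p => (cc i p.1 p.2, bb i p.1 p.2)) i
  have hS : ∀ i, (S i).1 ∈ W 0 ∧ (S i).1.IsTransitive ∧ ∀ m, (S i).2 m ⊆ v := by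
    intro i
    induction i with
    | zero => exact ⟨hB.gro0.empty_mem, isTransitive_empty, ha⟩
    | succ i ih =>
      obtain ⟨-, -, a1, a2, a3⟩ := H i _ _ ih.1 ih.2.2
      exact ⟨a1, a2, fun m => (a3 m).1⟩
  have H' := fun i => H i _ _ (hS i).1 (hS i).2.2
  have hJ : Adm X W v (fun i => kk i (S i).1 (S i).2) fun i => (S i).1 :=
    ⟨fun i => (H' i).1, fun i => (hS i).1, fun i => (hS i).2.1,
      fun m => ⟨m, fun i hi => Lev.mono (H' i).2.1 (Nat.le_succ_of_le hi)⟩⟩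
  refine ⟨_, _, fun m => iUnion fun n => (S n).2 m ∩ (S n).1, hJ,
    fun i => Lev.mono (H' i).2.1 (Nat.le_add_left 1 i), fun m => ?_⟩
  exact hJ.thread_eq_push hB (t := fun n => (S n).2 m) (fun n => (hS n).2.2 m)
    (fun n => ((H' n).2.2.2.2 m).2) 0

end Pool.Agent.P.MP_37b794_lc.I0
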