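import Pool.Agent.P.MP_37b794_lc.I0.Gro

/-!
The collapse conditions and the blocks.
-/

universe u

set_option synthInstance.maxSize 16384

namespace Pool.Agent.P.MP_37b794_lc.I0

open ZFSet Pool.Agent.Lib.Forcing Pool.Agent.P.MP_af0a18_lc

section Sq
variable {T T' B s : ZFSet.{u}}

theorem Sq_isFunc_fn {δ : ZFSet.{u}} (h : IsFunc δ T' s) : Fn s := by
  intro a b hab c hac
  obtain ⟨w, -, hw⟩ := h.2 a (pair_mem_prod.1 (h.1 hab)).1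
  rw [hw b hab, hw c hac]

theorem Sq_card_le {δ : ZFSet.{u}} (h : IsFunc δ T' s) : s.card ≤ δ.card := by
  classical
  refine card_le_iff_surj.2
    ⟨fun t => if h : ∃ w, pair t w ∈ s then pair t h.choose else ∅, fun y hy => ?_⟩
  obtain ⟨a, ha, b, -, rfl⟩ := mem_prod.1 (h.1 hy)
  have hex : ∃ w, pair a w ∈ s := ⟨b, hy⟩
  refine ⟨a, ha, ?_⟩
  simp only [dif_pos hex]
  rw [Sq_isFunc_fn h a _ hex.choose_spec b hy]

theorem sq_iff (hB : Gro B) (hT : T ∈ B) :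
    Sq T T' B s ↔ ∃ δ : ZFSet.{u}, δ.IsOrdinal ∧ IsFunc δ T' s ∧ δ.card ≤ T.card := by
  constructor
  · rintro ⟨δ, -, h1, h2, f, -, h3, h4⟩
    exact ⟨δ, h1, h2, surj_univ_iff.1 ⟨f, trivial, h3, h4⟩⟩
  · rintro ⟨δ, h1, h2, h3⟩
    have hδ : δ ∈ B := hB.ord_mem_of_card_le h1 hT h3
    obtain ⟨f, h4, h5, h6⟩ := card_le_iff_fn.1 h3
    exact ⟨δ, hδ, h1, h2, f, hB.mem_of_subset (hB.prod_mem hT hδ) h4, h5, h6⟩

theorem Sq.mem (h : Sq T T' B s) (hB : Gro B) (hT' : T' ⊆ B) : s ∈ B := by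
  obtain ⟨δ, hδ, -, h2, -⟩ := h
  refine hB.mem_of_card_le (fun w hw => ?_) hδ (Sq_card_le h2)
  obtain ⟨a, ha, b, hb, rfl⟩ := mem_prod.1 (h2.1 hw)
  exact hB.pair_mem (hB.mem_trans hδ ha) (hT' hb)

theorem sq_empty (hB : Gro B) : Sq T T' B ∅ := by
  refine ⟨∅, hB.empty_mem, isOrdinal_empty, ⟨empty_subset _, fun z hz => ?_⟩, ∅, hB.empty_mem,
    fun a b hab => ?_, fun ξ hξ => ?_⟩
  · exact (notMem_empty _ hz).elim
  · exact (notMem_empty _ hab).elim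
  · exact (notMem_empty _ hξ).elim

theorem sq_bound {B' : ZFSet.{u}} (hB : Gro B) (hB' : Gro B') (hT : T ∈ B) (hT' : T ∈ B') :
    Sq T T' B s ↔ Sq T T' B' s := by
  rw [sq_iff hB hT, sq_iff hB' hT']

theorem sq_target {B' : ZFSet.{u}} (hB : Gro B) (hB' : Gro B') (hT : T ∈ B) (h : B ⊆ B') :
    Sq T B B s ↔ Sq T B' B' s ∧ s ∈ B := by
  constructor
  · intro hs
    refine ⟨?_, hs.mem hB fun _ hx => hx⟩
    obtain ⟨δ, h1, h2, h3⟩ := (sq_iff hB hT).1 hs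
    refine (sq_iff hB' (h hT)).2 ⟨δ, h1, ⟨fun w hw => ?_, h2.2⟩, h3⟩
    obtain ⟨a, ha, b, hb, rfl⟩ := mem_prod.1 (h2.1 hw)
    exact pair_mem_prod.2 ⟨ha, h hb⟩
  · rintro ⟨hs, hsB⟩
    obtain ⟨δ, h1, h2, h3⟩ := (sq_iff hB' (h hT)).1 hs
    refine (sq_iff hB hT).2 ⟨δ, h1, ⟨fun w hw => ?_, h2.2⟩, h3⟩
    obtain ⟨a, ha, b, -, rfl⟩ := mem_prod.1 (h2.1 hw)
    exact pair_mem_prod.2 ⟨ha, (hB.pair_mem_iff.1 (hB.mem_trans hsB hw)).2⟩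

theorem mem_sqSet (hB : Gro B) (hT' : T' ⊆ B) : s ∈ SqSet T T' B ↔ Sq T T' B s := by
  rw [SqSet, mem_sep]
  exact ⟨fun h => h.2, fun h => ⟨h.mem hB hT', h⟩⟩

theorem Sq_mem_sUnion_img {J z : ZFSet.{u}} {f : ZFSet.{u} → ZFSet.{u}} :
    z ∈ (⋃₀ img f J : ZFSet.{u}) ↔ ∃ i ∈ J, z ∈ f i := by
  rw [mem_sUnion]
  constructor
  · rintro ⟨y, hy, hz⟩
    obtain ⟨i, hi, rfl⟩ := mem_img.1 hy
    exact ⟨i, hi, hz⟩
  · rintro ⟨i, hi, hz⟩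
    exact ⟨f i, mem_img.2 ⟨i, hi, rfl⟩, hz⟩

theorem sq_sUnion (hB : Gro B) (hT : T ∈ B) (hinf : Cardinal.aleph0 ≤ T.card) {J : ZFSet.{u}}
    {f : ZFSet.{u} → ZFSet.{u}} (hJ : J.card ≤ T.card) (hf : ∀ i ∈ J, Sq T T' B (f i))
    (hc : ∀ i ∈ J, ∀ i' ∈ J, f i ⊆ f i' ∨ f i' ⊆ f i) : Sq T T' B (⋃₀ img f J) := by
  have hex : ∀ i, ∃ δ : ZFSet.{u}, i ∈ J → δ.IsOrdinal ∧ IsFunc δ T' (f i) ∧ δ.card ≤ T.card := by
    intro i
    by_cases hi : i ∈ J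
    · obtain ⟨δ, hδ⟩ := (sq_iff hB hT).1 (hf i hi)
      exact ⟨δ, fun _ => hδ⟩
    · exact ⟨∅, fun h => (hi h).elim⟩
  choose d hd using hex
  have hth : (⋃₀ img d J : ZFSet.{u}) ∈ Theta T :=
    sUnion_img_mem_Theta hinf hJ fun i hi => mem_Theta.2 ⟨(hd i hi).1, (hd i hi).2.2⟩
  obtain ⟨h1, h2⟩ := mem_Theta.1 hth
  refine (sq_iff hB hT).2 ⟨_, h1, ⟨fun w hw => ?_, fun z hz => ?_⟩, h2⟩
  · obtain ⟨i, hi, hw⟩ := Sq_mem_sUnion_img.1 hw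
    obtain ⟨a, ha, b, hb, rfl⟩ := mem_prod.1 ((hd i hi).2.1.1 hw)
    exact pair_mem_prod.2 ⟨Sq_mem_sUnion_img.2 ⟨i, hi, ha⟩, hb⟩
  · obtain ⟨i, hi, hz⟩ := Sq_mem_sUnion_img.1 hz
    obtain ⟨w, hw, -⟩ := (hd i hi).2.1.2 z hz
    refine ⟨w, Sq_mem_sUnion_img.2 ⟨i, hi, hw⟩, fun w' hw' => ?_⟩
    obtain ⟨i', hi', hw'⟩ := Sq_mem_sUnion_img.1 hw'
    rcases hc i hi i' hi' with h | h
    · exact Sq_isFunc_fn (hd i' hi').2.1 z w' hw' w (h hw)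
    · exact Sq_isFunc_fn (hd i hi).2.1 z w' (h hw') w hw

theorem sq_clo (hB : Gro B) (hT : T ∈ B) (hinf : Cardinal.aleph0 ≤ T.card) :
    Clo (Sq T T' B) (· ⊆ ·) T.card := by
  intro J f hJ hf hc
  exact ⟨_, sq_sUnion hB hT hinf hJ hf hc, fun i hi z hz => Sq_mem_sUnion_img.2 ⟨i, hi, hz⟩⟩

theorem sq_clo_seq (hB : Gro B) (hT : T ∈ B) (hinf : Cardinal.aleph0 ≤ T.card) :
    Clo (fun ζ : ℕ → ZFSet.{u} => ∀ m, Sq T T' B (ζ m)) (fun ζ ζ' => ∀ m, ζ m ⊆ ζ' m) T.card := by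
  intro J f hJ hf hc
  refine ⟨fun m => ⋃₀ img (fun i => f i m) J, fun m => ?_, fun i hi m z hz => ?_⟩
  · exact sq_sUnion hB hT hinf hJ (fun i hi => hf i hi m) fun i hi i' hi' =>
      (hc i hi i' hi').imp (fun h => h m) fun h => h m
  · exact Sq_mem_sUnion_img.2 ⟨i, hi, hz⟩

theorem Sq.extend (h : Sq T T' B s) (hB : Gro B) (hT : T ∈ B) (hinf : Cardinal.aleph0 ≤ T.card)
    {x : ZFSet.{u}} (hx : x ∈ T') : ∃ ξ ∈ Theta T, Sq T T' B (insert (pair ξ x) s) := by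
  obtain ⟨δ, h1, h2, h3⟩ := (sq_iff hB hT).1 h
  have hδ : δ ∈ Theta T := mem_Theta.2 ⟨h1, h3⟩
  obtain ⟨h4, h5⟩ := mem_Theta.1 (insert_mem_Theta hinf hδ)
  refine ⟨δ, hδ, (sq_iff hB hT).2 ⟨insert δ δ, h4, ⟨fun w hw => ?_, fun z hz => ?_⟩, h5⟩⟩
  · rcases mem_insert_iff.1 hw with rfl | hw
    · exact pair_mem_prod.2 ⟨mem_insert _ _, hx⟩
    · obtain ⟨a, ha, b, hb, rfl⟩ := mem_prod.1 (h2.1 hw)
      exact pair_mem_prod.2 ⟨mem_insert_of_mem _ ha, hb⟩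
  · rcases mem_insert_iff.1 hz with rfl | hz
    · refine ⟨x, mem_insert _ _, fun w hw => ?_⟩
      rcases mem_insert_iff.1 hw with hw | hw
      · exact (pair_inj.1 hw).2
      · exact (mem_irrefl _ (pair_mem_prod.1 (h2.1 hw)).1).elim
    · obtain ⟨w, hw, hu⟩ := h2.2 z hz
      refine ⟨w, mem_insert_of_mem _ hw, fun w' hw' => ?_⟩
      rcases mem_insert_iff.1 hw' with hw' | hw'
      · obtain ⟨rfl, -⟩ := pair_inj.1 hw'
        exact (mem_irrefl _ hz).elim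
      · exact hu w' hw'

theorem Sq.fn (h : Sq T T' B s) : Fn s := by
  obtain ⟨δ, -, -, h2, -⟩ := h
  exact Sq_isFunc_fn h2

theorem Sq.elt (h : Sq T T' B s) (hB : Gro B) (hT : T ∈ B) {w : ZFSet.{u}} (hw : w ∈ s) :
    ∃ ξ ∈ Theta T, ∃ x ∈ T', w = pair ξ x := by
  obtain ⟨δ, h1, h2, h3⟩ := (sq_iff hB hT).1 h
  obtain ⟨a, ha, b, hb, rfl⟩ := mem_prod.1 (h2.1 hw)
  exact ⟨a, (isOrdinal_Theta T).mem_trans ha (mem_Theta.2 ⟨h1, h3⟩), b, hb, rfl⟩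

theorem Sq_card_funs (δ T : ZFSet.{u}) :
    (funs δ (powerset T)).card ≤ (powerset (δ.prod T)).card := by
  refine card_le_iff_surj.2 ⟨fun y => graph (sec y) δ, fun s hs => ?_⟩
  have h := mem_funs.1 hs
  refine ⟨(δ.prod T).sep fun z => ∃ ξ x t, z = pair ξ t ∧ pair ξ x ∈ s ∧ t ∈ x,
    mem_powerset.2 fun z hz => (mem_sep.1 hz).1, ?_⟩
  have key : ∀ ξ x, pair ξ x ∈ s →
      sec ((δ.prod T).sep fun z => ∃ ξ x t, z = pair ξ t ∧ pair ξ x ∈ s ∧ t ∈ x) ξ = x := by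
    intro ξ x hx
    obtain ⟨h1, h2⟩ := pair_mem_prod.1 (h.1 hx)
    ext t
    rw [mem_sec, mem_sep]
    constructor
    · rintro ⟨-, ξ', x', t', h3, h4, h5⟩
      obtain ⟨rfl, rfl⟩ := pair_inj.1 h3
      rwa [Sq_isFunc_fn h ξ x hx x' h4]
    · intro ht
      exact ⟨pair_mem_prod.2 ⟨h1, mem_powerset.1 h2 ht⟩, ξ, x, t, rfl, hx, ht⟩
  ext w
  constructor
  · intro hw
    obtain ⟨ξ, hξ, rfl⟩ := mem_img.1 hw
    obtain ⟨x, hx, -⟩ := h.2 ξ hξ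
    rwa [key ξ x hx]
  · intro hw
    obtain ⟨a, ha, b, -, rfl⟩ := mem_prod.1 (h.1 hw)
    exact pair_mem_graph.2 ⟨ha, (key a b hw).symm⟩

theorem card_sqSet (hB : Gro B) (hT : T ∈ B) (hinf : Cardinal.aleph0 ≤ T.card) :
    (SqSet T (powerset T) B).card ≤ (powerset T).card := by
  have hlt : T.card < (powerset T).card := by
    rw [card_powerset]
    exact Cardinal.cantor _
  have hth : (Theta T).card ≤ (powerset T).card := by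
    rw [Theta, Ordinal.card_toZFSet, Cardinal.card_ord]
    exact Order.succ_le_of_lt hlt
  refine le_trans (card_mono (y := ⋃₀ img (fun δ => funs δ (powerset T)) (Theta T))
    fun s hs => ?_) (card_sUnion_img_le (hinf.trans hlt.le) hth fun δ hδ => ?_)
  · obtain ⟨δ, h1, h2, h3⟩ := (sq_iff hB hT).1 (mem_sep.1 hs).2
    exact Sq_mem_sUnion_img.2 ⟨δ, mem_Theta.2 ⟨h1, h3⟩, mem_funs.2 h2⟩
  · refine (Sq_card_funs δ T).trans ?_
    rw [card_powerset, card_powerset]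
    exact Cardinal.power_le_power_left two_ne_zero
      (card_prod_le hinf (mem_Theta.1 hδ).2 le_rfl)

theorem sqSet_mem (hB : Gro B) (hT : T ∈ B) (hT' : T' ∈ B) : SqSet T T' B ∈ B := by
  refine hB.mem_of_subset (hB.powerset_mem (hB.prod_mem (hB.Theta_mem hT) hT')) fun s hs => ?_
  refine mem_powerset.2 fun w hw => ?_
  obtain ⟨ξ, h1, x, h2, rfl⟩ := (mem_sep.1 hs).2.elt hB hT hw
  exact pair_mem_prod.2 ⟨h1, h2⟩

end Sq

section Blk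
variable {a b c d x z r w : ZFSet.{u}}

theorem mem_blk : w ∈ blk c d x z ↔ (∃ s ∈ x, w = pair c s) ∨ ∃ s ∈ z, w = pair d s := by
  simp [blk]

theorem sec_blk_left (h : c ≠ d) : sec (blk c d x z) c = x := by
  ext s
  rw [mem_sec, mem_blk]
  constructor
  · rintro (⟨t, ht, h'⟩ | ⟨t, -, h'⟩)
    · rwa [(pair_inj.1 h').2]
    · exact (h (pair_inj.1 h').1).elim
  · exact fun hs => Or.inl ⟨s, hs, rfl⟩

theorem sec_blk_right (h : c ≠ d) : sec (blk c d x z) d = z := by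
  ext s
  rw [mem_sec, mem_blk]
  constructor
  · rintro (⟨t, -, h'⟩ | ⟨t, ht, h'⟩)
    · exact (h (pair_inj.1 h').1.symm).elim
    · rwa [(pair_inj.1 h').2]
  · exact fun hs => Or.inr ⟨s, hs, rfl⟩

theorem ne_powerset (a : ZFSet.{u}) : a ≠ powerset a := by
  intro h
  have h1 : a ∈ powerset a := mem_powerset.2 fun _ hx => hx
  rw [← h] at h1
  exact mem_irrefl _ h1

theorem blk_mono {x' z' : ZFSet.{u}} (hx : x ⊆ x') (hz : z ⊆ z') : blk c d x z ⊆ blk c d x' z' := by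
  intro w hw
  rcases mem_blk.1 hw with ⟨s, hs, rfl⟩ | ⟨s, hs, rfl⟩
  · exact mem_blk.2 (Or.inl ⟨s, hx hs, rfl⟩)
  · exact mem_blk.2 (Or.inr ⟨s, hz hs, rfl⟩)

theorem notMem_of_mem_blk (ha : a.IsTransitive) (hw : w ∈ blk a (powerset a) x z) : w ∉ a := by
  intro hwa
  have key : ∀ c s : ZFSet.{u}, pair c s ∈ a → c ∈ a := by
    intro c s hcs
    have h1 : ({c} : ZFSet.{u}) ∈ pair c s := by simp [pair]
    exact ha _ (ha _ hcs h1) (mem_singleton.2 rfl)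
  rcases mem_blk.1 hw with ⟨s, -, rfl⟩ | ⟨s, -, rfl⟩
  · exact mem_irrefl _ (key _ _ hwa)
  · exact mem_irrefl _ (ha _ (key _ _ hwa) (mem_powerset.2 fun _ hx => hx))

theorem blk_mem (hb : Gro b) (hc : c ∈ b) (hd : d ∈ b) (hx : x ∈ b) (hz : z ∈ b) :
    blk c d x z ∈ b :=   hb.union_mem (hb.prod_mem (hb.singleton_mem hc) hx) (hb.prod_mem (hb.singleton_mem hd) hz)

theorem isBlk_blk (hx : Sq a (powerset a) b x) (hz : Sq (powerset a) b b z) :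
    IsBlk a (powerset a) b (blk a (powerset a) x z) := by
  unfold IsBlk
  rw [sec_blk_left (ne_powerset a), sec_blk_right (ne_powerset a)]
  exact ⟨rfl, hx, hz⟩

theorem IsBlk.mem (h : IsBlk a (powerset a) b r) (hb : Gro b) (hab : a ∈ b) : r ∈ b := by
  obtain ⟨h1, h2, h3⟩ := h
  rw [h1]
  exact blk_mem hb hab (hb.powerset_mem hab) (h2.mem hb (hb.trans _ (hb.powerset_mem hab)))
    (h3.mem hb fun _ hx => hx)

theorem IsBlk.notMem (h : IsBlk a (powerset a) b r) (ha : a.IsTransitive) (hw : w ∈ r) : w ∉ a := by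
  rw [h.1] at hw
  exact notMem_of_mem_blk ha hw

end Blk

end Pool.Agent.P.MP_37b794_lc.I0
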