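import Pool.Agent.P.MP_37b794_lc.I0.Pres
import Pool.Agent.P.MP_37b794_lc.I0.Sq

/-!
The local lemma.
-/

universe u

set_option synthInstance.maxSize 16384

namespace Pool.Agent.P.MP_37b794_lc.I0

open ZFSet Pool.Agent.Lib.Forcing Pool.Agent.P.MP_af0a18_lc

variable {X : Set ZFSet.{u}} {W : ℕ → ZFSet.{u}} {v : ZFSet.{u}} {j k : ZFSet.{u} → ZFSet.{u}}

section definability
variable {s t w p z y r : Set ZFSet.{u} → Env.{u} → ZFSet.{u}}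

theorem Loc_subst7 {R : Set ZFSet.{u} → ZFSet.{u} → ZFSet.{u} → ZFSet.{u} → ZFSet.{u} →
      ZFSet.{u} → ZFSet.{u} → ZFSet.{u} → Prop}
    (h : ZD (fun M e => R M (e 0) (e 1) (e 2) (e 3) (e 4) (e 5) (e 6))) (hs : ZT s) (ht : ZT t)
    (hw : ZT w) (hp : ZT p) (hz : ZT z) (hy : ZT y) (hr : ZT r) :
    ZD (fun M e => R M (s M e) (t M e) (w M e) (p M e) (z M e) (y M e) (r M e)) :=
  ((((((h.consTm hs.shift.shift.shift.shift.shift.shift).consTm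
    ht.shift.shift.shift.shift.shift).consTm hw.shift.shift.shift.shift).consTm
    hp.shift.shift.shift).consTm hz.shift.shift).consTm hy.shift).consTm hr

theorem Loc_zdNe [hs : ZT s] [ht : ZT t] [hw : ZT w] [hp : ZT p] [hz : ZT z] [hy : ZT y]
    [hr : ZT r] : ZD (fun M e => NeS (s M e) (t M e) (w M e) (p M e) (z M e) (y M e) (r M e)) :=
  Loc_subst7 (R := fun _ => NeS) (zdNeS 0 1 2 3 4 5 6) hs ht hw hp hz hy hr

theorem Loc_zdDe [hs : ZT s] [ht : ZT t] [hw : ZT w] [hp : ZT p] [hz : ZT z] [hy : ZT y]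
    [hr : ZT r] : ZD (fun M e => DeS (s M e) (t M e) (w M e) (p M e) (z M e) (y M e) (r M e)) :=
  Loc_subst7 (R := fun _ => DeS) (zdDeS 0 1 2 3 4 5 6) hs ht hw hp hz hy hr

end definability

attribute [local instance] Loc_zdNe Loc_zdDe

/-- The reflection property of the universe `B` below `w`. -/
def Loc_Ref (w Xs T AA I B : ZFSet.{u}) : Prop :=
  ∀ i ∈ I, ∀ x ∈ AA, ∀ a ∈ SqSet T B B, ∀ b ∈ SqSet T B B,
    (NeS (SqSet T w w) AA Xs i x a b → NeS (SqSet T B B) AA (Xs ∩ B) i x a b) ∧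
    (DeS (SqSet T B B) AA (Xs ∩ B) i x a b → DeS (SqSet T w w) AA Xs i x a b)

theorem Loc_zdRef0 : ZD.{u} (fun _ e => Loc_Ref (e 0) (e 1) (e 2) (e 3) (e 4) (e 5)) := by
  unfold Loc_Ref; infer_instance

theorem Loc_zdRef {s t w p z y : Set ZFSet.{u} → Env.{u} → ZFSet.{u}} [hs : ZT s] [ht : ZT t]
    [hw : ZT w] [hp : ZT p] [hz : ZT z] [hy : ZT y] :
    ZD (fun M e => Loc_Ref (s M e) (t M e) (w M e) (p M e) (z M e) (y M e)) :=
  ZD.subst6 (R := fun _ => Loc_Ref) Loc_zdRef0 hs ht hw hp hz hy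

attribute [local instance] Loc_zdRef

theorem Loc_sqSet_sub (T T' B : ZFSet.{u}) : SqSet T T' B ⊆ B := fun _ h => (mem_sep.1 h).1

theorem Loc_sub_trans {a b c : ZFSet.{u}} (h1 : a ⊆ b) (h2 : b ⊆ c) : a ⊆ c :=
  fun _ h => h2 (h1 h)

theorem Loc_sub_refl (a : ZFSet.{u}) : a ⊆ a := fun _ h => h

theorem Loc_map_sqSet (hB : Base X W v) (hk : Pr X v k) {T T' B : ZFSet.{u}} (hT : T ⊆ v)
    (hT' : T' ⊆ v) (hB' : B ⊆ v) : k (SqSet T T' B) = SqSet (k T) (k T') (k B) :=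
  hk.elem.zt3 hB.model hB.model (fun _ => SqSet) (mem_powerset.2 hT) (mem_powerset.2 hT')
    (mem_powerset.2 hB') (mem_powerset.2 (Loc_sub_trans (Loc_sqSet_sub _ _ _) hB'))

theorem Loc_ne_iff (hB : Base X W v) (hk : Pr X v k) {C AA Xs i x a b : ZFSet.{u}} (h1 : C ⊆ v)
    (h2 : AA ⊆ v) (h3 : Xs ⊆ v) (h4 : i ⊆ v) (h5 : x ⊆ v) (h6 : a ⊆ v) (h7 : b ⊆ v) :
    NeS C AA Xs i x a b ↔ NeS (k C) (k AA) (k Xs) (k i) (k x) (k a) (k b) :=
  hk.elem.zd hB.model hB.model (fun _ e => NeS (e 0) (e 1) (e 2) (e 3) (e 4) (e 5) (e 6))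
    (cons C (cons AA (cons Xs (cons i (cons x (cons a fun _ => b))))))
    (cons_mem (mem_powerset.2 h1) (cons_mem (mem_powerset.2 h2) (cons_mem (mem_powerset.2 h3)
      (cons_mem (mem_powerset.2 h4) (cons_mem (mem_powerset.2 h5) (cons_mem (mem_powerset.2 h6)
        fun _ => mem_powerset.2 h7))))))

theorem Loc_de_iff (hB : Base X W v) (hk : Pr X v k) {C AA Xs i x a b : ZFSet.{u}} (h1 : C ⊆ v)
    (h2 : AA ⊆ v) (h3 : Xs ⊆ v) (h4 : i ⊆ v) (h5 : x ⊆ v) (h6 : a ⊆ v) (h7 : b ⊆ v) :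
    DeS C AA Xs i x a b ↔ DeS (k C) (k AA) (k Xs) (k i) (k x) (k a) (k b) :=
  hk.elem.zd hB.model hB.model (fun _ e => DeS (e 0) (e 1) (e 2) (e 3) (e 4) (e 5) (e 6))
    (cons C (cons AA (cons Xs (cons i (cons x (cons a fun _ => b))))))
    (cons_mem (mem_powerset.2 h1) (cons_mem (mem_powerset.2 h2) (cons_mem (mem_powerset.2 h3)
      (cons_mem (mem_powerset.2 h4) (cons_mem (mem_powerset.2 h5) (cons_mem (mem_powerset.2 h6)
        fun _ => mem_powerset.2 h7))))))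

theorem loc_reflect (hB : Base X W v) (hj : Pr X v j) (hjW : j (W 0) = W 1)
    (hfix : ∀ x ∈ W 0, j x = x) {T AA I b0 Xs : ZFSet.{u}} (hT : T ∈ W 0) (hAA : AA ∈ W 0)
    (hI : I ∈ W 0) (hb0 : b0 ∈ W 0) (hXs : Xs ⊆ W 0) :
    ∃ B ∈ W 0, Gro B ∧ b0 ∈ B ∧ ∀ i ∈ I, ∀ x ∈ AA, ∀ a ∈ SqSet T B B, ∀ b ∈ SqSet T B B,
      (NeS (SqSet T (W 0) (W 0)) AA Xs i x a b → NeS (SqSet T B B) AA (Xs ∩ B) i x a b) ∧
      (DeS (SqSet T B B) AA (Xs ∩ B) i x a b → DeS (SqSet T (W 0) (W 0)) AA Xs i x a b) := by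
  have h0 : W 0 ⊆ v := hB.tower.Y_subset 0
  have hv : ∀ {x}, x ∈ W 0 → x ⊆ v := fun hx => hB.tower.sub_of_mem (h0 hx)
  have hXv : Xs ⊆ v := Loc_sub_trans hXs h0
  have hCv : SqSet T (W 0) (W 0) ⊆ v := Loc_sub_trans (Loc_sqSet_sub _ _ _) h0
  have hC : j (SqSet T (W 0) (W 0)) = SqSet T (W 1) (W 1) := by
    rw [Loc_map_sqSet hB hj (hv hT) h0 h0, hfix T hT, hjW]
  have hint : j Xs ∩ W 0 = Xs := by
    ext t
    rw [mem_inter]
    constructor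
    · rintro ⟨h1, h2⟩
      rw [← hfix t h2] at h1
      exact (Pres.mem_iff hj hB (hv h2) hXv).1 h1
    · intro h1
      refine ⟨?_, hXs h1⟩
      rw [← hfix t (hXs h1)]
      exact (Pres.mem_iff hj hB (hv (hXs h1)) hXv).2 h1
  have key := hj.elem.zd6 hB.model hB.model
    (fun M w Xs T AA I b0 => ∃ B ∈ w, Univ M B ∧ b0 ∈ B ∧ Loc_Ref w Xs T AA I B)
    (mem_powerset.2 h0) (mem_powerset.2 hXv) (mem_powerset.2 (hv hT)) (mem_powerset.2 (hv hAA))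
    (mem_powerset.2 (hv hI)) (mem_powerset.2 (hv hb0))
  rw [hjW, hfix T hT, hfix AA hAA, hfix I hI, hfix b0 hb0] at key
  obtain ⟨B, h1, h2, h3, h4⟩ := key.2 ⟨W 0, hB.tower.mem 0,
    (hB.tower.univ_iff hB.sub h0).2 hB.gro0, hb0, fun i hi x hx a ha b hb => by
      have hi0 := hB.gro0.mem_trans hI hi
      have hx0 := hB.gro0.mem_trans hAA hx
      have ha0 := Loc_sqSet_sub _ _ _ ha
      have hb0 := Loc_sqSet_sub _ _ _ hb
      have e1 := Loc_ne_iff hB hj hCv (hv hAA) hXv (hv hi0) (hv hx0) (hv ha0) (hv hb0)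
      have e2 := Loc_de_iff hB hj hCv (hv hAA) hXv (hv hi0) (hv hx0) (hv ha0) (hv hb0)
      rw [hC, hfix AA hAA, hfix i hi0, hfix x hx0, hfix a ha0, hfix b hb0] at e1 e2
      rw [hint]
      exact ⟨e1.2, e2.1⟩⟩
  exact ⟨B, h1, (hB.tower.univ_iff hB.sub (hv h1)).1 h2, h3, h4⟩

section mono
variable {C AA Xs i x x' a b a' b' : ZFSet.{u}}

theorem Loc_ne_anti (h : NeS C AA Xs i x a' b') (ha : a ⊆ a') (hb : b ⊆ b') :
    NeS C AA Xs i x a b := by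
  obtain ⟨z, hz, z', hz', h1, h2, h3⟩ := h
  exact ⟨z, hz, z', hz', Loc_sub_trans ha h1, Loc_sub_trans hb h2, h3⟩

theorem Loc_de_mono (h : DeS C AA Xs i x a b) (ha : a ⊆ a') (hb : b ⊆ b') :
    DeS C AA Xs i x a' b' :=
  fun z hz z' hz' h1 h2 => h z hz z' hz' (Loc_sub_trans ha h1) (Loc_sub_trans hb h2)

theorem Loc_ne_mono (h : NeS C AA Xs i x a b) (hx : x ⊆ x') : NeS C AA Xs i x' a b := by
  obtain ⟨z, hz, z', hz', h1, h2, h3⟩ := h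
  exact ⟨z, hz, z', hz', h1, h2, fun y hy hxy => h3 y hy (Loc_sub_trans hx hxy)⟩

end mono

theorem Loc_seq {α : Type*} (P : ℕ → α → Prop) (R : ℕ → α → α → Prop) {a0 : α} (h0 : P 0 a0)
    (H : ∀ n a, P n a → ∃ b, P (n + 1) b ∧ R n a b) :
    ∃ f : ℕ → α, (∀ n, P n (f n)) ∧ ∀ n, R n (f n) (f (n + 1)) := by
  choose g hg1 hg2 using H
  let F : ∀ n, {a // P n a} := fun n => Nat.rec ⟨a0, h0⟩ (fun n a => ⟨g n a.1 a.2, hg1 n a.1 a.2⟩) n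
  exact ⟨fun n => (F n).1, fun n => (F n).2, fun n => hg2 n (F n).1 (F n).2⟩

/-- One Baire step for a sequence of conditions: all tasks are decided. -/
theorem Loc_decide {B T I AA E : ZFSet.{u}} (k : ZFSet.{u} → ZFSet.{u}) (hB : Gro B) (hT : T ∈ B)
    (hinf : Cardinal.aleph0 ≤ T.card) (hI : I.card ≤ T.card) (hAA : AA.card ≤ T.card)
    (hE : E.card ≤ T.card) {p : ℕ → ZFSet.{u}} (hp : ∀ m, Sq T B B (p m)) :
    ∃ q : ℕ → ZFSet.{u}, (∀ m, Sq T B B (q m)) ∧ (∀ m, p m ⊆ q m) ∧ ∀ m, ∀ Xb ∈ E, ∀ i ∈ I,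
      ∀ x ∈ AA, DeS (SqSet T B B) AA (k Xb) i x (q m) (q (m + 1)) ∨
        ¬ NeS (SqSet T B B) AA (k Xb) i x (q m) (q (m + 1)) := by
  classical
  have hms : ∀ s, s ∈ SqSet T B B ↔ Sq T B B s := fun s => mem_sqSet hB (Loc_sub_refl B)
  obtain ⟨q, h1, h2, h3⟩ := baire (le := fun ζ ζ' : ℕ → ZFSet.{u} => ∀ m, ζ m ⊆ ζ' m)
    (fun a m => Loc_sub_refl _) (fun a b c h1 h2 m => Loc_sub_trans (h1 m) (h2 m))
    (sq_clo_seq (T' := B) hB hT hinf) (I := omega.prod (E.prod (I.prod AA)))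
    (card_prod_le hinf (card_omega.trans_le hinf) (card_prod_le hinf hE (card_prod_le hinf hI hAA)))
    (fun t ζ => ∀ m Xb i x, t = pair (nat m) (pair Xb (pair i x)) →
      DeS (SqSet T B B) AA (k Xb) i x (ζ m) (ζ (m + 1)) ∨
        ¬ NeS (SqSet T B B) AA (k Xb) i x (ζ m) (ζ (m + 1))) (by
      intro t ht ζ hζ
      obtain ⟨n, hn, t1, ht1, rfl⟩ := mem_prod.1 ht
      obtain ⟨Xb, -, t2, ht2, rfl⟩ := mem_prod.1 ht1
      obtain ⟨i, -, x, -, rfl⟩ := mem_prod.1 ht2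
      obtain ⟨m, rfl⟩ := mem_omega_iff.1 hn
      by_cases hde : DeS (SqSet T B B) AA (k Xb) i x (ζ m) (ζ (m + 1))
      · refine ⟨ζ, hζ, fun m => Loc_sub_refl _, fun m' Xb' i' x' h => ?_⟩
        simp only [pair_inj, nat_inj] at h
        obtain ⟨rfl, rfl, rfl, rfl⟩ := h
        exact Or.inl hde
      · unfold DeS at hde
        push Not at hde
        obtain ⟨a', ha', b', hb', h1, h2, h3⟩ := hde
        refine ⟨fun n => if n = m then a' else if n = m + 1 then b' else ζ n, fun n => ?_,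
          fun n => ?_, fun m' Xb' i' x' h => ?_⟩
        · dsimp only
          split_ifs
          exacts [(hms _).1 ha', (hms _).1 hb', hζ n]
        · dsimp only
          split_ifs with e1 e2
          · rw [e1]; exact h1
          · rw [e2]; exact h2
          · exact Loc_sub_refl _
        · simp only [pair_inj, nat_inj] at h
          obtain ⟨rfl, rfl, rfl, rfl⟩ := h
          right
          simpa using h3) hp
  refine ⟨q, h1, h2, fun m Xb hXb i hi x hx => ?_⟩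
  obtain ⟨r, -, h4, -, h5⟩ := h3 (pair (nat m) (pair Xb (pair i x)))
    (pair_mem_prod.2 ⟨nat_mem_omega m, pair_mem_prod.2 ⟨hXb, pair_mem_prod.2 ⟨hi, hx⟩⟩⟩)
  rcases h4 m Xb i x rfl with h6 | h6
  · exact Or.inl (Loc_de_mono h6 (h5 m) (h5 (m + 1)))
  · exact Or.inr fun h7 => h6 (Loc_ne_anti h7 (h5 m) (h5 (m + 1)))

/-- A Baire step for open sets: every task is met or can not be met. -/
theorem Loc_open {B T T' I : ZFSet.{u}} (hB : Gro B) (hT : T ∈ B)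
    (hinf : Cardinal.aleph0 ≤ T.card) (hI : I.card ≤ T.card) (O : ZFSet.{u} → ZFSet.{u} → Prop)
    {p : ZFSet.{u}} (hp : Sq T T' B p) :
    ∃ q, Sq T T' B q ∧ p ⊆ q ∧ ∀ t ∈ I, (∃ r, r ⊆ q ∧ O t r) ∨
      ∀ r, Sq T T' B r → q ⊆ r → ¬ O t r := by
  obtain ⟨q, h1, h2, h3⟩ := baire (le := fun a b : ZFSet.{u} => a ⊆ b) Loc_sub_refl
    (fun _ _ _ => Loc_sub_trans) (sq_clo (T' := T') hB hT hinf) hI
    (fun t r => O t r ∨ ∀ r', Sq T T' B r' → r ⊆ r' → ¬ O t r') (by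
      intro t _ p hp
      by_cases h : ∃ r, Sq T T' B r ∧ p ⊆ r ∧ O t r
      · obtain ⟨r, h1, h2, h3⟩ := h
        exact ⟨r, h1, h2, Or.inl h3⟩
      · exact ⟨p, hp, Loc_sub_refl _, Or.inr fun r h1 h2 h3 => h ⟨r, h1, h2, h3⟩⟩) hp
  refine ⟨q, h1, h2, fun t ht => ?_⟩
  obtain ⟨r, -, h4, -, h5⟩ := h3 t ht
  rcases h4 with h4 | h4
  · exact Or.inl ⟨r, h5, h4⟩
  · exact Or.inr fun r' h6 h7 => h4 r' h6 (Loc_sub_trans h5 h7)

theorem exists_loc (hB : Base X W v) (hj : Pr X v j) (hjW : j (W 0) = W 1)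
    (hfix : ∀ x ∈ W 0, j x = x) (hk : Pr X v k) {c xs zb : ZFSet.{u}} (hc : c ∈ W 0)
    (hkc : k c = W 0) (hkW : k (W 0) = W 1) (hxs : Sq (W 0) (powerset (W 0)) (W 1) xs)
    (hzb : zb ∈ W 0) (hzs : Sq (powerset (W 0)) (W 1) (W 1) (k zb)) :
    ∃ x z ζ : ℕ → ZFSet.{u}, Loc W k x z ζ ∧ ∀ m, xs ⊆ x m ∧ k zb ⊆ z m := by
  classical
  have g0 := hB.gro0
  have g1 : Gro (W 1) := hB.gro 1
  have h0 : W 0 ⊆ v := hB.tower.Y_subset 0
  have hv : ∀ {x}, x ∈ W 0 → x ⊆ v := fun hx => hB.tower.sub_of_mem (h0 hx)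
  have h01 : W 0 ∈ W 1 := hB.tower.mem 0
  have hP1 : powerset (W 0) ∈ W 1 := g1.powerset_mem h01
  have hinf0 : Cardinal.aleph0 ≤ (W 0).card := g0.aleph0_le
  have hle : (W 0).card ≤ (powerset (W 0)).card :=
    card_mono fun x hx => mem_powerset.2 (g0.trans x hx)
  have hinf : Cardinal.aleph0 ≤ (powerset (W 0)).card := hinf0.trans hle
  have hpc : powerset c ∈ W 0 := g0.powerset_mem hc
  have hkpc : k (powerset c) = powerset (W 0) := by rw [Pres.map_powerset hk hB (h0 hc), hkc]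
  set AA := SqSet (W 0) (powerset (W 0)) (W 1) with hAAdef
  set T := powerset (W 0) with hTdef
  have hAb : SqSet c (powerset c) (W 0) ∈ W 0 := sqSet_mem g0 hc hpc
  have hkA : k (SqSet c (powerset c) (W 0)) = AA := by
    rw [Loc_map_sqSet hB hk (hv hc) (hv hpc) h0, hkc, hkpc, hkW]
  have hIb : c.prod (SqSet c (powerset c) (W 0)) ∈ W 0 := g0.prod_mem hc hAb
  have hkI : k (c.prod (SqSet c (powerset c) (W 0))) = (W 0).prod AA := by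
    rw [Pres.map_prod hk hB (hv hc) (hv hAb), hkc, hkA]
  have hmA : ∀ s, s ∈ AA ↔ Sq (W 0) T (W 1) s := fun s => mem_sqSet g1 (g1.trans _ hP1)
  have hmC : ∀ s, s ∈ SqSet T (W 1) (W 1) ↔ Sq T (W 1) (W 1) s := fun s =>
    mem_sqSet g1 (Loc_sub_refl _)
  have hAc : AA.card ≤ T.card := card_sqSet g1 h01 hinf0
  set BB := (W 0).sep fun B => Gro B ∧ pair c zb ∈ B with hBBdef
  have hmB : ∀ B, B ∈ BB ↔ B ∈ W 0 ∧ Gro B ∧ pair c zb ∈ B := fun B => mem_sep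
  -- the reflection property, moved by `k`
  have ref : ∀ Xs, Xs ⊆ W 0 → ∃ B ∈ BB, Loc_Ref (W 1) (k Xs) T AA ((W 0).prod AA) (k B) := by
    intro Xs hXs
    obtain ⟨B, h1, h2, h3, h4⟩ := loc_reflect hB hj hjW hfix hpc hAb hIb (g0.pair_mem hc hzb) hXs
    refine ⟨B, (hmB B).2 ⟨h1, h2, h3⟩, ?_⟩
    have key := hk.elem.zd6 hB.model hB.model (fun _ => Loc_Ref) (mem_powerset.2 h0)
      (mem_powerset.2 (Loc_sub_trans hXs h0)) (mem_powerset.2 (hv hpc)) (mem_powerset.2 (hv hAb))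
      (mem_powerset.2 (hv hIb)) (mem_powerset.2 (hv h1))
    rw [hkW, hkpc, hkA, hkI] at key
    exact key.1 h4
  have gk : ∀ B ∈ BB, Gro (k B) := fun B hb =>
    (Pres.gro_iff hk hB (hv ((hmB B).1 hb).1)).2 ((hmB B).1 hb).2.1
  have hTk : ∀ B ∈ BB, T ∈ k B := by
    intro B hb
    obtain ⟨h1, h2, h3⟩ := (hmB B).1 hb
    refine (gk B hb).powerset_mem ?_
    rw [← hkc]
    exact (Pres.mem_iff hk hB (hv hc) (hv h1)).2 (h2.pair_mem_iff.1 h3).1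
  have hk1 : ∀ B ∈ BB, k B ⊆ W 1 := by
    intro B hb
    refine g1.trans _ ?_
    rw [← hkW]
    exact (Pres.mem_iff hk hB (hv ((hmB B).1 hb).1) h0).2 ((hmB B).1 hb).1
  have hkk : ∀ B ∈ BB, ∀ B' ∈ BB, B ∈ B' → k B ⊆ k B' := fun B hb B' hb' h =>
    (gk B' hb').trans _
      ((Pres.mem_iff hk hB (hv ((hmB B).1 hb).1) (hv ((hmB B').1 hb').1)).2 h)
  have hzk : ∀ B ∈ BB, Sq T (k B) (k B) (k zb) := by
    intro B hb
    obtain ⟨h1, h2, h3⟩ := (hmB B).1 hb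
    exact (sq_target (gk B hb) g1 (hTk B hb) (hk1 B hb)).2
      ⟨hzs, (Pres.mem_iff hk hB (hv hzb) (hv h1)).2 (h2.pair_mem_iff.1 h3).2⟩
  have hBc : BB.card ≤ T.card := (card_mono fun B hb => ((hmB B).1 hb).1).trans hle
  -- the recursion on universes
  obtain ⟨q, hq1, hq2⟩ := tdc (ι := ZFSet.{u}) (α := ℕ → ZFSet.{u})
    (fun l i => l ∈ BB ∧ i ∈ BB ∧ l ∈ i) (Subrelation.wf (fun h => h.2.2) mem_wf)
    (fun ζ ζ' => ∀ m, ζ m ⊆ ζ' m)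
    (fun B ζ => B ∈ BB → (∀ m, Sq T (k B) (k B) (ζ m)) ∧ (∀ m, k zb ⊆ ζ m) ∧
      ∀ m, ∀ Xb ∈ powerset B, ∀ i ∈ (W 0).prod AA, ∀ x ∈ AA,
        DeS (SqSet T (k B) (k B)) AA (k Xb) i x (ζ m) (ζ (m + 1)) ∨
          ¬ NeS (SqSet T (k B) (k B)) AA (k Xb) i x (ζ m) (ζ (m + 1))) (by
      intro B q hq hch
      by_cases hb : B ∈ BB
      swap
      · exact ⟨fun _ => ∅, fun h => absurd h hb, fun l hl => absurd hl.2.1 hb⟩
      have hstart : ∃ p : ℕ → ZFSet.{u}, (∀ m, Sq T (k B) (k B) (p m)) ∧ (∀ m, k zb ⊆ p m) ∧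
          ∀ l ∈ BB, l ∈ B → ∀ m, q l m ⊆ p m := by
        by_cases hne : ∃ l ∈ BB, l ∈ B
        · obtain ⟨p, h1, h2⟩ := sq_clo_seq (T' := k B) (gk B hb) (hTk B hb) hinf (BB ∩ B) q
            ((card_mono fun l hl => (mem_inter.1 hl).1).trans hBc) (fun l hl m => by
              obtain ⟨hl1, hl2⟩ := mem_inter.1 hl
              exact ((sq_target (gk l hl1) (gk B hb) (hTk l hl1) (hkk l hl1 B hb hl2)).1
                ((hq l ⟨hl1, hb, hl2⟩ hl1).1 m)).1) (fun l hl l' hl' => by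
              obtain ⟨hl1, hl2⟩ := mem_inter.1 hl
              obtain ⟨hl1', hl2'⟩ := mem_inter.1 hl'
              rcases ((hmB l).1 hl1).2.1.trichotomy ((hmB l').1 hl1').2.1 with h | h | h
              · exact Or.inl (hch l l' ⟨hl1, hl1', h⟩ ⟨hl1', hb, hl2'⟩)
              · exact Or.inl fun m => h ▸ Loc_sub_refl _
              · exact Or.inr (hch l' l ⟨hl1', hl1, h⟩ ⟨hl1, hb, hl2⟩))
          obtain ⟨l, hl1, hl2⟩ := hne
          exact ⟨p, h1, fun m => Loc_sub_trans ((hq l ⟨hl1, hb, hl2⟩ hl1).2.1 m)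
            (h2 l (mem_inter.2 ⟨hl1, hl2⟩) m), fun l h3 h4 => h2 l (mem_inter.2 ⟨h3, h4⟩)⟩
        · exact ⟨fun _ => k zb, fun _ => hzk B hb, fun _ => Loc_sub_refl _,
            fun l h1 h2 => absurd ⟨l, h1, h2⟩ hne⟩
      obtain ⟨p, hp1, hp2, hp3⟩ := hstart
      obtain ⟨ζ, h1, h2, h3⟩ := Loc_decide (I := (W 0).prod AA) (AA := AA) (E := powerset B) k
        (gk B hb) (hTk B hb) hinf (card_prod_le hinf hle hAc) hAc
        ((card_mono (g0.trans _ (g0.powerset_mem ((hmB B).1 hb).1))).trans hle) hp1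
      exact ⟨ζ, fun _ => ⟨h1, fun m => Loc_sub_trans (hp2 m) (h2 m), h3⟩,
        fun l hl m => Loc_sub_trans (hp3 l hl.1 hl.2.2 m) (h2 m)⟩)
  obtain ⟨ζ, hζ1, hζ2⟩ := sq_clo_seq (T' := W 1) g1 hP1 hinf BB q hBc
    (fun l hl m => ((sq_target (gk l hl) g1 (hTk l hl) (hk1 l hl)).1 ((hq1 l hl).1 m)).1)
    (fun l hl l' hl' => by
      rcases ((hmB l).1 hl).2.1.trichotomy ((hmB l').1 hl').2.1 with h | h | h
      · exact Or.inl (hq2 l l' ⟨hl, hl', h⟩)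
      · exact Or.inl fun m => h ▸ Loc_sub_refl _
      · exact Or.inr (hq2 l' l ⟨hl', hl, h⟩))
  have hζz : ∀ m, k zb ⊆ ζ m := by
    intro m
    obtain ⟨B, hb, -⟩ := ref (W 0) (Loc_sub_refl _)
    exact Loc_sub_trans ((hq1 B hb).2.1 m) (hζ2 B hb m)
  -- the recursion on `m`
  obtain ⟨f, hf1, hf2⟩ := Loc_seq (α := ZFSet.{u} × ZFSet.{u})
    (fun m s => Sq (W 0) T (W 1) s.1 ∧ xs ⊆ s.1 ∧ Sq T (W 1) (W 1) s.2 ∧ ζ m ⊆ s.2)
    (fun m s s' => (∀ y ∈ W 0, ∀ B ∈ W 0, ∀ Xb ∈ W 0,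
        NeS (SqSet T (k B) (k B)) AA (k Xb) (pair y s.1) s'.1 (q B m) (q B (m + 1)) ∨
        ∀ r, Sq (W 0) T (W 1) r → s'.1 ⊆ r →
          ¬ NeS (SqSet T (k B) (k B)) AA (k Xb) (pair y s.1) r (q B m) (q B (m + 1))) ∧
      ∀ y ∈ W 0, ∀ Xs ∈ T, (∃ z2, z2 ⊆ s'.2 ∧ ∃ z1, s.2 ⊆ z1 ∧
          SS AA (k Xs) (pair y s.1) s'.1 z1 z2) ∨
        ∀ z2, Sq T (W 1) (W 1) z2 → s'.2 ⊆ z2 →
          ¬ ∃ z1, s.2 ⊆ z1 ∧ SS AA (k Xs) (pair y s.1) s'.1 z1 z2)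
    (a0 := (xs, ζ 0)) ⟨hxs, Loc_sub_refl _, hζ1 0, Loc_sub_refl _⟩ (by
      rintro m ⟨x, z⟩ -
      obtain ⟨x', h1, h2, h3⟩ := Loc_open (I := (W 0).prod ((W 0).prod (W 0))) g1 h01 hinf0
        (card_prod_le hinf0 le_rfl (card_prod_le hinf0 le_rfl le_rfl))
        (fun t r => NeS (SqSet T (k (fst (snd t))) (k (fst (snd t)))) AA (k (snd (snd t)))
          (pair (fst t) x) r (q (fst (snd t)) m) (q (fst (snd t)) (m + 1))) hxs
      obtain ⟨z', h4, h5, h6⟩ := Loc_open (I := (W 0).prod T) g1 hP1 hinf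
        (card_prod_le hinf hle le_rfl)
        (fun t r => ∃ z1, z ⊆ z1 ∧ SS AA (k (snd t)) (pair (fst t) x) x' z1 r) (hζ1 (m + 1))
      refine ⟨(x', z'), ⟨h1, h2, h4, h5⟩, fun y hy B hb Xb hXb => ?_, fun y hy Xs hXs => ?_⟩
      · have := h3 (pair y (pair B Xb)) (pair_mem_prod.2 ⟨hy, pair_mem_prod.2 ⟨hb, hXb⟩⟩)
        simp only [fst_pair, snd_pair] at this
        exact this.imp_left fun ⟨r, h7, h8⟩ => Loc_ne_mono h8 h7
      · have := h6 (pair y Xs) (pair_mem_prod.2 ⟨hy, hXs⟩)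
        simpa only [fst_pair, snd_pair] using this)
  refine ⟨fun m => (f m).1, fun m => (f m).2, ζ, ⟨fun m => ⟨(hf1 m).1, (hf1 m).2.2.1, hζ1 m⟩, ?_⟩,
    fun m => ⟨(hf1 m).2.1, Loc_sub_trans (hζz m) (hf1 m).2.2.2⟩⟩
  intro m y hy Xs hXs xh zh hxh hzh h1 h2 H
  obtain ⟨B, hb, hR⟩ := ref Xs hXs
  obtain ⟨hb0, gb, -⟩ := (hmB B).1 hb
  have hi : pair y (f m).1 ∈ (W 0).prod AA := pair_mem_prod.2 ⟨hy, (hmA _).2 (hf1 m).1⟩
  have hqa : ∀ n, q B n ∈ SqSet T (k B) (k B) := fun n =>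
    (mem_sqSet (gk B hb) (Loc_sub_refl _)).2 ((hq1 B hb).1 n)
  have hqz : ∀ n, q B n ⊆ (f n).2 := fun n => Loc_sub_trans (hζ2 B hb n) (hf1 n).2.2.2
  have hXb : Xs ∩ B ⊆ B := fun t ht => (mem_inter.1 ht).2
  have hint : k Xs ∩ k B = k (Xs ∩ B) :=
    (Pres.map_inter hk hB (Loc_sub_trans hXs h0) (hv hb0)).symm
  have n1 : NeS (SqSet T (W 1) (W 1)) AA (k Xs) (pair y (f m).1) xh (q B m) (q B (m + 1)) :=
    ⟨(f m).2, (hmC _).2 (hf1 m).2.2.1, zh, (hmC _).2 hzh, hqz m,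
      Loc_sub_trans (hζ2 B hb (m + 1)) h2, fun x' hx' h3 => H x' ((hmA _).1 hx') h3⟩
  have n2 := (hR _ hi xh ((hmA _).2 hxh) _ (hqa m) _ (hqa (m + 1))).1 n1
  rw [hint] at n2
  have n3 := ((hf2 m).1 y hy B hb0 (Xs ∩ B) (g0.mem_of_subset hb0 hXb)).resolve_right
    fun h3 => h3 xh hxh h1 n2
  have hx1 : (f (m + 1)).1 ∈ AA := (hmA _).2 (hf1 (m + 1)).1
  have d1 := ((hq1 B hb).2.2 m (Xs ∩ B) (mem_powerset.2 hXb) _ hi _ hx1).resolve_right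
    fun h3 => h3 n3
  rw [← hint] at d1
  have d2 := (hR _ hi _ hx1 _ (hqa m) _ (hqa (m + 1))).2 d1
  obtain ⟨z1, -, z2, hz2, h3, h4, h5⟩ := d2 _ ((hmC _).2 (hf1 m).2.2.1) _
    ((hmC _).2 (hf1 (m + 1)).2.2.1) (hqz m) (hqz (m + 1))
  obtain ⟨z2', h6, z1', h7, h8⟩ := ((hf2 m).2 y hy Xs (mem_powerset.2 hXs)).resolve_right
    fun h6 => h6 z2 ((hmC _).1 hz2) h4 ⟨z1, h3, h5⟩
  exact ⟨z1', z2', h7, h6, h8 _ hx1 (Loc_sub_refl _)⟩

end Pool.Agent.P.MP_37b794_lc.I0
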