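import Pool.Agent.P.MP_37b794_lc.I0.Cmp1
import Pool.Agent.P.MP_37b794_lc.I0.Lim
import Pool.Agent.P.MP_37b794_lc.I0.Loc

/-!
The comparison of two inverse limits and the descent.
-/

universe u

set_option synthInstance.maxSize 16384

namespace Pool.Agent.P.MP_37b794_lc.I0

open ZFSet Pool.Agent.Lib.Forcing Pool.Agent.P.MP_af0a18_lc

variable {X : Set ZFSet.{u}} {W U : ℕ → ZFSet.{u}} {v : ZFSet.{u}}
  {J : ℕ → ZFSet.{u} → ZFSet.{u}}

theorem Cmp_sub_of_W (hB : Base X W v) {a : ZFSet.{u}} {n : ℕ} (ha : a ∈ W n) : a ⊆ v :=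
  hB.tower.sub_of_mem (hB.tower.Y_subset n ha)

theorem Cmp_blk_mem (hB : Base X W v) {r : ZFSet.{u}}
    (h : IsBlk (W 0) (powerset (W 0)) (W 1) r) : r ∈ W 1 :=
  h.mem (hB.gro 1) (hB.tower.mem 0)

theorem Cmp_ar_isBlk (hB : Base X W v) (hJ : Adm X W v J U) {b : ℕ → ZFSet.{u}}
    (hb : ∀ i, IsBlk (W 0) (powerset (W 0)) (W 1) (b i)) (n : ℕ) :
    ∀ i, IsBlk (W n) (powerset (W n)) (W (n + 1)) (ar J b n i) := by
  induction n with
  | zero => exact hb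
  | succ n ih =>
    intro i
    have h1 := ih (i + 1)
    have h2 : ar J b n (i + 1) ⊆ v :=
      Cmp_sub_of_W hB (h1.mem (hB.gro (n + 1)) (hB.tower.mem n))
    have h3 := ((hJ.step i).pr.isBlk_iff hB (hB.tower.Y_mem n) (hB.tower.Y_subset (n + 1)) h2).2 h1
    rw [(hJ.step i).shift, (hJ.step i).shift] at h3
    exact h3

theorem asm_inP (hB : Base X W v) (hJ : Adm X W v J U) {b : ℕ → ZFSet.{u}}
    (hb : ∀ i, IsBlk (W 0) (powerset (W 0)) (W 1) (b i)) (i : ℕ) : InP (PiOf W) (asm J b i) :=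
  inP_of_isBlk hB.tower fun n => Cmp_ar_isBlk hB hJ hb n i

theorem Cmp_ar_mem (hB : Base X W v) (hJ : Adm X W v J U) {b : ℕ → ZFSet.{u}}
    (hb : ∀ i, b i ∈ W 1) (n : ℕ) : ∀ i, ar J b n i ∈ W (n + 1) := by
  induction n with
  | zero => exact hb
  | succ n ih =>
    intro i
    have h1 := ((hJ.step i).pr.mem_iff hB (Cmp_sub_of_W hB (ih (i + 1)))
      (hB.tower.Y_subset (n + 1))).2 (ih (i + 1))
    rw [(hJ.step i).shift] at h1
    exact h1

theorem Cmp_ar_congr {b b' : ℕ → ZFSet.{u}} (n : ℕ) :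
    ∀ i, b (i + n) = b' (i + n) → ar J b n i = ar J b' n i := by
  induction n with
  | zero => exact fun i h => h
  | succ n ih =>
    intro i h
    have h1 : i + (n + 1) = i + 1 + n := by omega
    rw [h1] at h
    change J i (ar J b n (i + 1)) = J i (ar J b' n (i + 1))
    rw [ih (i + 1) h]

theorem asm_subS (hB : Base X W v) (hJ : Adm X W v J U) {b b' : ℕ → ZFSet.{u}}
    (hb : ∀ i, b i ∈ W 1) {n : ℕ} (h : ∀ i, n ≤ i → b i = b' i) :
    SubS v (asm J b 0) (asm J b' 0) := by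
  refine ⟨W n, hB.tower.Y_mem n, fun w hw => ?_⟩
  rw [mem_sdiff] at hw
  obtain ⟨m, hm⟩ := mem_iUnion.1 hw.1
  by_cases hmn : n ≤ m
  · rw [Cmp_ar_congr (b' := b') m 0 (h _ (by omega))] at hm
    exact mem_iUnion.2 ⟨m, hm⟩
  · exact absurd (hB.tower.mono (by omega : m + 1 ≤ n)
      (hB.tower.trans (m + 1) _ (Cmp_ar_mem hB hJ hb m 0) hm)) hw.2

/-- The image of a condition has no element in `W 1`. -/
theorem Cmp_notMem (hB : Base X W v) {k : ZFSet.{u} → ZFSet.{u}} (hk : Pr X v k)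
    (hW : k (W 0) = W 1) {q w : ZFSet.{u}} (hq : InP (PiOf W) q) (hw : w ∈ k q) : w ∉ W 1 := by
  intro h1
  have h2 : q ∩ W 0 = ∅ := by
    rw [ZFSet.eq_empty]
    intro y hy
    rw [mem_inter] at hy
    exact hq.notMem hB.tower hy.1 hy.2
  have h3 := hk.map_inter hB (hq.subset hB.tower) (hB.tower.Y_subset 0)
  rw [h2, hk.map_empty hB, hW] at h3
  have h4 : w ∈ k q ∩ W 1 := mem_inter.2 ⟨hw, h1⟩
  rw [← h3] at h4
  exact notMem_empty _ h4

theorem Cmp_inter (hB : Base X W v) {y a b : ZFSet.{u}} (hy : y ∈ W 0) :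
    (y ∪ blk (W 0) (powerset (W 0)) a b) ∩ W 0 = y := by
  ext w
  rw [mem_inter, mem_union]
  constructor
  · rintro ⟨h1 | h1, h2⟩
    · exact h1
    · exact absurd h2 (notMem_of_mem_blk (hB.tower.trans 0) h1)
  · exact fun h => ⟨Or.inl h, hB.tower.trans 0 _ hy h⟩

/-- Upper bound for a thread. -/
theorem Cmp_upper {K : ℕ → ZFSet.{u} → ZFSet.{u}} (hB : Base X W v) (hK : Adm X W v K U)
    {bar : ZFSet.{u}} {y r t : ℕ → ZFSet.{u}} (hy : ∀ i, y i ∈ W 0)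
    (hbar : ∀ i, push K U bar i ∩ W 1 = y i ∪ r i) (ht : ∀ i, t i ⊆ v) (hr : ∀ i, r i ⊆ t i)
    (h2 : ∀ i, K i (t (i + 1)) ⊆ t i) : SubS v (push K U bar 0) (t 0) := by
  have hs : ∀ i, push K U bar i \ W 0 ⊆ v := fun i w hw =>
    hK.push_sub hB bar i (mem_sdiff.1 hw).1
  refine ⟨W 0, hB.tower.Y_mem 0, le_lemma hB (fun i => (hK.step i).pr)
    (fun i => (hK.step i).shift) (a := fun i => push K U bar i \ W 0) hs ht ?_ h2 0⟩
  intro i w hw
  rw [mem_sdiff] at hw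
  by_cases h1 : w ∈ W 1
  · have h3 : w ∈ push K U bar i ∩ W 1 := mem_inter.2 ⟨hw.1, h1⟩
    rw [hbar, mem_union] at h3
    rcases h3 with h3 | h3
    · exact absurd (hB.tower.trans 0 _ (hy i) h3) hw.2
    · exact Or.inl (hr i h3)
  · refine Or.inr ⟨h1, ?_⟩
    rw [(hK.step i).pr.map_sdiff hB (hK.push_sub hB bar (i + 1)) (hB.tower.Y_subset 0),
      hK.push_step hB, (hK.step i).shift]
    exact mem_sdiff.2 ⟨hw.1, h1⟩

/-- Lower bound for a thread. -/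
theorem Cmp_lower {K : ℕ → ZFSet.{u} → ZFSet.{u}} (hB : Base X W v) (hK : Adm X W v K U)
    {bar : ZFSet.{u}} {y r a : ℕ → ZFSet.{u}}
    (hbar : ∀ i, push K U bar i ∩ W 1 = y i ∪ r i) (ha : ∀ i, a i ⊆ v)
    (h1 : ∀ i, ∀ w ∈ a i, w ∈ r i ∨ (w ∉ W 1 ∧ w ∈ K i (a (i + 1)))) :
    SubS v (a 0) (push K U bar 0) := by
  refine hB.tower.subS_of_subset (le_lemma hB (fun i => (hK.step i).pr)
    (fun i => (hK.step i).shift) ha (hK.push_sub hB bar) ?_
    (fun i => by rw [hK.push_step hB]) 0)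
  intro i w hw
  refine (h1 i w hw).imp_left fun h2 => ?_
  have h3 : w ∈ y i ∪ r i := mem_union.2 (Or.inr h2)
  rw [← hbar, mem_inter] at h3
  exact h3.1

theorem Cmp_rec {S O : Type*} (P : ℕ → S → Prop) (R : ℕ → S → O → S → Prop) (s0 : S)
    (h0 : P 0 s0) (h : ∀ i s, P i s → ∃ o s', P (i + 1) s' ∧ R i s o s') :
    ∃ (s : ℕ → S) (o : ℕ → O), s 0 = s0 ∧ (∀ i, P i (s i)) ∧ ∀ i, R i (s i) (o i) (s (i + 1)) := by
  choose o s' h1 h2 using h
  let s : ∀ i, {s // P i s} := fun i =>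
    Nat.rec (motive := fun i => {s // P i s}) ⟨s0, h0⟩ (fun i t => ⟨s' i t.1 t.2, h1 i t.1 t.2⟩) i
  exact ⟨fun i => (s i).1, fun i => o i (s i).1 (s i).2, rfl, fun i => (s i).2,
    fun i => h2 i (s i).1 (s i).2⟩

theorem Cmp_push_cons (K : ℕ → ZFSet.{u} → ZFSet.{u}) (a b : ZFSet.{u}) (e : Env.{u}) :
    (fun i => push K U (cons a (cons b e) i) 0) =
      cons (push K U a 0) (cons (push K U b 0) fun i => push K U (e i) 0) := by
  funext i
  rcases i with _ | _ | i <;> rfl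

/-- The comparison lemma. -/
theorem cmp (hB : Base X W v) (hJ : Adm X W v J U) (h1 : ∀ i, Lv X v 1 (J i)) (ψ : Fml)
    {eb : Env.{u}} (hG : GoodAt X W v J U (Set.range eb)) {p : ZFSet.{u}}
    (hce : CE (powerset v) v (PiOf W) p
      (fun q h => Sat X ψ (cons q (cons h fun i => push J U (eb i) 0))))
    {x z ζ : ℕ → ℕ → ZFSet.{u}} (hloc : ∀ i, Loc W (J i) (x i) (z i) (ζ i)) (f : ℕ → ℕ)
    (hp : p ⊆ asm J (fun i => blk (W 0) (powerset (W 0)) (x i (f i)) (z i (f i))) 0) :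
    Sat X ψ (cons (asm J (fun i => blk (W 0) (powerset (W 0)) (x i (f i)) (z i (f i))) 0)
      (cons (asm J (fun i => blk (W 0) (powerset (W 0)) (x i (f i + 1)) (z i (f i + 1))) 0)
        fun i => push J U (eb i) 0)) := by
  obtain ⟨-, -, hmono, hunb, -⟩ := hce
  have hJp : ∀ i, Pr X v (J i) := fun i => (hJ.step i).pr
  set gb : ℕ → ZFSet.{u} := fun i => blk (W 0) (powerset (W 0)) (x i (f i)) (z i (f i)) with hgb
  set gb2 : ℕ → ZFSet.{u} :=
    fun i => blk (W 0) (powerset (W 0)) (x i (f i + 1)) (z i (f i + 1)) with hgb2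
  set qb : ℕ → ZFSet.{u} :=
    fun i => blk (W 0) (powerset (W 0)) (x i (f i + 1)) (ζ i (f i + 1)) with hqb
  have b1 : ∀ i, IsBlk (W 0) (powerset (W 0)) (W 1) (gb i) := fun i =>
    isBlk_blk ((hloc i).1 _).1 ((hloc i).1 _).2.1
  have b2 : ∀ i, IsBlk (W 0) (powerset (W 0)) (W 1) (gb2 i) := fun i =>
    isBlk_blk ((hloc i).1 _).1 ((hloc i).1 _).2.1
  have b3 : ∀ i, IsBlk (W 0) (powerset (W 0)) (W 1) (qb i) := fun i =>
    isBlk_blk ((hloc i).1 _).1 ((hloc i).1 _).2.2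
  have p1 := asm_inP hB hJ b1
  have p2 := asm_inP hB hJ b2
  have p3 := asm_inP hB hJ b3
  have s1 : ∀ i, asm J gb i ⊆ v := fun i => (p1 i).subset hB.tower
  have s2 : ∀ i, asm J gb2 i ⊆ v := fun i => (p2 i).subset hB.tower
  have s3 : ∀ i, asm J qb i ⊆ v := fun i => (p3 i).subset hB.tower
  have e1 := asm_eq hB hJp fun i => Cmp_sub_of_W hB (Cmp_blk_mem hB (b1 i))
  have e2 := asm_eq hB hJp fun i => Cmp_sub_of_W hB (Cmp_blk_mem hB (b2 i))
  have e3 := asm_eq hB hJp fun i => Cmp_sub_of_W hB (Cmp_blk_mem hB (b3 i))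
  obtain ⟨h0, h0A, h0P, h0Q, hR0⟩ := hunb (asm J gb 0) (mem_powerset.2 (s1 0)) (p1 0)
    (hB.tower.subS_of_subset hp) (asm J qb 0) (mem_powerset.2 (s3 0)) (p3 0)
  obtain ⟨l, hl, hl'⟩ := hJ.exists_lev hB (n := 0) fun i _ => h1 i
  obtain ⟨s, o, hs0, hP, hR⟩ := Cmp_rec
    (S := ZFSet.{u} × ZFSet.{u} × ZFSet.{u})
    (O := (ZFSet.{u} → ZFSet.{u}) × (ZFSet.{u} → ZFSet.{u}) × ZFSet.{u} × ZFSet.{u} × ZFSet.{u})
    (fun i s => s.1 ∈ W 0 ∧ s.2.1 ∈ W 0 ∧ InP (PiOf W) s.2.2 ∧ asm J qb i ⊆ s.2.2)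
    (fun i s o s' =>
      (Step X W v (U i) (U (i + 1)) o.1 ∧ Lv X v (l i) o.1 ∧
        o.1 (asm J gb (i + 1)) = J i (asm J gb (i + 1)) ∧
        ∀ n, o.1 (push J U (eb n) (i + 1)) = J i (push J U (eb n) (i + 1))) ∧
      (Step X W v (U i) (U (i + 1)) o.2.1 ∧ Lv X v (l i) o.2.1 ∧
        o.2.1 (asm J gb (i + 1)) = J i (asm J gb (i + 1)) ∧
        o.2.1 (asm J gb2 (i + 1)) = J i (asm J gb2 (i + 1)) ∧
        ∀ n, o.2.1 (push J U (eb n) (i + 1)) = J i (push J U (eb n) (i + 1))) ∧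
      o.1 s'.2.2 = s.2.2 \ W 1 ∧ sec s.2.2 (W 0) ⊆ o.2.2.1 ∧ z i (f i) ⊆ o.2.2.2.1 ∧
      o.2.2.2.2 ⊆ z i (f i + 1) ∧
      o.1 s'.1 = s.1 ∪ blk (W 0) (powerset (W 0)) (x i (f i)) (z i (f i)) ∧
      o.1 s'.2.1 = s.2.1 ∪ blk (W 0) (powerset (W 0)) o.2.2.1 (sec s.2.2 (powerset (W 0))) ∧
      o.2.1 s'.1 = s.1 ∪ blk (W 0) (powerset (W 0)) (x i (f i)) o.2.2.2.1 ∧
      o.2.1 s'.2.1 = s.2.1 ∪ blk (W 0) (powerset (W 0)) (x i (f i + 1)) o.2.2.2.2)
    (∅, ∅, h0) ⟨hB.gro0.empty_mem, hB.gro0.empty_mem, h0P, h0Q⟩ (by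
      rintro i ⟨yg, yh, h⟩ ⟨hyg, hyh, hh, hQ⟩
      have hq : qb i ⊆ h := fun w hw => hQ (by rw [e3]; exact mem_union.2 (Or.inl hw))
      have hF : ∀ n, cons (asm J gb (i + 1)) (cons (asm J gb2 (i + 1)) (cons (asm J qb (i + 1))
          fun n => push J U (eb n) (i + 1))) n ⊆ v := by
        intro n
        rcases n with _ | _ | _ | n
        exacts [s1 _, s2 _, s3 _, hJ.push_sub hB _ _]
      obtain ⟨k, k', yg', yh', h', x1, z1, z2, c1, c2, c3, c4, c5, c6, c7, c8, c9, c10, c11⟩ :=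
        cmp_step hB (hJ.step i) (hJ.mem i) (hJ.mem (i + 1)) (hl i (Nat.zero_le i)) (hloc i) (f i)
          _ hF hyg hyh hh
          (fun t ht => mem_sec.2 (hq (mem_blk.2 (Or.inl ⟨t, ht, rfl⟩))))
          (fun t ht => mem_sec.2 (hq (mem_blk.2 (Or.inr ⟨t, ht, rfl⟩))))
      refine ⟨(k, k', x1, z1, z2), (yg', yh', h'), ⟨c7, c8, c9, ?_⟩,
        ⟨c1, c2, c3 0, fun n => c3 (n + 3)⟩, ⟨c4, c5, c6 0, c6 1, fun n => c6 (n + 3)⟩, c10, c11⟩
      refine (c1.pr.subset_iff hB (s3 _) (c9.subset hB.tower)).1 fun w hw => ?_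
      have hw' : w ∈ J i (asm J qb (i + 1)) := (c3 2 : k (asm J qb (i + 1)) = _) ▸ hw
      rw [c10]
      exact mem_sdiff.2 ⟨hQ (by rw [e3]; exact mem_union.2 (Or.inr hw')),
        Cmp_notMem hB c1.pr (c1.shift 0) (p3 _) hw⟩)
  have hK : Adm X W v (fun i => (o i).1) U :=
    ⟨fun i => (hR i).1.1, hJ.mem, hJ.trans, fun m => (hl' m).imp fun i0 hi i h =>
      (hR i).1.2.1.mono (hi i h)⟩
  have hK' : Adm X W v (fun i => (o i).2.1) U :=
    ⟨fun i => (hR i).2.1.1, hJ.mem, hJ.trans, fun m => (hl' m).imp fun i0 hi i h =>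
      (hR i).2.1.2.1.mono (hi i h)⟩
  have a1 : ∀ n, push (fun i => (o i).1) U (eb n) 0 = push J U (eb n) 0 := fun n =>
    hJ.push_congr hB hK (fun i => (hR i).1.2.2.2 n) 0
  have a2 : ∀ n, push (fun i => (o i).2.1) U (eb n) 0 = push J U (eb n) 0 := fun n =>
    hJ.push_congr hB hK' (fun i => (hR i).2.1.2.2.2.2 n) 0
  have hyg : ∀ i, (s i).1 ∈ W 0 := fun i => (hP i).1
  have hyh : ∀ i, (s i).2.1 ∈ W 0 := fun i => (hP i).2.1
  have r1 := fun i => (hR i).2.2.2.2.2.2.1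
  have r2 := fun i => (hR i).2.2.2.2.2.2.2.1
  have r3 := fun i => (hR i).2.2.2.2.2.2.2.2.1
  have r4 := fun i => (hR i).2.2.2.2.2.2.2.2.2
  have q1 := fun i => (hK.exists_bar hB (y := fun i => (s i).1) hyg
    (fun i => by rw [r1 i]; exact Cmp_inter hB (hyg i)) i).trans (r1 i)
  have q2 := fun i => (hK.exists_bar hB (y := fun i => (s i).2.1) hyh
    (fun i => by rw [r2 i]; exact Cmp_inter hB (hyh i)) i).trans (r2 i)
  have q3 := fun i => (hK'.exists_bar hB (y := fun i => (s i).1) hyg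
    (fun i => by rw [r3 i]; exact Cmp_inter hB (hyg i)) i).trans (r3 i)
  have q4 := fun i => (hK'.exists_bar hB (y := fun i => (s i).2.1) hyh
    (fun i => by rw [r4 i]; exact Cmp_inter hB (hyh i)) i).trans (r4 i)
  have i1 := Cmp_upper hB hK (t := asm J gb) hyg q1 s1
    (fun i w hw => by rw [e1]; exact mem_union.2 (Or.inl hw))
    (fun i w hw => by
      rw [(hR i).1.2.2.1] at hw
      rw [e1]; exact mem_union.2 (Or.inr hw))
  have i2 := Cmp_lower hB hK (a := fun i => (s i).2.2) q2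
    (fun i => (hP i).2.2.1.subset hB.tower) (fun i w hw => by
      by_cases hw1 : w ∈ W 1
      · refine Or.inl (blk_mono (hR i).2.2.2.1 (fun _ h => h) ?_)
        rw [← (hP i).2.2.1.block_eq hB.tower 0]
        exact mem_sdiff.2 ⟨mem_inter.2 ⟨hw, hw1⟩, (hP i).2.2.1.notMem hB.tower hw⟩
      · refine Or.inr ⟨hw1, ?_⟩
        rw [(hR i).2.2.1]
        exact mem_sdiff.2 ⟨hw, hw1⟩)
  have i3 := Cmp_lower hB hK' (a := asm J gb) q3 s1 (fun i w hw => by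
      rw [e1, mem_union] at hw
      rcases hw with hw | hw
      · exact Or.inl (blk_mono (fun _ h => h) (hR i).2.2.2.2.1 hw)
      · refine Or.inr ⟨Cmp_notMem hB (hJp i) ((hJ.step i).shift 0) (p1 _) hw, ?_⟩
        rw [(hR i).2.1.2.2.1]
        exact hw)
  have i4 := Cmp_upper hB hK' (t := asm J gb2) hyh q4 s2
    (fun i w hw => by
      rw [e2]; exact mem_union.2 (Or.inl (blk_mono (fun _ h => h) (hR i).2.2.2.2.2.1 hw)))
    (fun i w hw => by
      rw [(hR i).2.1.2.2.2.1] at hw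
      rw [e2]; exact mem_union.2 (Or.inr hw))
  rw [hs0] at i2
  have m1 := hmono _ (mem_powerset.2 (s1 0)) _ h0A hR0 _ (mem_powerset.2 (hK.push_sub hB _ 0)) _
    (mem_powerset.2 (hK.push_sub hB _ 0)) i1 i2
  have g1 := hG _ hK (by rintro _ ⟨n, rfl⟩; exact a1 n) ψ
    (cons (iUnion fun n => (s n).1 ∩ U n) (cons (iUnion fun n => (s n).2.1 ∩ U n) eb))
  have g2 := hG _ hK' (by rintro _ ⟨n, rfl⟩; exact a2 n) ψ
    (cons (iUnion fun n => (s n).1 ∩ U n) (cons (iUnion fun n => (s n).2.1 ∩ U n) eb))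
  have g3 := g1.trans g2.symm
  rw [Cmp_push_cons, Cmp_push_cons, funext a1, funext a2] at g3
  exact hmono _ (mem_powerset.2 (hK'.push_sub hB _ 0)) _ (mem_powerset.2 (hK'.push_sub hB _ 0))
    (g3.1 m1) _ (mem_powerset.2 (s1 0)) _ (mem_powerset.2 (s2 0)) i3 i4

theorem Cmp_thread_inP (hB : Base X W v) (hJ : Adm X W v J U) {pb : ZFSet.{u}}
    (hp : InP (PiOf W) (push J U pb 0)) (i : ℕ) : InP (PiOf W) (push J U pb i \ W 0) := by
  induction i with
  | zero => exact hp.sdiff hB.tower 0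
  | succ i ih =>
    have hk := (hJ.step i).pr
    have h1 : J i (push J U pb (i + 1) \ W 0) = (push J U pb i \ W 0) \ W 1 := by
      rw [hk.map_sdiff hB (hJ.push_sub hB pb (i + 1)) (hB.tower.Y_subset 0), hJ.push_step hB,
        (hJ.step i).shift]
      ext w
      simp only [mem_sdiff]
      exact ⟨fun h => ⟨⟨h.1, fun h' => h.2 (hB.tower.mono (Nat.zero_le _) h')⟩, h.2⟩,
        fun h => ⟨h.1.1, h.2⟩⟩
    have h2 : J i (PiOf W) = PiOf fun n => W (n + 1) := by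
      rw [hk.map_piOf hB hB.tower.Y_mem, funext (hJ.step i).shift]
    refine (hk.inP_iff hB (piOf_subset hB.tower)
      (fun w hw => hJ.push_sub hB pb (i + 1) (mem_sdiff.1 hw).1)).1 ?_
    rw [h1, h2]
    exact (inP_shift hB.tower).2 ⟨ih.sdiff hB.tower 1, fun w hw => (mem_sdiff.1 hw).2⟩

theorem bl0 (hB : Base X W v) {j : ZFSet.{u} → ZFSet.{u}} (hj : Pr X v j) (hjW : j (W 0) = W 1)
    (hfix : ∀ x ∈ W 0, j x = x) (hJ : Adm X W v J U) (h1 : ∀ i, Lv X v 1 (J i)) (ψ : Fml)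
    {eb : Env.{u}} (hG : GoodAt X W v J U (Set.range eb)) {pb : ZFSet.{u}}
    (hce : CE (powerset v) v (PiOf W) (push J U pb 0)
      (fun q h => Sat X ψ (cons q (cons h fun i => push J U (eb i) 0)))) : False := by
  have hJp : ∀ i, Pr X v (J i) := fun i => (hJ.step i).pr
  have hp := hce.2.1
  have ha := Cmp_thread_inP hB hJ hp
  have hsq := fun i => ((inP_iff hB.tower).1 (ha i)).2 0
  have hloc : ∀ i, ∃ x z ζ : ℕ → ZFSet.{u}, Loc W (J i) x z ζ ∧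
      ∀ m, sec (push J U pb i \ W 0) (W 0) ⊆ x m ∧
        sec (push J U pb i \ W 0) (powerset (W 0)) ⊆ z m := by
    intro i
    have hU := hJ.U_mem_v hB (i + 1)
    have hs : push J U pb (i + 1) \ U (i + 1) ⊆ v := fun w hw =>
      hJ.push_sub hB pb (i + 1) (mem_sdiff.1 hw).1
    have e1 : J i (sec (push J U pb (i + 1) \ U (i + 1)) (powerset (U (i + 1)))) =
        sec (push J U pb i \ W 0) (powerset (W 0)) := by
      rw [(hJp i).map_sec hB hs (hB.tower.sub_of_mem (hB.tower.powerset_mem hU)),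
        (hJp i).map_sdiff hB (hJ.push_sub hB pb (i + 1)) (hB.tower.sub_of_mem hU),
        (hJp i).map_powerset hB hU, hJ.push_step hB, (hJ.step i).top]
    have e2 : sec (push J U pb (i + 1) \ U (i + 1)) (powerset (U (i + 1))) ∈ W 0 := by
      refine ((hJp i).mem_iff hB (hB.tower.sec_subset hs _) (hB.tower.Y_subset 0)).1 ?_
      rw [e1, (hJ.step i).shift]
      exact (hsq i).2.mem (hB.gro 1) fun _ h => h
    have := exists_loc hB hj hjW hfix (hJp i) (hJ.mem (i + 1)) (hJ.step i).top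
      ((hJ.step i).shift 0) (hsq i).1 e2 (by rw [e1]; exact (hsq i).2)
    rwa [e1] at this
  choose x z ζ hloc hxz using hloc
  have b1 : ∀ (f : ℕ → ℕ) i, IsBlk (W 0) (powerset (W 0)) (W 1)
      (blk (W 0) (powerset (W 0)) (x i (f i)) (z i (f i))) := fun f i =>
    isBlk_blk ((hloc i).1 _).1 ((hloc i).1 _).2.1
  have s1 : ∀ (f : ℕ → ℕ) i,
      asm J (fun i => blk (W 0) (powerset (W 0)) (x i (f i)) (z i (f i))) i ⊆ v := fun f i =>
    (asm_inP hB hJ (b1 f) i).subset hB.tower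
  have hsub : ∀ f : ℕ → ℕ, push J U pb 0 ⊆
      asm J (fun i => blk (W 0) (powerset (W 0)) (x i (f i)) (z i (f i))) 0 := by
    intro f w hw
    have e1 := asm_eq hB hJp fun i => Cmp_sub_of_W hB (Cmp_blk_mem hB (b1 f i))
    refine le_lemma hB hJp (fun i => (hJ.step i).shift) (a := fun i => push J U pb i \ W 0)
      (fun i => (ha i).subset hB.tower) (s1 f) ?_
      (fun i w hw => by rw [e1]; exact mem_union.2 (Or.inr hw)) 0
      (mem_sdiff.2 ⟨hw, hp.notMem hB.tower hw⟩)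
    intro i w hw
    by_cases hw1 : w ∈ W 1
    · refine Or.inl ?_
      rw [e1]
      refine mem_union.2 (Or.inl (blk_mono (hxz i _).1 (hxz i _).2 ?_))
      rw [← (ha i).block_eq hB.tower 0]
      exact mem_sdiff.2 ⟨mem_inter.2 ⟨hw, hw1⟩, (mem_sdiff.1 hw).2⟩
    · refine Or.inr ⟨hw1, ?_⟩
      rw [(hJp i).map_sdiff hB (hJ.push_sub hB pb (i + 1)) (hB.tower.Y_subset 0),
        hJ.push_step hB, (hJ.step i).shift]
      exact mem_sdiff.2 ⟨(mem_sdiff.1 hw).1, hw1⟩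
  refine hce.2.2.2.2 ⟨seqc fun k =>
    asm J (fun i => blk (W 0) (powerset (W 0)) (x i (i - k)) (z i (i - k))) 0,
    mem_powerset.2 (hB.tower.seqc_subset fun k => s1 (fun i => i - k) 0), fun n hn => ?_⟩
  obtain ⟨k, rfl⟩ := mem_omega_iff.1 hn
  have e0 : (insert (nat k) (nat k) : ZFSet.{u}) = nat (k + 1) := rfl
  rw [e0, sec_seqc, sec_seqc]
  have c1 := cmp hB hJ h1 ψ hG hce hloc (fun i => i - (k + 1)) (hsub _)
  refine hce.2.2.1 _ (mem_powerset.2 (s1 (fun i => i - (k + 1)) 0)) _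
    (mem_powerset.2 (s1 (fun i => i - (k + 1) + 1) 0)) c1 _
    (mem_powerset.2 (s1 (fun i => i - (k + 1)) 0)) _ (mem_powerset.2 (s1 (fun i => i - k) 0))
    (hB.tower.subS_of_subset fun _ h => h) ?_
  refine asm_subS hB hJ (n := k + 1)
    (fun i => Cmp_blk_mem hB (b1 (fun i => i - (k + 1) + 1) i)) fun i hi => ?_
  have e1 : i - (k + 1) + 1 = i - k := by omega
  simp only [e1]

end Pool.Agent.P.MP_37b794_lc.I0
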