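import Pool.Agent.P.MP_37b794_lc.I0.Sq

/-!
The product over a tower and invariance under a shift.
-/

universe u

set_option synthInstance.maxSize 16384

namespace Pool.Agent.P.MP_37b794_lc.I0

open ZFSet Pool.Agent.Lib.Forcing Pool.Agent.P.MP_af0a18_lc

section InP
variable {Y : ℕ → ZFSet.{u}} {v p q y : ZFSet.{u}}

theorem Cond_Y_inj (hY : Tower Y v) {m n : ℕ} (h : Y m = Y n) : m = n := by
  rcases lt_trichotomy m n with h1 | h1 | h1
  · exact absurd (h ▸ hY.mem_of_lt h1) (mem_irrefl _)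
  · exact h1
  · exact absurd (h ▸ hY.mem_of_lt h1) (mem_irrefl _)

theorem Cond_Y_ne_pow (hY : Tower Y v) (m n : ℕ) : Y m ≠ powerset (Y n) := by
  intro h
  rcases lt_or_ge n m with h1 | h1
  · exact absurd (h ▸ hY.powerset_mem_of_lt h1) (mem_irrefl _)
  · have h2 : Y n ∈ Y m := by rw [h]; exact mem_powerset.2 fun _ hx => hx
    exact mem_irrefl _ (hY.mono h1 h2)

theorem Cond_pow_inj (hY : Tower Y v) {m n : ℕ} (h : powerset (Y m) = powerset (Y n)) : m = n := by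
  apply Cond_Y_inj hY
  have h1 : Y m ∈ powerset (Y n) := by rw [← h]; exact mem_powerset.2 fun _ hx => hx
  have h2 : Y n ∈ powerset (Y m) := by rw [h]; exact mem_powerset.2 fun _ hx => hx
  ext z
  exact ⟨fun hz => mem_powerset.1 h1 hz, fun hz => mem_powerset.1 h2 hz⟩

theorem Cond_pair_mem_PiOf {T c : ZFSet.{u}} : pair T c ∈ PiOf Y ↔
    ∃ n, (T = Y n ∧ c = pair (powerset (Y n)) (Y (n + 1))) ∨
      (T = powerset (Y n) ∧ c = pair (Y (n + 1)) (Y (n + 1))) := by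
  rw [PiOf, mem_union, mem_range, mem_range]
  constructor
  · rintro (⟨n, h⟩ | ⟨n, h⟩)
    · obtain ⟨h1, h2⟩ := pair_inj.1 h
      exact ⟨n, Or.inl ⟨h1.symm, h2.symm⟩⟩
    · obtain ⟨h1, h2⟩ := pair_inj.1 h
      exact ⟨n, Or.inr ⟨h1.symm, h2.symm⟩⟩
  · rintro ⟨n, ⟨rfl, rfl⟩ | ⟨rfl, rfl⟩⟩
    · exact Or.inl ⟨n, rfl⟩
    · exact Or.inr ⟨n, rfl⟩

theorem inP_iff (hY : Tower Y v) : InP (PiOf Y) q ↔
    (∀ w ∈ q, ∃ n s, w = pair (Y n) s ∨ w = pair (powerset (Y n)) s) ∧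
      ∀ n, Sq (Y n) (powerset (Y n)) (Y (n + 1)) (sec q (Y n)) ∧
        Sq (powerset (Y n)) (Y (n + 1)) (Y (n + 1)) (sec q (powerset (Y n))) := by
  have _h := hY
  constructor
  · rintro ⟨h1, h2⟩
    refine ⟨fun w hw => ?_, fun n => ⟨?_, ?_⟩⟩
    · obtain ⟨a, s, rfl, c, hc⟩ := h1 w hw
      obtain ⟨n, ⟨rfl, -⟩ | ⟨rfl, -⟩⟩ := Cond_pair_mem_PiOf.1 hc
      · exact ⟨n, s, Or.inl rfl⟩
      · exact ⟨n, s, Or.inr rfl⟩
    · have := h2 _ _ (Cond_pair_mem_PiOf.2 ⟨n, Or.inl ⟨rfl, rfl⟩⟩)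
      rwa [fst_pair, snd_pair] at this
    · have := h2 _ _ (Cond_pair_mem_PiOf.2 ⟨n, Or.inr ⟨rfl, rfl⟩⟩)
      rwa [fst_pair, snd_pair] at this
  · rintro ⟨h1, h2⟩
    refine ⟨fun w hw => ?_, fun T c hc => ?_⟩
    · obtain ⟨n, s, rfl | rfl⟩ := h1 w hw
      · exact ⟨_, s, rfl, _, Cond_pair_mem_PiOf.2 ⟨n, Or.inl ⟨rfl, rfl⟩⟩⟩
      · exact ⟨_, s, rfl, _, Cond_pair_mem_PiOf.2 ⟨n, Or.inr ⟨rfl, rfl⟩⟩⟩
    · obtain ⟨n, ⟨rfl, rfl⟩ | ⟨rfl, rfl⟩⟩ := Cond_pair_mem_PiOf.1 hc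
      · rw [fst_pair, snd_pair]; exact (h2 n).1
      · rw [fst_pair, snd_pair]; exact (h2 n).2

theorem piOf_subset (hY : Tower Y v) : PiOf Y ⊆ v := by
  intro z hz
  rw [PiOf, mem_union, mem_range, mem_range] at hz
  have h1 : ∀ n, powerset (Y n) ∈ v := fun n => hY.powerset_mem (hY.Y_mem n)
  rcases hz with ⟨n, rfl⟩ | ⟨n, rfl⟩
  · exact hY.pair_mem (hY.Y_mem n) (hY.pair_mem (h1 n) (hY.Y_mem _))
  · exact hY.pair_mem (h1 n) (hY.pair_mem (hY.Y_mem _) (hY.Y_mem _))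

theorem Cond_pow_mem (hY : Tower Y v) (n : ℕ) : powerset (Y n) ∈ Y (n + 1) :=
  hY.powerset_mem_of_lt (Nat.lt_succ_self n)

theorem Cond_tag_notMem (hY : Tower Y v) {m : ℕ} {a s : ZFSet.{u}}
    (ha : a = Y m ∨ a = powerset (Y m)) : pair a s ∉ Y m := by
  have hs : s ∈ ({s} : ZFSet.{u}) := mem_singleton.2 rfl
  refine notMem_of_mem_blk (x := {s}) (z := {s}) (hY.trans m) (mem_blk.2 ?_)
  rcases ha with rfl | rfl
  · exact Or.inl ⟨s, hs, rfl⟩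
  · exact Or.inr ⟨s, hs, rfl⟩

theorem Cond_tag_mem (h : InP (PiOf Y) q) (hY : Tower Y v) {m : ℕ} {a s : ZFSet.{u}}
    (ha : a = Y m ∨ a = powerset (Y m)) (hw : pair a s ∈ q) : pair a s ∈ Y (m + 1) := by
  have hG := hY.univ m
  have h2 := ((inP_iff hY).1 h).2 m
  rcases ha with rfl | rfl
  · have h3 := h2.1.mem hG (hG.trans.subset_of_mem (Cond_pow_mem hY m))
    exact hG.pair_mem (hY.mem m) (hG.mem_trans h3 (mem_sec.2 hw))
  · have h3 := h2.2.mem hG (fun _ hx => hx)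
    exact hG.pair_mem (Cond_pow_mem hY m) (hG.mem_trans h3 (mem_sec.2 hw))

theorem Cond_tag_iff (h : InP (PiOf Y) q) (hY : Tower Y v) {m : ℕ} {a s : ZFSet.{u}}
    (ha : a = Y m ∨ a = powerset (Y m)) (hw : pair a s ∈ q) (n : ℕ) : pair a s ∈ Y n ↔ m < n := by
  constructor
  · intro h1
    by_contra h2
    exact Cond_tag_notMem hY ha (hY.mono (not_lt.1 h2) h1)
  · intro h1
    exact hY.mono h1 (Cond_tag_mem h hY ha hw)

theorem Cond_elt (h : InP (PiOf Y) q) (hY : Tower Y v) {w : ZFSet.{u}} (hw : w ∈ q) :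
    ∃ m a s, w = pair a s ∧ (a = Y m ∨ a = powerset (Y m)) := by
  obtain ⟨n, s, rfl | rfl⟩ := ((inP_iff hY).1 h).1 w hw
  · exact ⟨n, _, s, rfl, Or.inl rfl⟩
  · exact ⟨n, _, s, rfl, Or.inr rfl⟩

theorem Cond_tag_eq (hY : Tower Y v) {m n : ℕ} {a : ZFSet.{u}}
    (hm : a = Y m ∨ a = powerset (Y m)) (hn : a = Y n ∨ a = powerset (Y n)) : m = n := by
  rcases hm with rfl | rfl
  · rcases hn with hn | hn
    · exact Cond_Y_inj hY hn
    · exact absurd hn (Cond_Y_ne_pow hY _ _)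
  · rcases hn with hn | hn
    · exact absurd hn.symm (Cond_Y_ne_pow hY _ _)
    · exact Cond_pow_inj hY hn

theorem InP.subset (h : InP (PiOf Y) q) (hY : Tower Y v) : q ⊆ v := by
  intro w hw
  obtain ⟨m, a, s, rfl, ha⟩ := Cond_elt h hY hw
  exact hY.Y_subset _ (Cond_tag_mem h hY ha hw)

theorem mem_PY' (hY : Tower Y v) : q ∈ PY Y v ↔ InP (PiOf Y) q := by
  rw [mem_PY]
  exact ⟨fun h => h.2, fun h => ⟨h.subset hY, h⟩⟩

theorem Cond_sec_eq_empty {q a : ZFSet.{u}} (h : ∀ s, pair a s ∉ q) : sec q a = ∅ := by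
  ext s
  rw [mem_sec]
  exact ⟨fun hs => absurd hs (h s), fun hs => absurd hs (notMem_empty _)⟩

theorem inP_empty (hY : Tower Y v) : InP (PiOf Y) ∅ := by
  refine (inP_iff hY).2 ⟨fun w hw => absurd hw (notMem_empty _), fun n => ?_⟩
  rw [Cond_sec_eq_empty fun s => notMem_empty _, Cond_sec_eq_empty fun s => notMem_empty _]
  exact ⟨sq_empty (hY.univ n), sq_empty (hY.univ n)⟩

theorem InP.notMem (h : InP (PiOf Y) q) (hY : Tower Y v) {w : ZFSet.{u}} (hw : w ∈ q) : w ∉ Y 0 := by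
  obtain ⟨m, a, s, rfl, ha⟩ := Cond_elt h hY hw
  rw [Cond_tag_iff h hY ha hw]
  exact Nat.not_lt_zero m

theorem InP.block_eq (h : InP (PiOf Y) q) (hY : Tower Y v) (n : ℕ) :
    (q ∩ Y (n + 1)) \ Y n =
      blk (Y n) (powerset (Y n)) (sec q (Y n)) (sec q (powerset (Y n))) := by
  ext w
  rw [mem_sdiff, mem_inter, mem_blk]
  constructor
  · rintro ⟨⟨h1, h2⟩, h3⟩
    obtain ⟨m, a, s, rfl, ha⟩ := Cond_elt h hY h1
    rw [Cond_tag_iff h hY ha h1] at h2 h3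
    obtain rfl : m = n := by omega
    rcases ha with rfl | rfl
    · exact Or.inl ⟨s, mem_sec.2 h1, rfl⟩
    · exact Or.inr ⟨s, mem_sec.2 h1, rfl⟩
  · rintro (⟨s, hs, rfl⟩ | ⟨s, hs, rfl⟩)
    · have h1 := mem_sec.1 hs
      exact ⟨⟨h1, Cond_tag_mem h hY (Or.inl rfl) h1⟩, Cond_tag_notMem hY (Or.inl rfl)⟩
    · have h1 := mem_sec.1 hs
      exact ⟨⟨h1, Cond_tag_mem h hY (Or.inr rfl) h1⟩, Cond_tag_notMem hY (Or.inr rfl)⟩

theorem InP.isBlk (h : InP (PiOf Y) q) (hY : Tower Y v) (n : ℕ) :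
    IsBlk (Y n) (powerset (Y n)) (Y (n + 1)) ((q ∩ Y (n + 1)) \ Y n) := by
  rw [h.block_eq hY n]
  exact isBlk_blk (((inP_iff hY).1 h).2 n).1 (((inP_iff hY).1 h).2 n).2

theorem inP_of_isBlk (hY : Tower Y v) {r : ℕ → ZFSet.{u}}
    (h : ∀ n, IsBlk (Y n) (powerset (Y n)) (Y (n + 1)) (r n)) : InP (PiOf Y) (iUnion r) := by
  have h1 : ∀ n, ∀ w ∈ r n, ∃ s, w = pair (Y n) s ∨ w = pair (powerset (Y n)) s := by
    intro n w hw
    rw [(h n).1, mem_blk] at hw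
    rcases hw with ⟨s, -, rfl⟩ | ⟨s, -, rfl⟩
    · exact ⟨s, Or.inl rfl⟩
    · exact ⟨s, Or.inr rfl⟩
  have h2 : ∀ n a, (a = Y n ∨ a = powerset (Y n)) → sec (iUnion r) a = sec (r n) a := by
    intro n a ha
    ext s
    rw [mem_sec, mem_sec, mem_iUnion]
    refine ⟨?_, fun hs => ⟨n, hs⟩⟩
    rintro ⟨k, hk⟩
    obtain ⟨t, ht⟩ := h1 k _ hk
    have hak : a = Y k ∨ a = powerset (Y k) :=
      ht.imp (fun e => (pair_inj.1 e).1) (fun e => (pair_inj.1 e).1)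
    rwa [Cond_tag_eq hY ha hak]
  refine (inP_iff hY).2 ⟨fun w hw => ?_, fun n => ?_⟩
  · obtain ⟨n, hn⟩ := mem_iUnion.1 hw
    obtain ⟨s, hs⟩ := h1 n w hn
    exact ⟨n, s, hs⟩
  · rw [h2 n _ (Or.inl rfl), h2 n _ (Or.inr rfl)]
    exact (h n).2

theorem InP.glue (hy : InP (PiOf Y) y) (hq : InP (PiOf Y) q) (hY : Tower Y v) (n : ℕ) :
    InP (PiOf Y) ((y ∩ Y n) ∪ (q \ Y n)) := by
  have h1 : ∀ m a, (a = Y m ∨ a = powerset (Y m)) → m < n →
      sec ((y ∩ Y n) ∪ (q \ Y n)) a = sec y a := by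
    intro m a ha hmn
    ext s
    rw [mem_sec, mem_sec, mem_union, mem_inter, mem_sdiff]
    constructor
    · rintro (h | h)
      · exact h.1
      · exact absurd ((Cond_tag_iff hq hY ha h.1 n).2 hmn) h.2
    · exact fun h => Or.inl ⟨h, (Cond_tag_iff hy hY ha h n).2 hmn⟩
  have h2 : ∀ m a, (a = Y m ∨ a = powerset (Y m)) → ¬ m < n →
      sec ((y ∩ Y n) ∪ (q \ Y n)) a = sec q a := by
    intro m a ha hmn
    ext s
    rw [mem_sec, mem_sec, mem_union, mem_inter, mem_sdiff]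
    constructor
    · rintro (h | h)
      · exact absurd ((Cond_tag_iff hy hY ha h.1 n).1 h.2) hmn
      · exact h.1
    · exact fun h => Or.inr ⟨h, fun h' => hmn ((Cond_tag_iff hq hY ha h n).1 h')⟩
  refine (inP_iff hY).2 ⟨fun w hw => ?_, fun m => ?_⟩
  · rw [mem_union, mem_inter, mem_sdiff] at hw
    rcases hw with h | h
    · exact ((inP_iff hY).1 hy).1 w h.1
    · exact ((inP_iff hY).1 hq).1 w h.1
  · by_cases hmn : m < n
    · rw [h1 m _ (Or.inl rfl) hmn, h1 m _ (Or.inr rfl) hmn]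
      exact ((inP_iff hY).1 hy).2 m
    · rw [h2 m _ (Or.inl rfl) hmn, h2 m _ (Or.inr rfl) hmn]
      exact ((inP_iff hY).1 hq).2 m

theorem InP.inter (h : InP (PiOf Y) q) (hY : Tower Y v) (n : ℕ) : InP (PiOf Y) (q ∩ Y n) := by
  have h1 := h.glue (inP_empty hY) hY n
  convert h1 using 1
  ext w
  rw [mem_union, mem_sdiff]
  exact ⟨Or.inl, fun h2 => h2.elim id fun h3 => absurd h3.1 (notMem_empty _)⟩

theorem InP.sdiff (h : InP (PiOf Y) q) (hY : Tower Y v) (n : ℕ) : InP (PiOf Y) (q \ Y n) := by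
  have h1 := (inP_empty hY).glue h hY n
  convert h1 using 1
  ext w
  rw [mem_union, mem_inter]
  exact ⟨Or.inr, fun h2 => h2.elim (fun h3 => absurd h3.1 (notMem_empty _)) id⟩

theorem InP.inter_mem (h : InP (PiOf Y) q) (hY : Tower Y v) (n : ℕ) : q ∩ Y n ∈ Y n := by
  induction n with
  | zero =>
    have h1 : q ∩ Y 0 = nat 0 := by
      ext w
      rw [mem_inter]
      exact ⟨fun h2 => absurd h2.2 (h.notMem hY h2.1), fun h2 => absurd h2 (notMem_empty _)⟩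
    rw [h1]
    exact hY.omega0 (nat_mem_omega 0)
  | succ n ih =>
    have h1 : q ∩ Y (n + 1) = (q ∩ Y n) ∪ ((q ∩ Y (n + 1)) \ Y n) := by
      ext w
      rw [mem_union, mem_sdiff, mem_inter, mem_inter]
      constructor
      · intro h2
        by_cases h3 : w ∈ Y n
        · exact Or.inl ⟨h2.1, h3⟩
        · exact Or.inr ⟨h2, h3⟩
      · rintro (h2 | h2)
        · exact ⟨h2.1, hY.mono (Nat.le_succ n) h2.2⟩
        · exact h2.1
    rw [h1]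
    exact (hY.univ n).union_mem (hY.mono (Nat.le_succ n) ih)
      ((h.isBlk hY n).mem (hY.univ n) (hY.mem n))

theorem inP_shift (hY : Tower Y v) :
    InP (PiOf fun n => Y (n + 1)) q ↔ InP (PiOf Y) q ∧ ∀ w ∈ q, w ∉ Y 1 := by
  constructor
  · intro h
    have h1 := (inP_iff hY.shift).1 h
    refine ⟨(inP_iff hY).2 ⟨fun w hw => ?_, fun n => ?_⟩, fun w hw => h.notMem hY.shift hw⟩
    · obtain ⟨n, s, hs⟩ := h1.1 w hw
      exact ⟨n + 1, s, hs⟩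
    · cases n with
      | succ n => exact h1.2 n
      | zero =>
        have h2 : ∀ a, (a = Y 0 ∨ a = powerset (Y 0)) → sec q a = ∅ := by
          intro a ha
          refine Cond_sec_eq_empty fun s hs => ?_
          obtain ⟨k, t, ht⟩ := h1.1 _ hs
          have hak : a = Y (k + 1) ∨ a = powerset (Y (k + 1)) :=
            ht.imp (fun e => (pair_inj.1 e).1) (fun e => (pair_inj.1 e).1)
          have := Cond_tag_eq hY ha hak
          omega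
        rw [h2 _ (Or.inl rfl), h2 _ (Or.inr rfl)]
        exact ⟨sq_empty (hY.univ 0), sq_empty (hY.univ 0)⟩
  · rintro ⟨h, h0⟩
    have h1 := (inP_iff hY).1 h
    refine (inP_iff hY.shift).2 ⟨fun w hw => ?_, fun n => h1.2 (n + 1)⟩
    obtain ⟨m, a, s, rfl, ha⟩ := Cond_elt h hY hw
    cases m with
    | zero => exact absurd (Cond_tag_mem h hY ha hw) (h0 _ hw)
    | succ m => exact ⟨m, s, ha.imp (fun e => by rw [e]) (fun e => by rw [e])⟩

theorem Cond_sec_sUnion {J a : ZFSet.{u}} {f : ZFSet.{u} → ZFSet.{u}} :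
    sec (⋃₀ img f J) a = ⋃₀ img (fun i => sec (f i) a) J := by
  ext s
  rw [mem_sec, mem_sUnion, mem_sUnion]
  constructor
  · rintro ⟨z, hz, h⟩
    obtain ⟨i, hi, rfl⟩ := mem_img.1 hz
    exact ⟨_, mem_img.2 ⟨i, hi, rfl⟩, mem_sec.2 h⟩
  · rintro ⟨z, hz, h⟩
    obtain ⟨i, hi, rfl⟩ := mem_img.1 hz
    exact ⟨_, mem_img.2 ⟨i, hi, rfl⟩, mem_sec.1 h⟩

theorem Cond_sUnion (hY : Tower Y v) (n : ℕ) {J : ZFSet.{u}} {f : ZFSet.{u} → ZFSet.{u}}
    (hJ : J.card ≤ (Y n).card) (hf : ∀ i ∈ J, InP (PiOf Y) (f i) ∧ ∀ w ∈ f i, w ∉ Y n)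
    (hc : ∀ i ∈ J, ∀ i' ∈ J, f i ⊆ f i' ∨ f i' ⊆ f i) : InP (PiOf Y) (⋃₀ img f J) := by
  have hmem : ∀ w ∈ (⋃₀ img f J : ZFSet.{u}), ∃ i ∈ J, w ∈ f i := by
    intro w hw
    obtain ⟨z, hz, h⟩ := mem_sUnion.1 hw
    obtain ⟨i, hi, rfl⟩ := mem_img.1 hz
    exact ⟨i, hi, h⟩
  refine (inP_iff hY).2 ⟨fun w hw => ?_, fun m => ?_⟩
  · obtain ⟨i, hi, h⟩ := hmem w hw
    exact ((inP_iff hY).1 (hf i hi).1).1 w h
  · by_cases hmn : m < n
    · have h2 : ∀ a, (a = Y m ∨ a = powerset (Y m)) → sec (⋃₀ img f J) a = ∅ := by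
        intro a ha
        refine Cond_sec_eq_empty fun s hs => ?_
        obtain ⟨i, hi, h⟩ := hmem _ hs
        exact (hf i hi).2 _ h ((Cond_tag_iff (hf i hi).1 hY ha h n).2 hmn)
      rw [h2 _ (Or.inl rfl), h2 _ (Or.inr rfl)]
      exact ⟨sq_empty (hY.univ m), sq_empty (hY.univ m)⟩
    · have h3 : J.card ≤ (Y m).card := hJ.trans (card_mono (hY.mono (not_lt.1 hmn)))
      have h4 : (Y m).card ≤ (powerset (Y m)).card :=
        card_mono fun x hx => mem_powerset.2 ((hY.trans m).subset_of_mem hx)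
      have h5 : ∀ a, ∀ i ∈ J, ∀ i' ∈ J,
          sec (f i) a ⊆ sec (f i') a ∨ sec (f i') a ⊆ sec (f i) a := fun a i hi i' hi' =>
        (hc i hi i' hi').imp (fun h s hs => mem_sec.2 (h (mem_sec.1 hs)))
          (fun h s hs => mem_sec.2 (h (mem_sec.1 hs)))
      rw [Cond_sec_sUnion, Cond_sec_sUnion]
      exact ⟨sq_sUnion (hY.univ m) (hY.mem m) (hY.aleph0_le m) h3
          (fun i hi => (((inP_iff hY).1 (hf i hi).1).2 m).1) (h5 _),
        sq_sUnion (hY.univ m) (Cond_pow_mem hY m) ((hY.aleph0_le m).trans h4) (h3.trans h4)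
          (fun i hi => (((inP_iff hY).1 (hf i hi).1).2 m).2) (h5 _)⟩

theorem clo_tail (hY : Tower Y v) (n : ℕ) :
    Clo (fun q => InP (PiOf Y) q ∧ ∀ w ∈ q, w ∉ Y n) (· ⊆ ·) (Y n).card := by
  intro J f hJ hf hc
  refine ⟨⋃₀ img f J, ⟨Cond_sUnion hY n hJ hf hc, fun w hw => ?_⟩, fun i hi w hw => ?_⟩
  · obtain ⟨z, hz, h⟩ := mem_sUnion.1 hw
    obtain ⟨i, hi, rfl⟩ := mem_img.1 hz
    exact (hf i hi).2 w h
  · exact mem_sUnion.2 ⟨_, mem_img.2 ⟨i, hi, rfl⟩, hw⟩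

theorem inP_iUnion (hY : Tower Y v) {f : ℕ → ZFSet.{u}} (hf : ∀ n, InP (PiOf Y) (f n))
    (hm : ∀ n, f n ⊆ f (n + 1)) : InP (PiOf Y) (iUnion f) := by
  classical
  have hmono : ∀ m n, m ≤ n → f m ⊆ f n := by
    intro m n hmn
    induction hmn with
    | refl => exact fun _ hx => hx
    | step _ ih => exact fun _ hx => hm _ (ih hx)
  let g : ZFSet.{u} → ZFSet.{u} := fun x => f (Function.invFun nat x)
  have hg : ∀ n, g (nat n) = f n := fun n => by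
    have : Function.invFun nat.{u} (nat n) = n :=
      Function.leftInverse_invFun (fun a b h => nat_inj.1 h) n
    simp only [g, this]
  have h1 : iUnion f = ⋃₀ img g omega := by
    ext w
    rw [mem_iUnion, mem_sUnion]
    constructor
    · rintro ⟨n, hn⟩
      exact ⟨_, mem_img.2 ⟨nat n, nat_mem_omega n, hg n⟩, hn⟩
    · rintro ⟨z, hz, h⟩
      obtain ⟨i, -, rfl⟩ := mem_img.1 hz
      exact ⟨_, h⟩
  rw [h1]
  refine Cond_sUnion hY 0 (card_mono hY.omega0)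
    (fun i _ => ⟨hf _, fun w hw => (hf _).notMem hY hw⟩) fun i _ i' _ => ?_
  exact (le_total _ _).imp (hmono _ _) (hmono _ _)

theorem Cond_sec_insert_eq {q a s : ZFSet.{u}} :
    sec (insert (pair a s) q) a = insert s (sec q a) := by
  ext t
  rw [mem_sec, mem_insert_iff, mem_insert_iff, mem_sec, pair_inj]
  simp

theorem Cond_sec_insert_ne {q a b s : ZFSet.{u}} (h : b ≠ a) :
    sec (insert (pair a s) q) b = sec q b := by
  ext t
  rw [mem_sec, mem_insert_iff, mem_sec, pair_inj]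
  simp [h]

theorem InP.extendA (h : InP (PiOf Y) q) (hY : Tower Y v) (n : ℕ) {x : ZFSet.{u}}
    (hx : x ⊆ Y n) : ∃ ξ ∈ Theta (Y n), InP (PiOf Y) (insert (pair (Y n) (pair ξ x)) q) := by
  have h1 := (inP_iff hY).1 h
  obtain ⟨ξ, hξ, h2⟩ := (h1.2 n).1.extend (hY.univ n) (hY.mem n) (hY.aleph0_le n)
    (mem_powerset.2 hx)
  refine ⟨ξ, hξ, (inP_iff hY).2 ⟨fun w hw => ?_, fun m => ⟨?_, ?_⟩⟩⟩
  · rcases mem_insert_iff.1 hw with rfl | hw
    · exact ⟨n, _, Or.inl rfl⟩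
    · exact h1.1 w hw
  · by_cases hmn : m = n
    · subst hmn
      rwa [Cond_sec_insert_eq]
    · rw [Cond_sec_insert_ne fun e => hmn (Cond_Y_inj hY e)]
      exact (h1.2 m).1
  · rw [Cond_sec_insert_ne (Cond_Y_ne_pow hY n m).symm]
    exact (h1.2 m).2

theorem InP.extendC (h : InP (PiOf Y) q) (hY : Tower Y v) (n : ℕ) {x : ZFSet.{u}}
    (hx : x ∈ Y (n + 1)) :
    ∃ ξ ∈ Theta (powerset (Y n)), InP (PiOf Y) (insert (pair (powerset (Y n)) (pair ξ x)) q) := by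
  have h1 := (inP_iff hY).1 h
  have h4 : (Y n).card ≤ (powerset (Y n)).card :=
    card_mono fun x hx => mem_powerset.2 ((hY.trans n).subset_of_mem hx)
  obtain ⟨ξ, hξ, h2⟩ := (h1.2 n).2.extend (hY.univ n) (Cond_pow_mem hY n)
    ((hY.aleph0_le n).trans h4) hx
  refine ⟨ξ, hξ, (inP_iff hY).2 ⟨fun w hw => ?_, fun m => ⟨?_, ?_⟩⟩⟩
  · rcases mem_insert_iff.1 hw with rfl | hw
    · exact ⟨n, _, Or.inr rfl⟩
    · exact h1.1 w hw
  · rw [Cond_sec_insert_ne (Cond_Y_ne_pow hY m n)]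
    exact (h1.2 m).1
  · by_cases hmn : m = n
    · subst hmn
      rwa [Cond_sec_insert_eq]
    · rw [Cond_sec_insert_ne fun e => hmn (Cond_pow_inj hY e)]
      exact (h1.2 m).2

theorem Cond_subS_sdiff (hY : Tower Y v) (n : ℕ) (x : ZFSet.{u}) : SubS v x (x \ Y n) :=
  ⟨Y n, hY.Y_mem n, fun _ hw => hw⟩

theorem Cond_shift_sdiff (h : InP (PiOf Y) q) (hY : Tower Y v) :
    InP (PiOf fun n => Y (n + 1)) (q \ Y 1) :=
  (inP_shift hY).2 ⟨h.sdiff hY 1, fun _ hw => (mem_sdiff.1 hw).2⟩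

theorem CE.shift {R : ZFSet.{u} → ZFSet.{u} → Prop} (h : CE (powerset v) v (PiOf Y) p R)
    (hY : Tower Y v) : CE (powerset v) v (PiOf fun n => Y (n + 1)) (p \ Y 1) R := by
  obtain ⟨-, h2, h3, h4, h5⟩ := h
  refine ⟨mem_powerset.2 ((h2.sdiff hY 1).subset hY), Cond_shift_sdiff h2 hY, h3, ?_, h5⟩
  intro g hg hg1 hg2 q hq hq1
  obtain ⟨hg3, -⟩ := (inP_shift hY).1 hg1
  obtain ⟨hq2, hq3⟩ := (inP_shift hY).1 hq1
  obtain ⟨h0, ha, hb, hc, hd⟩ :=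
    h4 g hg hg3 (hY.subS_trans (Cond_subS_sdiff hY 1 p) hg2) q hq hq2
  have he : h0 \ Y 1 ∈ powerset v := mem_powerset.2 ((hb.sdiff hY 1).subset hY)
  exact ⟨h0 \ Y 1, he, Cond_shift_sdiff hb hY, fun w hw => mem_sdiff.2 ⟨hc hw, hq3 w hw⟩,
    h3 g hg h0 ha hd g hg _ he (hY.subS_of_subset fun _ hx => hx) (Cond_subS_sdiff hY 1 h0)⟩

theorem CE.unshift {R : ZFSet.{u} → ZFSet.{u} → Prop}
    (h : CE (powerset v) v (PiOf fun n => Y (n + 1)) p R) (hY : Tower Y v) :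
    CE (powerset v) v (PiOf Y) p R := by
  obtain ⟨h1, h2, h3, h4, h5⟩ := h
  refine ⟨h1, ((inP_shift hY).1 h2).1, h3, ?_, h5⟩
  intro g hg hg1 hg2 q hq hq1
  have hg3 : g \ Y 1 ∈ powerset v := mem_powerset.2 ((hg1.sdiff hY 1).subset hY)
  have hq3 : q \ Y 1 ∈ powerset v := mem_powerset.2 ((hq1.sdiff hY 1).subset hY)
  obtain ⟨h0, ha, hb, hc, hd⟩ := h4 _ hg3 (Cond_shift_sdiff hg1 hY)
    (hY.subS_trans hg2 (Cond_subS_sdiff hY 1 g)) _ hq3 (Cond_shift_sdiff hq1 hY)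
  have hb1 := ((inP_shift hY).1 hb).1
  have hf := hq1.glue hb1 hY 1
  have he : (q ∩ Y 1) ∪ (h0 \ Y 1) ∈ powerset v := mem_powerset.2 (hf.subset hY)
  refine ⟨_, he, hf, fun w hw => ?_, h3 _ hg3 h0 ha hd g hg _ he (Cond_subS_sdiff hY 1 g)
    ⟨Y 1, hY.Y_mem 1, fun w hw => mem_union.2 (Or.inr hw)⟩⟩
  by_cases hw1 : w ∈ Y 1
  · exact mem_union.2 (Or.inl (mem_inter.2 ⟨hw, hw1⟩))
  · exact mem_union.2 (Or.inr (mem_sdiff.2 ⟨hc (mem_sdiff.2 ⟨hw, hw1⟩), hw1⟩))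

theorem CE.congr {A Pi : ZFSet.{u}} {R R' : ZFSet.{u} → ZFSet.{u} → Prop} (hY : Tower Y v)
    (hA : A = powerset v) (h : CE A v Pi p R) (hR : ∀ q h, q ⊆ v → h ⊆ v → (R q h ↔ R' q h)) :
    CE A v Pi p R' := by
  subst hA
  obtain ⟨h1, h2, h3, h4, h5⟩ := h
  refine ⟨h1, h2, ?_, ?_, ?_⟩
  · intro a ha b hb hab a' ha' b' hb' h6 h7
    exact (hR _ _ (mem_powerset.1 ha') (mem_powerset.1 hb')).1 (h3 a ha b hb
      ((hR _ _ (mem_powerset.1 ha) (mem_powerset.1 hb)).2 hab) a' ha' b' hb' h6 h7)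
  · intro g hg hg1 hg2 a ha ha1
    obtain ⟨b, hb, hb1, hb2, hb3⟩ := h4 g hg hg1 hg2 a ha ha1
    exact ⟨b, hb, hb1, hb2, (hR _ _ (mem_powerset.1 hg) (mem_powerset.1 hb)).1 hb3⟩
  · rintro ⟨c, hc, h6⟩
    exact h5 ⟨c, hc, fun n hn => (hR _ _ (hY.sec_subset (mem_powerset.1 hc) _)
      (hY.sec_subset (mem_powerset.1 hc) _)).2 (h6 n hn)⟩

end InP

end Pool.Agent.P.MP_37b794_lc.I0
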