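import Pool.Agent.P.MP_37b794_lc.I0.Root
import Pool.Agent.P.MP_37b794_lc.I0.Cond

/-!
One step of the comparison of two inverse systems.
-/

universe u

set_option synthInstance.maxSize 16384

namespace Pool.Agent.P.MP_37b794_lc.I0

open ZFSet Pool.Agent.Lib.Forcing Pool.Agent.P.MP_af0a18_lc

variable {X : Set ZFSet.{u}} {W U : ℕ → ZFSet.{u}} {v : ZFSet.{u}}
  {J : ℕ → ZFSet.{u} → ZFSet.{u}}

theorem Cmp1_fst_mem {B a : ZFSet.{u}} (hB : Gro B) (ha : a ∈ B) : fst a ∈ B :=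
  hB.mem_of_subset (hB.sUnion_mem (hB.sUnion_mem ha)) fun _ hz => (mem_sep.1 hz).1

theorem Cmp1_snd_mem {B a : ZFSet.{u}} (hB : Gro B) (ha : a ∈ B) : snd a ∈ B :=
  hB.mem_of_subset (hB.sUnion_mem (hB.sUnion_mem ha)) fun _ hz => (mem_sep.1 hz).1

/-- The first new condition read off from `t`. -/
def Cmp1_g (c t : ZFSet.{u}) : ZFSet.{u} :=
  fst (fst (fst t)) ∪ blk c (powerset c) (snd (fst t)) (fst (snd t))

/-- The second new condition read off from `t`. -/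
def Cmp1_h (c t : ZFSet.{u}) : ZFSet.{u} :=
  snd (fst (fst t)) ∪ blk c (powerset c) (fst (snd (snd t))) (snd (snd (snd t)))

theorem Cmp1_g_mem {B c t : ZFSet.{u}} (hB : Gro B) (hc : c ∈ B) (ht : t ∈ B) :
    Cmp1_g c t ∈ B :=
  hB.union_mem (Cmp1_fst_mem hB (Cmp1_fst_mem hB (Cmp1_fst_mem hB ht)))
    (blk_mem hB hc (hB.powerset_mem hc) (Cmp1_snd_mem hB (Cmp1_fst_mem hB ht))
      (Cmp1_fst_mem hB (Cmp1_snd_mem hB ht)))

theorem Cmp1_h_mem {B c t : ZFSet.{u}} (hB : Gro B) (hc : c ∈ B) (ht : t ∈ B) :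
    Cmp1_h c t ∈ B :=
  hB.union_mem (Cmp1_snd_mem hB (Cmp1_fst_mem hB (Cmp1_fst_mem hB ht)))
    (blk_mem hB hc (hB.powerset_mem hc)
      (Cmp1_fst_mem hB (Cmp1_snd_mem hB (Cmp1_snd_mem hB ht)))
      (Cmp1_snd_mem hB (Cmp1_snd_mem hB (Cmp1_snd_mem hB ht))))

theorem Cmp1_map (hB : Base X W v) {k : ZFSet.{u} → ZFSet.{u}} (hk : Pr X v k)
    {c t a b p q r s : ZFSet.{u}} (hc : c ∈ W 0) (ht : t ∈ W 0) (hkc : k c = W 0)
    (hkt : k t = tp4 (pair (pair a b) p) q r s) :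
    k (Cmp1_g c t) = a ∪ blk (W 0) (powerset (W 0)) p q ∧
      k (Cmp1_h c t) = b ∪ blk (W 0) (powerset (W 0)) r s := by
  have hT := hB.tower
  have g0 := hB.gro0
  have mv : ∀ {y : ZFSet.{u}}, y ∈ W 0 → y ∈ v := fun hy => hT.Y_subset 0 hy
  have sv : ∀ {y : ZFSet.{u}}, y ∈ W 0 → y ⊆ v := fun hy => hT.sub_of_mem (mv hy)
  have f1 := Cmp1_fst_mem g0 ht
  have s1 := Cmp1_snd_mem g0 ht
  have ff := Cmp1_fst_mem g0 f1
  have sf := Cmp1_snd_mem g0 f1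
  have fs := Cmp1_fst_mem g0 s1
  have ss := Cmp1_snd_mem g0 s1
  have fff := Cmp1_fst_mem g0 ff
  have sff := Cmp1_snd_mem g0 ff
  have fss := Cmp1_fst_mem g0 ss
  have sss := Cmp1_snd_mem g0 ss
  have hp := g0.powerset_mem hc
  constructor
  · rw [Cmp1_g, hk.map_union hB (sv fff) (sv (blk_mem g0 hc hp sf fs)),
      hk.map_blk hB (mv hc) (mv hp) (sv sf) (sv fs), hk.map_powerset hB (mv hc), hkc,
      hk.map_fst hB (mv ff), hk.map_fst hB (mv f1), hk.map_snd hB (mv f1),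
      hk.map_fst hB (mv s1), hk.map_fst hB (mv ht), hk.map_snd hB (mv ht), hkt]
    simp only [tp4, fst_pair, snd_pair]
  · rw [Cmp1_h, hk.map_union hB (sv sff) (sv (blk_mem g0 hc hp fss sss)),
      hk.map_blk hB (mv hc) (mv hp) (sv fss) (sv sss), hk.map_powerset hB (mv hc), hkc,
      hk.map_snd hB (mv ff), hk.map_fst hB (mv f1), hk.map_fst hB (mv ss),
      hk.map_snd hB (mv ss), hk.map_snd hB (mv s1), hk.map_fst hB (mv ht),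
      hk.map_snd hB (mv ht), hkt]
    simp only [tp4, fst_pair, snd_pair]

theorem Cmp1_inP (hB : Base X W v) {k : ZFSet.{u} → ZFSet.{u}} (hk : Pr X v k)
    (hW : ∀ m, k (W m) = W (m + 1)) {h d : ZFSet.{u}} (hh : InP (PiOf W) h) (hd : d ⊆ v)
    (hkd : k d = h \ W 1) : InP (PiOf W) d := by
  have hT := hB.tower
  rw [← hk.inP_iff hB (piOf_subset hT) hd, hk.map_piOf hB hT.Y_mem, hkd]
  simp only [hW]
  exact (inP_shift hT).2 ⟨hh.sdiff hT 1, fun w hw => (mem_sdiff.1 hw).2⟩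

/-- One step of the comparison. `F` lists the sets on which the roots agree with `k0`. -/
theorem cmp_step (hB : Base X W v) {c c' : ZFSet.{u}} {k0 : ZFSet.{u} → ZFSet.{u}} {n : ℕ}
    (hs : Step X W v c c' k0) (hc : c ∈ W 0) (hc' : c' ∈ W 0) (hl : Lv X v (n + 1) k0)
    {x z ζ : ℕ → ZFSet.{u}} (hloc : Loc W k0 x z ζ) (m : ℕ) (F : ℕ → ZFSet.{u})
    (hF : ∀ i, F i ⊆ v) {yg yh h : ZFSet.{u}} (hyg : yg ∈ W 0) (hyh : yh ∈ W 0)
    (hh : InP (PiOf W) h) (h1 : x (m + 1) ⊆ sec h (W 0))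
    (h2 : ζ (m + 1) ⊆ sec h (powerset (W 0))) :
    ∃ (k k' : ZFSet.{u} → ZFSet.{u}) (yg' yh' h' x1 z1 z2 : ZFSet.{u}),
      Step X W v c c' k ∧ Lv X v n k ∧ (∀ i, k (F i) = k0 (F i)) ∧
      Step X W v c c' k' ∧ Lv X v n k' ∧ (∀ i, k' (F i) = k0 (F i)) ∧
      yg' ∈ W 0 ∧ yh' ∈ W 0 ∧ InP (PiOf W) h' ∧ k h' = h \ W 1 ∧
      sec h (W 0) ⊆ x1 ∧ z m ⊆ z1 ∧ z2 ⊆ z (m + 1) ∧
      k yg' = yg ∪ blk (W 0) (powerset (W 0)) (x m) (z m) ∧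
      k yh' = yh ∪ blk (W 0) (powerset (W 0)) x1 (sec h (powerset (W 0))) ∧
      k' yg' = yg ∪ blk (W 0) (powerset (W 0)) (x m) z1 ∧
      k' yh' = yh ∪ blk (W 0) (powerset (W 0)) (x (m + 1)) z2 := by
  have hT := hB.tower
  have g0 := hB.gro0
  have g1 : Gro (W 1) := hB.gro 1
  have mv : ∀ {y : ZFSet.{u}}, y ∈ W 0 → y ∈ v := fun hy => hT.Y_subset 0 hy
  have W01 : W 0 ⊆ W 1 := hT.mono (Nat.zero_le 1)
  have P01 : powerset (W 0) ⊆ W 1 := g1.trans _ (hT.powerset_mem_of_lt Nat.zero_lt_one)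
  obtain ⟨hxh, hzh⟩ := ((inP_iff hT).1 hh).2 0
  have hhv : h \ W 1 ⊆ v := (hh.sdiff hT 1).subset hT
  let Xs : ZFSet.{u} := (W 0).sep fun t => ∃ k, Step X W v c c' k ∧ Lv X v n k ∧
    (∀ i, k (F i) = k0 (F i)) ∧ (∃ d, d ⊆ v ∧ k d = h \ W 1) ∧
    ∃ x1, sec h (W 0) ⊆ x1 ∧
      k t = tp4 (pair (pair yg yh) (x m)) (z m) x1 (sec h (powerset (W 0)))
  have hXs : Xs ⊆ W 0 := fun _ ht => (mem_sep.1 ht).1
  have hXv : Xs ⊆ v := fun _ ht => mv (hXs ht)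
  have root : ∀ t, t ⊆ v → ∃ k, Step X W v c c' k ∧ Lv X v n k ∧ (∀ i, k (F i) = k0 (F i)) ∧
      k Xs = k0 Xs ∧ (∃ d, d ⊆ v ∧ k d = h \ W 1) ∧ ∃ d, d ⊆ v ∧ k d = t := by
    intro t ht
    obtain ⟨k, k1, k2, k3, k4⟩ := hs.root hB (mv hc) (mv hc') hl (cons Xs F)
      (cons t fun _ => h \ W 1) (fun i => by cases i <;> [exact hXv; exact hF _])
      (fun i => by cases i <;> [exact ht; exact hhv])
    exact ⟨k, k1, k2, fun i => k3 (i + 1), k3 0, k4 1, k4 0⟩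
  have hty : ∀ x', Sq (W 0) (powerset (W 0)) (W 1) x' → sec h (W 0) ⊆ x' →
      tp4 (pair (pair yg yh) (x m)) (z m) x' (sec h (powerset (W 0))) ∈ k0 Xs := by
    intro x' hx' hle
    have ht : tp4 (pair (pair yg yh) (x m)) (z m) x' (sec h (powerset (W 0))) ∈ W 1 :=
      g1.pair_mem (g1.pair_mem (W01 (g0.pair_mem hyg hyh)) ((hloc.1 m).1.mem g1 P01))
        (g1.pair_mem ((hloc.1 m).2.1.mem g1 fun _ hz => hz)
          (g1.pair_mem (hx'.mem g1 P01) (hzh.mem g1 fun _ hz => hz)))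
    obtain ⟨k, k1, k2, k3, k4, k5, d, hd, hkd⟩ := root _ (hT.sub_of_mem (hT.Y_subset 1 ht))
    have hd0 : d ∈ W 0 := by
      rw [← k1.pr.mem_iff hB hd (hT.Y_subset 0), hkd, k1.shift]
      exact ht
    have hdX : d ∈ Xs := mem_sep.2 ⟨hd0, k, k1, k2, k3, k5, x', hle, hkd⟩
    rw [← k4, ← hkd]
    exact (k1.pr.mem_iff hB hd hXv).2 hdX
  obtain ⟨z1, z2, hz1, hz2, ht'⟩ := hloc.2 m (pair yg yh) (g0.pair_mem hyg hyh) Xs hXs _ _
    hxh hzh h1 h2 hty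
  obtain ⟨k', k1', k2', k3', k4', -, t, ht, hkt'⟩ :=
    root _ (hT.sub_of_mem (hs.pr.sub hB hXv ht'))
  have htX : t ∈ Xs := by
    rw [← k1'.pr.mem_iff hB ht hXv, hkt', k4']
    exact ht'
  obtain ⟨ht0, k, k1, k2, k3, ⟨d, hd, hkd⟩, x1, hx1, hkt⟩ := mem_sep.1 htX
  obtain ⟨e1, e2⟩ := Cmp1_map hB k1.pr hc' ht0 k1.top hkt
  obtain ⟨e3, e4⟩ := Cmp1_map hB k1'.pr hc' ht0 k1'.top hkt'
  exact ⟨k, k', Cmp1_g c' t, Cmp1_h c' t, d, x1, z1, z2, k1, k2, k3, k1', k2', k3',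
    Cmp1_g_mem g0 hc' ht0, Cmp1_h_mem g0 hc' ht0, Cmp1_inP hB k1.pr k1.shift hh hd hkd, hkd,
    hx1, hz1, hz2, e1, e2, e3, e4⟩

end Pool.Agent.P.MP_37b794_lc.I0
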