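import Pool.Agent.P.MP_37b794_lc.I0.Gro

/-!
A collapsing function belongs to every model that contains the coded relation.
-/

universe u

set_option synthInstance.maxSize 16384

namespace Pool.Agent.P.MP_37b794_lc.I0

open ZFSet Pool.Agent.Lib.Forcing Pool.Agent.P.MP_af0a18_lc

theorem coll {L : Set ZFSet.{u}} (hL : IsZFModel L) {d E f : ZFSet.{u}} (hd : d ∈ L) (hE : E ∈ L)
    (hf : Fn f) (h1 : ∀ w ∈ f, ∃ x ∈ d, ∃ t, w = pair x t) (h2 : ∀ x ∈ d, ∃ t, pair x t ∈ f)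
    (h3 : ∀ x t, pair x t ∈ f → ∀ s ∈ t, ∃ y, pair y s ∈ f)
    (h4 : ∀ x t, pair x t ∈ f → ∀ y s, pair y s ∈ f → (pair x y ∈ E ↔ t ∈ s)) : f ∈ L := by
  have := hL.zfm
  have := InM.mk hd
  have := InM.mk hE
  let F : ZFSet.{u} → ZFSet.{u} := fun x => ⋃₀ sec f x
  have hF : ∀ x t, pair x t ∈ f → F x = t := fun x t h => by
    have : sec f x = {t} := by
      ext y; rw [mem_sec, mem_singleton]
      exact ⟨fun h' => hf _ _ h' _ h, fun h' => h' ▸ h⟩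
    simp only [F, this, sUnion_singleton]
  have hdom : ∀ x t, pair x t ∈ f → x ∈ d := fun x t h => by
    obtain ⟨y, hy, s, h'⟩ := h1 _ h
    exact (pair_inj.1 h').1 ▸ hy
  have hF' : ∀ x ∈ d, pair x (F x) ∈ f := fun x hx => by
    obtain ⟨t, ht⟩ := h2 x hx
    rwa [hF x t ht]
  have hwf : WellFounded (fun x y : ZFSet.{u} => x ∈ d ∧ y ∈ d ∧ pair x y ∈ E) :=
    Subrelation.wf (fun {x y} h => (h4 x _ (hF' x h.1) y _ (hF' y h.2.1)).1 h.2.2)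
      (InvImage.wf F mem_wf)
  have tm : Tm L (fun e => F (e 0)) := by
    refine recursion _ hwf (fun x hx => ⟨insert x d, insert_mem hx hd, mem_insert _ _,
      fun y _ z hz => mem_insert_of_mem _ hz.1⟩) F
      (fun x g z => z = (⋃₀ ⋃₀ g).sep fun w => ∃ y, pair y w ∈ g ∧ y ∈ d ∧ x ∈ d ∧ pair y x ∈ E) ?_
    intro x hx g hg H
    have h5 : F x = (⋃₀ ⋃₀ g).sep fun w => ∃ y, pair y w ∈ g ∧ y ∈ d ∧ x ∈ d ∧ pair y x ∈ E := by
      ext w
      rw [mem_sep]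
      constructor
      · intro hw
        have hxd : x ∈ d := by
          obtain ⟨t, ht, -⟩ := mem_sUnion.1 hw
          exact hdom x t (mem_sec.1 ht)
        obtain ⟨y, hy⟩ := h3 x _ (hF' x hxd) w hw
        have h6 := (h4 y w hy x _ (hF' x hxd)).2 hw
        have h7 := (H y ⟨hdom y w hy, hxd, h6⟩ w).2 (hF y w hy).symm
        exact ⟨snd_mem_sUnion h7, y, h7, hdom y w hy, hxd, h6⟩
      · rintro ⟨-, y, h5, h6, h7, h8⟩
        rw [(H y ⟨h6, h7, h8⟩ w).1 h5]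
        exact (h4 y _ (hF' y h6) x _ (hF' x h7)).1 h8
    have := InM.mk hx
    have := InM.mk hg
    exact ⟨h5 ▸ sep_mem _ (sUnion_mem (sUnion_mem hg)), fun z _ => by rw [h5]⟩
  obtain ⟨b, hb, Hb⟩ := exists_image_tm (M := L) (fun x => pair x (F x)) hd
  convert hb using 1
  ext w
  rw [Hb]
  constructor
  · intro hw
    obtain ⟨x, hx, t, rfl⟩ := h1 w hw
    exact ⟨x, hx, by rw [hF x t hw]⟩
  · rintro ⟨x, hx, rfl⟩
    exact hF' x hx

theorem Cod.unique {M M' : Set ZFSet.{u}} {a β β' : ZFSet.{u}} (h : Cod M a β) (h' : Cod M' a β') :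
    β = β' := by
  have key : ∀ {M M' : Set ZFSet.{u}} {β β' : ZFSet.{u}}, Cod M a β → Cod M' a β' → β ⊆ β' := by
    rintro M M' β β' ⟨ho, f, -, h1, h2, h3⟩ ⟨ho', g, -, k1, k2, k3⟩
    have h4 : ∀ t x s, pair x t ∈ f → pair x s ∈ g → t ⊆ s := by
      intro t
      induction t using ZFSet.inductionOn with
      | h t ih =>
        intro x s hx hs r hr
        have ht := (pair_mem_prod.1 (h1.1 hx)).2
        obtain ⟨y, hy⟩ := h2 r (ho.mem_trans hr ht)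
        obtain ⟨r', hr', -⟩ := k1.2 y (pair_mem_prod.1 (h1.1 hy)).1
        have h5 := (k3 y r' hr' x s hs).1 ((h3 y r hy x t hx).2 hr)
        have h6 := ho'.mem (pair_mem_prod.1 (k1.1 hs)).2
        exact (ho.mem (ho.mem_trans hr ht)).mem_of_subset_of_mem h6 (ih r hr y r' hy hr') h5
    intro t ht
    obtain ⟨x, hx⟩ := h2 t ht
    obtain ⟨s, hs, -⟩ := k1.2 x (pair_mem_prod.1 (h1.1 hx)).1
    exact (ho.mem ht).mem_of_subset_of_mem ho' (h4 t x s hx hs) (pair_mem_prod.1 (k1.1 hs)).2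
  exact subset_antisymm (key h h') (key h' h)

theorem Cod.mem_Theta {Y : ℕ → ZFSet.{u}} {v : ZFSet.{u}} (hY : Tower Y v) {M : Set ZFSet.{u}}
    {a β : ZFSet.{u}} (ha : a ⊆ v) (h : Cod M a β) : β ∈ Theta v := by
  obtain ⟨ho, f, -, h1, h2, -⟩ := h
  refine I0.mem_Theta.2 ⟨ho, surj_univ_iff.1 ⟨f, trivial, fn_of_isFunc h1, fun t ht => ?_⟩⟩
  obtain ⟨x, hx⟩ := h2 t ht
  exact ⟨x, hY.sec_subset ha _ (pair_mem_prod.1 (h1.1 hx)).1, hx⟩

theorem exists_cod {Y : ℕ → ZFSet.{u}} {v : ZFSet.{u}} (hY : Tower Y v) {β : ZFSet.{u}}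
    (hβ : β ∈ Theta v) : ∃ a, a ⊆ v ∧ Cod (NN v) a β := by
  obtain ⟨ho, hc⟩ := mem_Theta.1 hβ
  obtain ⟨f, hf, hfn, honto⟩ := card_le_iff_fn.1 hc
  let d : ZFSet.{u} := v.sep fun x => ∃ t, pair x t ∈ f
  let E : ZFSet.{u} := pairSep (fun x y => ∃ t s, pair x t ∈ f ∧ pair y s ∈ f ∧ t ∈ s) v v
  have hdv : d ⊆ v := sep_subset
  have hEv : E ⊆ v := fun z hz => by
    obtain ⟨x, hx, y, hy, rfl, -⟩ := mem_pairSep.1 hz
    exact hY.pair_mem hx hy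
  have hdom : ∀ x t, pair x t ∈ f → x ∈ d := fun x t h =>
    mem_sep.2 ⟨(pair_mem_prod.1 (hf h)).1, t, h⟩
  have h4 : ∀ x t, pair x t ∈ f → ∀ y s, pair y s ∈ f → (pair x y ∈ E ↔ t ∈ s) := by
    intro x t h y s h'
    rw [mem_pairSep]
    constructor
    · rintro ⟨x', -, y', -, h1, t', s', h2, h3, h4⟩
      obtain ⟨rfl, rfl⟩ := pair_inj.1 h1
      rwa [hfn _ _ h _ h2, hfn _ _ h' _ h3]
    · exact fun h1 => ⟨x, hdv (hdom x t h), y, hdv (hdom y s h'), rfl, t, s, h, h', h1⟩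
  have hne : (∅ : ZFSet.{u}) ≠ {∅} := fun h => by
    have h1 : (∅ : ZFSet.{u}) ∈ ({∅} : ZFSet.{u}) := mem_singleton.2 rfl
    rw [← h] at h1
    exact notMem_empty _ h1
  have s0 : sec (({∅} : ZFSet.{u}).prod d ∪ ({{∅}} : ZFSet.{u}).prod E) ∅ = d := by
    ext x; simp [mem_sec, hne]
  have s1 : sec (({∅} : ZFSet.{u}).prod d ∪ ({{∅}} : ZFSet.{u}).prod E) {∅} = E := by
    ext x; simp [mem_sec, hne.symm]
  refine ⟨({∅} : ZFSet.{u}).prod d ∪ ({{∅}} : ZFSet.{u}).prod E, fun z hz => ?_, ho, f,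
    coll hY.model_NN (hY.mem_NN hdv) (hY.mem_NN hEv) hfn (fun w hw => ?_)
      (fun x hx => (mem_sep.1 hx).2) (fun x t h s hs => ?_) h4, ?_,
    fun t ht => (honto t ht).imp fun x hx => hx.2, s1.symm ▸ h4⟩
  · rcases mem_union.1 hz with hz | hz
    · exact hY.prod_subset (hY.sub_of_mem (hY.singleton_mem hY.empty_mem)) hdv hz
    · exact hY.prod_subset (hY.sub_of_mem (hY.singleton_mem (hY.singleton_mem hY.empty_mem))) hEv hz
  · obtain ⟨x, -, t, -, rfl⟩ := mem_prod.1 (hf hw)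
    exact ⟨x, hdom x t hw, t, rfl⟩
  · exact (honto s (ho.mem_trans hs (pair_mem_prod.1 (hf h)).2)).imp fun x hx => hx.2
  · rw [s0]
    refine ⟨fun w hw => ?_, fun x hx => ?_⟩
    · obtain ⟨x, -, t, ht, rfl⟩ := mem_prod.1 (hf hw)
      exact pair_mem_prod.2 ⟨hdom x t hw, ht⟩
    · obtain ⟨t, ht⟩ := (mem_sep.1 hx).2
      exact ⟨t, ht, fun s hs => hfn _ _ hs _ ht⟩

theorem Ctx.jTheta {j : ZFSet.{u} → ZFSet.{u}} {W : ℕ → ZFSet.{u}} {v : ZFSet.{u}}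
    (hj : Ctx j W v) : j (Theta v) = Theta v := by
  have hT := hj.tower
  have hN := hT.model_NN
  have h0 := hT.ord_mem_NN (isOrdinal_Theta v)
  have h1 : ∀ β, β ∈ Theta v ↔ ∃ a ∈ powerset v, Cod (NN v) a β := fun β =>
    ⟨fun h => (exists_cod hT h).imp fun a ha => ⟨mem_powerset.2 ha.1, ha.2⟩,
      fun ⟨a, ha, h⟩ => h.mem_Theta hT (mem_powerset.1 ha)⟩
  have h2 := (hj.elem.zd2 hN hN (fun M μ A => ∀ β ∈ M, (β ∈ μ ↔ ∃ a ∈ A, Cod M a β)) h0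
    hT.powerset_mem_NN).1 fun β _ => h1 β
  rw [hj.jA] at h2
  ext β
  exact ⟨fun h => (h1 β).2 ((h2 β (hN.transitive _ (hj.elem.maps _ h0) β h)).1 h),
    fun h => (h2 β (hN.transitive _ h0 β h)).2 ((h1 β).1 h)⟩

end Pool.Agent.P.MP_37b794_lc.I0
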