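import Pool.Agent.P.MP_37b794_lc.I0.Cond

/-!
Fusion for the product of collapses and the facts about names that follow from it.
-/

universe u

set_option synthInstance.maxSize 16384

namespace Pool.Agent.P.MP_37b794_lc.I0

open ZFSet Pool.Agent.Lib.Forcing Pool.Agent.P.MP_af0a18_lc

variable {Y : ℕ → ZFSet.{u}} {v : ZFSet.{u}}

theorem Fus_inter {y w : ZFSet.{u}} (h : y ⊆ w) : y ∩ w = y := by
  ext x
  rw [mem_inter]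
  exact ⟨fun h' => h'.1, fun h' => ⟨h', h h'⟩⟩

theorem Fus_split (q w : ZFSet.{u}) : (q ∩ w) ∪ (q \ w) = q := by
  ext x
  rw [mem_union, mem_inter, mem_sdiff]
  tauto

theorem Fus_mono {y y' q q' w : ZFSet.{u}} (h : y ⊆ y') (h' : q \ w ⊆ q') :
    y ∪ (q \ w) ⊆ y' ∪ (q' \ w) := fun _ hx =>
  mem_union.2 ((mem_union.1 hx).imp (fun h1 => h h1) fun h1 =>
    mem_sdiff.2 ⟨h' h1, (mem_sdiff.1 h1).2⟩)

theorem Fus_sdiff {q q' w : ZFSet.{u}} (h : q ⊆ q') : q \ w ⊆ q' := fun _ hx =>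
  h (mem_sdiff.1 hx).1

theorem Fus_glue (hY : Tower Y v) {y q : ZFSet.{u}} {n : ℕ} (hy : y ∈ PY Y v) (hn : y ⊆ Y n)
    (hq : q ∈ PY Y v) : y ∪ (q \ Y n) ∈ PY Y v := by
  have := ((mem_PY' hY).1 hy).glue ((mem_PY' hY).1 hq) hY n
  rwa [Fus_inter hn, ← mem_PY' hY] at this

theorem Fus_low (hY : Tower Y v) {y : ZFSet.{u}} {n : ℕ} (hy : y ∈ PY Y v) (hn : y ⊆ Y n) :
    y ∈ Y n := by
  have := ((mem_PY' hY).1 hy).inter_mem hY n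
  rwa [Fus_inter hn] at this

theorem Fus_cut (hY : Tower Y v) {q : ZFSet.{u}} (hq : q ∈ PY Y v) (n : ℕ) :
    q ∩ Y n ∈ PY Y v ∧ q ∩ Y n ⊆ Y n :=
  ⟨(mem_PY' hY).2 (((mem_PY' hY).1 hq).inter hY n), fun _ h => (mem_inter.1 h).2⟩

theorem EE.mono (hY : Tower Y v) {D : ZFSet.{u} → Prop} (hD : DO (PY Y v) D) {n : ℕ}
    {q q' : ZFSet.{u}} (h : EE (PY Y v) (Y n) D q) (hq' : q' ∈ PY Y v) (hqq : q \ Y n ⊆ q') :
    EE (PY Y v) (Y n) D q' := by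
  intro y hy hn
  obtain ⟨y', h1, h2, h3, h4⟩ := h y hy hn
  exact ⟨y', h1, h2, h3, hD.2.1 _ h4 _ (Fus_glue hY h1 h3 hq') (Fus_mono (fun _ h => h) hqq)⟩

/-- One step of the fusion. -/
theorem Fus_step (hY : Tower Y v) (n : ℕ) {I : ZFSet.{u}} (hI : I.card ≤ (Y n).card)
    (D : ZFSet.{u} → ZFSet.{u} → Prop) (hD : ∀ i ∈ I, DO (PY Y v) (D i))
    {p : ZFSet.{u}} (hp : p ∈ PY Y v) :
    ∃ q ∈ PY Y v, p ⊆ q ∧ ∀ i ∈ I, EE (PY Y v) (Y n) (D i) q := by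
  have tl : ∀ q ∈ PY Y v, InP (PiOf Y) (q \ Y n) ∧ ∀ w ∈ q \ Y n, w ∉ Y n := fun q hq =>
    ⟨((mem_PY' hY).1 hq).sdiff hY n, fun w hw => (mem_sdiff.1 hw).2⟩
  obtain ⟨q, hq, h1, h2⟩ := baire (le := fun a b : ZFSet.{u} => a ⊆ b) (fun _ _ h => h)
    (fun _ _ _ h h' _ hx => h' (h hx)) (clo_tail hY n)
    (card_prod_le (hY.aleph0_le n) hI le_rfl)
    (fun z r => ∀ i y, z = pair i y → y ∈ PY Y v → y ⊆ Y n →
      ∃ y' ∈ PY Y v, y ⊆ y' ∧ y' ⊆ Y n ∧ D i (y' ∪ (r \ Y n))) (by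
      intro z hz r hr
      obtain ⟨i, hi, y, -, rfl⟩ := mem_prod.1 hz
      by_cases h : y ∈ PY Y v ∧ y ⊆ Y n
      · obtain ⟨s, h3, h4⟩ := (hD i hi).2.2 _ (Fus_glue hY h.1 h.2 ((mem_PY' hY).2 hr.1))
        have hs := (hD i hi).1 s h3
        refine ⟨s \ Y n, tl s hs, fun x hx => mem_sdiff.2
          ⟨h4 (mem_union.2 (Or.inr (mem_sdiff.2 ⟨hx, hr.2 x hx⟩))), hr.2 x hx⟩, ?_⟩
        intro i' y' e _ _
        obtain ⟨rfl, rfl⟩ := pair_inj.1 e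
        refine ⟨s ∩ Y n, (Fus_cut hY hs n).1, fun x hx => mem_inter.2
          ⟨h4 (mem_union.2 (Or.inl hx)), h.2 hx⟩, (Fus_cut hY hs n).2, (hD i hi).2.1 s h3 _
          (Fus_glue hY (Fus_cut hY hs n).1 (Fus_cut hY hs n).2 ((mem_PY' hY).2 (tl s hs).1)) ?_⟩
        conv_lhs => rw [← Fus_split s (Y n)]
        exact Fus_mono (fun _ h => h) fun _ h => h
      · refine ⟨r, hr, fun _ h => h, fun i' y' e h3 h4 => ?_⟩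
        obtain ⟨rfl, rfl⟩ := pair_inj.1 e
        exact absurd ⟨h3, h4⟩ h) (tl p hp)
  have hq' := (mem_PY' hY).2 hq.1
  have hg := Fus_glue hY (Fus_cut hY hp n).1 (Fus_cut hY hp n).2 hq'
  refine ⟨_, hg, ?_, fun i hi => EE.mono hY (hD i hi) (q := q) (fun y hy hn => ?_) hg
    fun x hx => mem_union.2 (Or.inr hx)⟩
  · conv_lhs => rw [← Fus_split p (Y n)]
    exact Fus_mono (fun _ h => h) h1
  · obtain ⟨r, -, h3, -, h4⟩ := h2 (pair i y) (pair_mem_prod.2 ⟨hi, Fus_low hY hy hn⟩)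
    obtain ⟨y', h5, h6, h7, h8⟩ := h3 i y rfl hy hn
    exact ⟨y', h5, h6, h7, (hD i hi).2.1 _ h8 _ (Fus_glue hY h5 h7 hq')
      (Fus_mono (fun _ h => h) (Fus_sdiff h4))⟩

/-- Countably many tasks. -/
theorem Fus_chain (hY : Tower Y v) (R : ℕ → ZFSet.{u} → Prop) {p : ZFSet.{u}} (hp : p ∈ PY Y v)
    (H : ∀ n, ∀ q ∈ PY Y v, p ⊆ q → ∃ q' ∈ PY Y v, q ⊆ q' ∧ R n q') :
    ∃ q ∈ PY Y v, p ⊆ q ∧ ∀ n, ∃ q', q' ⊆ q ∧ R n q' := by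
  choose! F hF using H
  let f : ℕ → ZFSet.{u} := fun n => Nat.rec p F n
  have h1 : ∀ n, f n ∈ PY Y v ∧ p ⊆ f n := by
    intro n
    induction n with
    | zero => exact ⟨hp, fun _ h => h⟩
    | succ n ih => exact ⟨(hF n _ ih.1 ih.2).1, fun _ h => (hF n _ ih.1 ih.2).2.1 (ih.2 h)⟩
  exact ⟨iUnion f, (mem_PY' hY).2 (inP_iUnion hY (fun n => (mem_PY' hY).1 (h1 n).1)
    fun n => (hF n _ (h1 n).1 (h1 n).2).2.1), subset_iUnion f 0,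
    fun n => ⟨f (n + 1), subset_iUnion f (n + 1), (hF n _ (h1 n).1 (h1 n).2).2.2⟩⟩

theorem fus (hY : Tower Y v) (I : ℕ → ZFSet.{u}) (hI : ∀ n, (I n).card ≤ (Y n).card)
    (D : ℕ → ZFSet.{u} → ZFSet.{u} → Prop) (hD : ∀ n, ∀ i ∈ I n, DO (PY Y v) (D n i))
    {p : ZFSet.{u}} (hp : p ∈ PY Y v) :
    ∃ q ∈ PY Y v, p ⊆ q ∧ ∀ n, ∀ i ∈ I n, EE (PY Y v) (Y n) (D n i) q := by
  obtain ⟨q, hq, h1, h2⟩ := Fus_chain hY (fun n q => ∀ i ∈ I n, EE (PY Y v) (Y n) (D n i) q) hp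
    fun n q hq _ => Fus_step hY n (hI n) (D n) (hD n) hq
  refine ⟨q, hq, h1, fun n i hi => ?_⟩
  obtain ⟨q', h3, h4⟩ := h2 n
  exact EE.mono hY (hD n i hi) (h4 i hi) hq (Fus_sdiff h3)

theorem dl0 (hY : Tower Y v) {I : ZFSet.{u}} (hI : I.card ≤ v.card)
    (D : ZFSet.{u} → ZFSet.{u} → Prop) (hD : ∀ i ∈ I, DO (PY Y v) (D i))
    {p : ZFSet.{u}} (hp : p ∈ PY Y v) :
    ∃ q ∈ PY Y v, p ⊆ q ∧ ∀ i ∈ I, ∃ m, ∀ n, m ≤ n → EE (PY Y v) (Y n) (D i) q := by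
  obtain ⟨g, hg⟩ := card_le_iff_surj.1 hI
  obtain ⟨q, hq, h1, h2⟩ := fus hY Y (fun _ => le_rfl)
    (fun _ t q => q ∈ PY Y v ∧ (g t ∈ I → D (g t) q)) (by
      refine fun _ t _ => ⟨fun _ h => h.1,
        fun q h q' hq' hqq => ⟨hq', fun ht => (hD _ ht).2.1 q (h.2 ht) q' hq' hqq⟩, fun q hq => ?_⟩
      by_cases ht : g t ∈ I
      · obtain ⟨q', h3, h4⟩ := (hD _ ht).2.2 q hq
        exact ⟨q', ⟨(hD _ ht).1 q' h3, fun _ => h3⟩, h4⟩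
      · exact ⟨q, ⟨hq, fun h => absurd h ht⟩, fun _ h => h⟩) hp
  refine ⟨q, hq, h1, fun i hi => ?_⟩
  obtain ⟨t, ht, rfl⟩ := hg i hi
  obtain ⟨m, hm⟩ := (hY.mem_v t).1 ht
  refine ⟨m, fun n hn y hy hy' => ?_⟩
  obtain ⟨y', h3, h4, h5, h6⟩ := h2 n t (hY.mono hn hm) y hy hy'
  exact ⟨y', h3, h4, h5, h6.2 hi⟩

/-- The conditions that decide whether `x` is in the set with name `S`. -/
def Fus_D (P S x q : ZFSet.{u}) : Prop :=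
  q ∈ P ∧ (pair x q ∈ S ∨ ∀ r ∈ P, q ⊆ r → pair x r ∉ S)

theorem Fus_DO {S : ZFSet.{u}} (hS : Up (LY Y v) S) (x : ZFSet.{u}) :
    DO (PY Y v) (Fus_D (PY Y v) S x) := by
  refine ⟨fun _ h => h.1, fun q h q' hq' hqq => ⟨hq', h.2.imp
    (fun h1 => hS x q h1 q' (mem_LY.2 ⟨hq', h.1, hqq⟩))
    fun h1 r hr h2 => h1 r hr fun _ h3 => h2 (hqq h3)⟩, fun p hp => ?_⟩
  by_cases h : ∃ r ∈ PY Y v, p ⊆ r ∧ pair x r ∈ S
  · obtain ⟨r, h1, h2, h3⟩ := h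
    exact ⟨r, ⟨h1, Or.inl h3⟩, h2⟩
  · exact ⟨p, ⟨hp, Or.inr fun r h1 h2 h3 => h ⟨r, h1, h2, h3⟩⟩, fun _ h => h⟩

theorem Fus_eqv (hY : Tower Y v) {a B S q : ZFSet.{u}} (ha : S ⊆ a.prod (PY Y v))
    (hS : Up (LY Y v) S) (hq : q ∈ PY Y v)
    (h : ∀ x ∈ a, ∃ n, Y n ⊆ B ∧ EE (PY Y v) (Y n) (Fus_D (PY Y v) S x) q) :
    ∃ S', S' ⊆ a.prod B ∧ Eqv (LY Y v) q S S' := by
  refine ⟨(a.prod B).sep fun z => ∃ x y m, z = pair x y ∧ y ∈ PY Y v ∧ y ⊆ Y m ∧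
    pair x (y ∪ (q \ Y m)) ∈ S, fun _ hz => (mem_sep.1 hz).1, ?_, ?_⟩
  · intro x r h1 h2
    obtain ⟨hr, -, hqr⟩ := mem_LY.1 h2
    have hx := (pair_mem_prod.1 (ha h1)).1
    obtain ⟨n, hn, he⟩ := h x hx
    obtain ⟨y, h3, h4, h5, h6⟩ := he _ (Fus_cut hY hr n).1 (Fus_cut hY hr n).2
    have hg := Fus_glue hY h3 h5 hr
    have h7 : pair (y ∪ (r \ Y n)) r ∈ LY Y v := by
      refine mem_LY.2 ⟨hg, hr, ?_⟩
      conv_lhs => rw [← Fus_split r (Y n)]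
      exact Fus_mono h4 (Fus_sdiff fun _ h => h)
    exact ⟨_, h7, y, mem_sep.2 ⟨pair_mem_prod.2 ⟨hx, hn (Fus_low hY h3 h5)⟩, x, y, n, rfl, h3, h5,
      h6.2.resolve_right fun h8 => h8 _ hg (Fus_mono (fun _ h => h) (Fus_sdiff hqr))
        (hS x r h1 _ h7)⟩, mem_LY.2 ⟨hg, h3, fun _ h => mem_union.2 (Or.inl h)⟩⟩
  · intro x y h1 r h2 h3
    obtain ⟨-, x', y', m, e, h4, h5, h6⟩ := mem_sep.1 h1
    obtain ⟨rfl, rfl⟩ := pair_inj.1 e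
    exact hS x _ h6 r (mem_LY.2 ⟨(mem_LY.1 h2).1, Fus_glue hY h4 h5 hq, fun w hw =>
      (mem_union.1 hw).elim (fun h7 => (mem_LY.1 h3).2.2 h7)
        fun h7 => Fus_sdiff (mem_LY.1 h2).2.2 h7⟩)

theorem m3a_univ (hY : Tower Y v) : M3a Set.univ v (PY Y v) (LY Y v) := by
  intro a ha
  obtain ⟨n, hn⟩ := hY.exists_subset ha
  refine ⟨powerset (a.prod (Y n)), hY.powerset_mem (hY.prod_mem ha (hY.Y_mem n)),
    fun S _ h1 h2 p hp => ?_⟩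
  obtain ⟨q, hq, h3, h4⟩ := Fus_step hY n (card_mono (hn n le_rfl)) (Fus_D (PY Y v) S)
    (fun x _ => Fus_DO h2 x) hp
  obtain ⟨S', h5, h6⟩ := Fus_eqv hY h1 h2 hq fun x hx => ⟨n, fun _ h => h, h4 x hx⟩
  exact ⟨q, mem_LY.2 ⟨hq, hp, h3⟩, S', mem_powerset.2 h5, h6⟩

theorem m3b_univ (hY : Tower Y v) : M3b Set.univ v (powerset v) (PY Y v) (LY Y v) := by
  intro S _ h1 h2 p hp
  obtain ⟨q, hq, h3, h4⟩ := dl0 hY le_rfl (Fus_D (PY Y v) S) (fun x _ => Fus_DO h2 x) hp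
  obtain ⟨S', h5, h6⟩ := Fus_eqv (B := v) hY h1 h2 hq fun x hx =>
    (h4 x hx).imp fun n hn => ⟨hY.Y_subset n, hn n le_rfl⟩
  exact ⟨q, mem_LY.2 ⟨hq, hp, h3⟩, S', mem_powerset.2 fun _ h =>
    hY.prod_subset (fun _ h => h) (fun _ h => h) (h5 h), h6⟩

theorem m4_univ (hY : Tower Y v) : M4 Set.univ v (powerset v) (PY Y v) (LY Y v) := by
  intro S _ _ _ p hp
  by_contra hc
  simp only [not_exists, not_and, not_or] at hc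
  obtain ⟨q, hq, h1, h2⟩ := Fus_chain hY (fun n q => ∀ x ∈ Y n,
    (∀ r ∈ PY Y v, q ⊆ r → ∃ r', pair r' r ∈ LY Y v ∧ pair x r' ∈ S) ∨
      ∀ r ∈ PY Y v, q ⊆ r → pair x r ∉ S) hp (by
      intro n q hq hpq
      have h3 := (hc q (mem_LY.2 ⟨hq, hp, hpq⟩)).2 _ (hY.Y_mem n)
      simp only [not_forall, not_exists, not_and, not_or, not_not] at h3
      obtain ⟨z, -, r, h4, h5⟩ := h3
      refine ⟨r, (mem_LY.1 h4).1, (mem_LY.1 h4).2.2, fun x hx => ?_⟩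
      by_cases hz : x ∈ z
      · refine Or.inl fun r' h6 h7 => ?_
        obtain ⟨r'', h8, h9⟩ := (h5 r' (mem_LY.2 ⟨h6, (mem_LY.1 h4).1, h7⟩) x hx).1 hz
        exact ⟨r'', h8, h9⟩
      · exact Or.inr fun r' h6 h7 => (h5 r' (mem_LY.2 ⟨h6, (mem_LY.1 h4).1, h7⟩) x hx).2 hz)
  refine (hc q (mem_LY.2 ⟨hq, hp, h1⟩)).1 (v.sep fun x => ∀ r, pair r q ∈ LY Y v →
    ∃ r', pair r' r ∈ LY Y v ∧ pair x r' ∈ S) (mem_powerset.2 fun _ h => (mem_sep.1 h).1)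
    fun x hx => ⟨fun h => (mem_sep.1 h).2, fun h r hr => ?_⟩
  obtain ⟨n, hn⟩ := (hY.mem_v x).1 hx
  obtain ⟨q', h3, h4⟩ := h2 n
  rcases h4 x hn with h5 | h5
  · exact absurd (mem_sep.2 ⟨hx, fun r hr => h5 r (mem_LY.1 hr).1
      fun _ h6 => (mem_LY.1 hr).2.2 (h3 h6)⟩) h
  · exact h5 r (mem_LY.1 hr).1 fun _ h6 => (mem_LY.1 hr).2.2 (h3 h6)

end Pool.Agent.P.MP_37b794_lc.I0
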