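import Pool.Agent.P.MP_37b794_lc.I0.Cond

/-!
The forcing notion, the collapse names and the sets of the interface.
-/

universe u

set_option synthInstance.maxSize 16384

namespace Pool.Agent.P.MP_37b794_lc.I0

open ZFSet Pool.Agent.Lib.Forcing Pool.Agent.P.MP_af0a18_lc

variable {Y : ℕ → ZFSet.{u}} {v : ZFSet.{u}}

theorem g5_PY (hY : Tower Y v) : G5 (PY Y v) (LY Y v) := by
  refine ⟨(mem_PY' hY).2 (inP_empty hY), fun z hz => ?_,
    fun p hp => mem_LY.2 ⟨hp, hp, fun _ h => h⟩, fun r q h1 p h2 => ?_⟩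
  · rw [LY, mem_pairSep] at hz
    obtain ⟨a, ha, b, hb, h, -⟩ := hz
    exact ⟨a, ha, b, hb, h⟩
  · obtain ⟨h3, -, h4⟩ := mem_LY.1 h1
    obtain ⟨-, h5, h6⟩ := mem_LY.1 h2
    exact mem_LY.2 ⟨h3, h5, fun _ h => h4 (h6 h)⟩

theorem PY_mem_NN (hY : Tower Y v) : PY Y v ∈ NN v := by
  have hM := hY.model_NN
  have := hM.zfm
  have h : Df (NN v) (fun e => InP (e 0) (e 1)) :=
    (inferInstance : ZD.{u} (fun _ e => InP (e 0) (e 1))).toDf hM
  have h' : Df (NN v) (fun e => InP (PiOf Y) (e 0)) :=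
    h.consTm (@Tm.const (NN v) (PiOf Y) ⟨hY.mem_NN (piOf_subset hY)⟩)
  exact sep_mem (InP (PiOf Y)) hY.powerset_mem_NN

theorem LY_mem_NN (hY : Tower Y v) : LY Y v ∈ NN v := by
  have hM := hY.model_NN
  have := hM.zfm
  obtain ⟨S, hS, h1, h2⟩ := exists_pairSep (M := NN v) (fun q p => p ⊆ q)
    (PY_mem_NN hY) (PY_mem_NN hY)
  convert hS using 1
  ext z
  constructor
  · intro hz
    obtain ⟨q, -, p, -, rfl⟩ := (g5_PY hY).2.1 z hz
    exact (h2 q p).2 (mem_LY.1 hz)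
  · intro hz
    obtain ⟨q, -, p, -, rfl⟩ := mem_prod.1 (h1 hz)
    exact mem_LY.2 ((h2 q p).1 hz)

/-- A map on the sets `nat k` that follows a sequence. -/
theorem Fus2_seq (F : ℕ → ZFSet.{u}) : ∃ g : ZFSet.{u} → ZFSet.{u}, ∀ k, g (nat k) = F k := by
  classical
  refine ⟨fun t => if h : ∃ k, nat k = t then F h.choose else ∅, fun k => ?_⟩
  have h : ∃ j, nat.{u} j = nat k := ⟨k, rfl⟩
  simp only [dif_pos h]
  rw [nat_inj.1 h.choose_spec]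

theorem Fus2_fin (F : ℕ → ZFSet.{u}) {X : ZFSet.{u}} (N : ℕ) (h : ∀ y ∈ X, ∃ k < N, F k = y) :
    Surj Set.univ (nat N) X := by
  obtain ⟨g, hg⟩ := Fus2_seq F
  refine surj_univ_iff.2 (card_le_iff_surj.2 ⟨g, fun y hy => ?_⟩)
  obtain ⟨k, hk, rfl⟩ := h y hy
  exact ⟨nat k, mem_nat.2 ⟨k, hk, rfl⟩, hg k⟩

/-- The list of the cardinals that survive. -/
noncomputable def Fus2_D (Y : ℕ → ZFSet.{u}) : ℕ → ZFSet.{u}
  | 0 => omega
  | k + 1 => if k % 2 = 0 then Theta (Y (k / 2)) else Theta (powerset (Y (k / 2)))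

theorem Fus2_D_odd (n : ℕ) : Fus2_D Y (2 * n + 1) = Theta (Y n) := by
  rw [Fus2_D, if_pos (by omega), show 2 * n / 2 = n by omega]

theorem Fus2_D_even (n : ℕ) : Fus2_D Y (2 * n + 1 + 1) = Theta (powerset (Y n)) := by
  rw [Fus2_D, if_neg (by omega), show (2 * n + 1) / 2 = n by omega]

theorem Fus2_card_pow (a : ZFSet.{u}) : a.card ≤ (powerset a).card := by
  rw [card_powerset]
  exact (Cardinal.cantor _).le

theorem Fus2_le {α δ : ZFSet.{u}} (hα : α.IsOrdinal) (hδ : δ.IsOrdinal) (h : α ∉ δ) :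
    δ ∈ insert α α := by
  rw [mem_insert_iff]
  rcases hδ.mem_trichotomous hα with h1 | h1 | h1
  · exact Or.inr h1
  · exact Or.inl h1
  · exact absurd h1 h

/-- The name that is read off one coordinate of the generic. -/
theorem Fus2_name (hY : Tower Y v) {T δ α : ZFSet.{u}} (g : ZFSet.{u} → ZFSet.{u})
    (hfn : ∀ q, InP (PiOf Y) q → Fn (sec q T))
    (hext : ∀ q, InP (PiOf Y) q → ∀ η ∈ α, ∃ x, g x = η ∧ ∃ ξ ∈ δ,
      InP (PiOf Y) (insert (pair T (pair ξ x)) q)) :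
    ∃ S ∈ (Set.univ : Set ZFSet.{u}), NameSurj (PY Y v) (LY Y v) S δ α := by
  let S : ZFSet.{u} := ((δ.prod α).prod (PY Y v)).sep fun z =>
    ∃ ξ x q, z = pair (pair ξ (g x)) q ∧ pair T (pair ξ x) ∈ q
  have hS : ∀ w q, pair w q ∈ S ↔ (w ∈ δ.prod α ∧ q ∈ PY Y v) ∧
      ∃ ξ x, w = pair ξ (g x) ∧ pair T (pair ξ x) ∈ q := by
    intro w q
    rw [mem_sep, pair_mem_prod]
    refine and_congr_right fun _ => ⟨?_, ?_⟩
    · rintro ⟨ξ, x, q', h1, h2⟩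
      obtain ⟨rfl, rfl⟩ := pair_inj.1 h1
      exact ⟨ξ, x, rfl, h2⟩
    · rintro ⟨ξ, x, rfl, h2⟩
      exact ⟨ξ, x, q, rfl, h2⟩
  refine ⟨S, trivial, sep_subset, fun w p h q hq => ?_, fun w p h w' h' he => ?_,
    fun η hη p hp => ?_⟩
  · obtain ⟨⟨h1, -⟩, ξ, x, h2, h3⟩ := (hS w p).1 h
    obtain ⟨h4, -, h5⟩ := mem_LY.1 hq
    exact (hS w q).2 ⟨⟨h1, h4⟩, ξ, x, h2, h5 h3⟩
  · obtain ⟨⟨-, h1⟩, ξ, x, rfl, h3⟩ := (hS w p).1 h
    obtain ⟨-, ξ', x', rfl, h4⟩ := (hS w' p).1 h'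
    rw [fst_pair, fst_pair] at he
    subst he
    rw [hfn p ((mem_PY' hY).1 h1) ξ x (mem_sec.2 h3) x' (mem_sec.2 h4)]
  · obtain ⟨x, rfl, ξ, hξ, h⟩ := hext p ((mem_PY' hY).1 hp) η hη
    have hq := (mem_PY' hY).2 h
    exact ⟨_, mem_LY.2 ⟨hq, hp, fun _ hz => mem_insert_of_mem _ hz⟩, ξ, hξ,
      (hS _ _).2 ⟨⟨pair_mem_prod.2 ⟨hξ, hη⟩, hq⟩, ξ, x, rfl, mem_insert _ _⟩⟩

/-- The canonical name of an old surjection. -/
theorem Fus2_old {δ α : ZFSet.{u}} (h : α.card ≤ δ.card) :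
    ∃ S ∈ (Set.univ : Set ZFSet.{u}), NameSurj (PY Y v) (LY Y v) S δ α := by
  obtain ⟨f, h1, h2, h3⟩ := card_le_iff_fn.1 h
  refine ⟨f.prod (PY Y v), trivial, fun z hz => ?_, fun w p h q hq => ?_,
    fun w p h w' h' he => ?_, fun η hη p hp => ?_⟩
  · obtain ⟨a, ha, b, hb, rfl⟩ := mem_prod.1 hz
    exact pair_mem_prod.2 ⟨h1 ha, hb⟩
  · exact pair_mem_prod.2 ⟨(pair_mem_prod.1 h).1, (mem_LY.1 hq).1⟩
  · have hw := (pair_mem_prod.1 h).1
    have hw' := (pair_mem_prod.1 h').1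
    obtain ⟨a, -, b, -, rfl⟩ := mem_prod.1 (h1 hw)
    obtain ⟨a', -, b', -, rfl⟩ := mem_prod.1 (h1 hw')
    rw [fst_pair, fst_pair] at he
    subst he
    rw [h2 a b hw b' hw']
  · obtain ⟨t, ht, h4⟩ := h3 η hη
    exact ⟨p, mem_LY.2 ⟨hp, hp, fun _ h => h⟩, t, ht, pair_mem_prod.2 ⟨h4, hp⟩⟩

theorem m5_univ (hY : Tower Y v) (h0 : (Y 0).card = Cardinal.aleph0) :
    M5 Set.univ (ords v) (PY Y v) (LY Y v) := by
  classical
  refine ⟨range (Fus2_D Y), trivial, fun γ hγ => ?_, fun α hα hω => ?_⟩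
  · obtain ⟨h1, h2⟩ := mem_sep.1 hγ
    obtain ⟨m, hm⟩ := hY.exists_subset h1
    refine ⟨nat (2 * m + 1), nat_mem_omega _, Fus2_fin (Fus2_D Y) _ fun y hy => ?_⟩
    obtain ⟨h3, h4⟩ := mem_inter.1 hy
    obtain ⟨k, rfl⟩ := mem_range.1 h3
    refine ⟨k, ?_, rfl⟩
    by_contra hk
    obtain ⟨j, rfl⟩ : ∃ j, k = j + 1 := ⟨k - 1, by omega⟩
    have h5 : γ.card ≤ (Y (j / 2)).card := card_mono (hm _ (by omega))
    refine mem_asymm h4 ?_
    rw [Fus2_D]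
    split_ifs
    · exact mem_Theta.2 ⟨h2, h5⟩
    · exact mem_Theta.2 ⟨h2, h5.trans (Fus2_card_pow _)⟩
  · obtain ⟨h1, h2⟩ := mem_sep.1 hα
    have hex : ∃ n, α ∈ Theta (Y n) := by
      obtain ⟨m, hm⟩ := hY.exists_subset h1
      exact ⟨m, mem_Theta.2 ⟨h2, card_mono (hm m le_rfl)⟩⟩
    have hn := Nat.find_spec hex
    have hmin : ∀ m < Nat.find hex, α ∉ Theta (Y m) := fun m hm => Nat.find_min hex hm
    generalize Nat.find hex = n at hn hmin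
    cases n with
    | zero =>
      refine ⟨omega, mem_range.2 ⟨0, rfl⟩, Fus2_le h2 isOrdinal_omega
        fun h => mem_irrefl _ (hω h), Fus2_old ?_⟩
      rw [card_omega, ← h0]
      exact (mem_Theta.1 hn).2
    | succ m =>
      by_cases hc : α ∈ Theta (powerset (Y m))
      · obtain ⟨g, hg⟩ := card_le_iff_surj.1 (mem_Theta.1 hc).2
        refine ⟨Theta (Y m), mem_range.2 ⟨2 * m + 1, Fus2_D_odd m⟩,
          Fus2_le h2 (isOrdinal_Theta _) (hmin m (Nat.lt_succ_self m)),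
          Fus2_name hY (T := Y m) g (fun q hq => (((inP_iff hY).1 hq).2 m).1.fn)
            fun q hq η hη => ?_⟩
        obtain ⟨x, hx, rfl⟩ := hg η hη
        exact ⟨x, rfl, hq.extendA hY m (mem_powerset.1 hx)⟩
      · obtain ⟨g, hg⟩ := card_le_iff_surj.1 (mem_Theta.1 hn).2
        refine ⟨Theta (powerset (Y m)), mem_range.2 ⟨2 * m + 1 + 1, Fus2_D_even m⟩,
          Fus2_le h2 (isOrdinal_Theta _) hc,
          Fus2_name hY (T := powerset (Y m)) g (fun q hq => (((inP_iff hY).1 hq).2 m).2.fn)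
            fun q hq η hη => ?_⟩
        obtain ⟨x, hx, rfl⟩ := hg η hη
        exact ⟨x, rfl, hq.extendC hY m hx⟩

theorem Fus2_ord_mem (hY : Tower Y v) {w : ZFSet.{u}} (hw : w ∈ v) :
    ∃ γ ∈ ords v, γ.card = w.card := by
  have hc : (w.card.ord.toZFSet).card = w.card := by
    rw [Ordinal.card_toZFSet, Cardinal.card_ord]
  obtain ⟨n, hn, -⟩ := hY.exists_mem2 hw hw
  exact ⟨_, mem_sep.2 ⟨hY.Y_subset _
    ((hY.univ n).ord_mem_of_card_le (isOrdinal_toZFSet _) hn hc.le), isOrdinal_toZFSet _⟩, hc⟩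

theorem Fus2_card_v (hY : Tower Y v) : v.card ≤ (ords v).card := by
  have key : ∀ w ∈ v, w.card ≤ (ords v).card := fun w hw => by
    obtain ⟨γ, h1, h2⟩ := Fus2_ord_mem hY hw
    exact h2 ▸ card_mono ((isOrdinal_ords hY.trans_v).subset_of_mem h1)
  have hinf : Cardinal.aleph0 ≤ (ords v).card := card_omega.{u} ▸ key _ hY.omega_mem
  obtain ⟨g, hg⟩ := Fus2_seq Y
  refine le_trans (card_mono fun z hz => ?_)
    (card_sUnion_img_le (I := omega) (f := g) hinf (key _ hY.omega_mem) fun i hi => ?_)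
  · obtain ⟨n, hn⟩ := (hY.mem_v z).1 hz
    exact Sq_mem_sUnion_img.2 ⟨nat n, nat_mem_omega n, (hg n).symm ▸ hn⟩
  · obtain ⟨n, rfl⟩ := mem_omega_iff.1 hi
    rw [hg n]
    exact key _ (hY.Y_mem n)

theorem sets_univ (hY : Tower Y v) : Sets Set.univ v (powerset v) (ords v) (Theta v) := by
  refine ⟨hY.trans_v, (pow_univ v).symm,
    fun a _ y hy => hY.mem_of_subset hy fun _ hz => (mem_inter.1 hz).2,
    isOrdinal_ords hY.trans_v, mem_sep.2 ⟨hY.omega_mem, isOrdinal_omega⟩, sep_subset,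
    surj_univ_iff.2 (Fus2_card_v hY), fun w hw => ?_, fun α hα β hβ => ?_, isOrdinal_Theta v,
    mem_Theta.2 ⟨isOrdinal_ords hY.trans_v, card_mono sep_subset⟩,
    fun α hα => surj_univ_iff.2 ((mem_Theta.1 hα).2.trans (Fus2_card_v hY))⟩
  · obtain ⟨γ, h1, h2⟩ := Fus2_ord_mem hY hw
    exact ⟨γ, h1, surj_univ_iff.2 h2.ge⟩
  · obtain ⟨n, h1, h2⟩ := hY.exists_mem2 (mem_sep.1 hα).1 (mem_sep.1 hβ).1
    have := (hY.univ n).isZFModel.zfm
    exact mem_sep.2 ⟨hY.Y_subset _ ((tm_gp (M := (Y (n + 1) : Set ZFSet.{u}))).mem1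
      ((hY.univ n).pair_mem h1 h2)), isOrdinal_gp _⟩

end Pool.Agent.P.MP_37b794_lc.I0
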