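import Pool.Agent.P.MP_37b794_lc.I0.Null
import Pool.Agent.P.MP_37b794_lc.I0.Code

/-!
The measure on the successor of the supremum of the critical sequence.
-/

universe u

set_option synthInstance.maxSize 16384

namespace Pool.Agent.P.MP_37b794_lc.I0

open ZFSet Pool.Agent.Lib.Forcing Pool.Agent.P.MP_af0a18_lc

variable {j : ZFSet.{u} → ZFSet.{u}} {W : ℕ → ZFSet.{u}} {v : ZFSet.{u}}

/-- The nodes of a branch: the points of `μ` that pass all earlier tests. -/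
noncomputable def Meas_nd (μ : ZFSet.{u}) (R : ZFSet.{u} → ZFSet.{u} → ZFSet.{u} → Prop) :
    ZFSet.{u} → ZFSet.{u} :=
  mem_wf.fix fun ξ ih => μ.sep fun g => ∀ η (h : η ∈ ξ), R η (ih η h) g

theorem Meas_mem_nd {μ ξ g : ZFSet.{u}} {R : ZFSet.{u} → ZFSet.{u} → ZFSet.{u} → Prop} :
    g ∈ Meas_nd μ R ξ ↔ g ∈ μ ∧ ∀ η ∈ ξ, R η (Meas_nd μ R η) g := by
  rw [Meas_nd, WellFounded.fix_eq, mem_sep]

theorem Meas_nd_congr {μ κ : ZFSet.{u}} {R R' : ZFSet.{u} → ZFSet.{u} → ZFSet.{u} → Prop}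
    (hκ : κ.IsTransitive)
    (h : ∀ η ∈ κ, ∀ g, R η (Meas_nd μ R η) g ↔ R' η (Meas_nd μ R η) g) (ξ : ZFSet.{u}) :
    ξ ∈ κ → Meas_nd μ R ξ = Meas_nd μ R' ξ := by
  induction ξ using ZFSet.inductionOn with
  | h ξ ih =>
    intro hξ
    ext g
    rw [Meas_mem_nd, Meas_mem_nd]
    refine and_congr_right fun _ => forall_congr' fun η => forall_congr' fun hη => ?_
    have h1 : η ∈ κ := hκ ξ hξ hη
    rw [← ih η hη h1]
    exact h η h1 g

theorem Meas_tm_nd {M : Set ZFSet.{u}} (hM : IsZFModel M) {μ : ZFSet.{u}} (hμ : μ ∈ M)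
    (R : ZFSet.{u} → ZFSet.{u} → ZFSet.{u} → Prop) (hR : Df M (fun e => R (e 0) (e 1) (e 2))) :
    Tm M (fun e => Meas_nd μ R (e 0)) := by
  have := hM.zfm
  have := InM.mk hμ
  have hR' : ∀ (s t w : Env.{u} → ZFSet.{u}) [Tm M s] [Tm M t] [Tm M w],
      Df M (fun e => R (s e) (t e) (w e)) := fun s t w _ _ _ => Df.subst3 hR s t w
  refine mem_recursion (Meas_nd μ R)
    (fun x f z => z = μ.sep fun g => ∀ η ∈ x, ∀ S, pair η S ∈ f → R η S g) ?_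
  intro x hx f hf H
  have := InM.mk hx
  have := InM.mk hf
  have h1 : Meas_nd μ R x = μ.sep fun g => ∀ η ∈ x, ∀ S, pair η S ∈ f → R η S g := by
    ext g
    rw [Meas_mem_nd, mem_sep]
    refine and_congr_right fun _ => forall_congr' fun η => forall_congr' fun hη => ?_
    exact ⟨fun h S hS => (H η hη S).1 hS ▸ h, fun h => h _ ((H η hη _).2 rfl)⟩
  rw [h1]
  exact ⟨sep_mem _ hμ, fun z _ => Iff.rfl⟩

/-- The points that leave the branch, with the level at which they leave it. -/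
theorem Meas_branch {M : Set ZFSet.{u}} (hM : IsZFModel M) {μ κ : ZFSet.{u}} (hμ : μ ∈ M)
    (hκ : κ ∈ M) (R : ZFSet.{u} → ZFSet.{u} → ZFSet.{u} → Prop)
    (hR : Df M (fun e => R (e 0) (e 1) (e 2))) :
    ∃ T ∈ M, ∀ ξ g, pair ξ g ∈ T ↔
      ξ ∈ κ ∧ g ∈ Meas_nd μ R ξ ∧ ¬ R ξ (Meas_nd μ R ξ) g := by
  have := hM.zfm
  have hR' : ∀ (s t w : Env.{u} → ZFSet.{u}) [Tm M s] [Tm M t] [Tm M w],
      Df M (fun e => R (s e) (t e) (w e)) := fun s t w _ _ _ => Df.subst3 hR s t w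
  have hF : ∀ (s : Env.{u} → ZFSet.{u}) [Tm M s], Tm M (fun e => Meas_nd μ R (s e)) :=
    fun s _ => (Meas_tm_nd hM hμ R hR).apply1 s
  refine ⟨(κ.prod μ).sep fun w => snd w ∈ Meas_nd μ R (fst w) ∧
    ¬ R (fst w) (Meas_nd μ R (fst w)) (snd w), sep_mem _ (prod_mem hκ hμ), fun ξ g => ?_⟩
  rw [mem_sep, pair_mem_prod, fst_pair, snd_pair]
  exact ⟨fun h => ⟨h.1.1, h.2⟩, fun h => ⟨⟨h.1, (Meas_mem_nd.1 h.2.1).1⟩, h.2⟩⟩

/-- `Z` splits `S` into two sets that are not null. -/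
def Meas_Spl (M : Set ZFSet.{u}) (A v μ S Z : ZFSet.{u}) : Prop :=
  ¬ Null M A v μ (S ∩ Z) ∧ ¬ Null M A v μ (S \ Z)

instance Meas_zdSpl {s t w y z : Set ZFSet.{u} → Env.{u} → ZFSet.{u}} [hs : ZT s] [ht : ZT t]
    [hw : ZT w] [hy : ZT y] [hz : ZT z] :
    ZD (fun M e => Meas_Spl M (s M e) (t M e) (w M e) (y M e) (z M e)) :=
  ZD.subst5 (R := Meas_Spl) (by unfold Meas_Spl; infer_instance) hs ht hw hy hz

/-- `g` is in the set that splits `S` and has the least ordinal code relative to `a`. -/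
def Meas_In (M : Set ZFSet.{u}) (A v μ S a g : ZFSet.{u}) : Prop :=
  ∃ γ ∈ M, ∃ Z ∈ M, Cd M A γ a Z ∧ Meas_Spl M A v μ S Z ∧
    (∀ γ' ∈ γ, ∀ Z' ∈ M, Cd M A γ' a Z' → ¬ Meas_Spl M A v μ S Z') ∧ g ∈ Z

instance Meas_zdIn {s t w y z x : Set ZFSet.{u} → Env.{u} → ZFSet.{u}} [hs : ZT s] [ht : ZT t]
    [hw : ZT w] [hy : ZT y] [hz : ZT z] [hx : ZT x] :
    ZD (fun M e => Meas_In M (s M e) (t M e) (w M e) (y M e) (z M e) (x M e)) :=
  ZD.subst6 (R := Meas_In) (by unfold Meas_In; infer_instance) hs ht hw hy hz hx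

theorem Meas_least {M : Set ZFSet.{u}} (hM : IsZFModel M) {A v μ S a γ Z : ZFSet.{u}}
    (h1 : Cd M A γ a Z) (h2 : Meas_Spl M A v μ S Z) :
    ∃ Z, Meas_Spl M A v μ S Z ∧ ∀ g, Meas_In M A v μ S a g ↔ g ∈ Z := by
  obtain ⟨γ0, ⟨Z0, h3, h4⟩, h5⟩ := mem_wf.has_min
    {γ | ∃ Z, Cd M A γ a Z ∧ Meas_Spl M A v μ S Z} ⟨γ, Z, h1, h2⟩
  refine ⟨Z0, h4, fun g => ⟨?_, fun hg => ⟨γ0, (h3.mem hM).1, Z0, (h3.mem hM).2, h3, h4,
    fun γ' hγ' Z' _ h6 h7 => h5 γ' ⟨Z', h6, h7⟩ hγ', hg⟩⟩⟩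
  rintro ⟨γ1, -, Z1, -, h6, h7, h8, hg⟩
  rcases h6.ordinal.mem_trichotomous h3.ordinal with h | h | h
  · exact absurd h (h5 γ1 ⟨Z1, h6, h7⟩)
  · subst h
    exact h6.unique h3 ▸ hg
  · exact absurd h4 (h8 γ0 h Z0 (h3.mem hM).2 h3)

theorem Meas_df {M : Set ZFSet.{u}} (hM : IsZFModel M) {A v μ c t : ZFSet.{u}} (hA : A ∈ M)
    (hv : v ∈ M) (hμ : μ ∈ M) (hc : c ∈ M) (ht : t ∈ M) :
    Df M (fun e => (Meas_In M A v μ (e 1) (sec c (e 0)) (e 2) ↔ e 0 ∈ t)) := by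
  have h : Df M (fun e => (Meas_In M (e 0) (e 1) (e 2) (e 6) (sec (e 3) (e 5)) (e 7) ↔
      e 5 ∈ e 4)) := (inferInstance : ZD (fun M e => (Meas_In M (e 0) (e 1) (e 2) (e 6)
        (sec (e 3) (e 5)) (e 7) ↔ e 5 ∈ e 4))).toDf hM
  exact ((((h.consTm (@Tm.const M A ⟨hA⟩)).consTm (@Tm.const M v ⟨hv⟩)).consTm
    (@Tm.const M μ ⟨hμ⟩)).consTm (@Tm.const M c ⟨hc⟩)).consTm (@Tm.const M t ⟨ht⟩)

theorem Meas_null_sdiff {M : Set ZFSet.{u}} {A v μ a : ZFSet.{u}} (S : ZFSet.{u}) (ha : a ∈ A) :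
    Null M A v μ (S \ Big M A v μ a) :=
  ⟨a, ha, fun _ h => (mem_sdiff.1 h).2⟩

theorem Meas_null_two (hT : Tower W v) {S S1 S2 : ZFSet.{u}}
    (h1 : Null (NN v) (powerset v) v (Theta v) S1) (h2 : Null (NN v) (powerset v) v (Theta v) S2)
    (hS : ∀ β ∈ S, β ∈ S1 ∨ β ∈ S2) : Null (NN v) (powerset v) v (Theta v) S := by
  refine null_union hT (I := {S1, S2}) ?_ id (fun i hi => ?_) fun β hβ => ?_
  · refine card_insert_le.trans (le_trans ?_ hT.aleph0_le_v)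
    rw [card_singleton]
    exact (Cardinal.add_lt_aleph0 Cardinal.one_lt_aleph0 Cardinal.one_lt_aleph0).le
  · rcases mem_pair.1 hi with rfl | rfl
    exacts [h1, h2]
  · rcases hS β hβ with h | h
    exacts [⟨S1, mem_pair.2 (Or.inl rfl), h⟩, ⟨S2, mem_pair.2 (Or.inr rfl), h⟩]

theorem exists_atom (hj : Ctx j W v) : ∃ S ∈ NN v, S ⊆ Theta v ∧
    ¬ Null (NN v) (powerset v) v (Theta v) S ∧ ∀ Z ∈ NN v,
      Null (NN v) (powerset v) v (Theta v) (S ∩ Z) ∨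
        Null (NN v) (powerset v) v (Theta v) (S \ Z) := by
  by_contra hcon
  have hT := hj.tower
  have hN := hT.model_NN
  have hμ : Theta v ∈ NN v := hT.ord_mem_NN (isOrdinal_Theta v)
  have hsp : ∀ S : ZFSet.{u}, ∃ a, a ⊆ v ∧ (S ∈ NN v → S ⊆ Theta v →
      ¬ Null (NN v) (powerset v) v (Theta v) S →
      ∃ Z, Meas_Spl (NN v) (powerset v) v (Theta v) S Z ∧
        ∀ g, Meas_In (NN v) (powerset v) v (Theta v) S a g ↔ g ∈ Z) := by
    intro S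
    by_cases h : S ∈ NN v ∧ S ⊆ Theta v ∧ ¬ Null (NN v) (powerset v) v (Theta v) S
    · have h1 : ∃ Z ∈ NN v, Meas_Spl (NN v) (powerset v) v (Theta v) S Z := by
        by_contra h2
        refine hcon ⟨S, h.1, h.2.1, h.2.2, fun Z hZ => ?_⟩
        by_contra h3
        exact h2 ⟨Z, hZ, not_or.1 h3⟩
      obtain ⟨Z, hZ, h2⟩ := h1
      obtain ⟨a, ha, γ, h3⟩ := cd_total_NN hT hZ
      exact ⟨a, ha, fun _ _ _ => Meas_least hN h3 h2⟩
    · exact ⟨∅, empty_subset _, fun h1 h2 h3 => absurd ⟨h1, h2, h3⟩ h⟩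
  choose a ha hsp using hsp
  have hκo : (ords (W 0)).IsOrdinal := isOrdinal_ords (hT.trans 0)
  have hκv : ords (W 0) ∈ v := hT.mem_of_subset (hT.Y_mem 0) fun x hx => (mem_sep.1 hx).1
  have hκs : ords (W 0) ⊆ v := hT.sub_of_mem hκv
  generalize hκ : ords (W 0) = κ at hκo hκv hκs
  -- the nodes, indexed by bit patterns
  let F : ZFSet.{u} → ZFSet.{u} → ZFSet.{u} := fun t => Meas_nd (Theta v) fun η S g =>
    (Meas_In (NN v) (powerset v) v (Theta v) S (a S) g ↔ η ∈ t)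
  have hbr : ∀ β ∈ Theta v, ∃ t, t ⊆ κ ∧ ∀ ξ ∈ κ, β ∈ F t ξ := by
    intro β hβ
    let G : ZFSet.{u} → ZFSet.{u} := Meas_nd (Theta v) fun η S g =>
      (Meas_In (NN v) (powerset v) v (Theta v) S (a S) g ↔
        Meas_In (NN v) (powerset v) v (Theta v) S (a S) β)
    refine ⟨κ.sep fun η => Meas_In (NN v) (powerset v) v (Theta v) (G η) (a (G η)) β,
      fun x hx => (mem_sep.1 hx).1, fun ξ hξ => ?_⟩
    have h1 : G ξ = F (κ.sep fun η =>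
        Meas_In (NN v) (powerset v) v (Theta v) (G η) (a (G η)) β) ξ :=
      Meas_nd_congr hκo.isTransitive (fun η hη g => by
        rw [mem_sep, and_iff_right hη]) ξ hξ
    rw [← h1]
    exact Meas_mem_nd.2 ⟨hβ, fun _ _ => Iff.rfl⟩
  have hex : ∃ t, t ⊆ κ ∧ ∀ ξ ∈ κ, ¬ Null (NN v) (powerset v) v (Theta v) (F t ξ) := by
    by_contra h
    refine not_null_Theta hT (null_union hT (I := ((powerset κ).prod κ).sep fun i =>
      Null (NN v) (powerset v) v (Theta v) (F (fst i) (snd i))) (card_mono fun x hx => ?_)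
      (fun i => F (fst i) (snd i)) (fun i hi => (mem_sep.1 hi).2) fun β hβ => ?_)
    · exact hT.sub_of_mem (hT.prod_mem (hT.powerset_mem hκv) hκv) (mem_sep.1 hx).1
    · obtain ⟨t, ht, h1⟩ := hbr β hβ
      have h2 : ∃ ξ ∈ κ, Null (NN v) (powerset v) v (Theta v) (F t ξ) := by
        by_contra h3
        exact h ⟨t, ht, fun ξ hξ h4 => h3 ⟨ξ, hξ, h4⟩⟩
      obtain ⟨ξ, hξ, h3⟩ := h2
      refine ⟨pair t ξ, mem_sep.2 ⟨pair_mem_prod.2 ⟨mem_powerset.2 ht, hξ⟩, ?_⟩, ?_⟩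
      · rwa [fst_pair, snd_pair]
      · rw [fst_pair, snd_pair]
        exact h1 ξ hξ
  obtain ⟨t, ht, hnn⟩ := hex
  -- one code for the whole branch
  let c : ZFSet.{u} := (κ.prod v).sep fun w => snd w ∈ a (F t (fst w))
  have hc : c ⊆ v := fun x hx => hT.prod_subset hκs (fun _ h => h) (mem_sep.1 hx).1
  have hsec : ∀ η ∈ κ, sec c η = a (F t η) := by
    intro η hη
    ext s
    rw [mem_sec, mem_sep, pair_mem_prod, fst_pair, snd_pair]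
    exact ⟨fun h => h.2, fun h => ⟨⟨hη, ha _ h⟩, h⟩⟩
  have hdf := Meas_df hN hT.powerset_mem_NN (hT.mem_NN fun _ h => h) hμ (hT.mem_NN hc)
    (hT.mem_NN fun x hx => hκs (ht hx))
  let R : ZFSet.{u} → ZFSet.{u} → ZFSet.{u} → Prop := fun η S g =>
    (Meas_In (NN v) (powerset v) v (Theta v) S (sec c η) g ↔ η ∈ t)
  have hFR : ∀ ξ ∈ κ, F t ξ = Meas_nd (Theta v) R ξ :=
    Meas_nd_congr hκo.isTransitive fun η hη g => by
      change (Meas_In (NN v) (powerset v) v (Theta v) (F t η) (a (F t η)) g ↔ η ∈ t) ↔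
        (Meas_In (NN v) (powerset v) v (Theta v) (F t η) (sec c η) g ↔ η ∈ t)
      rw [hsec η hη]
  obtain ⟨T, hTN, hTm⟩ := Meas_branch hN hμ (hT.mem_NN hκs) R hdf
  have := hN.zfm
  refine saturated hj hTN (fun ξ hξ => ?_) (fun ξ β h1 η h2 => ?_) fun ξ β h => ?_
  · rw [hκ] at hξ
    have h1 : F t ξ ∈ NN v := by
      rw [hFR ξ hξ]
      exact (Meas_tm_nd hN hμ R hdf).mem1 (mem_of_mem (hT.mem_NN hκs) hξ)
    obtain ⟨Z, h2, h3⟩ := hsp (F t ξ) h1 (fun x hx => (Meas_mem_nd.1 hx).1) (hnn ξ hξ)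
    have h4 : ∀ g, g ∈ sec T ξ ↔ g ∈ F t ξ ∧ ¬ (g ∈ Z ↔ ξ ∈ t) := by
      intro g
      rw [mem_sec, hTm, ← hFR ξ hξ]
      change ξ ∈ κ ∧ g ∈ F t ξ ∧ ¬ (Meas_In (NN v) (powerset v) v (Theta v) (F t ξ) (sec c ξ) g ↔
        ξ ∈ t) ↔ _
      rw [hsec ξ hξ, h3]
      exact ⟨fun h => h.2, fun h => ⟨hξ, h⟩⟩
    by_cases h5 : ξ ∈ t
    · have h6 : sec T ξ = F t ξ \ Z := by
        ext g
        rw [h4, mem_sdiff]
        simp [h5]
      rw [h6]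
      exact h2.2
    · have h6 : sec T ξ = F t ξ ∩ Z := by
        ext g
        rw [h4, mem_inter]
        simp [h5]
      rw [h6]
      exact h2.1
  · obtain ⟨h3, h4, h5⟩ := (hTm _ _).1 h1
    obtain ⟨h6, h7, h8⟩ := (hTm _ _).1 h2
    rcases (hκo.mem h3).mem_trichotomous (hκo.mem h6) with h | h | h
    · exact absurd ((Meas_mem_nd.1 h7).2 ξ h) h5
    · exact h
    · exact absurd ((Meas_mem_nd.1 h4).2 η h) h8
  · rw [hκ]
    exact ((hTm _ _).1 h).1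

theorem exists_meas (hj : Ctx j W v) : ∃ U, Meas (NN v) v (Theta v) U := by
  obtain ⟨S, hSN, hSμ, hS, hat⟩ := exists_atom hj
  have hT := hj.tower
  have hN := hT.model_NN
  have hμ : Theta v ∈ NN v := hT.ord_mem_NN (isOrdinal_Theta v)
  refine ⟨img (fun a => S ∩ Big (NN v) (powerset v) v (Theta v) a) (powerset v), ?_, ?_, ?_, ?_, ?_⟩
  · exact (inferInstance : ZT (fun M e => img (fun a => e 0 ∩ Big M (e 1) (e 2) (e 3) a)
      (e 1))).mem (NN v) hN (cons S (cons (powerset v) (cons v fun _ => Theta v)))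
      (cons_mem hSN (cons_mem hT.powerset_mem_NN (cons_mem (hT.mem_NN fun _ h => h) fun _ => hμ)))
  · intro T hT' x hx
    obtain ⟨a, -, rfl⟩ := mem_img.1 hT'
    exact hSμ (mem_inter.1 hx).1
  · intro T h1 T' h2
    obtain ⟨a, ha, rfl⟩ := mem_img.1 h1
    obtain ⟨a', ha', rfl⟩ := mem_img.1 h2
    by_contra h
    refine hS (Meas_null_two hT (Meas_null_sdiff S ha) (Meas_null_sdiff S ha') fun β hβ => ?_)
    by_contra h3
    rw [not_or, mem_sdiff, mem_sdiff, not_and, not_and, not_not, not_not] at h3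
    exact h ⟨β, mem_inter.2 ⟨hβ, h3.1 hβ⟩, mem_inter.2 ⟨hβ, h3.2 hβ⟩⟩
  · intro T h1 ξ _
    obtain ⟨a, ha, rfl⟩ := mem_img.1 h1
    by_contra h
    refine hS (Meas_null_two hT (Meas_null_sdiff S ha) (null_singleton hT ξ) fun β hβ => ?_)
    by_contra h3
    rw [not_or, mem_sdiff, not_and, not_not, mem_singleton] at h3
    exact h ⟨β, mem_inter.2 ⟨hβ, h3.1 hβ⟩, h3.2⟩
  · intro I Z hI hZ hcov
    have h1 : ∃ i ∈ I, ¬ Null (NN v) (powerset v) v (Theta v) (S ∩ Z i) := by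
      by_contra h
      refine hS (null_union hT hI (fun i => S ∩ Z i) (fun i hi => ?_) fun β hβ => ?_)
      · by_contra h2
        exact h ⟨i, hi, h2⟩
      · obtain ⟨i, hi, h2⟩ := hcov β (hSμ hβ)
        exact ⟨i, hi, mem_inter.2 ⟨hβ, h2⟩⟩
    obtain ⟨i, hi, h2⟩ := h1
    obtain ⟨a, ha, h3⟩ := (hat (Z i) (hZ i hi)).resolve_left h2
    refine ⟨i, hi, _, mem_img.2 ⟨a, ha, rfl⟩, fun β hβ => ?_⟩
    by_contra h4
    exact h3 β (mem_sdiff.2 ⟨(mem_inter.1 hβ).1, h4⟩) (mem_inter.1 hβ).2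

end Pool.Agent.P.MP_37b794_lc.I0
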