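import Pool.Agent.P.MP_37b794_lc.I0.KL
import Pool.Agent.P.MP_37b794_lc.I0.Fus
import Pool.Agent.P.MP_37b794_lc.I0.Fus2
import Pool.Agent.P.MP_37b794_lc.I0.Meas

/-!
Distributivity, homogeneity, and the list of facts in the universe.
-/

universe u

set_option synthInstance.maxSize 16384

namespace Pool.Agent.P.MP_37b794_lc.I0

open ZFSet Pool.Agent.Lib.Forcing Pool.Agent.P.MP_af0a18_lc

variable {j : ZFSet.{u} → ZFSet.{u}} {W : ℕ → ZFSet.{u}} {v : ZFSet.{u}}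

/-- Some condition almost below `b` meets the set with index `ξ` at all large cuts. -/
def DL_plus (P Rg v D ξ b : ZFSet.{u}) : Prop :=
  ∃ q ∈ P, SubS v q b ∧ ∃ y0 ∈ v, ∀ w ∈ Rg, y0 ∈ w → EE P w (fun r => pair ξ r ∈ D) q

/-- The rank relation of the proof of distributivity. -/
def DL_R (P Rg v D μ a b : ZFSet.{u}) : Prop :=
  ∃ ξ ∈ μ, ¬ DL_plus P Rg v D ξ a ∧ ∀ η ∈ μ, η ⊆ ξ → DL_plus P Rg v D η b

instance DL_zdPlus {s t w x y z : Set ZFSet.{u} → Env.{u} → ZFSet.{u}} [hs : ZT s] [ht : ZT t]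
    [hw : ZT w] [hx : ZT x] [hy : ZT y] [hz : ZT z] :
    ZD (fun M e => DL_plus (s M e) (t M e) (w M e) (x M e) (y M e) (z M e)) :=
  ZD.subst6 (R := fun _ => DL_plus) (by unfold DL_plus EE; infer_instance) hs ht hw hx hy hz

theorem DL_zt : ZT.{u} (fun _ e => ((e 5).prod (e 5)).sep fun z =>
    DL_R (e 0) (e 1) (e 2) (e 3) (e 4) (fst z) (snd z)) := by
  unfold DL_R; infer_instance

theorem DL_plus_mono {Y : ℕ → ZFSet.{u}} (hY : Tower Y v) {P Rg D ξ a b : ZFSet.{u}}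
    (h : DL_plus P Rg v D ξ a) (hab : SubS v a b) : DL_plus P Rg v D ξ b := by
  obtain ⟨q, hq, h1, h2⟩ := h
  exact ⟨q, hq, hY.subS_trans h1 hab, h2⟩

theorem DL_ce {Y : ℕ → ZFSet.{u}} (hY : Tower Y v) {D : ZFSet.{u}}
    (h : ∀ ξ ∈ Theta v, DO (PY Y v) (fun q => pair ξ q ∈ D)) {p : ZFSet.{u}} (hp : p ∈ PY Y v)
    (hcon : ∀ q ∈ PY Y v, p ⊆ q → ∃ ξ ∈ Theta v, ∀ y ∈ v, pair ξ (q ∪ y) ∉ D) :
    CE (powerset v) v (PiOf Y) p (DL_R (PY Y v) (range Y) v D (Theta v)) := by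
  have hp' := mem_PY.1 hp
  refine ⟨mem_powerset.2 hp'.1, hp'.2, ?_, ?_, ?_⟩
  · rintro q - h0 - ⟨ξ, hξ, h1, h2⟩ q' - h' - hq hh
    exact ⟨ξ, hξ, fun h3 => h1 (DL_plus_mono hY h3 hq),
      fun η hη h3 => DL_plus_mono hY (h2 η hη h3) hh⟩
  · intro g _ hg hpg q _ hq
    obtain ⟨n, hn⟩ := hY.subS_iff.1 hpg
    have hg' : (p ∩ Y n) ∪ (g \ Y n) ∈ PY Y v := (mem_PY' hY).2 (hp'.2.glue hg hY n)
    have hpg' : p ⊆ (p ∩ Y n) ∪ (g \ Y n) := by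
      intro x hx
      by_cases hx' : x ∈ Y n
      · exact mem_union.2 (Or.inl (mem_inter.2 ⟨hx, hx'⟩))
      · exact mem_union.2 (Or.inr (mem_sdiff.2 ⟨hn n le_rfl (mem_sdiff.2 ⟨hx, hx'⟩), hx'⟩))
    obtain ⟨ξ, hξ, hno⟩ := hcon _ hg' hpg'
    have hξ1 := insert_mem_Theta hY.aleph0_le_v hξ
    obtain ⟨r, hr, hqr, Hr⟩ := dl0 hY (I := insert ξ ξ) (mem_Theta.1 hξ1).2
      (fun i q => pair i q ∈ D)
      (fun i hi => h i ((isOrdinal_Theta v).isTransitive _ hξ1 hi)) ((mem_PY' hY).2 hq)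
    refine ⟨r, mem_powerset.2 (mem_PY.1 hr).1, (mem_PY.1 hr).2, hqr, ξ, hξ, ?_, ?_⟩
    · rintro ⟨q0, -, h1, y0, hy0, h2⟩
      obtain ⟨n1, hn1⟩ := hY.subS_iff.1 h1
      obtain ⟨n2, hn2⟩ := (hY.mem_v _).1 hy0
      have hm := h2 (Y (max n (max n1 n2))) (mem_range.2 ⟨_, rfl⟩)
        (hY.mono ((le_max_right _ _).trans (le_max_right _ _)) hn2)
      have h3 := hn1 (max n (max n1 n2)) ((le_max_left _ _).trans (le_max_right _ _))
      have h4 := hY.mono (le_max_left n (max n1 n2))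
      generalize max n (max n1 n2) = m at hm h3 h4
      have hm' := EE.mono hY (h ξ hξ) hm hg' (fun x hx => mem_union.2 (Or.inr
        (mem_sdiff.2 ⟨h3 hx, fun h5 => (mem_sdiff.1 hx).2 (h4 h5)⟩)))
      generalize (p ∩ Y n) ∪ (g \ Y n) = g' at hg' hno hm'
      obtain ⟨y', -, h5, h6, h7⟩ := hm' (g' ∩ Y m)
        ((mem_PY' hY).2 ((mem_PY.1 hg').2.inter hY m)) (fun x hx => (mem_inter.1 hx).2)
      refine hno y' (hY.mem_of_subset (hY.Y_mem m) h6) ?_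
      have h8 : g' ∪ y' = y' ∪ (g' \ Y m) := by
        ext x
        simp only [mem_union, mem_sdiff]
        constructor
        · rintro (hx | hx)
          · by_cases hx' : x ∈ Y m
            · exact Or.inl (h5 (mem_inter.2 ⟨hx, hx'⟩))
            · exact Or.inr ⟨hx, hx'⟩
          · exact Or.inl hx
        · rintro (hx | hx)
          · exact Or.inr hx
          · exact Or.inl hx.1
      rw [h8]
      exact h7
    · intro η hη hηξ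
      have h1 : η ∈ (insert ξ ξ : ZFSet.{u}) := by
        rcases ((mem_Theta.1 hη).1.subset_iff_eq_or_mem (mem_Theta.1 hξ).1).1 hηξ with h1 | h1
        · exact mem_insert_iff.2 (Or.inl h1)
        · exact mem_insert_iff.2 (Or.inr h1)
      obtain ⟨m, hm⟩ := Hr η h1
      refine ⟨r, hr, hY.subS_of_subset fun _ hx => hx, Y m, hY.Y_mem m, fun w hw hw' => ?_⟩
      obtain ⟨n', rfl⟩ := mem_range.1 hw
      refine hm n' (not_lt.1 fun hlt => ?_)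
      exact mem_asymm hw' (hY.mem_of_lt hlt)
  · rintro ⟨c, -, hc⟩
    choose ξ hξ h1 h2 using fun n : ℕ => hc (nat n) (mem_omega_iff.2 ⟨n, rfl⟩)
    obtain ⟨_, ⟨n, rfl⟩, hmin⟩ := mem_wf.has_min (Set.range ξ) ⟨_, 0, rfl⟩
    refine hmin _ ⟨n + 1, rfl⟩ ?_
    rcases (mem_Theta.1 (hξ (n + 1))).1.mem_or_subset (mem_Theta.1 (hξ n)).1 with h3 | h3
    · exact h3
    · exact absurd (h2 (n + 1) _ (hξ n) h3) (h1 n)

theorem dl (hj : Ctx j W v) {D : ZFSet.{u}} (hD : D ∈ NN v)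
    (h : ∀ ξ ∈ Theta v, DO (PY (consY W) v) (fun q => pair ξ q ∈ D)) {p : ZFSet.{u}}
    (hp : p ∈ PY (consY W) v) :
    ∃ q ∈ PY (consY W) v, p ⊆ q ∧ ∀ ξ ∈ Theta v, ∃ y ∈ v, pair ξ (q ∪ y) ∈ D := by
  by_contra hcon
  push Not at hcon
  have hY := hj.tower.consY hj.gro0
  have h1 := DL_ce hY h hp hcon
  have hRg : range (consY W) ∈ NN v := hY.mem_NN fun x hx => by
    obtain ⟨n, rfl⟩ := mem_range.1 hx
    exact hY.Y_mem n
  have hR := DL_zt.mem (NN v) hY.model_NN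
    (cons (PY (consY W) v) (cons (range (consY W)) (cons v (cons D (cons (Theta v)
      fun _ => powerset v)))))
    (cons_mem (PY_mem_NN hY) (cons_mem hRg (cons_mem (hY.mem_NN fun _ hx => hx) (cons_mem hD
      (cons_mem (hY.ord_mem_NN (isOrdinal_Theta v)) fun _ => hY.powerset_mem_NN)))))
  refine no_ce hj hR (p := p \ consY W 1) (CE.shift (Y := consY W) (h1.congr hY rfl ?_) hY)
  intro q r hq hr
  rw [mem_sep, pair_mem_prod, fst_pair, snd_pair]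
  exact ⟨fun h2 => ⟨⟨mem_powerset.2 hq, mem_powerset.2 hr⟩, h2⟩, fun h2 => h2.2⟩

theorem DL_zt2 : ZT.{u} (fun _ e => ((e 0).prod (e 1)).sep fun z =>
    (∃ i ∈ e 2, pair (pair (fst z) i) (snd z) ∈ e 3) ∨
      ∀ i ∈ e 2, ∀ r ∈ e 1, snd z ⊆ r → pair (pair (fst z) i) r ∉ e 3) := inferInstance

theorem DL_zt3 : ZT.{u} (fun _ e => (e 0).sep fun ξ =>
    e 1 ∈ e 2 ∧ pair (pair ξ (e 3)) (e 1) ∈ e 4) := inferInstance

theorem hom_univ (hj : Ctx j W v) {U : ZFSet.{u}} (hU : Meas (NN v) v (Theta v) U) :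
    HOM Set.univ (powerset v) (Theta v) U (PY (consY W) v) (LY (consY W) v) := by
  intro γ hγ S hS hup p hp
  have hY := hj.tower.consY hj.gro0
  have hγ1 := insert_mem_Theta hY.aleph0_le_v hγ
  have hΘ := hY.ord_mem_NN (isOrdinal_Theta v)
  have hI := hY.ord_mem_NN (mem_Theta.1 hγ1).1
  have hD := DL_zt2.mem (NN v) hY.model_NN
    (cons (Theta v) (cons (PY (consY W) v) (cons (insert γ γ) fun _ => S)))
    (cons_mem hΘ (cons_mem (PY_mem_NN hY) (cons_mem hI fun _ => hS)))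
  obtain ⟨D, hD, HD⟩ : ∃ D ∈ NN v, ∀ ξ q, pair ξ q ∈ D ↔ (ξ ∈ Theta v ∧ q ∈ PY (consY W) v) ∧
      ((∃ i ∈ (insert γ γ : ZFSet.{u}), pair (pair ξ i) q ∈ S) ∨
        ∀ i ∈ (insert γ γ : ZFSet.{u}), ∀ r ∈ PY (consY W) v, q ⊆ r → pair (pair ξ i) r ∉ S) := by
    refine ⟨_, hD, fun ξ q => ?_⟩
    rw [mem_sep, pair_mem_prod, fst_pair, snd_pair]
    exact Iff.rfl
  obtain ⟨q, hq, hpq, Hq⟩ := dl hj hD (fun ξ hξ => by
    refine ⟨fun q hq => ((HD _ _).1 hq).1.2, fun q hq q' hq' hqq => ?_, fun r hr => ?_⟩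
    · obtain ⟨h1, ⟨i, hi, h2⟩ | h2⟩ := (HD _ _).1 hq
      · exact (HD _ _).2 ⟨⟨hξ, hq'⟩, Or.inl ⟨i, hi, hup _ _ h2 _ (mem_LY.2 ⟨hq', h1.2, hqq⟩)⟩⟩
      · exact (HD _ _).2 ⟨⟨hξ, hq'⟩, Or.inr fun i hi r hr h3 =>
          h2 i hi r hr fun _ hx => h3 (hqq hx)⟩
    · by_cases h1 : ∀ i ∈ (insert γ γ : ZFSet.{u}), ∀ r' ∈ PY (consY W) v, r ⊆ r' →
          pair (pair ξ i) r' ∉ S
      · exact ⟨r, (HD _ _).2 ⟨⟨hξ, hr⟩, Or.inr h1⟩, fun _ hx => hx⟩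
      · push Not at h1
        obtain ⟨i, hi, r', hr', h2, h3⟩ := h1
        exact ⟨r', (HD _ _).2 ⟨⟨hξ, hr'⟩, Or.inl ⟨i, hi, h3⟩⟩, h2⟩) hp
  have hle : ∀ y, q ∪ y ∈ PY (consY W) v → pair (q ∪ y) p ∈ LY (consY W) v := fun y hy =>
    mem_LY.2 ⟨hy, hp, fun _ hx => mem_union.2 (Or.inl (hpq hx))⟩
  by_cases hc : ∀ ξ ∈ Theta v, ∃ y ∈ v, q ∪ y ∈ PY (consY W) v ∧
      ∃ i ∈ (insert γ γ : ZFSet.{u}), pair (pair ξ i) (q ∪ y) ∈ S
  · obtain ⟨z, hz, T, hT, hTZ⟩ := hU.hom (v.prod (insert γ γ))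
      (fun z => (Theta v).sep fun ξ => q ∪ fst z ∈ PY (consY W) v ∧
        pair (pair ξ (snd z)) (q ∪ fst z) ∈ S)
      (card_prod_le hY.aleph0_le_v le_rfl (mem_Theta.1 hγ1).2) (fun z hz => by
        obtain ⟨y, hy, i, hi, rfl⟩ := mem_prod.1 hz
        rw [fst_pair, snd_pair]
        have hqy : q ∪ y ∈ NN v := hY.mem_NN fun x hx => by
          rcases mem_union.1 hx with hx | hx
          · exact (mem_PY.1 hq).1 hx
          · exact hY.sub_of_mem hy hx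
        exact DL_zt3.mem (NN v) hY.model_NN
          (cons (Theta v) (cons (q ∪ y) (cons (PY (consY W) v) (cons i fun _ => S))))
          (cons_mem hΘ (cons_mem hqy (cons_mem (PY_mem_NN hY)
            (cons_mem (hY.model_NN.transitive _ hI _ hi) fun _ => hS))))) (fun ξ hξ => by
        obtain ⟨y, hy, h1, i, hi, h2⟩ := hc ξ hξ
        refine ⟨pair y i, pair_mem_prod.2 ⟨hy, hi⟩, ?_⟩
        rw [mem_sep, fst_pair, snd_pair]
        exact ⟨hξ, h1, h2⟩)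
    obtain ⟨y, -, i, hi, rfl⟩ := mem_prod.1 hz
    rw [fst_pair, snd_pair] at hTZ
    obtain ⟨ξ0, hξ0, -⟩ := hU.meet T hT T hT
    exact ⟨q ∪ y, hle y (mem_sep.1 (hTZ hξ0)).2.1,
      Or.inl ⟨i, hi, T, hT, fun ξ hξ => (mem_sep.1 (hTZ hξ)).2.2⟩⟩
  · push Not at hc
    obtain ⟨ξ, hξ, h1⟩ := hc
    obtain ⟨y, hy, h2⟩ := Hq ξ hξ
    obtain ⟨h3, ⟨i, hi, h4⟩ | h4⟩ := (HD _ _).1 h2
    · exact absurd h4 (h1 y hy h3.2 i hi)
    · exact ⟨q ∪ y, hle y h3.2, Or.inr ⟨ξ, hξ, fun i hi r hr =>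
        h4 i hi r (mem_LY.1 hr).1 (mem_LY.1 hr).2.2⟩⟩

theorem good_univ (hj : Ctx j W v) : GoodM (Set.univ : Set ZFSet.{u}) := by
  have hY := hj.tower.consY hj.gro0
  obtain ⟨U, hU⟩ := exists_meas hj
  exact ⟨g4, v, trivial, powerset v, trivial, ords v, trivial, Theta v, trivial, U, trivial,
    PY (consY W) v, trivial, LY (consY W) v, trivial, sets_univ hY,
    ⟨g5_PY hY, PY_mem_NN hY, LY_mem_NN hY, hU.mem, hU.sub, hU.meet, hU.two⟩,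
    m5_univ hY (card_consY_zero W), m3a_univ hY, m3b_univ hY, m4_univ hY, hom_univ hj hU⟩

end Pool.Agent.P.MP_37b794_lc.I0
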