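import Pool.Agent.P.MP_37b794_lc.I0.U2
import Pool.Agent.P.MP_37b794_lc.Main
import Pool.Agent.P.MP_af0a18_lc.Main

/-!
Definitions for the proof that `ℵ_(ω+1)` can be measurable in `L(P(ℵ_ω))`, with their uniform
definability.
-/

universe u

set_option synthInstance.maxSize 16384

namespace Pool.Agent.P.MP_37b794_lc.I0

open ZFSet Pool.Agent.Lib.Forcing Pool.Agent.P.MP_af0a18_lc

/-! ### Basic operations -/

/-- The power set of `x` in the sense of `M`. -/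
def pow (M : Set ZFSet.{u}) (x : ZFSet.{u}) : ZFSet.{u} := (powerset x).sep fun z => z ∈ M

theorem mem_pow {M : Set ZFSet.{u}} {x z : ZFSet.{u}} : z ∈ pow M x ↔ z ⊆ x ∧ z ∈ M := by
  simp [pow]

theorem pow_eq {M : Set ZFSet.{u}} {x : ZFSet.{u}} (h : ∀ z, z ⊆ x → z ∈ M) :
    pow M x = powerset x := by
  ext z
  rw [mem_pow, mem_powerset]
  exact ⟨fun h => h.1, fun h' => ⟨h', h z h'⟩⟩

@[simp] theorem pow_univ (x : ZFSet.{u}) : pow Set.univ x = powerset x :=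
  pow_eq fun _ _ => trivial

/-- The section `{s | (i, s) ∈ a}`. -/
def sec (a i : ZFSet.{u}) : ZFSet.{u} := (⋃₀ ⋃₀ a).sep fun s => pair i s ∈ a

theorem mem_sec {a i s : ZFSet.{u}} : s ∈ sec a i ↔ pair i s ∈ a := by
  rw [sec, mem_sep]
  exact ⟨fun h => h.2, fun h => ⟨snd_mem_sUnion h, h⟩⟩

/-- One set that codes the sequence `a`. -/
noncomputable def seqc (a : ℕ → ZFSet.{u}) : ZFSet.{u} :=
  iUnion fun n => ({nat n} : ZFSet.{u}).prod (a n)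

theorem mem_seqc {a : ℕ → ZFSet.{u}} {z : ZFSet.{u}} :
    z ∈ seqc a ↔ ∃ n, ∃ s ∈ a n, z = pair (nat n) s := by
  simp [seqc, mem_prod]

@[simp] theorem sec_seqc (a : ℕ → ZFSet.{u}) (n : ℕ) : sec (seqc a) (nat n) = a n := by
  ext s
  rw [mem_sec, mem_seqc]
  constructor
  · rintro ⟨m, t, h1, h2⟩
    obtain ⟨h3, rfl⟩ := pair_inj.1 h2
    rwa [nat_inj.1 h3]
  · exact fun h => ⟨n, s, h, rfl⟩

/-- The map on sets induced by the graph `g`. -/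
def app (g a : ZFSet.{u}) : ZFSet.{u} :=
  ⋃₀ ((⋃₀ ⋃₀ g).sep fun w => ∃ x, pair x w ∈ g ∧ x ⊆ a)

theorem mem_app {g a z : ZFSet.{u}} : z ∈ app g a ↔ ∃ x w, pair x w ∈ g ∧ x ⊆ a ∧ z ∈ w := by
  simp only [app, mem_sUnion (y := z), mem_sep]
  constructor
  · rintro ⟨w, ⟨-, x, h1, h2⟩, h3⟩
    exact ⟨x, w, h1, h2, h3⟩
  · rintro ⟨x, w, h1, h2, h3⟩
    exact ⟨w, ⟨snd_mem_sUnion h1, x, h1, h2⟩, h3⟩

/-- The graph of `k` on `v`. -/
noncomputable def graph (k : ZFSet.{u} → ZFSet.{u}) (v : ZFSet.{u}) : ZFSet.{u} :=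
  img (fun x => pair x (k x)) v

theorem pair_mem_graph {k : ZFSet.{u} → ZFSet.{u}} {v x w : ZFSet.{u}} :
    pair x w ∈ graph k v ↔ x ∈ v ∧ w = k x := by
  rw [graph, mem_img]
  constructor
  · rintro ⟨y, hy, h⟩
    obtain ⟨rfl, rfl⟩ := pair_inj.1 h
    exact ⟨hy, rfl⟩
  · rintro ⟨h, rfl⟩
    exact ⟨x, h, rfl⟩

/-- The quadruple. -/
def tp4 (a b c d : ZFSet.{u}) : ZFSet.{u} := pair a (pair b (pair c d))

/-- `a ⊆ b` up to an element of `v`. -/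
def SubS (v a b : ZFSet.{u}) : Prop := ∃ y ∈ v, a \ y ⊆ b

section
variable {s t w v z y : Set ZFSet.{u} → Env.{u} → ZFSet.{u}}

instance ztPow [hs : ZT s] : ZT (fun M e => pow M (s M e)) := by
  refine ZT.subst1 (F := pow) ⟨fun M hM e he => ?_, ?_⟩ hs
  · have := hM.zfm
    obtain ⟨y, hy, H⟩ := hM.powerSet _ (he 0)
    have := InM.mk (he 0)
    convert sep_mem (fun z => z ⊆ e 0) hy using 1
    ext z
    rw [mem_pow, mem_sep]
    exact ⟨fun h => ⟨H z h.2 h.1, h.1⟩, fun h => ⟨h.2, mem_of_mem hy h.1⟩⟩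
  · refine (inferInstance : ZD (fun M e => ∀ z ∈ M, (z ∈ e 0 ↔ z ⊆ e 1))).congr
      fun M hM e he => ⟨fun h => ?_, fun h z hz => by rw [h, mem_pow]; simp [hz]⟩
    ext z
    rw [mem_pow]
    exact ⟨fun hz => ⟨(h z (hM.transitive _ (he 0) z hz)).1 hz, hM.transitive _ (he 0) z hz⟩,
      fun hz => (h z hz.2).2 hz.1⟩

instance ztSec [hs : ZT s] [ht : ZT t] : ZT (fun M e => sec (s M e) (t M e)) :=
  ZT.subst2 (F := fun _ => sec) (by unfold sec; infer_instance) hs ht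

instance ztApp [hs : ZT s] [ht : ZT t] : ZT (fun M e => app (s M e) (t M e)) :=
  ZT.subst2 (F := fun _ => app) (by unfold app; infer_instance) hs ht

instance ztTp4 [ZT s] [ZT t] [ZT w] [ZT v] : ZT (fun M e => tp4 (s M e) (t M e) (w M e) (v M e)) :=
  by unfold tp4; infer_instance

instance zdSubS [hs : ZT s] [ht : ZT t] [hw : ZT w] :
    ZD (fun M e => SubS (s M e) (t M e) (w M e)) :=
  ZD.subst3 (R := fun _ => SubS) (by unfold SubS; infer_instance) hs ht hw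

instance zdFn [hs : ZT s] : ZD (fun M e => Fn (s M e)) :=
  ZD.subst1 (R := fun _ => Fn) (by unfold Fn; infer_instance) hs

instance zdSurj [hs : ZT s] [ht : ZT t] : ZD (fun M e => Surj M (s M e) (t M e)) :=
  ZD.subst2 (R := Surj) (by unfold Surj; infer_instance) hs ht

instance zdG4 : ZD.{u} (fun M _ => G4 M) := ZD.ofUDf inferInstance

end

/-! ### Universes and towers -/

/-- `W` is a Grothendieck universe in the sense of `M`. -/
def Univ (M : Set ZFSet.{u}) (W : ZFSet.{u}) : Prop :=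
  W.IsTransitive ∧ omega ∈ W ∧ (∀ x ∈ W, pow M x ∈ W) ∧ (∀ x ∈ W, (⋃₀ x : ZFSet.{u}) ∈ W) ∧
    ∀ a ∈ W, ∀ r ∈ pow M (a.prod W), (∀ x ∈ a, ∃ y, pair x y ∈ r) →
      ∃ b ∈ W, ∀ x ∈ a, ∃ y ∈ b, pair x y ∈ r

instance zdUniv {s : Set ZFSet.{u} → Env.{u} → ZFSet.{u}} [hs : ZT s] :
    ZD (fun M e => Univ M (s M e)) :=
  ZD.subst1 (R := Univ) (by unfold Univ; infer_instance) hs

/-- `W` is a Grothendieck universe: `W = V_κ` with `κ` inaccessible. -/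
def Gro (W : ZFSet.{u}) : Prop := Univ Set.univ W

/-- An increasing sequence of universes (the first set need not be one) with union `v`. -/
structure Tower (Y : ℕ → ZFSet.{u}) (v : ZFSet.{u}) : Prop where
  trans0 : (Y 0).IsTransitive
  omega0 : omega ⊆ Y 0
  univ : ∀ n, Gro (Y (n + 1))
  mem : ∀ n, Y n ∈ Y (n + 1)
  mem_v : ∀ x, x ∈ v ↔ ∃ n, x ∈ Y n

/-- A tower of universes and a model of ZF that contains all subsets of the union. -/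
structure Base (X : Set ZFSet.{u}) (W : ℕ → ZFSet.{u}) (v : ZFSet.{u}) : Prop where
  tower : Tower W v
  gro0 : Gro (W 0)
  model : IsZFModel X
  sub : ∀ a, a ⊆ v → a ∈ X

/-- The tower that starts with `V_ω`. -/
noncomputable def consY (W : ℕ → ZFSet.{u}) : ℕ → ZFSet.{u}
  | 0 => vonNeumann Ordinal.omega0
  | n + 1 => W n

/-- Chains of at most `c` elements of `Q` have a bound in `Q` (`le a b`: `b` extends `a`). -/
def Clo {α : Type*} (Q : α → Prop) (le : α → α → Prop) (c : Cardinal.{u}) : Prop :=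
  ∀ (J : ZFSet.{u}) (f : ZFSet.{u} → α), J.card ≤ c → (∀ i ∈ J, Q (f i)) →
    (∀ i ∈ J, ∀ i' ∈ J, le (f i) (f i') ∨ le (f i') (f i)) → ∃ q, Q q ∧ ∀ i ∈ J, le (f i) q

/-- The model `L(P(v))`. -/
def NN (v : ZFSet.{u}) : Set ZFSet.{u} := constr Set.univ (powerset v)

/-- The embedding `j : L(P(v)) → L(P(v))` with its critical sequence of universes. -/
structure Ctx (j : ZFSet.{u} → ZFSet.{u}) (W : ℕ → ZFSet.{u}) (v : ZFSet.{u}) : Prop where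
  tower : Tower W v
  gro0 : Gro (W 0)
  elem : Elem (NN v) (NN v) (NN v) j
  jW : ∀ n, j (W n) = W (n + 1)
  fix : ∀ x ∈ W 0, j x = x

/-- `X` is a set model of ZF and of `V = L(b)`. -/
def ZFLevel (b X : ZFSet.{u}) : Prop :=
  IsZFModel (X : Set ZFSet.{u}) ∧ b ∈ X ∧ ∀ x ∈ X, x ∈ constr (X : Set ZFSet.{u}) b

/-- The ordinals in `X`. -/
def ords (X : ZFSet.{u}) : ZFSet.{u} := X.sep IsOrdinal

instance ztOrds {s : Set ZFSet.{u} → Env.{u} → ZFSet.{u}} [ZT s] : ZT (fun M e => ords (s M e)) :=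
  (inferInstance : ZT (fun M e => (s M e).sep fun x => x.IsOrdinal))

/-- `x` has the code `(γ, a)`: it is generated from ordinals, `a` and levels over `b`. -/
def Cd (M : Set ZFSet.{u}) (b γ a x : ZFSet.{u}) : Prop := Gen M CAx (CStep a b) (pair γ x)

instance zdCd {s t w v : Set ZFSet.{u} → Env.{u} → ZFSet.{u}} [hs : ZT s] [ht : ZT t] [hw : ZT w]
    [hv : ZT v] : ZD (fun M e => Cd M (s M e) (t M e) (w M e) (v M e)) := by
  have h1 : ∀ (a b c d f : Set ZFSet.{u} → Env.{u} → ZFSet.{u}) [ZT a] [ZT b] [ZT c] [ZT d] [ZT f],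
      ZT (fun M e => gop (a M e) (b M e) (c M e) (d M e) (f M e)) := fun a b c d f _ _ _ _ _ => by
    unfold gop; infer_instance
  have h2 := @ZD.gen.{u} (fun _ => CAx) (fun c => CStep (fst c) (snd c))
    (by unfold CAx; infer_instance) (by unfold CStep; infer_instance)
  have h3 := ZD.subst2 (R := fun M z c => Gen M CAx (CStep (fst c) (snd c)) z) h2
    (inferInstance : ZT (fun M e => pair (t M e) (v M e)))
    (inferInstance : ZT (fun M e => pair (w M e) (s M e)))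
  exact h3.congr fun M _ e _ => by simp only [fst_pair, snd_pair, Cd]

/-- The elements of `X` that are definable in `X` from parameters in `B`. -/
def Dcl (X B : Set ZFSet.{u}) : Set ZFSet.{u} :=
  {x | x ∈ X ∧ ∃ (φ : Fml) (e : Env.{u}), (∀ i, e i ∈ B) ∧ ∀ y ∈ X, (Sat X φ (cons y e) ↔ y = x)}

/-! ### Roots and inverse limits -/

/-- `k` is elementary for `X` on parameters from `A`, maps `A` to `A` and fixes `v`. -/
structure Pres (X : Set ZFSet.{u}) (A v : ZFSet.{u}) (k : ZFSet.{u} → ZFSet.{u}) : Prop where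
  elem : Elem X X (A : Set ZFSet.{u}) k
  maps : ∀ a ∈ A, k a ∈ A
  fix : k v = v

/-- The hierarchy of maps that have roots. -/
def Lev (X : Set ZFSet.{u}) (A v : ZFSet.{u}) : ℕ → (ZFSet.{u} → ZFSet.{u}) → Prop
  | 0, k => Pres X A v k
  | n + 1, k => Lev X A v n k ∧ ∀ a ∈ A, ∀ b ∈ A, ∀ w ∈ A, k w = w → (∀ x ∈ w, k x = x) →
      ∃ g ∈ A, Lev X A v n (app g) ∧ app g a = k a ∧ (∃ c ∈ A, app g c = b) ∧
        ∀ x ∈ w, app g x = x

abbrev Pr (X : Set ZFSet.{u}) (v : ZFSet.{u}) (k : ZFSet.{u} → ZFSet.{u}) : Prop :=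
  Pres X (powerset v) v k

abbrev Lv (X : Set ZFSet.{u}) (v : ZFSet.{u}) (n : ℕ) (k : ZFSet.{u} → ZFSet.{u}) : Prop :=
  Lev X (powerset v) v n k

/-- One step of an inverse system: `k` fixes the subsets of `c`, sends `c'` to `W 0` and shifts
the tower. -/
structure Step (X : Set ZFSet.{u}) (W : ℕ → ZFSet.{u}) (v c c' : ZFSet.{u})
    (k : ZFSet.{u} → ZFSet.{u}) : Prop where
  pr : Pr X v k
  fix : ∀ x, x ⊆ c → k x = x
  top : k c' = W 0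
  shift : ∀ m, k (W m) = W (m + 1)

/-- An inverse system whose levels tend to infinity. -/
structure Adm (X : Set ZFSet.{u}) (W : ℕ → ZFSet.{u}) (v : ZFSet.{u})
    (K : ℕ → ZFSet.{u} → ZFSet.{u}) (U : ℕ → ZFSet.{u}) : Prop where
  step : ∀ i, Step X W v (U i) (U (i + 1)) (K i)
  mem : ∀ i, U i ∈ W 0
  trans : ∀ i, (U i).IsTransitive
  lev : ∀ m, ∃ i0, ∀ i, i0 ≤ i → Lv X v m (K i)

/-- `ar K b n i = K i (K (i+1) (... (b (i+n))))`. -/
def ar (K : ℕ → ZFSet.{u} → ZFSet.{u}) (b : ℕ → ZFSet.{u}) : ℕ → ℕ → ZFSet.{u}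
  | 0, i => b i
  | n + 1, i => K i (ar K b n (i + 1))

/-- The least solution of `t i = b i ∪ K i (t (i+1))`. -/
noncomputable def asm (K : ℕ → ZFSet.{u} → ZFSet.{u}) (b : ℕ → ZFSet.{u}) (i : ℕ) : ZFSet.{u} :=
  iUnion fun n => ar K b n i

/-- The thread of `a`; `push K U a 0` is the value of the inverse limit at `a`. -/
noncomputable def push (K : ℕ → ZFSet.{u} → ZFSet.{u}) (U : ℕ → ZFSet.{u}) (a : ZFSet.{u})
    (i : ℕ) : ZFSet.{u} := asm K (fun i => K i (a ∩ U (i + 1))) i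

/-- Every system that agrees with `J` on `s` has the same theory as `J`. -/
def GoodAt (X : Set ZFSet.{u}) (W : ℕ → ZFSet.{u}) (v : ZFSet.{u})
    (J : ℕ → ZFSet.{u} → ZFSet.{u}) (U : ℕ → ZFSet.{u}) (s : Set ZFSet.{u}) : Prop :=
  ∀ K, Adm X W v K U → (∀ a ∈ s, push K U a 0 = push J U a 0) → ∀ (φ : Fml) (e : Env.{u}),
    (Sat X φ (fun i => push K U (e i) 0) ↔ Sat X φ (fun i => push J U (e i) 0))

/-! ### The forcing -/

/-- `s` is a function from an ordinal of size at most `|T|` into `T'`; `B` bounds the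
quantifiers. -/
def Sq (T T' B s : ZFSet.{u}) : Prop :=
  ∃ δ ∈ B, δ.IsOrdinal ∧ IsFunc δ T' s ∧ ∃ f ∈ B, Fn f ∧ ∀ ξ ∈ δ, ∃ x ∈ T, pair x ξ ∈ f

/-- `q` is a condition of the product with the blocks `(T, (T', B)) ∈ Π`. -/
def InP (Pi q : ZFSet.{u}) : Prop :=
  (∀ w ∈ q, ∃ a s, w = pair a s ∧ ∃ c, pair a c ∈ Pi) ∧
    ∀ T c, pair T c ∈ Pi → Sq T (fst c) (snd c) (sec q T)

/-- The blocks of the tower `Y`. -/
noncomputable def PiOf (Y : ℕ → ZFSet.{u}) : ZFSet.{u} :=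
  range (fun n => pair (Y n) (pair (powerset (Y n)) (Y (n + 1)))) ∪
    range (fun n => pair (powerset (Y n)) (pair (Y (n + 1)) (Y (n + 1))))

/-- The condition with the two components `x` (tag `c`) and `z` (tag `pc`). -/
def blk (c pc x z : ZFSet.{u}) : ZFSet.{u} :=
  ({c} : ZFSet.{u}).prod x ∪ ({pc} : ZFSet.{u}).prod z

/-- `r` is a block between the universes `a` and `b`; `pa` is the power set of `a`. -/
def IsBlk (a pa b r : ZFSet.{u}) : Prop :=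
  r = blk a pa (sec r a) (sec r pa) ∧ Sq a pa b (sec r a) ∧ Sq pa b b (sec r pa)

/-- The set of conditions and the order. -/
noncomputable def PY (Y : ℕ → ZFSet.{u}) (v : ZFSet.{u}) : ZFSet.{u} :=
  (powerset v).sep (InP (PiOf Y))

noncomputable def LY (Y : ℕ → ZFSet.{u}) (v : ZFSet.{u}) : ZFSet.{u} :=
  pairSep (fun q p => p ⊆ q) (PY Y v) (PY Y v)

theorem mem_PY {Y : ℕ → ZFSet.{u}} {v q : ZFSet.{u}} : q ∈ PY Y v ↔ q ⊆ v ∧ InP (PiOf Y) q := by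
  simp [PY]

theorem mem_LY {Y : ℕ → ZFSet.{u}} {v q p : ZFSet.{u}} :
    pair q p ∈ LY Y v ↔ q ∈ PY Y v ∧ p ∈ PY Y v ∧ p ⊆ q := by
  rw [LY, mem_pairSep]
  constructor
  · rintro ⟨a, ha, b, hb, h, h'⟩
    obtain ⟨rfl, rfl⟩ := pair_inj.1 h
    exact ⟨ha, hb, h'⟩
  · rintro ⟨h1, h2, h3⟩
    exact ⟨q, h1, p, h2, rfl, h3⟩

/-- `D` is a dense open subset of `P` (order: reverse inclusion). -/
def DO (P : ZFSet.{u}) (D : ZFSet.{u} → Prop) : Prop :=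
  (∀ q, D q → q ∈ P) ∧ (∀ q, D q → ∀ q' ∈ P, q ⊆ q' → D q') ∧ ∀ p ∈ P, ∃ q, D q ∧ p ⊆ q

/-- Every condition below the cut `w` has an extension below the cut that puts `q` into `D`. -/
def EE (P w : ZFSet.{u}) (D : ZFSet.{u} → Prop) (q : ZFSet.{u}) : Prop :=
  ∀ y ∈ P, y ⊆ w → ∃ y' ∈ P, y ⊆ y' ∧ y' ⊆ w ∧ D (y' ∪ (q \ w))

/-- A counterexample to the key lemma. -/
def CE (A v Pi p : ZFSet.{u}) (R : ZFSet.{u} → ZFSet.{u} → Prop) : Prop :=
  p ∈ A ∧ InP Pi p ∧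
  (∀ q ∈ A, ∀ h ∈ A, R q h → ∀ q' ∈ A, ∀ h' ∈ A, SubS v q' q → SubS v h h' → R q' h') ∧
  (∀ g ∈ A, InP Pi g → SubS v p g → ∀ q ∈ A, InP Pi q → ∃ h ∈ A, InP Pi h ∧ q ⊆ h ∧ R g h) ∧
  ¬ ∃ c ∈ A, ∀ n ∈ omega, R (sec c (insert n n)) (sec c n)

section
variable {s t w v z y : Set ZFSet.{u} → Env.{u} → ZFSet.{u}}

instance zdSq [hs : ZT s] [ht : ZT t] [hw : ZT w] [hv : ZT v] :
    ZD (fun M e => Sq (s M e) (t M e) (w M e) (v M e)) :=
  ZD.subst4 (R := fun _ => Sq) (by unfold Sq; infer_instance) hs ht hw hv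

instance zdInP [hs : ZT s] [ht : ZT t] : ZD (fun M e => InP (s M e) (t M e)) :=
  ZD.subst2 (R := fun _ => InP) (by unfold InP; infer_instance) hs ht

instance ztBlk [ZT s] [ZT t] [ZT w] [ZT v] : ZT (fun M e => blk (s M e) (t M e) (w M e) (v M e)) :=
  by unfold blk; infer_instance

instance zdIsBlk [ZT s] [ZT t] [ZT w] [ZT v] :
    ZD (fun M e => IsBlk (s M e) (t M e) (w M e) (v M e)) := by unfold IsBlk; infer_instance

/-- The relation of a counterexample given as a set of pairs. -/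
instance zdCE [hs : ZT s] [ht : ZT t] [hw : ZT w] [hv : ZT v] [hz : ZT z] :
    ZD (fun M e => CE (s M e) (t M e) (w M e) (v M e) (fun q h => pair q h ∈ z M e)) :=
  ZD.subst5 (R := fun _ a b c d f => CE a b c d (fun q h => pair q h ∈ f))
    (by unfold CE; infer_instance) hs ht hw hv hz

end

/-! ### The local lemma -/

/-- All extensions `x'` of `x` in `AA` have `⟨i, z, x', z'⟩ ∈ Xs`. -/
def SS (AA Xs i x z z' : ZFSet.{u}) : Prop := ∀ x' ∈ AA, x ⊆ x' → tp4 i z x' z' ∈ Xs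

/-- `SS` holds somewhere above `(a, b)` in `C × C`. -/
def NeS (C AA Xs i x a b : ZFSet.{u}) : Prop :=
  ∃ z ∈ C, ∃ z' ∈ C, a ⊆ z ∧ b ⊆ z' ∧ SS AA Xs i x z z'

/-- `SS` holds densely above `(a, b)` in `C × C`. -/
def DeS (C AA Xs i x a b : ZFSet.{u}) : Prop :=
  ∀ a' ∈ C, ∀ b' ∈ C, a ⊆ a' → b ⊆ b' → NeS C AA Xs i x a' b'

section
variable {s t w v z y : Set ZFSet.{u} → Env.{u} → ZFSet.{u}}

instance zdSS [hs : ZT s] [ht : ZT t] [hw : ZT w] [hv : ZT v] [hz : ZT z] [hy : ZT y] :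
    ZD (fun M e => SS (s M e) (t M e) (w M e) (v M e) (z M e) (y M e)) :=
  ZD.subst6 (R := fun _ => SS) (by unfold SS; infer_instance) hs ht hw hv hz hy

instance zdNeS (a b c d f g h : ℕ) :
    ZD.{u} (fun _ e => NeS (e a) (e b) (e c) (e d) (e f) (e g) (e h)) := by
  unfold NeS; infer_instance

instance zdDeS (a b c d f g h : ℕ) :
    ZD.{u} (fun _ e => DeS (e a) (e b) (e c) (e d) (e f) (e g) (e h)) := by
  unfold DeS; infer_instance

end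

/-- The set of the conditions `Sq T T' B`. -/
def SqSet (T T' B : ZFSet.{u}) : ZFSet.{u} := B.sep (Sq T T' B)

instance ztSqSet {s t w : Set ZFSet.{u} → Env.{u} → ZFSet.{u}} [hs : ZT s] [ht : ZT t]
    [hw : ZT w] : ZT (fun M e => SqSet (s M e) (t M e) (w M e)) :=
  ZT.subst3 (F := fun _ => SqSet) (by unfold SqSet; infer_instance) hs ht hw

/-- The conclusion of the local lemma in the frame `k`. -/
def Loc (W : ℕ → ZFSet.{u}) (k : ZFSet.{u} → ZFSet.{u}) (x z ζ : ℕ → ZFSet.{u}) : Prop :=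
  (∀ m, Sq (W 0) (powerset (W 0)) (W 1) (x m) ∧ Sq (powerset (W 0)) (W 1) (W 1) (z m) ∧
    Sq (powerset (W 0)) (W 1) (W 1) (ζ m)) ∧
  ∀ m, ∀ y ∈ W 0, ∀ Xs, Xs ⊆ W 0 → ∀ xh zh, Sq (W 0) (powerset (W 0)) (W 1) xh →
    Sq (powerset (W 0)) (W 1) (W 1) zh → x (m + 1) ⊆ xh → ζ (m + 1) ⊆ zh →
    (∀ x', Sq (W 0) (powerset (W 0)) (W 1) x' → xh ⊆ x' →
      tp4 (pair y (x m)) (z m) x' zh ∈ k Xs) →
    ∃ z1 z2, z m ⊆ z1 ∧ z2 ⊆ z (m + 1) ∧ tp4 (pair y (x m)) z1 (x (m + 1)) z2 ∈ k Xs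

/-! ### The measure -/

/-- The ordinals of size at most `|v|`. -/
noncomputable def Theta (v : ZFSet.{u}) : ZFSet.{u} := (Order.succ v.card).ord.toZFSet

/-- `a` codes the ordinal `β` as a membership structure on `sec a 0`. -/
def Cod (M : Set ZFSet.{u}) (a β : ZFSet.{u}) : Prop :=
  β.IsOrdinal ∧ ∃ f ∈ M, IsFunc (sec a ∅) β f ∧ (∀ t ∈ β, ∃ x, pair x t ∈ f) ∧
    ∀ x t, pair x t ∈ f → ∀ y s, pair y s ∈ f → (pair x y ∈ sec a {∅} ↔ t ∈ s)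

/-- The ordinals below `μ` that are fixed by the action of `g` on codes. -/
def Psi (M : Set ZFSet.{u}) (A μ g : ZFSet.{u}) : ZFSet.{u} :=
  μ.sep fun β => ∃ a ∈ A, Cod M a β ∧ Cod M (app g a) β

/-- `C` is unbounded in `μ` and closed under unions of coded `ω`-sequences. -/
def Club (M : Set ZFSet.{u}) (A μ C : ZFSet.{u}) : Prop :=
  (∀ α ∈ μ, ∃ β ∈ C, α ∈ β) ∧ ∀ β ∈ μ, ∀ c ∈ A,
    (∀ n ∈ omega, ∃ α ∈ C, Cod M (sec c n) α ∧ α ⊆ β) →
    (∀ ξ ∈ β, ∃ n ∈ omega, ∃ α ∈ C, Cod M (sec c n) α ∧ ξ ∈ α) → β ∈ C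

/-- The large set with code `a`. -/
def Big (M : Set ZFSet.{u}) (A v μ a : ZFSet.{u}) : ZFSet.{u} :=
  μ.sep fun β => ∀ i ∈ v, ¬ Cod M (sec a i) β ∧
    (Club M A μ (Psi M A μ (sec a i)) → β ∈ Psi M A μ (sec a i))

/-- `S` misses a large set. -/
def Null (M : Set ZFSet.{u}) (A v μ S : ZFSet.{u}) : Prop :=
  ∃ a ∈ A, ∀ β ∈ S, β ∉ Big M A v μ a

section
variable {s t w v z y : Set ZFSet.{u} → Env.{u} → ZFSet.{u}}

instance zdCod [hs : ZT s] [ht : ZT t] : ZD (fun M e => Cod M (s M e) (t M e)) :=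
  ZD.subst2 (R := Cod) (by unfold Cod; infer_instance) hs ht

instance ztPsi [hs : ZT s] [ht : ZT t] [hw : ZT w] :
    ZT (fun M e => Psi M (s M e) (t M e) (w M e)) :=
  ZT.subst3 (F := Psi) (by unfold Psi; infer_instance) hs ht hw

instance zdClub [hs : ZT s] [ht : ZT t] [hw : ZT w] :
    ZD (fun M e => Club M (s M e) (t M e) (w M e)) :=
  ZD.subst3 (R := Club) (by unfold Club; infer_instance) hs ht hw

instance ztBig [hs : ZT s] [ht : ZT t] [hw : ZT w] [hv : ZT v] :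
    ZT (fun M e => Big M (s M e) (t M e) (w M e) (v M e)) :=
  ZT.subst4 (F := Big) (by unfold Big; infer_instance) hs ht hw hv

instance zdNull [hs : ZT s] [ht : ZT t] [hw : ZT w] [hv : ZT v] :
    ZD (fun M e => Null M (s M e) (t M e) (w M e) (v M e)) :=
  ZD.subst4 (R := Null) (by unfold Null; infer_instance) hs ht hw hv

end

/-- What is needed of the measure `U` on `μ` in `N`: its members meet pairwise, have at least two
points, and a small cover of `μ` by sets from `N` has a member that includes a member of `U`. -/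
structure Meas (N : Set ZFSet.{u}) (v μ U : ZFSet.{u}) : Prop where
  mem : U ∈ N
  sub : ∀ T ∈ U, T ⊆ μ
  meet : ∀ T ∈ U, ∀ T' ∈ U, ∃ ξ ∈ T, ξ ∈ T'
  two : ∀ T ∈ U, ∀ ξ ∈ T, ∃ η ∈ T, η ≠ ξ
  hom : ∀ (I : ZFSet.{u}) (Z : ZFSet.{u} → ZFSet.{u}), I.card ≤ v.card → (∀ i ∈ I, Z i ∈ N) →
    (∀ ξ ∈ μ, ∃ i ∈ I, ξ ∈ Z i) → ∃ i ∈ I, ∃ T ∈ U, T ⊆ Z i

/-! ### The interface between the two halves -/

/-- The name `S` (pairs `(x, p)`) is closed under extension of conditions. -/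
def Up (le S : ZFSet.{u}) : Prop := ∀ x p, pair x p ∈ S → ∀ q, pair q p ∈ le → pair x q ∈ S

/-- `S` is a name for a function from a subset of `a` onto `X`. -/
def NameSurj (P le S a X : ZFSet.{u}) : Prop :=
  S ⊆ (a.prod X).prod P ∧ Up le S ∧
    (∀ w p, pair w p ∈ S → ∀ w', pair w' p ∈ S → fst w = fst w' → w = w') ∧
    ∀ η ∈ X, ∀ p ∈ P, ∃ q, pair q p ∈ le ∧ ∃ ξ ∈ a, pair (pair ξ η) q ∈ S

/-- Below `q` the names `S` and `S'` have the same value. -/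
def Eqv (le q S S' : ZFSet.{u}) : Prop :=
  (∀ x r, pair x r ∈ S → pair r q ∈ le →
    ∃ r', pair r' r ∈ le ∧ ∃ y, pair x y ∈ S' ∧ pair r' y ∈ le) ∧
  ∀ x y, pair x y ∈ S' → ∀ r, pair r q ∈ le → pair r y ∈ le → pair x r ∈ S

/-- Collapse names. -/
def M5 (M : Set ZFSet.{u}) (l P le : ZFSet.{u}) : Prop :=
  ∃ D ∈ M, (∀ γ ∈ l, ∃ n ∈ omega, Surj M n (D ∩ γ)) ∧
    ∀ α ∈ l, omega ⊆ α → ∃ δ ∈ D, δ ∈ insert α α ∧ ∃ S ∈ M, NameSurj P le S δ α

/-- Small names for bounded sets. -/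
def M3a (M : Set ZFSet.{u}) (v P le : ZFSet.{u}) : Prop :=
  ∀ a ∈ v, ∃ w ∈ v, ∀ S ∈ M, S ⊆ a.prod P → Up le S → ∀ p ∈ P,
    ∃ q, pair q p ∈ le ∧ ∃ S' ∈ w, Eqv le q S S'

/-- Names in `A` for subsets of `v`. -/
def M3b (M : Set ZFSet.{u}) (v A P le : ZFSet.{u}) : Prop :=
  ∀ S ∈ M, S ⊆ v.prod P → Up le S → ∀ p ∈ P, ∃ q, pair q p ∈ le ∧ ∃ S' ∈ A, Eqv le q S S'

/-- A subset of `v` is old or has a new bounded part. -/
def M4 (M : Set ZFSet.{u}) (v A P le : ZFSet.{u}) : Prop :=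
  ∀ S ∈ M, S ⊆ v.prod P → Up le S → ∀ p ∈ P, ∃ q, pair q p ∈ le ∧
    ((∃ z ∈ A, ∀ x ∈ v, (x ∈ z → ∀ r, pair r q ∈ le → ∃ r', pair r' r ∈ le ∧ pair x r' ∈ S) ∧
      (x ∉ z → ∀ r, pair r q ∈ le → pair x r ∉ S)) ∨
    ∃ y ∈ v, ∀ z ∈ v, ∀ r, pair r q ∈ le → ∃ r', pair r' r ∈ le ∧ ∃ x ∈ y,
      (x ∈ z ∧ ∀ r'', pair r'' r' ∈ le → pair x r'' ∉ S) ∨ (x ∉ z ∧ pair x r' ∈ S))

/-- Homogeneous sets for names in `L(A)`. -/
def HOM (M : Set ZFSet.{u}) (A μ U P le : ZFSet.{u}) : Prop :=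
  ∀ γ ∈ μ, ∀ S ∈ constr M A, Up le S → ∀ p ∈ P, ∃ q, pair q p ∈ le ∧
    ((∃ i ∈ insert γ γ, ∃ T ∈ U, ∀ ξ ∈ T, pair (pair ξ i) q ∈ S) ∨
    ∃ ξ ∈ μ, ∀ i ∈ insert γ γ, ∀ r, pair r q ∈ le → pair (pair ξ i) r ∉ S)

/-- The sets `v`, `A`, `l`, `μ`. -/
def Sets (M : Set ZFSet.{u}) (v A l μ : ZFSet.{u}) : Prop :=
  v.IsTransitive ∧ A = pow M v ∧ (∀ a ∈ A, ∀ y ∈ v, a ∩ y ∈ v) ∧ l.IsOrdinal ∧ omega ∈ l ∧ l ⊆ v ∧ Surj M l v ∧
    (∀ w ∈ v, ∃ γ ∈ l, Surj M γ w) ∧ (∀ α ∈ l, ∀ β ∈ l, gp (pair α β) ∈ l) ∧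
    μ.IsOrdinal ∧ l ∈ μ ∧ ∀ α ∈ μ, Surj M l α

/-- The forcing and the measure are in `L(A)`. -/
def Frm (M : Set ZFSet.{u}) (A μ U P le : ZFSet.{u}) : Prop :=
  G5 P le ∧ P ∈ constr M A ∧ le ∈ constr M A ∧ U ∈ constr M A ∧ (∀ T ∈ U, T ⊆ μ) ∧
    (∀ T ∈ U, ∀ T' ∈ U, ∃ ξ ∈ T, ξ ∈ T') ∧ ∀ T ∈ U, ∀ ξ ∈ T, ∃ η ∈ T, η ≠ ξ

/-- The facts that are proved in the universe and used over a countable model. -/
def GoodM (M : Set ZFSet.{u}) : Prop :=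
  G4 M ∧ ∃ v ∈ M, ∃ A ∈ M, ∃ l ∈ M, ∃ μ ∈ M, ∃ U ∈ M, ∃ P ∈ M, ∃ le ∈ M,
    Sets M v A l μ ∧ Frm M A μ U P le ∧ M5 M l P le ∧ M3a M v P le ∧ M3b M v A P le ∧
    M4 M v A P le ∧ HOM M A μ U P le

section
variable {s t w v z y : Set ZFSet.{u} → Env.{u} → ZFSet.{u}}

instance zdUp [hs : ZT s] [ht : ZT t] : ZD (fun M e => Up (s M e) (t M e)) :=
  ZD.subst2 (R := fun _ => Up) (by unfold Up; infer_instance) hs ht

instance zdNameSurj [hs : ZT s] [ht : ZT t] [hw : ZT w] [hv : ZT v] [hz : ZT z] :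
    ZD (fun M e => NameSurj (s M e) (t M e) (w M e) (v M e) (z M e)) :=
  ZD.subst5 (R := fun _ => NameSurj) (by unfold NameSurj; infer_instance) hs ht hw hv hz

instance zdEqv [hs : ZT s] [ht : ZT t] [hw : ZT w] [hv : ZT v] :
    ZD (fun M e => Eqv (s M e) (t M e) (w M e) (v M e)) :=
  ZD.subst4 (R := fun _ => Eqv) (by unfold Eqv; infer_instance) hs ht hw hv

instance zdM5 (a b c : ℕ) : ZD.{u} (fun M e => M5 M (e a) (e b) (e c)) := by
  unfold M5; infer_instance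
instance zdM3a (a b c : ℕ) : ZD.{u} (fun M e => M3a M (e a) (e b) (e c)) := by
  unfold M3a; infer_instance
instance zdM3b (a b c d : ℕ) : ZD.{u} (fun M e => M3b M (e a) (e b) (e c) (e d)) := by
  unfold M3b; infer_instance
instance zdM4 (a b c d : ℕ) : ZD.{u} (fun M e => M4 M (e a) (e b) (e c) (e d)) := by
  unfold M4; infer_instance
instance zdHOM (a b c d f : ℕ) : ZD.{u} (fun M e => HOM M (e a) (e b) (e c) (e d) (e f)) := by
  unfold HOM; infer_instance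
instance zdSets (a b c d : ℕ) : ZD.{u} (fun M e => Sets M (e a) (e b) (e c) (e d)) := by
  unfold Sets; infer_instance
instance zdG5 (a b : ℕ) : ZD.{u} (fun _ e => G5 (e a) (e b)) := ZD.ofUDf inferInstance
instance zdFrm (a b c d f : ℕ) : ZD.{u} (fun M e => Frm M (e a) (e b) (e c) (e d) (e f)) := by
  unfold Frm; infer_instance
instance zdGood : ZD.{u} (fun M _ => GoodM M) := by unfold GoodM; infer_instance

end

/-- The conclusion: in `M`, `a` lists the infinite cardinals `ℵ_n`, `l = ℵ_ω` is a strong limit,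
`μ = ℵ_(ω+1)`, `b = P(ℵ_ω)`, and `μ` is measurable in `L(b)`. -/
def Concl (M : Set ZFSet.{u}) : Prop :=
  IsZFModel M ∧ Choice M ∧ ∃ (a : ℕ → ZFSet.{u}) (l μ b : ZFSet.{u}),
    a 0 = omega ∧
    (∀ n, a n ∈ M ∧ IsCardinalIn M (a n) ∧ a n ∈ a (n + 1) ∧
      ∀ κ ∈ a (n + 1), IsCardinalIn M κ → κ ⊆ a n) ∧
    (∀ x, x ∈ l ↔ ∃ n, x ∈ a n) ∧
    (∀ γ ∈ l, ∀ y ∈ M, (∀ z ∈ y, z ⊆ γ) → CardLt M y l) ∧
    μ ∈ M ∧ IsCardinalIn M μ ∧ l ∈ μ ∧ (∀ κ ∈ μ, IsCardinalIn M κ → κ ⊆ l) ∧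
    b ∈ M ∧ (∀ z, z ∈ b ↔ z ∈ M ∧ z ⊆ l) ∧ MeasurableIn (constr M b) μ

end Pool.Agent.P.MP_37b794_lc.I0
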