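import Pool.Agent.P.MP_37b794_lc.I0.Defs

/-!
Cardinal structure and measurability in a model, from abstract hypotheses.
-/

universe u

set_option synthInstance.maxSize 16384

namespace Pool.Agent.P.MP_37b794_lc.I0

open ZFSet Pool.Agent.Lib.Forcing Pool.Agent.P.MP_af0a18_lc

variable {N : Set ZFSet.{u}}

theorem Ext1_pow_mem (hN : IsZFModel N) {x : ZFSet.{u}} (hx : x ∈ N) : pow N x ∈ N :=
  (inferInstance : ZT (fun M e => pow M (e 0))).mem N hN (fun _ => x) fun _ => hx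

/-- Cantor's theorem in `N`. -/
theorem Ext1_cantor (hN : IsZFModel N) {I : ZFSet.{u}} (hI : I ∈ N) : ¬ Surj N I (pow N I) := by
  have := hN.zfm
  rintro ⟨r, hr, h3, h4⟩
  have := InM.mk hr
  have h5 := sep_mem (fun i => ¬ ∃ z, pair i z ∈ r ∧ i ∈ z) hI
  obtain ⟨i, hi, h6⟩ := h4 _ (mem_pow.2 ⟨sep_subset, h5⟩)
  have h7 : i ∈ I.sep (fun i => ¬ ∃ z, pair i z ∈ r ∧ i ∈ z) := mem_sep.2 ⟨hi, by
    rintro ⟨z, h7, h8⟩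
    have h9 := h8
    rw [h3 i z h7 _ h6] at h9
    exact (mem_sep.1 h9).2 ⟨z, h7, h8⟩⟩
  exact (mem_sep.1 h7).2 ⟨_, h6, h7⟩

/-- A cardinal is not the image of a smaller ordinal. -/
theorem Ext1_le (hN : IsZFModel N) {κ δ : ZFSet.{u}} (hκ : κ ∈ N) (hc : IsCardinalIn N κ)
    (hδ : δ ∈ N) (hδo : δ.IsOrdinal) (h : Surj N δ κ) : κ ⊆ δ := by
  have := hN.zfm
  obtain ⟨ν, -, ho, h2, h3⟩ := h.hasCard hδ hδo hκ
  by_contra h4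
  exact hc.2 ⟨ν, ho.mem_of_subset_of_mem hc.1 h2 ((hc.1.not_subset_iff_mem hδo).1 h4), h3⟩

theorem Ext1_omega : IsCardinalIn N omega := by
  refine ⟨isOrdinal_omega, ?_⟩
  rintro ⟨μ, hμ, h⟩
  obtain ⟨r, -, h1, h2⟩ := h.surj
  obtain ⟨n, rfl⟩ := mem_omega_iff.1 hμ
  have h3 : ∀ m : ℕ, ∃ k : Fin n, pair (nat k) (nat m) ∈ r := fun m => by
    obtain ⟨x, hx, h3⟩ := h2 _ (nat_mem_omega m)
    obtain ⟨k, hk, rfl⟩ := mem_nat.1 hx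
    exact ⟨⟨k, hk⟩, h3⟩
  choose g hg using h3
  refine not_injective_infinite_finite g fun m m' h => nat_inj.1 (h1 _ _ (hg m) _ ?_)
  rw [h]
  exact hg m'

theorem Ext1_succ (hN : IsZFModel N) {l μ : ZFSet.{u}} (hμ : μ ∈ N) (hμo : μ.IsOrdinal)
    (hl : l ∈ μ) (h1 : ∀ α ∈ μ, Surj N l α) (h2 : ¬ Surj N l μ) :
    IsCardinalIn N μ ∧ ∀ κ ∈ μ, IsCardinalIn N κ → κ ⊆ l := by
  have := hN.zfm
  have hlN := mem_of_mem hμ hl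
  refine ⟨⟨hμo, ?_⟩, fun κ hκ hc => Ext1_le hN (mem_of_mem hμ hκ) hc hlN (hμo.mem hl) (h1 κ hκ)⟩
  rintro ⟨ν, hν, h⟩
  exact h2 ((h1 ν hν).trans hlN hμ h.surj)

/-- The next cardinal. -/
theorem Ext1_next (hN : IsZFModel N) {l : ZFSet.{u}} (hl : l ∈ N) (hlo : l.IsOrdinal)
    (hsl : ∀ γ ∈ l, ∃ β ∈ l, Surj N β (pow N γ)) {γ : ZFSet.{u}} (hγ : γ ∈ l) :
    ∃ κ ∈ l, γ ∈ κ ∧ IsCardinalIn N κ ∧ ∀ κ' ∈ κ, IsCardinalIn N κ' → κ' ⊆ γ := by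
  have := hN.zfm
  have hγN := mem_of_mem hl hγ
  obtain ⟨β, hβ, h1⟩ := hsl γ hγ
  have h2 : ¬ Surj N γ β := fun h =>
    Ext1_cantor hN hγN (h.trans hγN (Ext1_pow_mem hN hγN) h1)
  obtain ⟨κ, ⟨hκ, h3⟩, h4⟩ := mem_wf.has_min {κ | κ ∈ l ∧ ¬ Surj N γ κ} ⟨β, hβ, h2⟩
  have h5 : γ ∈ κ := by
    by_contra h5
    exact h3 ((Surj.refl hγN).mono subset_rfl (((hlo.mem hγ).notMem_iff_subset (hlo.mem hκ)).1 h5))
  refine ⟨κ, hκ, h5, Ext1_succ hN (mem_of_mem hl hκ) (hlo.mem hκ) h5 (fun α hα => ?_) h3⟩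
  by_contra h6
  exact h4 α ⟨hlo.mem_trans hα hκ, h6⟩ hα

theorem card_structure (hN : IsZFModel N) (enum : ∀ x ∈ N, ∃ α ∈ N, α.IsOrdinal ∧ Surj N α x)
    {l D : ZFSet.{u}} (hl : l ∈ N) (hlo : l.IsOrdinal) (hω : omega ∈ l)
    (hfin : ∀ γ ∈ l, ((D ∩ γ : ZFSet.{u}) : Set ZFSet.{u}).Finite)
    (hD : ∀ α ∈ l, omega ⊆ α → ∃ δ ∈ D, δ ∈ insert α α ∧ Surj N δ α)
    (hsl : ∀ γ ∈ l, ∃ β ∈ l, Surj N β (pow N γ)) :
    ∃ a : ℕ → ZFSet.{u}, a 0 = omega ∧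
      (∀ n, a n ∈ N ∧ IsCardinalIn N (a n) ∧ a n ∈ a (n + 1) ∧
        ∀ κ ∈ a (n + 1), IsCardinalIn N κ → κ ⊆ a n) ∧
      (∀ x, x ∈ l ↔ ∃ n, x ∈ a n) ∧
      ∀ γ ∈ l, ∀ y ∈ N, (∀ z ∈ y, z ⊆ γ) → CardLt N y l := by
  have := hN.zfm
  have _ := enum
  have hnext := fun γ hγ => Ext1_next hN hl hlo hsl (γ := γ) hγ
  choose! f hf1 hf2 hf3 hf4 using hnext
  obtain ⟨a, ha0, has⟩ : ∃ a : ℕ → ZFSet.{u}, a 0 = omega ∧ ∀ n, a (n + 1) = f (a n) :=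
    ⟨fun n => f^[n] omega, rfl, fun n => Function.iterate_succ_apply' _ _ _⟩
  have h1 : ∀ n, a n ∈ l := fun n => by
    induction n with
    | zero => rw [ha0]; exact hω
    | succ n ih => rw [has]; exact hf1 _ ih
  have h2 : ∀ n, IsCardinalIn N (a n) := fun n => by
    cases n with
    | zero => rw [ha0]; exact Ext1_omega
    | succ n => rw [has]; exact hf3 _ (h1 n)
  have h3 : ∀ n, a n ∈ a (n + 1) := fun n => by rw [has]; exact hf2 _ (h1 n)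
  have h4 : ∀ n, omega ⊆ a n := fun n => by
    induction n with
    | zero => rw [ha0]
    | succ n ih => exact ih.trans ((h2 (n + 1)).1.subset_of_mem (h3 n))
  have h5 : ∀ n, a n ∈ D := fun n => by
    obtain ⟨δ, hδ, h5, h6⟩ := hD _ (h1 n) (h4 n)
    rcases mem_insert_iff.1 h5 with rfl | h5
    · exact hδ
    · exact (mem_irrefl δ (Ext1_le hN (mem_of_mem hl (h1 n)) (h2 n)
        (mem_of_mem (mem_of_mem hl (h1 n)) h5) ((h2 n).1.mem h5) h6 h5)).elim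
  have h6 : Function.Injective a := by
    have : StrictMono fun n => (a n).rank :=
      strictMono_nat_of_lt_succ fun n => rank_lt_of_mem (h3 n)
    exact fun m n h => this.injective (congrArg rank h)
  refine ⟨a, ha0, fun n => ⟨mem_of_mem hl (h1 n), h2 n, h3 n, ?_⟩, fun x => ⟨fun hx => ?_, ?_⟩,
    fun γ hγ y hy h => ?_⟩
  · rw [has]
    exact hf4 _ (h1 n)
  · by_contra h7
    push Not at h7
    refine Set.infinite_of_injective_forall_mem h6 (fun n => ?_) (hfin x hx)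
    exact mem_inter.2 ⟨h5 n,
      ((hlo.mem hx).notMem_iff_subset (h2 (n + 1)).1).1 (h7 (n + 1)) (h3 n)⟩
  · rintro ⟨n, hn⟩
    exact hlo.mem_trans hn (h1 n)
  · obtain ⟨β, hβ, h7⟩ := hsl γ hγ
    obtain ⟨ν, -, ho, h8, h9⟩ := (h7.mono subset_rfl (X' := y) fun z hz =>
      mem_pow.2 ⟨h z hz, mem_of_mem hy hz⟩).hasCard (mem_of_mem hl hβ) (hlo.mem hβ) hy
    exact ⟨ν, ho.mem_of_subset_of_mem hlo h8 hβ, h9⟩

theorem succ_card (hN : IsZFModel N) {l μ : ZFSet.{u}} (hμ : μ ∈ N) (hμo : μ.IsOrdinal)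
    (hl : l ∈ μ) (h1 : ∀ α ∈ μ, Surj N l α) (h2 : ¬ Surj N l μ) :
    IsCardinalIn N μ ∧ ∀ κ ∈ μ, IsCardinalIn N κ → κ ⊆ l := Ext1_succ hN hμ hμo hl h1 h2

/-- One of three sets that cover `μ` includes a member of `U`. -/
theorem Ext1_three (hN : IsZFModel N) {μ U : ZFSet.{u}} (hμ : μ ∈ N) (hω : omega ∈ μ)
    (hom : ∀ γ ∈ μ, ∀ Z ∈ N, (∀ ξ ∈ μ, ∃ i ∈ insert γ γ, pair ξ i ∈ Z) →
      ∃ i ∈ insert γ γ, ∃ T ∈ U, ∀ ξ ∈ T, pair ξ i ∈ Z)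
    {A B C : ZFSet.{u}} (hA : A ∈ N) (hB : B ∈ N) (hC : C ∈ N)
    (h : ∀ ξ ∈ μ, ξ ∈ A ∨ ξ ∈ B ∨ ξ ∈ C) : ∃ T ∈ U, T ⊆ A ∨ T ⊆ B ∨ T ⊆ C := by
  have := hN.zfm
  have := InM.mk hA
  have := InM.mk hB
  have := InM.mk hC
  obtain ⟨Z, hZ, -, HZ⟩ := exists_pairSep (M := N)
    (fun ξ i => (i = omega → ξ ∈ A) ∧ (i = ∅ → ξ ∈ B) ∧ (i ≠ omega → i ≠ ∅ → ξ ∈ C)) hμ
    (insert_mem omega_mem omega_mem)
  have h0 : (∅ : ZFSet.{u}) ≠ omega := fun h => notMem_empty ∅ (h.symm ▸ omega_zero : ∅ ∈ (∅ : ZFSet.{u}))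
  have h1 : (insert ∅ ∅ : ZFSet.{u}) ∈ omega := omega_succ omega_zero
  have h2 : (insert ∅ ∅ : ZFSet.{u}) ≠ omega := fun h => mem_irrefl _ (h ▸ h1)
  have h3 : (insert ∅ ∅ : ZFSet.{u}) ≠ ∅ := fun h => notMem_empty ∅ (by
    have := mem_insert (∅ : ZFSet.{u}) ∅
    rwa [h] at this)
  obtain ⟨i, -, T, hT, H⟩ := hom omega hω Z hZ fun ξ hξ => by
    rcases h ξ hξ with h | h | h
    · exact ⟨omega, mem_insert _ _, (HZ _ _).2 ⟨hξ, mem_insert _ _, fun _ => h,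
        fun h' => (h0 h'.symm).elim, fun h' => (h' rfl).elim⟩⟩
    · exact ⟨∅, mem_insert_of_mem _ omega_zero, (HZ _ _).2 ⟨hξ, mem_insert_of_mem _ omega_zero,
        fun h' => (h0 h').elim, fun _ => h, fun _ h' => (h' rfl).elim⟩⟩
    · exact ⟨insert ∅ ∅, mem_insert_of_mem _ h1, (HZ _ _).2 ⟨hξ, mem_insert_of_mem _ h1,
        fun h' => (h2 h').elim, fun h' => (h3 h').elim, fun _ _ => h⟩⟩
  refine ⟨T, hT, ?_⟩
  by_cases h4 : i = omega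
  · exact Or.inl fun ξ hξ => ((HZ _ _).1 (H ξ hξ)).2.2.1 h4
  by_cases h5 : i = ∅
  · exact Or.inr (Or.inl fun ξ hξ => ((HZ _ _).1 (H ξ hξ)).2.2.2.1 h5)
  · exact Or.inr (Or.inr fun ξ hξ => ((HZ _ _).1 (H ξ hξ)).2.2.2.2 h4 h5)

theorem measurable_of_hom (hN : IsZFModel N) {μ U : ZFSet.{u}} (hμ : μ ∈ N) (hμo : μ.IsOrdinal)
    (hω : omega ∈ μ) (hU : U ∈ N) (hsub : ∀ T ∈ U, T ⊆ μ)
    (hmeet : ∀ T ∈ U, ∀ T' ∈ U, ∃ ξ ∈ T, ξ ∈ T') (htwo : ∀ T ∈ U, ∀ ξ ∈ T, ∃ η ∈ T, η ≠ ξ)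
    (hom : ∀ γ ∈ μ, ∀ Z ∈ N, (∀ ξ ∈ μ, ∃ i ∈ insert γ γ, pair ξ i ∈ Z) →
      ∃ i ∈ insert γ γ, ∃ T ∈ U, ∀ ξ ∈ T, pair ξ i ∈ Z) : MeasurableIn N μ := by
  have := hN.zfm
  have _ := hμo
  have _ := hsub
  have := InM.mk hU
  have hV := sep_mem (fun X => ∃ T ∈ U, T ⊆ X) (Ext1_pow_mem hN hμ)
  have HV : ∀ X, X ∈ (pow N μ).sep (fun X => ∃ T ∈ U, T ⊆ X) ↔
      (X ⊆ μ ∧ X ∈ N) ∧ ∃ T ∈ U, T ⊆ X := fun X => by rw [mem_sep, mem_pow]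
  generalize (pow N μ).sep (fun X => ∃ T ∈ U, T ⊆ X) = V at hV HV
  have hd : ∀ X ∈ N, μ \ X ∈ N := fun X hX =>
    have := InM.mk hX
    sep_mem (fun z => ¬ z ∈ X) hμ
  have hi : ∀ X ∈ N, ∀ Y ∈ N, X ∩ Y ∈ N := fun X hX Y hY =>
    have := InM.mk hY
    sep_mem (fun z => z ∈ Y) hX
  have hno : ∀ X ∈ V, ∀ T ∈ U, ¬ T ⊆ μ \ X := fun X hX T hT h => by
    obtain ⟨-, T', hT', h'⟩ := (HV X).1 hX
    obtain ⟨ξ, h1, h2⟩ := hmeet T hT T' hT'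
    exact (mem_sdiff.1 (h h1)).2 (h' h2)
  refine ⟨V, hV, fun X hX => ((HV X).1 hX).1.1, ?_, fun h => ?_, fun X hX Y hY h1 h2 => ?_,
    fun X hX Y hY => ?_, fun X hX h => ?_, fun ξ _ h => ?_, fun γ hγ f hf hF => ?_⟩
  · obtain ⟨T, hT, h⟩ := Ext1_three hN hμ hω hom hμ hμ hμ fun ξ hξ => Or.inl hξ
    exact (HV _).2 ⟨⟨subset_rfl, hμ⟩, T, hT, by simpa using h⟩
  · obtain ⟨-, T, hT, h⟩ := (HV _).1 h
    obtain ⟨ξ, h1, -⟩ := hmeet T hT T hT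
    exact notMem_empty _ (h h1)
  · obtain ⟨-, T, hT, h⟩ := (HV _).1 hX
    exact (HV _).2 ⟨⟨h2, hY⟩, T, hT, h.trans h1⟩
  · have hX' := ((HV _).1 hX).1
    have hY' := ((HV _).1 hY).1
    obtain ⟨T, hT, h⟩ := Ext1_three hN hμ hω hom (hi X hX'.2 Y hY'.2) (hd X hX'.2) (hd Y hY'.2)
      fun ξ hξ => by
        simp only [mem_inter, mem_sdiff]
        tauto
    rcases h with h | h | h
    · exact (HV _).2 ⟨⟨fun z hz => hX'.1 (mem_inter.1 hz).1, hi X hX'.2 Y hY'.2⟩, T, hT, h⟩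
    · exact (hno X hX T hT h).elim
    · exact (hno Y hY T hT h).elim
  · obtain ⟨T, hT, h'⟩ := Ext1_three hN hμ hω hom hX (hd X hX) (hd X hX)
      fun ξ hξ => by
        simp only [mem_sdiff]
        tauto
    rcases h' with h' | h'
    · exact Or.inl ((HV _).2 ⟨⟨h, hX⟩, T, hT, h'⟩)
    · exact Or.inr ((HV _).2 ⟨⟨fun z hz => (mem_sdiff.1 hz).1, hd X hX⟩, T, hT, by simpa using h'⟩)
  · obtain ⟨-, T, hT, h⟩ := (HV _).1 h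
    obtain ⟨η, h1, -⟩ := hmeet T hT T hT
    obtain ⟨η', h2, h3⟩ := htwo T hT η h1
    exact h3 ((mem_singleton.1 (h h2)).trans (mem_singleton.1 (h h1)).symm)
  · have hγN := mem_of_mem hμ hγ
    have := InM.mk hf
    have := InM.mk hγN
    obtain ⟨Z, hZ, -, HZ⟩ := exists_pairSep (M := N)
      (fun ξ i => (i = γ ∧ ∀ α X, pair α X ∈ f → ξ ∈ X) ∨ ∃ X, pair i X ∈ f ∧ ¬ ξ ∈ X) hμ
      (insert_mem hγN hγN)
    obtain ⟨i, -, T, hT, H⟩ := hom γ hγ Z hZ fun ξ hξ => by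
      by_cases h : ∀ α X, pair α X ∈ f → ξ ∈ X
      · exact ⟨γ, mem_insert _ _, (HZ _ _).2 ⟨hξ, mem_insert _ _, Or.inl ⟨rfl, h⟩⟩⟩
      · push Not at h
        obtain ⟨α, X, h1, h2⟩ := h
        have h3 := mem_insert_of_mem γ (pair_mem_prod.1 (hF.1 h1)).1
        exact ⟨α, h3, (HZ _ _).2 ⟨hξ, h3, Or.inr ⟨X, h1, h2⟩⟩⟩
    refine (HV _).2 ⟨⟨sep_subset, sep_mem _ hμ⟩, T, hT, fun ξ hξ => ?_⟩
    obtain ⟨h1, -, ⟨-, h2⟩ | ⟨X, h2, -⟩⟩ := (HZ _ _).1 (H ξ hξ)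
    · exact mem_sep.2 ⟨h1, h2⟩
    · exfalso
      obtain ⟨h3, h4⟩ := pair_mem_prod.1 (hF.1 h2)
      obtain ⟨-, T', hT', h5⟩ := (HV X).1 h4
      obtain ⟨η, h6, h7⟩ := hmeet T hT T' hT'
      obtain ⟨-, -, ⟨h8, -⟩ | ⟨X', h8, h9⟩⟩ := (HZ _ _).1 (H η h6)
      · exact mem_irrefl γ (h8 ▸ h3)
      · obtain rfl := fn_of_isFunc hF i X h2 X' h8
        exact h9 (h5 h7)

end Pool.Agent.P.MP_37b794_lc.I0
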