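import Pool.Agent.P.MP_37b794_lc.I0.Defs

/-!
Values of names in the generic extension.
-/

universe u

set_option synthInstance.maxSize 16384

namespace Pool.Agent.P.MP_37b794_lc.I0

open ZFSet Pool.Agent.Lib.Forcing Pool.Agent.P.MP_af0a18_lc

variable {M : Set ZFSet.{u}} {P le H : ZFSet.{u}} (hM : IsZFModel M) (hP : IsForcing P le)
  (hPM : P ∈ M) (hle : le ∈ M) (hH : IsGeneric M P le H)
include hM hP hPM hle hH

omit hle in
/-- A definable dense class is met by the generic filter. -/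
theorem Ext2_dense (R : ZFSet.{u} → Prop) (hR : Df M (fun e => R (e 0)))
    (h : ∀ p ∈ P, ∃ q, pair q p ∈ le ∧ R q) : ∃ q ∈ H, R q := by
  have := hM.zfm
  obtain ⟨q, hq, hqH⟩ := hH.meets _ (sep_mem R (h := hR) hPM) sep_subset (by
    intro p hp
    obtain ⟨q, h1, h2⟩ := h p hp
    exact ⟨q, mem_sep.2 ⟨hP.left h1, h2⟩, h1⟩)
  exact ⟨q, hqH, (mem_sep.1 hq).2⟩

/-- Equivalent names have the same value. -/
theorem Ext2_eqv {q S S' : ZFSet.{u}} (hq : q ∈ H) (hS : S ∈ M) (hS' : S' ∈ M) (hup : Up le S)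
    (h : Eqv le q S S') (x : ZFSet.{u}) :
    (∃ p ∈ H, pair x p ∈ S) ↔ ∃ y ∈ H, pair x y ∈ S' := by
  have := hM.zfm
  constructor
  · rintro ⟨p, hp, hx⟩
    obtain ⟨r0, hr0, h1, h2⟩ := hH.directed p hp q hq
    have := InM.mk (fst_mem hS hx)
    have := InM.mk hS'
    have := InM.mk hle
    obtain ⟨r', hr', y, h3, h4⟩ := hH.below hP hPM hle
      (fun r' => ∃ y, pair x y ∈ S' ∧ pair r' y ∈ le) hr0 (fun r hr =>
        h.1 x r (hup x p hx r (hP.trans _ _ _ hr h1)) (hP.trans _ _ _ hr h2))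
    exact ⟨y, hH.upward _ _ hr' h4, h3⟩
  · rintro ⟨y, hy, hx⟩
    obtain ⟨r, hr, h1, h2⟩ := hH.directed q hq y hy
    exact ⟨r, hr, h.2 x y hx r h1 h2⟩

omit hP hPM hH in
theorem Ext2_df_eqv {S w : ZFSet.{u}} (hS : S ∈ M) (hw : w ∈ M) :
    Df M (fun e => ∃ S' ∈ w, Eqv le (e 0) S S') := by
  have := hM.zfm
  have := InM.mk hS
  have := InM.mk hw
  have := InM.mk hle
  unfold Eqv
  infer_instance

theorem NameSurj.surj {S a X : ZFSet.{u}} (hS : S ∈ M) (ha : a ∈ M) (hX : X ∈ M)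
    (h : NameSurj P le S a X) : Surj (genericExt M H) a X := by
  have := hM.zfm
  have hN := (hM.genericExt hP hPM hle hH).zfm
  have hMN := subset_genericExt hP hPM hH
  have hHN := generic_mem hP hPM hH
  obtain ⟨-, hup, hfn, hd⟩ := h
  have := InM.mk hHN
  have := InM.mk (hMN hS)
  obtain ⟨r, hr, -, Hr⟩ := exists_pairSep (M := genericExt M H)
    (fun x y => ∃ p ∈ H, pair (pair x y) p ∈ S) (hMN ha) (hMN hX)
  refine ⟨r, hr, fun x y h1 z h2 => ?_, fun η hη => ?_⟩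
  · obtain ⟨-, -, p, hp, h3⟩ := (Hr _ _).1 h1
    obtain ⟨-, -, p', hp', h4⟩ := (Hr _ _).1 h2
    obtain ⟨r0, -, h5, h6⟩ := hH.directed p hp p' hp'
    have := hfn _ r0 (hup _ _ h3 _ h5) _ (hup _ _ h4 _ h6) (by simp)
    exact (pair_inj.1 this).2
  · have := InM.mk hS
    have := InM.mk ha
    have := InM.mk (mem_of_mem hX hη)
    obtain ⟨q, hq, ξ, hξ, h1⟩ := Ext2_dense hM hP hPM hH
      (fun q => ∃ ξ ∈ a, pair (pair ξ η) q ∈ S) inferInstance (hd η hη)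
    exact ⟨ξ, hξ, (Hr _ _).2 ⟨hξ, hη, q, hq, h1⟩⟩

theorem m3a_ext {v : ZFSet.{u}} (hv : v ∈ M) (h : M3a M v P le) {a : ZFSet.{u}} (ha : a ∈ v) :
    ∃ w ∈ v, Surj (genericExt M H) w (pow (genericExt M H) a) := by
  have := hM.zfm
  have hN' := hM.genericExt hP hPM hle hH
  have hN := hN'.zfm
  have hMN := subset_genericExt hP hPM hH
  have hHN := generic_mem hP hPM hH
  obtain ⟨w, hw, hd⟩ := h a ha
  have haM := mem_of_mem hv ha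
  have hwM := mem_of_mem hv hw
  have hpow : pow (genericExt M H) a ∈ genericExt M H :=
    (inferInstance : ZT.{u} (fun M e => pow M (e 0))).mem _ hN' (fun _ => a) fun _ => hMN haM
  have := InM.mk hHN
  have := InM.mk (hMN haM)
  obtain ⟨r, hr, -, Hr⟩ := exists_pairSep (M := genericExt M H)
    (fun S' Z => ∀ x ∈ a, (x ∈ Z ↔ ∃ y ∈ H, pair x y ∈ S')) (hMN hwM) hpow
  refine ⟨w, hw, r, hr, fun S' Z h1 Z' h2 => ?_, fun Z hZ => ?_⟩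
  · obtain ⟨-, h3, h4⟩ := (Hr _ _).1 h1
    obtain ⟨-, h5, h6⟩ := (Hr _ _).1 h2
    ext x
    exact ⟨fun hx => (h6 x ((mem_pow.1 h3).1 hx)).2 ((h4 x ((mem_pow.1 h3).1 hx)).1 hx),
      fun hx => (h4 x ((mem_pow.1 h5).1 hx)).2 ((h6 x ((mem_pow.1 h5).1 hx)).1 hx)⟩
  · obtain ⟨S, hS, h1, h2, h3⟩ := exists_nice hP hPM hle hH (mem_pow.1 hZ).2 haM
    have hup : Up le S := fun x p hx q hq => h2 x p q hx hq
    obtain ⟨q, hq, S', hS', h4⟩ := Ext2_dense hM hP hPM hH (fun q => ∃ S' ∈ w, Eqv le q S S')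
      (Ext2_df_eqv hM hle hS hwM) (hd S hS h1 hup)
    exact ⟨S', hS', (Hr _ _).2 ⟨hS', hZ, fun x hx => (h3 x hx).trans
      (Ext2_eqv hM hP hPM hle hH hq hS (mem_of_mem hwM hS') hup h4 x)⟩⟩

theorem m3b_ext {v A : ZFSet.{u}} (hv : v ∈ M) (hA : A ∈ M) (h : M3b M v A P le) {Z : ZFSet.{u}}
    (hZ : Z ∈ genericExt M H) (hZv : Z ⊆ v) :
    ∃ S' ∈ A, ∀ x, x ∈ Z ↔ x ∈ v ∧ ∃ y ∈ H, pair x y ∈ S' := by
  have := hM.zfm
  obtain ⟨S, hS, h1, h2, h3⟩ := exists_nice hP hPM hle hH hZ hv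
  have hup : Up le S := fun x p hx q hq => h2 x p q hx hq
  obtain ⟨q, hq, S', hS', h4⟩ := Ext2_dense hM hP hPM hH (fun q => ∃ S' ∈ A, Eqv le q S S')
    (Ext2_df_eqv hM hle hS hA) (h S hS h1 hup)
  have h5 := Ext2_eqv hM hP hPM hle hH hq hS (mem_of_mem hA hS') hup h4
  exact ⟨S', hS', fun x => ⟨fun hx => ⟨hZv hx, (h5 x).1 ((h3 x (hZv hx)).1 hx)⟩,
    fun hx => (h3 x hx.1).2 ((h5 x).2 hx.2)⟩⟩

theorem m4_ext {v A : ZFSet.{u}} (hv : v ∈ M) (hA : A ∈ M) (hAv : ∀ z ∈ A, z ⊆ v)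
    (h : M4 M v A P le) {a : ZFSet.{u}} (ha : a ∈ genericExt M H) (hav : a ⊆ v)
    (hb : ∀ y ∈ v, a ∩ y ∈ v) : a ∈ A := by
  have := hM.zfm
  obtain ⟨S, hS, h1, h2, h3⟩ := exists_nice hP hPM hle hH ha hv
  have hup : Up le S := fun x p hx q hq => h2 x p q hx hq
  have := InM.mk hS
  have := InM.mk hv
  have := InM.mk hA
  have := InM.mk hle
  obtain ⟨q, hq, h4⟩ := Ext2_dense hM hP hPM hH (fun q =>
    (∃ z ∈ A, ∀ x ∈ v, (x ∈ z → ∀ r, pair r q ∈ le → ∃ r', pair r' r ∈ le ∧ pair x r' ∈ S) ∧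
      (x ∉ z → ∀ r, pair r q ∈ le → pair x r ∉ S)) ∨
    ∃ y ∈ v, ∀ z ∈ v, ∀ r, pair r q ∈ le → ∃ r', pair r' r ∈ le ∧ ∃ x ∈ y,
      (x ∈ z ∧ ∀ r'', pair r'' r' ∈ le → pair x r'' ∉ S) ∨ (x ∉ z ∧ pair x r' ∈ S))
    inferInstance (h S hS h1 hup)
  rcases h4 with ⟨z, hz, h4⟩ | ⟨y, hy, h4⟩
  · have h5 : a = z := by
      ext x
      constructor
      · intro hx
        obtain ⟨p, hp, h5⟩ := (h3 x (hav hx)).1 hx
        obtain ⟨r, -, h6, h7⟩ := hH.directed p hp q hq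
        by_contra hxz
        exact (h4 x (hav hx)).2 hxz r h7 (hup _ _ h5 _ h6)
      · intro hx
        have hxv := hAv z hz hx
        have := InM.mk (mem_of_mem hv hxv)
        obtain ⟨r', hr', h5⟩ := hH.below hP hPM hle (fun r' => pair x r' ∈ S) hq
          ((h4 x hxv).1 hx)
        exact (h3 x hxv).2 ⟨r', hr', h5⟩
    exact h5 ▸ hz
  · exfalso
    have hz := hb y hy
    have h5 := h4 _ hz
    have h6 : ∀ x, x ∈ a ∩ y ↔ x ∈ a ∧ x ∈ y := fun x => mem_inter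
    generalize a ∩ y = z at hz h5 h6
    have := InM.mk (mem_of_mem hv hz)
    have := InM.mk (mem_of_mem hv hy)
    obtain ⟨r', hr', x, hx, h7⟩ := hH.below hP hPM hle (fun r' => ∃ x ∈ y,
      (x ∈ z ∧ ∀ r'', pair r'' r' ∈ le → pair x r'' ∉ S) ∨ (x ∉ z ∧ pair x r' ∈ S)) hq h5
    rcases h7 with ⟨h7, h8⟩ | ⟨h7, h8⟩
    · have hxa := ((h6 x).1 h7).1
      obtain ⟨p, hp, h9⟩ := (h3 x (hav hxa)).1 hxa
      obtain ⟨r, -, h10, h11⟩ := hH.directed p hp r' hr'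
      exact h8 r h11 (hup _ _ h9 _ h10)
    · exact h7 ((h6 x).2 ⟨(h3 x (pair_mem_prod.1 (h1 h8)).1).2 ⟨r', hr', h8⟩, hx⟩)

theorem hom_ext {A μ U : ZFSet.{u}} (hA : A ∈ M) (hAt : A.IsTransitive) (hA0 : ∅ ∈ A)
    (hμ : μ ∈ M) (hμo : μ.IsOrdinal) (hU : U ∈ M) (hUμ : ∀ T ∈ U, T ⊆ μ) (hPN : P ∈ constr M A)
    (hleN : le ∈ constr M A) (h : HOM M A μ U P le) {γ Z : ZFSet.{u}} (hγ : γ ∈ μ)
    (hZ : Z ∈ genericExt (constr M A) H) (htot : ∀ ξ ∈ μ, ∃ i ∈ insert γ γ, pair ξ i ∈ Z) :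
    ∃ i ∈ insert γ γ, ∃ T ∈ U, ∀ ξ ∈ T, pair ξ i ∈ Z := by
  have := hM.zfm
  have hAT : Trans (A : Set ZFSet.{u}) := ⟨fun x hx y hy => hAt x hx hy, hA0⟩
  have hL : IsZFModel (constr M A) := isZFModel_constr hM.powerSet hA
  have hLM : constr M A ⊆ M := constr_subset hM.powerSet hA
  have hH' : IsGeneric (constr M A) P le H :=
    ⟨hH.subset, hH.upward, hH.directed, fun D hD => hH.meets D (hLM hD)⟩
  have hμL : μ ∈ constr M A := ordinal_mem_constr hM.powerSet hA hμ hμo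
  obtain ⟨S, hS, h1, h2, h3⟩ : ∃ S ∈ constr M A, S ⊆ (μ.prod (insert γ γ)).prod P ∧
      (∀ x p q, pair x p ∈ S → pair q p ∈ le → pair x q ∈ S) ∧
      ∀ x ∈ μ.prod (insert γ γ), (x ∈ Z ↔ ∃ p ∈ H, pair x p ∈ S) := by
    have := hL.zfm
    have hγL : γ ∈ constr M A := mem_of_mem hμL hγ
    exact exists_nice hP hPN hleN hH' hZ (prod_mem hμL (insert_mem hγL hγL))
  have hup : Up le S := fun x p hx q hq => h2 x p q hx hq
  have := InM.mk (hLM hS)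
  have := InM.mk hμ
  have := InM.mk hU
  have := InM.mk hle
  have := InM.mk (mem_of_mem hμ hγ)
  obtain ⟨q, hq, h4⟩ := Ext2_dense hM hP hPM hH (fun q =>
    (∃ i ∈ insert γ γ, ∃ T ∈ U, ∀ ξ ∈ T, pair (pair ξ i) q ∈ S) ∨
    ∃ ξ ∈ μ, ∀ i ∈ insert γ γ, ∀ r, pair r q ∈ le → pair (pair ξ i) r ∉ S)
    inferInstance (h γ hγ S hS hup)
  rcases h4 with ⟨i, hi, T, hT, h4⟩ | ⟨ξ, hξ, h4⟩
  · exact ⟨i, hi, T, hT, fun ξ hξ =>
      (h3 _ (pair_mem_prod.2 ⟨hUμ T hT hξ, hi⟩)).2 ⟨q, hq, h4 ξ hξ⟩⟩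
  · exfalso
    obtain ⟨i, hi, h5⟩ := htot ξ hξ
    obtain ⟨p, hp, h6⟩ := (h3 _ (pair_mem_prod.2 ⟨hξ, hi⟩)).1 h5
    obtain ⟨r, -, h7, h8⟩ := hH.directed p hp q hq
    exact h4 i hi r h8 (hup _ _ h6 _ h7)

end Pool.Agent.P.MP_37b794_lc.I0
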