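import Pool.Agent.P.MP_37b794_lc.I0.Ext1
import Pool.Agent.P.MP_37b794_lc.I0.Ext2
import Pool.Agent.P.MP_37b794_lc.I0.Coll

/-!
The generic extension of a countable model satisfies the conclusion.
-/

universe u

set_option synthInstance.maxSize 16384

namespace Pool.Agent.P.MP_37b794_lc.I0

open ZFSet Pool.Agent.Lib.Forcing Pool.Agent.P.MP_af0a18_lc

theorem Ext3_pow_mem {N : Set ZFSet.{u}} (hN : IsZFModel N) {x : ZFSet.{u}} (hx : x ∈ N) :
    pow N x ∈ N :=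
  (inferInstance : ZT.{u} (fun M e => pow M (e 0))).mem N hN (fun _ => x) fun _ => hx

theorem Ext3_trans_pow {N : Set ZFSet.{u}} (hN : IsZFModel N) {x : ZFSet.{u}}
    (hx : x.IsTransitive) : Trans (pow N x : Set ZFSet.{u}) := by
  have := hN.zfm
  refine ⟨fun z hz y hy => ?_, mem_pow.2 ⟨empty_subset _, Trans.empty⟩⟩
  obtain ⟨h1, h2⟩ := mem_pow.1 hz
  exact mem_pow.2 ⟨hx y (h1 hy), mem_of_mem h2 hy⟩

theorem Ext3_sub_mem {N : Set ZFSet.{u}} (hN : IsZFModel N) {x z : ZFSet.{u}}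
    (hx : x.IsTransitive) (hz : z ∈ N) (hzx : z ⊆ x) : z ∈ constr N (pow N x) := by
  have := hN.zfm
  have := Ext3_trans_pow hN hx
  have := trans_constr (M := N) (b := pow N x)
  exact mem_of_mem base_mem_constr (mem_pow.2 ⟨hzx, hz⟩)

theorem Ext3_model {N : Set ZFSet.{u}} (hN : IsZFModel N) {x : ZFSet.{u}} (hxN : x ∈ N)
    (hx : x.IsTransitive) : IsZFModel (constr N (pow N x)) := by
  have := hN.zfm
  have := Ext3_trans_pow hN hx
  exact isZFModel_constr hN.powerSet (Ext3_pow_mem hN hxN)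

theorem Ext3_finite_omega : ∀ n ∈ omega.{u}, (n : Set ZFSet.{u}).Finite :=
  omega_induction (p := fun n => (n : Set ZFSet.{u}).Finite) (by simp)
    fun x hx => by rw [coe_insert]; exact hx.insert _

theorem Ext3_finite_surj {N : Set ZFSet.{u}} {n X : ZFSet.{u}} (hn : n ∈ omega)
    (h : Surj N n X) : (X : Set ZFSet.{u}).Finite := by
  obtain ⟨r, -, h1, h2⟩ := h
  classical
  refine ((Ext3_finite_omega n hn).image
    fun x => if h : ∃ y, pair x y ∈ r then h.choose else ∅).subset fun y hy => ?_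
  obtain ⟨x, hx, h⟩ := h2 y hy
  have h3 : ∃ y, pair x y ∈ r := ⟨y, h⟩
  exact ⟨x, hx, by simp only [dif_pos h3]; exact h1 x _ h3.choose_spec y h⟩

theorem Ext3_surj_mono {M N : Set ZFSet.{u}} (h : M ⊆ N) {a X : ZFSet.{u}} (hs : Surj M a X) :
    Surj N a X := by
  obtain ⟨r, hr, h1, h2⟩ := hs
  exact ⟨r, h hr, h1, h2⟩

/-- Functions from a subset of `l` onto a transitive set belong to `L(P(l))`. -/
theorem coll_pow {N : Set ZFSet.{u}} (hN : IsZFModel N) {l r : ZFSet.{u}} (hl : l ∈ N)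
    (hlo : l.IsOrdinal) (hgp : ∀ α ∈ l, ∀ β ∈ l, gp (pair α β) ∈ l) (hr : r ∈ N) (hf : Fn r)
    (h1 : ∀ w ∈ r, ∃ x ∈ l, ∃ t, w = pair x t)
    (h3 : ∀ x t, pair x t ∈ r → ∀ s ∈ t, ∃ y, pair y s ∈ r) : r ∈ constr N (pow N l) := by
  have := hN.zfm
  have hL := Ext3_model hN hl hlo.isTransitive
  have sub := fun z => Ext3_sub_mem (z := z) hN hlo.isTransitive
  have ir := InM.mk hr
  have il := InM.mk hl
  have hdom : ∀ x t, pair x t ∈ r → x ∈ l := fun x t h => by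
    obtain ⟨x', hx', t', h'⟩ := h1 _ h
    exact (pair_inj.1 h').1 ▸ hx'
  have hd := sub _ (sep_mem (fun x => ∃ t, pair x t ∈ r ∧ t = t) hl) sep_subset
  have hE2 := sub _ (sep_mem (fun z => ∃ x t, pair x t ∈ r ∧ ∃ y s, pair y s ∈ r ∧
    t ∈ s ∧ z = gp (pair x y)) hl) sep_subset
  generalize constr N (pow N l) = L at *
  have := hL.zfm
  have iE := InM.mk hE2
  obtain ⟨E, hE, -, HE⟩ := exists_pairSep (M := L) (fun x y => gp (pair x y) ∈
    l.sep (fun z => ∃ x t, pair x t ∈ r ∧ ∃ y s, pair y s ∈ r ∧ t ∈ s ∧ z = gp (pair x y))) hd hd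
  refine coll hL hd hE hf (fun w hw => ?_) (fun x hx => ?_) h3 fun x t hx y s hy => ?_
  · obtain ⟨x, hx, t, rfl⟩ := h1 w hw
    exact ⟨x, mem_sep.2 ⟨hx, t, hw, rfl⟩, t, rfl⟩
  · obtain ⟨-, t, ht, -⟩ := mem_sep.1 hx
    exact ⟨t, ht⟩
  · rw [HE]
    constructor
    · rintro ⟨-, -, h⟩
      obtain ⟨-, x', t', hx', y', s', hy', hts, h⟩ := mem_sep.1 h
      obtain ⟨rfl, rfl⟩ := gp_inj (hlo.mem (hdom _ _ hx)) (hlo.mem (hdom _ _ hy))
        (hlo.mem (hdom _ _ hx')) (hlo.mem (hdom _ _ hy')) h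
      rw [hf _ _ hx _ hx', hf _ _ hy _ hy']
      exact hts
    · intro h
      exact ⟨mem_sep.2 ⟨hdom _ _ hx, t, hx, rfl⟩, mem_sep.2 ⟨hdom _ _ hy, s, hy, rfl⟩,
        mem_sep.2 ⟨hgp _ (hdom _ _ hx) _ (hdom _ _ hy), x, t, hx, y, s, hy, h, rfl⟩⟩

/-- A surjection from `l` onto a transitive set can be found in `L(P(l))`. -/
theorem Ext3_surj {N : Set ZFSet.{u}} (hN : IsZFModel N) {l X : ZFSet.{u}} (hl : l ∈ N)
    (hlo : l.IsOrdinal) (hgp : ∀ α ∈ l, ∀ β ∈ l, gp (pair α β) ∈ l) (hX : X ∈ N)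
    (hXt : X.IsTransitive) (h : Surj N l X) :
    ∃ r ∈ constr N (pow N l), r ∈ N ∧ Fn r ∧ (∀ y ∈ X, ∃ x ∈ l, pair x y ∈ r) ∧
      ∀ x y, pair x y ∈ r → x ∈ l ∧ y ∈ X := by
  have := hN.zfm
  obtain ⟨r, hr, h1, h2⟩ := h
  have := InM.mk hr
  obtain ⟨r', hr', h3, h4⟩ := exists_pairSep (M := N) (fun x y => pair x y ∈ r) hl hX
  have hf : Fn r' := fun a b h c h' => h1 a b ((h4 _ _).1 h).2.2 c ((h4 _ _).1 h').2.2
  have h5 : ∀ y ∈ X, ∃ x ∈ l, pair x y ∈ r' := fun y hy => by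
    obtain ⟨x, hx, h⟩ := h2 y hy
    exact ⟨x, hx, (h4 _ _).2 ⟨hx, hy, h⟩⟩
  refine ⟨r', coll_pow hN hl hlo hgp hr' hf (fun w hw => ?_) (fun x t h s hs => ?_), hr', hf, h5,
    fun x y h => ⟨((h4 _ _).1 h).1, ((h4 _ _).1 h).2.1⟩⟩
  · obtain ⟨a, ha, b, -, rfl⟩ := mem_prod.1 (h3 hw)
    exact ⟨a, ha, b, rfl⟩
  · obtain ⟨y, -, hy⟩ := h5 s (hXt t ((h4 _ _).1 h).2.1 hs)
    exact ⟨y, hy⟩

theorem concl_of_good {M : Set ZFSet.{u}} (hM : IsZFModel M) (hc : M.Countable) (h : GoodM M) :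
    ∃ N : Set ZFSet.{u}, Concl N := by
  obtain ⟨g4, v, hv, A, hA, l, hl, μ, hμ, U, hU, P, hPM, le, hle,
    ⟨hvt, rfl, hAv, hlo, hω, hlv, hslv, hsm, hgp, hμo, hlμ, hsμ⟩,
    ⟨⟨hP0, g5a, g5b, g5c⟩, hPK, hleK, hUK, hsub, hmeet, htwo⟩,
    ⟨D, hD, hD1, hD2⟩, m3a, m3b, m4, hom⟩ := h
  have := hM.zfm
  have hP : IsForcing P le := ⟨fun z hz => mem_prod.2 (g5a z hz), g5b,
    fun p q r h h' => g5c r q h p h'⟩
  obtain ⟨H, -, hH⟩ := exists_generic hc hP hP0
  have hN := hM.genericExt hP hPM hle hH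
  have zN := hN.zfm
  have hMN := subset_genericExt hP hPM hH
  have enum : ∀ x ∈ genericExt M H, ∃ α ∈ genericExt M H, α.IsOrdinal ∧
      Surj (genericExt M H) α x := by
    intro x hx
    obtain ⟨T, hT, w, hw, h2, h3⟩ := exists_cover hP hPM hH hx
    obtain ⟨α, hα, ho, r, hr, h4, h5⟩ := g4 T hT
    exact ⟨α, hMN hα, ho, Surj.trans (hMN hα) hx ⟨r, hMN hr, h4, h5⟩
      ⟨w, hw, fun a b h c h' => h2 a b c h h', h3⟩⟩
  have hlN := hMN hl
  have hcard := card_structure (D := D) hN enum hlN hlo hω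
    (fun γ hγ => by
      obtain ⟨n, hn, h⟩ := hD1 γ hγ
      exact Ext3_finite_surj hn h)
    (fun α hα hωα => by
      obtain ⟨δ, hδ, h1, S, hS, h2⟩ := hD2 α hα hωα
      exact ⟨δ, hδ, h1, h2.surj hM hP hPM hle hH hS (mem_of_mem hD hδ) (mem_of_mem hl hα)⟩)
    (fun γ hγ => by
      obtain ⟨w, hw, h1⟩ := m3a_ext hM hP hPM hle hH hv m3a (hlv hγ)
      obtain ⟨β, hβ, h2⟩ := hsm w hw
      exact ⟨β, hβ, Surj.trans (mem_of_mem hlN hβ) (Ext3_pow_mem hN (mem_of_mem hlN hγ))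
        (Ext3_surj_mono hMN h2) h1⟩)
  -- the inner model `K = L(A)` and its extension
  have tA := Ext3_trans_pow hM hvt
  have hK := Ext3_model hM hv hvt
  have zK := hK.zfm
  have hKM : constr M (pow M v) ⊆ M := constr_subset hM.powerSet hA
  have hHK : IsGeneric (constr M (pow M v)) P le H :=
    ⟨hH.subset, hH.upward, hH.directed, fun D hD => hH.meets D (hKM hD)⟩
  have hN' := hK.genericExt hP hPK hleK hHK
  have zN' := hN'.zfm
  have hKN' := subset_genericExt hP hPK hHK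
  have hHN' := generic_mem hP hPK hHK
  have hN'N : genericExt (constr M (pow M v)) H ⊆ genericExt M H := Set.image_mono hKM
  have oK : ∀ α : ZFSet.{u}, α.IsOrdinal → α ∈ genericExt M H → α ∈ constr M (pow M v) :=
    fun α ho hα => ordinal_mem_constr hM.powerSet hA (ordinal_mem_of_genericExt hα ho) ho
  have hb := Ext3_pow_mem hN hlN
  have tb := Ext3_trans_pow hN hlo.isTransitive
  have hvK : v ∈ constr M (pow M v) := Ext3_sub_mem hM hvt hv subset_rfl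
  have hbN' : pow (genericExt M H) l ∈ genericExt (constr M (pow M v)) H := by
    convert Ext3_pow_mem hN' (hKN' (oK l hlo hlN)) using 1
    ext z
    rw [mem_pow, mem_pow]
    refine and_congr_right fun hz => ⟨fun hzN => ?_, fun h => hN'N h⟩
    obtain ⟨S', hS', h1⟩ := m3b_ext hM hP hPM hle hH hv hA m3b hzN (hz.trans hlv)
    have := InM.mk hHN'
    have := InM.mk (hKN' (Ext3_sub_mem hM hvt (mem_pow.1 hS').2 (mem_pow.1 hS').1))
    convert sep_mem (M := genericExt (constr M (pow M v)) H)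
      (fun x => ∃ y ∈ H, pair x y ∈ S') (hKN' hvK) using 1
    ext x
    rw [h1, mem_sep]
  have hLN' : constr (genericExt M H) (pow (genericExt M H) l) ⊆
      genericExt (constr M (pow M v)) H := by
    rw [constr_congr (N := genericExt M H) (N' := genericExt (constr M (pow M v)) H)
      fun α ho => ⟨fun h => hKN' (oK α ho h), fun h => hN'N h⟩]
    exact constr_subset hN'.powerSet hbN'
  have hL := Ext3_model hN hlN hlo.isTransitive
  have zL := hL.zfm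
  have hLN : constr (genericExt M H) (pow (genericExt M H) l) ⊆ genericExt M H :=
    constr_subset hN.powerSet hb
  have oL : ∀ α : ZFSet.{u}, α.IsOrdinal → α ∈ genericExt M H →
      α ∈ constr (genericExt M H) (pow (genericExt M H) l) :=
    fun α ho hα => ordinal_mem_constr hN.powerSet hb hα ho
  have sub := fun z => Ext3_sub_mem (z := z) hN hlo.isTransitive
  have surj := fun X => Ext3_surj (X := X) hN hlN hlo hgp
  have hom' := fun γ Z => hom_ext (γ := γ) (Z := Z) hM hP hPM hle hH hA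
    (fun x hx y hy => tA.trans x hx y hy) tA.empty hμ hμo hU hsub hPK hleK hom
  have m4' := fun a => m4_ext (a := a) hM hP hPM hle hH hv hA (fun z hz => (mem_pow.1 hz).1) m4
  have oM : ∀ α : ZFSet.{u}, α.IsOrdinal → α ∈ genericExt M H → α ∈ M :=
    fun α ho hα => ordinal_mem_of_genericExt hα ho
  have hconcl : IsZFModel (genericExt M H) → (IsCardinalIn (genericExt M H) μ ∧
      ∀ κ ∈ μ, IsCardinalIn (genericExt M H) κ → κ ⊆ l) →
      MeasurableIn (constr (genericExt M H) (pow (genericExt M H) l)) μ →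
      Concl (genericExt M H) := fun _ h1 h2 => by
    obtain ⟨a, a0, a1, a2, a3⟩ := hcard
    exact ⟨hN, choice_of_enum enum, a, l, μ, _, a0, a1, a2, a3, hMN hμ, h1.1, hlμ, h1.2, hb,
      fun z => mem_pow.trans and_comm, h2⟩
  generalize genericExt (constr M (pow M v)) H = N' at *
  generalize hLdef : constr (genericExt M H) (pow (genericExt M H) l) = L at *
  generalize genericExt M H = N at *
  have hlL := oL l hlo hlN
  have hμL := oL μ hμo (hMN hμ)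
  -- `v` and `A` are in `L`
  obtain ⟨r, hrL, hrN, hrf, hr1, hr2⟩ := surj v (hMN hv) hvt (Ext3_surj_mono hMN hslv)
  have irL := InM.mk hrL
  have irN := InM.mk hrN
  have ilL := InM.mk hlL
  have hvL : v ∈ L := by
    convert sep_mem (M := L) (fun y => ∃ x ∈ l, pair x y ∈ r) (sUnion_mem (sUnion_mem hrL))
      using 1
    ext y
    rw [mem_sep]
    constructor
    · intro hy
      obtain ⟨x, hx, h⟩ := hr1 y hy
      exact ⟨snd_mem_sUnion h, x, hx, h⟩
    · rintro ⟨-, x, -, h⟩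
      exact (hr2 _ _ h).2
  have ivL := InM.mk hvL
  have hAL : pow M v ∈ L := by
    convert sep_mem (M := L) (fun a => ∀ y ∈ v, a ∩ y ∈ v) (Ext3_pow_mem hL hvL) using 1
    ext a
    rw [mem_sep, mem_pow (M := L)]
    constructor
    · intro ha
      obtain ⟨h1, h2⟩ := mem_pow.1 ha
      refine ⟨⟨h1, ?_⟩, hAv a ha⟩
      have := InM.mk (hMN h2)
      have h3 := sub _ (sep_mem (M := N) (fun x => ∃ t ∈ a, pair x t ∈ r) hlN) sep_subset
      have := InM.mk h3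
      convert sep_mem (M := L)
        (fun t => ∃ x ∈ l.sep (fun x => ∃ t ∈ a, pair x t ∈ r), pair x t ∈ r) hvL using 1
      ext t
      rw [mem_sep]
      constructor
      · intro ht
        obtain ⟨x, hx, h⟩ := hr1 t (h1 ht)
        exact ⟨h1 ht, x, mem_sep.2 ⟨hx, t, ht, h⟩, h⟩
      · rintro ⟨-, x, hx, h⟩
        obtain ⟨-, t', ht', h'⟩ := mem_sep.1 hx
        rwa [hrf _ _ h _ h']
    · rintro ⟨⟨h1, h2⟩, h3⟩
      exact m4' a (hLN h2) h1 h3
  have hKL : constr M (pow M v) ⊆ L := by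
    rw [constr_congr (N := M) (N' := L)
      fun α ho => ⟨fun h => oL α ho (hMN h), fun h => oM α ho (hLN h)⟩]
    exact constr_subset hL.powerSet hAL
  have homL : ∀ γ ∈ μ, ∀ Z ∈ L, (∀ ξ ∈ μ, ∃ i ∈ insert γ γ, pair ξ i ∈ Z) →
      ∃ i ∈ insert γ γ, ∃ T ∈ U, ∀ ξ ∈ T, pair ξ i ∈ Z :=
    fun γ hγ Z hZ h => hom' γ Z hγ (hLN' hZ) h
  have hns : ¬ Surj N l μ := by
    intro h
    obtain ⟨s, hsL, -, hsf, hs1, -⟩ := surj μ (hMN hμ) hμo.isTransitive h
    have := InM.mk hsL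
    obtain ⟨Z, hZ, -, HZ⟩ := exists_pairSep (M := L) (fun ξ i => pair i ξ ∈ s) hμL hlL
    obtain ⟨i, -, T, hT, h1⟩ := homL l hlμ Z hZ fun ξ hξ => by
      obtain ⟨i, hi, h⟩ := hs1 ξ hξ
      exact ⟨i, mem_insert_of_mem _ hi, (HZ _ _).2 ⟨hξ, hi, h⟩⟩
    obtain ⟨ξ, hξ, -⟩ := hmeet T hT T hT
    obtain ⟨η, hη, hne⟩ := htwo T hT ξ hξ
    exact hne (hsf i η ((HZ _ _).1 (h1 η hη)).2.2 ξ ((HZ _ _).1 (h1 ξ hξ)).2.2)
  exact ⟨N, hconcl hN
    (succ_card hN (hMN hμ) hμo hlμ (fun α hα => Ext3_surj_mono hMN (hsμ α hα)) hns)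
    (measurable_of_hom hL hμL hμo (hμo.mem_trans hω hlμ) (hKL hUK) hsub hmeet htwo homL)⟩

end Pool.Agent.P.MP_37b794_lc.I0
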