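import Pool.Agent.P.MP_37b794_lc.I0.Card

/-!
Universes and towers.
-/

universe u

set_option synthInstance.maxSize 16384

namespace Pool.Agent.P.MP_37b794_lc.I0

open ZFSet Pool.Agent.Lib.Forcing Pool.Agent.P.MP_af0a18_lc

/-! ### Universes -/

namespace Gro
variable {W x y : ZFSet.{u}} (h : Gro W)
include h

theorem trans : W.IsTransitive := h.1

theorem omega_mem : omega ∈ W := h.2.1

theorem mem_trans (hx : x ∈ W) (hy : y ∈ x) : y ∈ W := h.1 x hx hy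

theorem powerset_mem (hx : x ∈ W) : powerset x ∈ W := by
  have := h.2.2.1 x hx
  rwa [pow_univ] at this

theorem mem_of_subset (hy : y ∈ W) (hxy : x ⊆ y) : x ∈ W :=
  h.mem_trans (h.powerset_mem hy) (mem_powerset.2 hxy)

theorem sUnion_mem (hx : x ∈ W) : (⋃₀ x : ZFSet.{u}) ∈ W := h.2.2.2.1 x hx

theorem img_mem (hx : x ∈ W) (f : ZFSet.{u} → ZFSet.{u}) (hf : ∀ z ∈ x, f z ∈ W) :
    img f x ∈ W := by
  obtain ⟨b, hb, H⟩ := h.2.2.2.2 x hx (graph f x) (mem_pow.2 ⟨fun z hz => by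
    obtain ⟨y, hy, rfl⟩ := mem_img.1 hz
    exact pair_mem_prod.2 ⟨hy, hf y hy⟩, trivial⟩)
    (fun z hz => ⟨f z, pair_mem_graph.2 ⟨hz, rfl⟩⟩)
  refine h.mem_of_subset hb fun z hz => ?_
  obtain ⟨y, hy, rfl⟩ := mem_img.1 hz
  obtain ⟨w, hw, H'⟩ := H y hy
  rwa [← (pair_mem_graph.1 H').2]

theorem isZFModel : IsZFModel (W : Set ZFSet.{u}) := by
  classical
  refine ⟨fun x hx y hy => h.mem_trans hx hy, fun x hx y hy => ?_, fun x hx => h.sUnion_mem hx,
    fun x hx => ⟨powerset x, h.powerset_mem hx, fun z _ hz => mem_powerset.2 hz⟩, h.omega_mem,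
    fun φ e _ a ha => h.mem_of_subset ha fun z hz => (mem_sep.1 hz).1, fun φ e _ a ha H => ?_⟩
  · refine h.mem_of_subset (h.img_mem h.omega_mem (fun z => if z = nat 0 then x else y)
      fun z _ => ?_) fun z hz => ?_
    · split_ifs
      exacts [hx, hy]
    · rcases mem_pair.1 hz with rfl | rfl
      · exact mem_img.2 ⟨nat 0, nat_mem_omega 0, if_pos rfl⟩
      · exact mem_img.2 ⟨nat 1, nat_mem_omega 1, if_neg fun h' => absurd (nat_inj.1 h') (by decide)⟩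
  · choose! f hf _ using H
    exact ⟨img f a, h.img_mem ha f fun z hz => (hf z hz).1,
      fun z hz => ⟨f z, mem_img.2 ⟨z, hz, rfl⟩, (hf z hz).2⟩⟩

theorem empty_mem : ∅ ∈ W := h.mem_trans h.omega_mem omega_zero

theorem nat_mem (n : ℕ) : nat n ∈ W := h.mem_trans h.omega_mem (nat_mem_omega n)

theorem insert_mem (hx : x ∈ W) (hy : y ∈ W) : insert x y ∈ W :=
  have := h.isZFModel.zfm
  Lib.Forcing.insert_mem (M := (W : Set ZFSet.{u})) hx hy

theorem singleton_mem (hx : x ∈ W) : ({x} : ZFSet.{u}) ∈ W :=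
  have := h.isZFModel.zfm
  Lib.Forcing.singleton_mem (M := (W : Set ZFSet.{u})) hx

theorem pair_mem (hx : x ∈ W) (hy : y ∈ W) : pair x y ∈ W :=
  have := h.isZFModel.zfm
  Lib.Forcing.pair_mem (M := (W : Set ZFSet.{u})) hx hy

theorem union_mem (hx : x ∈ W) (hy : y ∈ W) : x ∪ y ∈ W :=
  have := h.isZFModel.zfm
  Lib.Forcing.union_mem (M := (W : Set ZFSet.{u})) hx hy

theorem prod_mem (hx : x ∈ W) (hy : y ∈ W) : x.prod y ∈ W :=
  have := h.isZFModel.zfm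
  Lib.Forcing.prod_mem (M := (W : Set ZFSet.{u})) hx hy

theorem pair_mem_iff : pair x y ∈ W ↔ x ∈ W ∧ y ∈ W :=
  have := h.isZFModel.zfm
  ⟨fun h' => ⟨fst_mem_of_pair_mem (M := (W : Set ZFSet.{u})) h',
    snd_mem_of_pair_mem (M := (W : Set ZFSet.{u})) h'⟩, fun h' => h.pair_mem h'.1 h'.2⟩

theorem mem_of_card_le (hx : x ⊆ W) (hy : y ∈ W) (hc : x.card ≤ y.card) : x ∈ W := by
  classical
  obtain ⟨g, hg⟩ := card_le_iff_surj.1 hc
  refine h.mem_of_subset (h.img_mem hy (fun t => if g t ∈ W then g t else ∅) fun t _ => ?_)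
    fun z hz => ?_
  · split_ifs with h1
    exacts [h1, h.empty_mem]
  · obtain ⟨t, ht, rfl⟩ := hg z hz
    exact mem_img.2 ⟨t, ht, if_pos (hx hz)⟩

theorem ord_mem_of_card_le (hx : x.IsOrdinal) (hy : y ∈ W) (hc : x.card ≤ y.card) : x ∈ W := by
  induction x using ZFSet.inductionOn with
  | h x ih =>
    exact h.mem_of_card_le (fun z hz => ih z hz (hx.mem hz)
      ((card_mono (hx.subset_of_mem hz)).trans hc)) hy hc

theorem Theta_mem (hx : x ∈ W) : Theta x ∈ W := by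
  refine h.ord_mem_of_card_le (isOrdinal_Theta x) (h.powerset_mem hx) ?_
  rw [Theta, Ordinal.card_toZFSet, Cardinal.card_ord, card_powerset]
  exact Order.succ_le_of_lt (Cardinal.cantor _)

theorem mem_of_rank_le (hy : y ∈ W) (hr : x.rank ≤ y.rank) : x ∈ W := by
  have key : ∀ y : ZFSet.{u}, y ∈ W → vonNeumann y.rank ∈ W := by
    intro y
    induction y using ZFSet.inductionOn with
    | h y ih =>
      intro hy
      refine h.mem_of_subset (h.sUnion_mem (h.img_mem hy (fun z => powerset (vonNeumann z.rank))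
        fun z hz => h.powerset_mem (ih z hz (h.mem_trans hy hz)))) fun w hw => ?_
      obtain ⟨z, hz, hwz⟩ := lt_rank_iff.1 (mem_vonNeumann.1 hw)
      exact mem_sUnion.2 ⟨_, mem_img.2 ⟨z, hz, rfl⟩, mem_powerset.2 (subset_vonNeumann.2 hwz)⟩
  exact h.mem_of_subset (key y hy) (subset_vonNeumann.2 hr)

theorem trichotomy {W' : ZFSet.{u}} (h' : Gro W') : W ∈ W' ∨ W = W' ∨ W' ∈ W := by
  have key : ∀ {A : ZFSet.{u}}, Gro A → ∀ z : ZFSet.{u}, z.rank < A.rank → z ∈ A := by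
    intro A hA z hz
    obtain ⟨y, hy, hzy⟩ := lt_rank_iff.1 hz
    exact hA.mem_of_rank_le hy hzy
  rcases lt_trichotomy W.rank W'.rank with h1 | h1 | h1
  · exact Or.inl (key h' W h1)
  · refine Or.inr (Or.inl ?_)
    ext z
    exact ⟨fun hz => key h' z (h1 ▸ rank_lt_of_mem hz), fun hz => key h z (h1 ▸ rank_lt_of_mem hz)⟩
  · exact Or.inr (Or.inr (key h W' h1))

theorem aleph0_le : Cardinal.aleph0 ≤ W.card := card_omega.{u} ▸ card_mono (h.trans _ h.omega_mem)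

end Gro

/-! ### Towers -/

namespace Tower
variable {Y : ℕ → ZFSet.{u}} {v x y : ZFSet.{u}} (h : Tower Y v)
include h

theorem trans (n : ℕ) : (Y n).IsTransitive := by
  cases n with
  | zero => exact h.trans0
  | succ n => exact (h.univ n).trans

theorem mono {m n : ℕ} (hmn : m ≤ n) : Y m ⊆ Y n := by
  induction hmn with
  | refl => exact fun _ hz => hz
  | step _ ih => exact fun _ hz => (h.univ _).mem_trans (h.mem _) (ih hz)

theorem mem_of_lt {m n : ℕ} (hmn : m < n) : Y m ∈ Y n := h.mono hmn (h.mem m)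

theorem powerset_mem_of_lt {m n : ℕ} (hmn : m < n) : powerset (Y m) ∈ Y n :=
  h.mono hmn ((h.univ m).powerset_mem (h.mem m))

theorem Y_subset (n : ℕ) : Y n ⊆ v := fun z hz => (h.mem_v z).2 ⟨n, hz⟩

theorem Y_mem (n : ℕ) : Y n ∈ v := h.Y_subset (n + 1) (h.mem n)

theorem trans_v : v.IsTransitive := fun z hz w hw => by
  obtain ⟨n, hn⟩ := (h.mem_v z).1 hz
  exact h.Y_subset n (h.trans n z hn hw)

theorem sub_of_mem (hx : x ∈ v) : x ⊆ v := h.trans_v x hx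

theorem exists_mem2 (hx : x ∈ v) (hy : y ∈ v) : ∃ n, x ∈ Y (n + 1) ∧ y ∈ Y (n + 1) := by
  obtain ⟨n, hn⟩ := (h.mem_v x).1 hx
  obtain ⟨m, hm⟩ := (h.mem_v y).1 hy
  exact ⟨n + m, h.mono (by omega) hn, h.mono (by omega) hm⟩

theorem exists_subset (hx : x ∈ v) : ∃ n, ∀ m, n ≤ m → x ⊆ Y m := by
  obtain ⟨n, hn⟩ := (h.mem_v x).1 hx
  exact ⟨n, fun m hm => h.trans m x (h.mono hm hn)⟩

theorem empty_mem : ∅ ∈ v := h.Y_subset 1 (h.univ 0).empty_mem

theorem omega_mem : omega ∈ v := h.Y_subset 1 (h.univ 0).omega_mem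

theorem nat_mem (n : ℕ) : nat n ∈ v := h.Y_subset 1 ((h.univ 0).nat_mem n)

theorem mem_of_subset (hy : y ∈ v) (hxy : x ⊆ y) : x ∈ v := by
  obtain ⟨n, hn, -⟩ := h.exists_mem2 hy hy
  exact h.Y_subset _ ((h.univ n).mem_of_subset hn hxy)

theorem powerset_mem (hx : x ∈ v) : powerset x ∈ v := by
  obtain ⟨n, hn, -⟩ := h.exists_mem2 hx hx
  exact h.Y_subset _ ((h.univ n).powerset_mem hn)

theorem insert_mem (hx : x ∈ v) (hy : y ∈ v) : insert x y ∈ v := by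
  obtain ⟨n, h1, h2⟩ := h.exists_mem2 hx hy
  exact h.Y_subset _ ((h.univ n).insert_mem h1 h2)

theorem singleton_mem (hx : x ∈ v) : ({x} : ZFSet.{u}) ∈ v := by
  obtain ⟨n, hn, -⟩ := h.exists_mem2 hx hx
  exact h.Y_subset _ ((h.univ n).singleton_mem hn)

theorem pair_mem (hx : x ∈ v) (hy : y ∈ v) : pair x y ∈ v := by
  obtain ⟨n, h1, h2⟩ := h.exists_mem2 hx hy
  exact h.Y_subset _ ((h.univ n).pair_mem h1 h2)

theorem pair_mem_iff : pair x y ∈ v ↔ x ∈ v ∧ y ∈ v := by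
  refine ⟨fun h' => ?_, fun h' => h.pair_mem h'.1 h'.2⟩
  obtain ⟨n, hn, -⟩ := h.exists_mem2 h' h'
  obtain ⟨h1, h2⟩ := (h.univ n).pair_mem_iff.1 hn
  exact ⟨h.Y_subset _ h1, h.Y_subset _ h2⟩

theorem union_mem (hx : x ∈ v) (hy : y ∈ v) : x ∪ y ∈ v := by
  obtain ⟨n, h1, h2⟩ := h.exists_mem2 hx hy
  exact h.Y_subset _ ((h.univ n).union_mem h1 h2)

theorem prod_mem (hx : x ∈ v) (hy : y ∈ v) : x.prod y ∈ v := by
  obtain ⟨n, h1, h2⟩ := h.exists_mem2 hx hy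
  exact h.Y_subset _ ((h.univ n).prod_mem h1 h2)

theorem prod_subset (hx : x ⊆ v) (hy : y ⊆ v) : x.prod y ⊆ v := fun z hz => by
  obtain ⟨a, ha, b, hb, rfl⟩ := mem_prod.1 hz
  exact h.pair_mem (hx ha) (hy hb)

theorem sec_subset (hx : x ⊆ v) (i : ZFSet.{u}) : sec x i ⊆ v :=
  fun _ hs => (h.pair_mem_iff.1 (hx (mem_sec.1 hs))).2

theorem app_subset (hx : x ⊆ v) (a : ZFSet.{u}) : app x a ⊆ v := fun z hz => by
  obtain ⟨b, w, h1, -, h2⟩ := mem_app.1 hz
  exact h.sub_of_mem (h.pair_mem_iff.1 (hx h1)).2 h2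

theorem seqc_subset {a : ℕ → ZFSet.{u}} (ha : ∀ n, a n ⊆ v) : seqc a ⊆ v := fun z hz => by
  obtain ⟨n, s, hs, rfl⟩ := mem_seqc.1 hz
  exact h.pair_mem (h.nat_mem n) (ha n hs)

theorem inter_mem (x : ZFSet.{u}) (n : ℕ) : x ∩ Y n ∈ v :=
  h.mem_of_subset (h.Y_mem n) fun _ hz => (mem_inter.1 hz).2

theorem eq_iUnion (hx : x ⊆ v) : x = iUnion fun n => x ∩ Y n := by
  ext z
  rw [mem_iUnion]
  constructor
  · intro hz
    obtain ⟨n, hn⟩ := (h.mem_v z).1 (hx hz)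
    exact ⟨n, mem_inter.2 ⟨hz, hn⟩⟩
  · rintro ⟨n, hn⟩
    exact (mem_inter.1 hn).1

theorem aleph0_le (n : ℕ) : Cardinal.aleph0 ≤ (Y n).card :=
  card_omega.{u} ▸ card_mono fun _ hz => h.mono (Nat.zero_le n) (h.omega0 hz)

theorem aleph0_le_v : Cardinal.aleph0 ≤ v.card := (h.aleph0_le 0).trans (card_mono (h.Y_subset 0))

theorem shift : Tower (fun n => Y (n + 1)) v :=
  ⟨h.trans 1, h.trans 1 _ (h.univ 0).omega_mem, fun n => h.univ (n + 1), fun n => h.mem (n + 1),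
    fun _ => ⟨fun hx => (h.exists_mem2 hx hx).imp fun _ hn => hn.1,
      fun ⟨n, hn⟩ => h.Y_subset (n + 1) hn⟩⟩

theorem consY (h0 : Gro (Y 0)) : Tower (consY Y) v := by
  have h1 : vonNeumann Ordinal.omega0 ∈ Y 0 := by
    refine h0.mem_of_rank_le h0.omega_mem ?_
    rw [rank_vonNeumann, Ordinal.omega0_le]
    intro n
    have := rank_lt_of_mem (MP_af0a18_lc.mem_omega.2 ⟨n, rfl⟩ : Ordinal.toZFSet.{u} n ∈ omega)
    rw [Ordinal.rank_toZFSet] at this
    exact this.le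
  refine ⟨isTransitive_vonNeumann _, fun z hz => ?_, fun n => ?_, fun n => ?_,
    fun z => ⟨fun hz => ?_, ?_⟩⟩
  · obtain ⟨n, rfl⟩ := MP_af0a18_lc.mem_omega.1 hz
    refine mem_vonNeumann.2 ?_
    rw [Ordinal.rank_toZFSet]
    exact Ordinal.natCast_lt_omega0 n
  · cases n with
    | zero => exact h0
    | succ n => exact h.univ n
  · cases n with
    | zero => exact h1
    | succ n => exact h.mem n
  · obtain ⟨n, hn⟩ := (h.mem_v z).1 hz
    exact ⟨n + 1, hn⟩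
  · rintro ⟨n, hn⟩
    cases n with
    | zero => exact h.Y_subset 0 (h0.mem_trans h1 hn)
    | succ n => exact h.Y_subset n hn

theorem univ_iff {M : Set ZFSet.{u}} (hM : ∀ a, a ⊆ v → a ∈ M) {B : ZFSet.{u}} (hB : B ⊆ v) :
    Univ M B ↔ Gro B := by
  have key : ∀ z : ZFSet.{u}, z ⊆ v → pow M z = pow Set.univ z := fun z hz => by
    rw [pow_univ]
    exact I0.pow_eq fun w hw => hM w fun _ ht => hz (hw ht)
  refine and_congr_right fun _ => and_congr_right fun _ => and_congr ?_ (and_congr_right fun _ => ?_)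
  · exact forall_congr' fun z => forall_congr' fun hz => by rw [key z (h.sub_of_mem (hB hz))]
  · exact forall_congr' fun a => forall_congr' fun ha => by
      rw [key _ (h.prod_subset (h.sub_of_mem (hB ha)) hB)]

theorem pow_eq {M : Set ZFSet.{u}} (hM : ∀ a, a ⊆ v → a ∈ M) (hx : x ⊆ v) :
    pow M x = powerset x :=
  have _ := h
  I0.pow_eq fun w hw => hM w fun _ ht => hx (hw ht)

theorem subS_of_subset (hxy : x ⊆ y) : SubS v x y := ⟨∅, h.empty_mem, fun _ hz => hxy (mem_sdiff.1 hz).1⟩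

theorem subS_trans {z : ZFSet.{u}} (h1 : SubS v x y) (h2 : SubS v y z) : SubS v x z := by
  obtain ⟨a, ha, h1⟩ := h1
  obtain ⟨b, hb, h2⟩ := h2
  refine ⟨a ∪ b, h.union_mem ha hb, fun w hw => ?_⟩
  obtain ⟨h3, h4⟩ := mem_sdiff.1 hw
  exact h2 (mem_sdiff.2 ⟨h1 (mem_sdiff.2 ⟨h3, fun h5 => h4 (mem_union.2 (Or.inl h5))⟩),
    fun h5 => h4 (mem_union.2 (Or.inr h5))⟩)

theorem subS_iff : SubS v x y ↔ ∃ n, ∀ m, n ≤ m → x \ Y m ⊆ y := by
  constructor
  · rintro ⟨a, ha, h1⟩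
    obtain ⟨n, hn⟩ := h.exists_subset ha
    refine ⟨n, fun m hm w hw => h1 ?_⟩
    obtain ⟨h3, h4⟩ := mem_sdiff.1 hw
    exact mem_sdiff.2 ⟨h3, fun h5 => h4 (hn m hm h5)⟩
  · rintro ⟨n, hn⟩
    exact ⟨Y n, h.Y_mem n, hn n le_rfl⟩

theorem model_NN : IsZFModel (NN v) :=
  (constr_facts h.trans_v.powerset (mem_powerset.2 (empty_subset v))).1

theorem mem_NN (hx : x ⊆ v) : x ∈ NN v :=
  h.model_NN.transitive _ (constr_facts h.trans_v.powerset
    (mem_powerset.2 (empty_subset v))).2.2.1 x (mem_powerset.2 hx)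

theorem powerset_mem_NN : powerset v ∈ NN v :=
  (constr_facts h.trans_v.powerset (mem_powerset.2 (empty_subset v))).2.2.1

theorem ord_mem_NN (hx : x.IsOrdinal) : x ∈ NN v :=
  hx.toZFSet_rank_eq ▸
    (constr_facts h.trans_v.powerset (mem_powerset.2 (empty_subset v))).2.1 x.rank

end Tower

theorem card_consY_zero (W : ℕ → ZFSet.{u}) : (consY W 0).card = Cardinal.aleph0 := by
  rw [consY, card_vonNeumann, Cardinal.preBeth_omega]

theorem Base.gro {X : Set ZFSet.{u}} {W : ℕ → ZFSet.{u}} {v : ZFSet.{u}} (h : Base X W v) (n : ℕ) :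
    Gro (W n) := by
  cases n with
  | zero => exact h.gro0
  | succ n => exact h.tower.univ n

theorem Base.powerset_mem {X : Set ZFSet.{u}} {W : ℕ → ZFSet.{u}} {v : ZFSet.{u}}
    (h : Base X W v) : powerset v ∈ X := by
  have := (inferInstance : ZT.{u} (fun M e => pow M (e 0))).mem X h.model (fun _ => v)
    fun _ => h.sub v fun _ hz => hz
  rwa [pow_eq h.sub] at this

namespace Ctx
variable {j : ZFSet.{u} → ZFSet.{u}} {W : ℕ → ZFSet.{u}} {v : ZFSet.{u}} (h : Ctx j W v)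
include h

theorem base : Base (NN v) W v := ⟨h.tower, h.gro0, h.tower.model_NN, fun _ ha => h.tower.mem_NN ha⟩

theorem jv : j v = v := by
  have hT := h.tower
  have hN := hT.model_NN
  have hv : v ∈ NN v := hT.mem_NN fun _ hz => hz
  have hW : ∀ n, W n ∈ NN v := fun n => hT.mem_NN (hT.Y_subset n)
  have hF : (range fun n => pair (nat n) (W n) : ZFSet.{u}) ∈ NN v := hT.mem_NN fun z hz => by
    obtain ⟨n, rfl⟩ := mem_range.1 hz
    exact hT.pair_mem (hT.nat_mem n) (hT.Y_mem n)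
  obtain ⟨h1, h2⟩ := (h.elem.zd2 hN hN (fun _ F v => (∀ x ∈ v, ∃ n ∈ omega, ∃ y,
      pair n y ∈ F ∧ x ∈ y) ∧ ∀ a b, pair a b ∈ F → ∀ c, pair a c ∈ F → c = b) hF hv).1
    ⟨fun x hx => by
      obtain ⟨n, hn⟩ := (hT.mem_v x).1 hx
      exact ⟨nat n, nat_mem_omega n, W n, mem_range.2 ⟨n, rfl⟩, hn⟩, fun a b hb c hc => by
      obtain ⟨n, hn⟩ := mem_range.1 hb
      obtain ⟨m, hm⟩ := mem_range.1 hc
      obtain ⟨h3, rfl⟩ := pair_inj.1 hn
      obtain ⟨h4, rfl⟩ := pair_inj.1 hm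
      rw [nat_inj.1 (h4.trans h3.symm)]⟩
  ext x
  constructor
  · intro hx
    obtain ⟨_, hn, y, hy, hxy⟩ := h1 x hx
    obtain ⟨n, rfl⟩ := mem_omega_iff.1 hn
    have h3 := (h.elem.zd3 hN hN (fun _ a b F => pair a b ∈ F)
      (hT.mem_NN (hT.sub_of_mem (hT.nat_mem n))) (hW n) hF).1 (mem_range.2 ⟨n, rfl⟩)
    rw [h.fix _ (h.gro0.nat_mem n), h.jW] at h3
    rw [h2 _ _ h3 _ hy] at hxy
    exact hT.Y_subset _ hxy
  · intro hx
    obtain ⟨n, hn⟩ := (hT.mem_v x).1 hx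
    refine (h.elem.subset_iff hN hN (hW n) hv).2 (hT.Y_subset n) ?_
    rw [h.jW]
    exact hT.mono (Nat.le_succ n) hn

theorem jA : j (powerset v) = powerset v := by
  have hT := h.tower
  have h1 : pow (NN v) v = powerset v := pow_eq fun _ => hT.mem_NN
  have h2 := h.elem.zt1 hT.model_NN hT.model_NN pow (hT.mem_NN fun _ hz => hz)
    (h1 ▸ hT.powerset_mem_NN)
  rwa [h.jv, h1] at h2

theorem pr : Pr (NN v) v j := by
  have hT := h.tower
  refine ⟨h.elem.mono fun a ha => hT.mem_NN (mem_powerset.1 ha), fun a ha => ?_, h.jv⟩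
  rw [← h.jA]
  exact (h.elem.mem_iff (hT.mem_NN (mem_powerset.1 ha)) hT.powerset_mem_NN).2 ha

end Ctx

end Pool.Agent.P.MP_37b794_lc.I0
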