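import Pool.Agent.P.MP_37b794_lc.I0.AllGood
import Pool.Agent.P.MP_37b794_lc.I0.Cmp

/-!
The key lemma: the product modulo bounded parts has no monotone unbounded rank in the model.
-/

universe u

set_option synthInstance.maxSize 16384

namespace Pool.Agent.P.MP_37b794_lc.I0

open ZFSet Pool.Agent.Lib.Forcing Pool.Agent.P.MP_af0a18_lc

/-- `X` is a level with a counterexample. -/
def KL_Th (A v Pi X : ZFSet.{u}) : Prop :=
  ZFLevel A X ∧ ∃ R ∈ X, ∃ p ∈ A, CE A v Pi p (fun q h => pair q h ∈ R)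

instance KL_zdTh {s t w z : Set ZFSet.{u} → Env.{u} → ZFSet.{u}} [hs : ZT s] [ht : ZT t]
    [hw : ZT w] [hz : ZT z] : ZD (fun M e => KL_Th (s M e) (t M e) (w M e) (z M e)) :=
  ZD.subst4 (R := fun _ => KL_Th) (by unfold KL_Th; infer_instance) hs ht hw hz

/-- The ordinal `γ` codes a counterexample. -/
def KL_Co (M : Set ZFSet.{u}) (v Pi γ : ZFSet.{u}) : Prop :=
  ∃ a ∈ pow M v, ∃ R ∈ M, Cd M (pow M v) γ a R ∧
    ∃ p ∈ pow M v, CE (pow M v) v Pi p (fun q h => pair q h ∈ R)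

instance KL_zdCo {s t w : Set ZFSet.{u} → Env.{u} → ZFSet.{u}} [hs : ZT s] [ht : ZT t]
    [hw : ZT w] : ZD (fun M e => KL_Co M (s M e) (t M e) (w M e)) :=
  ZD.subst3 (R := KL_Co) (by unfold KL_Co; infer_instance) hs ht hw

theorem no_ce {j : ZFSet.{u} → ZFSet.{u}} {W : ℕ → ZFSet.{u}} {v : ZFSet.{u}} (hj : Ctx j W v)
    {p R : ZFSet.{u}} (hR : R ∈ NN v) :
    ¬ CE (powerset v) v (PiOf W) p (fun q h => pair q h ∈ R) := by
  intro hce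
  have hT := hj.tower
  have hN := hT.model_NN
  have hAt : (powerset v).IsTransitive := hT.trans_v.powerset
  have hA0 : ∅ ∈ powerset v := mem_powerset.2 (empty_subset v)
  obtain ⟨X0, h0, h0'⟩ := exists_zfLevel hAt hA0 hR
  obtain ⟨X, hX, hmin⟩ := mem_wf.has_min {X | KL_Th (powerset v) v (PiOf W) X}
    ⟨X0, h0, R, h0', p, hce.1, hce⟩
  clear hce hR h0 h0' X0 R p
  have hXN : X ∈ NN v := hX.1.mem_constr hAt hA0
  have hPi : PiOf W ⊆ v := piOf_subset hT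
  have hjPi : j (PiOf W) = PiOf fun n => W (n + 1) := by
    rw [hj.pr.map_piOf hj.base hT.Y_mem, funext hj.jW]
  have hsh : ∀ x, KL_Th (powerset v) v (PiOf fun n => W (n + 1)) x ↔
      KL_Th (powerset v) v (PiOf W) x := fun x => and_congr_right fun _ =>
    ⟨fun ⟨R, h1, p, h2, h3⟩ => ⟨R, h1, p, h2, h3.unshift hT⟩,
      fun ⟨R, h1, p, _, h3⟩ => ⟨R, h1, _, (h3.shift hT).1, h3.shift hT⟩⟩
  have hjX : j X = X := by
    have h1 := (hj.elem.zd4 hN hN (fun _ A v Pi X => KL_Th A v Pi X ∧ ∀ x ∈ X, ¬ KL_Th A v Pi x)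
      hT.powerset_mem_NN (hT.mem_NN subset_rfl) (hT.mem_NN hPi) hXN).1
      ⟨hX, fun x hx h => hmin x h hx⟩
    rw [hj.jA, hj.jv, hjPi] at h1
    have h2 := (hsh _).1 h1.1
    rcases h2.1.trichotomy hAt hA0 hX.1 with h | h | h
    exacts [(hmin _ h2 h).elim, h, (h1.2 X h ((hsh _).2 hX)).elim]
  have hXm := hX.1.1
  have hsub : ∀ a, a ⊆ v → a ∈ (X : Set ZFSet.{u}) := fun a ha =>
    hXm.transitive _ hX.1.2.1 a (mem_powerset.2 ha)
  have hB : Base (X : Set ZFSet.{u}) W v := ⟨hT, hj.gro0, hXm, hsub⟩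
  have hlev := lev_j hj hB hXN hjX
  have hpow : pow (X : Set ZFSet.{u}) v = powerset v := pow_eq hsub
  -- the least code
  obtain ⟨γ, hγ, hγm⟩ := mem_wf.has_min {γ | KL_Co (X : Set ZFSet.{u}) v (PiOf W) γ} (by
    obtain ⟨R, h1, p, h2, h3⟩ := hX.2
    obtain ⟨a, h4, γ, h5⟩ := cd_total hT hXm hsub (hX.1.2.2 R h1)
    refine ⟨γ, ?_⟩
    rw [Set.mem_ofPred_eq, KL_Co, hpow]
    exact ⟨a, mem_powerset.2 h4, R, h1, h5, p, h2, h3⟩)
  have hγ' := hγ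
  rw [Set.mem_ofPred_eq, KL_Co, hpow] at hγ'
  obtain ⟨a, ha, R, hR, hcd, p, hp, hce⟩ := hγ'
  obtain ⟨ψ, hψ⟩ := (inferInstance : ZD.{u} (fun M e => ∃ γ ∈ M, ∃ R ∈ M,
    (KL_Co M (e 2) (e 3) γ ∧ ∀ δ ∈ γ, ¬ KL_Co M (e 2) (e 3) δ) ∧
      Cd M (pow M (e 2)) γ (e 4) R ∧ pair (e 0) (e 1) ∈ R)).out
  obtain ⟨χ, hχ⟩ := (inferInstance : ZD.{u} (fun M e => ∃ R ∈ M, ∃ p ∈ pow M (e 0),
    CE (pow M (e 0)) (e 0) (e 1) p (fun q h => pair q h ∈ R))).out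
  let ε : Env.{u} := cons v (cons (PiOf W) (cons a fun _ => p))
  have hε : ∀ i, ε i ⊆ v := by
    rintro (_ | _ | _ | i)
    exacts [subset_rfl, hPi, mem_powerset.1 ha, mem_powerset.1 hp]
  obtain ⟨J, U, eb, hJ, h1, heb⟩ := exists_adm hB hlev hj.jW hj.fix ε hε
  have hχ' : ∀ x, ZFLevel (powerset v) x →
      (Sat (x : Set ZFSet.{u}) χ (cons v fun _ => PiOf W) ↔ KL_Th (powerset v) v (PiOf W) x) := by
    intro x hx
    have h2 : ∀ a, a ⊆ v → a ∈ (x : Set ZFSet.{u}) := fun a ha =>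
      hx.1.transitive _ hx.2.1 a (mem_powerset.2 ha)
    rw [← hχ _ hx.1 _ (cons_mem (h2 v subset_rfl) fun _ => h2 _ hPi)]
    simp only [cons]
    rw [pow_eq h2]
    exact ⟨fun h => ⟨hx, h⟩, fun h => h.2⟩
  have hG := all_good hB hX.1 χ ((hχ' X hX.1).2 hX)
    (fun x hx h h' => hmin x ((hχ' x h).1 h') hx) hJ (heb 1)
  refine bl0 hB (hlev 0) (hj.jW 0) hj.fix hJ h1 ψ (eb := eb) (pb := eb 3)
    (fun K hK h => hG K hK fun b hb => h b ⟨1, hb.symm⟩) ?_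
  rw [heb 3, funext heb]
  refine CE.congr hT rfl hce fun q h hq hh => ?_
  rw [← hψ _ hXm _ (cons_mem (hsub q hq) (cons_mem (hsub h hh) fun i => hsub _ (hε i)))]
  simp only [cons, ε]
  rw [hpow]
  refine ⟨fun h' => ⟨γ, (hcd.mem hXm).1, R, hR, ⟨hγ, fun δ hδ h => hγm δ h hδ⟩, hcd, h'⟩, ?_⟩
  rintro ⟨γ', -, R', -, ⟨h2, h3⟩, h4, h5⟩
  rcases h4.ordinal.mem_trichotomous hcd.ordinal with h | rfl | h
  exacts [(hγm _ h2 h).elim, hcd.unique h4 ▸ h5, (h3 γ h hγ).elim]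

end Pool.Agent.P.MP_37b794_lc.I0
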