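import Pool.Agent.P.MP_37b794_lc.I0.Gro

/-!
From the embedding to the critical sequence of universes.
-/

universe u

set_option synthInstance.maxSize 16384

namespace Pool.Agent.P.MP_37b794_lc.I0

open ZFSet Pool.Agent.Lib.Forcing Pool.Agent.P.MP_af0a18_lc

/-- The model `L(V_(lam+1))`. -/
abbrev Red_L (lam : Ordinal.{u}) : Set ZFSet.{u} := constr Set.univ (vonNeumann (lam + 1))

theorem Red_trans_V (lam : Ordinal.{u}) :
    Trans ((vonNeumann (lam + 1) : ZFSet.{u}) : Set ZFSet.{u}) :=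
  ⟨fun x hx _ hy => isTransitive_vonNeumann _ x hx hy,
    mem_vonNeumann.2 (by rw [rank_empty]; exact Order.lt_add_one_iff.2 zero_le)⟩

theorem Red_model (lam : Ordinal.{u}) : IsZFModel (Red_L lam) := by
  have := zfm_univ.{u}.zfm
  have := Red_trans_V lam
  exact isZFModel_constr zfm_univ.powerSet trivial

theorem Red_ord_mem' (lam : Ordinal.{u}) {x : ZFSet.{u}} (hx : x.IsOrdinal) : x ∈ Red_L lam := by
  have := zfm_univ.{u}.zfm
  have := Red_trans_V lam
  exact ordinal_mem_constr zfm_univ.powerSet trivial trivial hx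

theorem Red_ord_mem (lam a : Ordinal.{u}) : a.toZFSet ∈ Red_L lam :=
  Red_ord_mem' lam (isOrdinal_toZFSet a)

theorem Red_mem_of_rank {lam : Ordinal.{u}} {x : ZFSet.{u}} (hx : x.rank ≤ lam) :
    x ∈ Red_L lam :=
  ⟨∅, trivial, isOrdinal_empty,
    base_subset_level _ (mem_vonNeumann.2 (Order.lt_add_one_iff.2 hx))⟩

theorem Red_V_mem {lam a : Ordinal.{u}} (ha : a ≤ lam) : vonNeumann a ∈ Red_L lam :=
  Red_mem_of_rank (by rwa [rank_vonNeumann])

theorem Red_rank_nat (n : ℕ) : (nat.{u} n).rank = n := by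
  induction n with
  | zero => simp [nat]
  | succ n ih => simp [nat, ih]

theorem Red_toZFSet_nat (n : ℕ) : (n : Ordinal.{u}).toZFSet = nat n := by
  rw [← Red_rank_nat]; exact (isOrdinal_nat n).toZFSet_rank_eq

theorem Red_rank_omega : omega.{u}.rank = Ordinal.omega0 := by
  apply le_antisymm
  · rw [rank_le_iff]
    intro y hy
    obtain ⟨n, rfl⟩ := mem_omega_iff.1 hy
    rw [Red_rank_nat]
    exact Ordinal.natCast_lt_omega0 n
  · refine le_of_forall_lt fun a ha => ?_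
    obtain ⟨n, rfl⟩ := Ordinal.lt_omega0.1 ha
    rw [← Red_rank_nat]
    exact rank_lt_of_mem (nat_mem_omega n)

theorem Red_toZFSet_omega : Ordinal.omega0.{u}.toZFSet = omega := by
  rw [← Red_rank_omega]; exact isOrdinal_omega'.toZFSet_rank_eq

/-- The action of `j` on ordinals. -/
noncomputable def Red_jo (j : ZFSet.{u} → ZFSet.{u}) (a : Ordinal.{u}) : Ordinal.{u} :=
  (j a.toZFSet).rank

/-- Being a universe is absolute for a class that contains all subsets of `V_μ`. -/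
theorem Red_univ_iff {M : Set ZFSet.{u}} {μ : Ordinal.{u}} (hμ : Order.IsSuccLimit μ)
    (hM : ∀ a : ZFSet.{u}, a.rank ≤ μ → a ∈ M) {B : ZFSet.{u}} (hB : B.rank ≤ μ) :
    Univ M B ↔ Gro B := by
  have h1 : ∀ x ∈ B, pow M x = pow Set.univ x := fun x hx => by
    rw [pow_univ]
    exact pow_eq fun z hz => hM z ((rank_mono hz).trans ((rank_lt_of_mem hx).le.trans hB))
  have h2 : ∀ a ∈ B, pow M (a.prod B) = pow Set.univ (a.prod B) := fun a ha => by
    rw [pow_univ]
    refine pow_eq fun z hz => hM z (rank_le_iff.2 fun y hy => ?_)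
    obtain ⟨c, hc, d, hd, rfl⟩ := mem_prod.1 (hz hy)
    exact rank_pair_lt hμ (((rank_lt_of_mem hc).trans (rank_lt_of_mem ha)).trans_le hB)
      ((rank_lt_of_mem hd).trans_le hB)
  unfold Gro Univ
  refine and_congr_right fun _ => and_congr_right fun _ => and_congr ?_ (and_congr_right fun _ => ?_)
  · exact forall₂_congr fun x hx => by rw [h1 x hx]
  · exact forall₂_congr fun a ha => by rw [h2 a ha]

section
variable {lam : Ordinal.{u}} {j : ZFSet.{u} → ZFSet.{u}}
  (hj : Elem (Red_L lam) (Red_L lam) (Red_L lam) j)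
include hj

theorem Red_j_ord (a : Ordinal.{u}) : j a.toZFSet = (Red_jo j a).toZFSet :=
  ((hj.zd1 (Red_model lam) (Red_model lam) (fun _ x => x.IsOrdinal) (Red_ord_mem lam a)).1
    (isOrdinal_toZFSet a)).toZFSet_rank_eq.symm

theorem Red_jo_strictMono : StrictMono (Red_jo j) := fun a b h =>
  rank_lt_of_mem ((hj.mem_iff (Red_ord_mem lam a) (Red_ord_mem lam b)).2
    (Ordinal.toZFSet_mem_toZFSet_iff.2 h))

theorem Red_le_jo (a : Ordinal.{u}) : a ≤ Red_jo j a := (Red_jo_strictMono hj).le_apply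

theorem Red_jo_eq_iff {a b : Ordinal.{u}} : Red_jo j a = b ↔ j a.toZFSet = b.toZFSet := by
  rw [Red_j_ord hj, Ordinal.toZFSet_injective.eq_iff]

theorem Red_rank_j {x : ZFSet.{u}} (hx : x ∈ Red_L lam) : (j x).rank = Red_jo j x.rank := by
  have h := hj.zt1 (Red_model lam) (Red_model lam) (fun _ x => rk x) hx (Red_ord_mem lam _)
  change j x.rank.toZFSet = (j x).rank.toZFSet at h
  rw [Red_jo, h, Ordinal.rank_toZFSet]

theorem Red_j_omega : j omega = omega :=
  hj.zt1 (Red_model lam) (Red_model lam) (fun _ _ => omega) (Red_model lam).infinity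
    (Red_model lam).infinity

theorem Red_j_nat (n : ℕ) : j (nat n) = nat n :=
  hj.zt1 (Red_model lam) (Red_model lam) (fun _ _ => nat n) (Red_model lam).infinity
    (Red_ord_mem' lam (isOrdinal_nat n))

theorem Red_jo_add_one (a : Ordinal.{u}) : Red_jo j (a + 1) = Red_jo j a + 1 := by
  rw [Red_jo_eq_iff hj, Ordinal.toZFSet_add_one, Ordinal.toZFSet_add_one, ← Red_j_ord hj]
  exact hj.zt1 (Red_model lam) (Red_model lam) (fun _ x => insert x x) (Red_ord_mem lam a)
    (Red_ord_mem' lam (isOrdinal_succ (isOrdinal_toZFSet a)))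

/-- The members of `j (V_a)`. -/
theorem Red_mem_jV {a : Ordinal.{u}} (ha : a ≤ lam) {x : ZFSet.{u}} (hx : x ∈ Red_L lam) :
    x ∈ j (vonNeumann a) ↔ x.rank < Red_jo j a := by
  have h := (hj.zd2 (Red_model lam) (Red_model lam)
    (fun M w α => ∀ x ∈ M, (x ∈ w ↔ rk x ∈ α)) (Red_V_mem ha) (Red_ord_mem lam a)).1
    (fun x _ => by rw [mem_vonNeumann, rk, Ordinal.toZFSet_mem_toZFSet_iff]) x hx
  rw [h, Red_j_ord hj, rk, Ordinal.toZFSet_mem_toZFSet_iff]

theorem Red_jV {a : Ordinal.{u}} (ha : a ≤ lam) (ha' : Red_jo j a ≤ lam) :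
    j (vonNeumann a) = vonNeumann (Red_jo j a) := by
  ext x
  rw [mem_vonNeumann]
  constructor
  · intro hx
    exact (Red_mem_jV hj ha
      ((Red_model lam).transitive _ (hj.maps _ (Red_V_mem ha)) x hx)).1 hx
  · intro hx
    exact (Red_mem_jV hj ha (Red_mem_of_rank (hx.le.trans ha'))).2 hx

/-- If the ordinals below `κ ≤ lam` are fixed, then `V_κ` is fixed pointwise. -/
theorem Red_fix {κ : Ordinal.{u}} (hκ : κ ≤ lam) (hlt : ∀ a < κ, j a.toZFSet = a.toZFSet) :
    ∀ x ∈ vonNeumann κ, j x = x := by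
  have key : ∀ (a : Ordinal.{u}) (x : ZFSet.{u}), x.rank = a → a < κ → j x = x := by
    intro a
    induction a using WellFoundedLT.induction with
    | ind a ih =>
      rintro x rfl hx
      have hxL : x ∈ Red_L lam := Red_mem_of_rank (hx.le.trans hκ)
      have h1 : ∀ z : ZFSet.{u}, z.rank < x.rank → (z ∈ j x ↔ z ∈ x) := fun z hz => by
        rw [← hj.mem_iff (Red_mem_of_rank ((hz.trans hx).le.trans hκ)) hxL,
          ih _ hz z rfl (hz.trans hx)]
      ext z
      constructor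
      · intro hz
        have h2 := rank_lt_of_mem hz
        rw [Red_rank_j hj hxL, (Red_jo_eq_iff hj).2 (hlt _ hx)] at h2
        exact (h1 z h2).1 hz
      · intro hz
        exact (h1 z (rank_lt_of_mem hz)).2 hz
  exact fun x hx => key _ x rfl (mem_vonNeumann.1 hx)

theorem Red_crit_lt {κ : Ordinal.{u}} (hne : j κ.toZFSet ≠ κ.toZFSet) : κ < Red_jo j κ :=
  lt_of_le_of_ne (Red_le_jo hj κ) fun h => hne ((Red_jo_eq_iff hj).1 h.symm)

theorem Red_omega_lt_crit {κ : Ordinal.{u}} (hne : j κ.toZFSet ≠ κ.toZFSet)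
    (hlt : ∀ a < κ, j a.toZFSet = a.toZFSet) : Ordinal.omega0 < κ := by
  have _ := hlt
  by_contra h
  rcases (not_lt.1 h).eq_or_lt with rfl | h
  · exact hne (by rw [Red_toZFSet_omega, Red_j_omega hj])
  · obtain ⟨n, rfl⟩ := Ordinal.lt_omega0.1 h
    exact hne (by rw [Red_toZFSet_nat, Red_j_nat hj])

theorem Red_crit_limit {κ : Ordinal.{u}} (hne : j κ.toZFSet ≠ κ.toZFSet)
    (hlt : ∀ a < κ, j a.toZFSet = a.toZFSet) : Order.IsSuccLimit κ := by
  refine ⟨not_isMin_of_lt (Red_omega_lt_crit hj hne hlt), ?_⟩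
  rw [Order.isSuccPrelimit_iff_succ_lt]
  intro a ha
  refine lt_of_le_of_ne (Order.succ_le_of_lt ha) fun h => hne ?_
  rw [← Red_jo_eq_iff hj, ← h, Order.succ_eq_add_one, Red_jo_add_one hj,
    (Red_jo_eq_iff hj).2 (hlt a ha)]

/-- The critical point is inaccessible. -/
theorem Red_gro_crit {κ : Ordinal.{u}} (hκ : κ ≤ lam) (hne : j κ.toZFSet ≠ κ.toZFSet)
    (hlt : ∀ a < κ, j a.toZFSet = a.toZFSet) : Gro (vonNeumann κ) := by
  have hl := Red_crit_limit hj hne hlt
  have hf := Red_fix hj hκ hlt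
  refine ⟨isTransitive_vonNeumann κ, ?_, fun x hx => ?_, fun x hx => ?_, fun a ha r hr H => ?_⟩
  · rw [mem_vonNeumann, Red_rank_omega]
    exact Red_omega_lt_crit hj hne hlt
  · rw [pow_univ, mem_vonNeumann, rank_powerset]
    exact hl.succ_lt (mem_vonNeumann.1 hx)
  · exact mem_vonNeumann.2 ((rank_sUnion_le x).trans_lt (mem_vonNeumann.1 hx))
  · have hr1 := (mem_pow.1 hr).1
    have hr2 : r ⊆ vonNeumann κ := fun z hz => by
      obtain ⟨c, hc, d, hd, rfl⟩ := mem_prod.1 (hr1 hz)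
      exact mem_vonNeumann.2 (rank_pair_lt hl ((rank_lt_of_mem hc).trans (mem_vonNeumann.1 ha))
        (mem_vonNeumann.1 hd))
    have hrL : r ∈ Red_L lam := Red_mem_of_rank ((subset_vonNeumann.1 hr2).trans hκ)
    refine (hj.zd3 (Red_model lam) (Red_model lam)
      (fun _ a r W => ∃ b ∈ W, ∀ x ∈ a, ∃ y ∈ b, pair x y ∈ r)
      (Red_mem_of_rank ((mem_vonNeumann.1 ha).le.trans hκ)) hrL (Red_V_mem hκ)).2 ?_
    refine ⟨vonNeumann κ, (Red_mem_jV hj hκ (Red_V_mem hκ)).2 ?_, fun x hx => ?_⟩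
    · rw [rank_vonNeumann]
      exact Red_crit_lt hj hne
    · rw [hf a ha] at hx
      obtain ⟨y, hy⟩ := H x hx
      refine ⟨y, (pair_mem_prod.1 (hr1 hy)).2, ?_⟩
      rw [← hf _ (hr2 hy)]
      exact (hj.mem_iff ((Red_model lam).transitive _ hrL _ hy) hrL).2 hy

omit hj in
/-- The least ordinal that is moved. -/
theorem Red_exists_crit {del : Ordinal.{u}} (hcrit : ∃ κ < del, j κ.toZFSet ≠ κ.toZFSet) :
    ∃ κ < del, j κ.toZFSet ≠ κ.toZFSet ∧ ∀ a < κ, j a.toZFSet = a.toZFSet := by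
  obtain ⟨κ, ⟨h1, h2⟩, h3⟩ := wellFounded_lt.has_min
    {κ : Ordinal.{u} | κ < del ∧ j κ.toZFSet ≠ κ.toZFSet} hcrit
  refine ⟨κ, h1, h2, fun a ha => ?_⟩
  by_contra h
  exact h3 a ⟨ha.trans h1, h⟩ ha

/-- The supremum of a sequence that is shifted by `j` is fixed. -/
theorem Red_jo_iSup {κ : ℕ → Ordinal.{u}} (hκ : ∀ n, Red_jo j (κ n) = κ (n + 1))
    (hl : Order.IsSuccLimit (⨆ n, κ n)) (hμ : (⨆ n, κ n) ≤ lam) :
    Red_jo j (⨆ n, κ n) = ⨆ n, κ n := by
  refine le_antisymm ?_ (Red_le_jo hj _)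
  have hc : seqc (fun n => (κ n).toZFSet) ∈ Red_L lam := by
    refine Red_mem_of_rank (le_trans (rank_le_iff.2 fun z hz => ?_) hμ)
    obtain ⟨n, s, hs, rfl⟩ := mem_seqc.1 hz
    refine rank_pair_lt hl ?_ ?_
    · rw [Red_rank_nat]
      exact (Ordinal.natCast_lt_omega0 n).trans_le (Ordinal.omega0_le_of_isSuccLimit hl)
    · have := rank_lt_of_mem hs
      rw [Ordinal.rank_toZFSet] at this
      exact this.trans_le (Ordinal.le_iSup κ n)
  have h1 : ∀ n, sec (j (seqc fun n => (κ n).toZFSet)) (nat n) = (κ (n + 1)).toZFSet := by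
    intro n
    have h := hj.zt2 (Red_model lam) (Red_model lam) (fun _ c i => sec c i) hc
      (Red_ord_mem' lam (isOrdinal_nat n)) (by rw [sec_seqc]; exact Red_ord_mem lam _)
    rw [sec_seqc, Red_j_nat hj, Red_j_ord hj, hκ] at h
    exact h.symm
  have h2 := (hj.zd2 (Red_model lam) (Red_model lam)
    (fun _ m c => ∀ x ∈ m, ∃ n ∈ omega, x ∈ sec c n) (Red_ord_mem lam (⨆ n, κ n)) hc).1 (by
      intro x hx
      obtain ⟨a, ha, rfl⟩ := Ordinal.mem_toZFSet_iff.1 hx
      obtain ⟨n, hn⟩ := (Ordinal.lt_iSup_iff).1 ha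
      exact ⟨nat n, nat_mem_omega n, by
        rw [sec_seqc]; exact Ordinal.toZFSet_mem_toZFSet_iff.2 hn⟩)
  refine le_of_forall_lt fun a ha => ?_
  obtain ⟨m, hm, h3⟩ := h2 a.toZFSet (by
    rw [Red_j_ord hj]; exact Ordinal.toZFSet_mem_toZFSet_iff.2 ha)
  obtain ⟨n, rfl⟩ := mem_omega_iff.1 hm
  rw [h1] at h3
  exact (Ordinal.toZFSet_mem_toZFSet_iff.1 h3).trans_le (Ordinal.le_iSup κ (n + 1))

/-- If `j` fixes an ordinal `μ ≤ lam`, it is elementary on `L(V_(μ+1))`. -/
theorem Red_elem_NN {μ : Ordinal.{u}} (hμ : μ ≤ lam) (hfix : Red_jo j μ = μ) :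
    Elem (NN (vonNeumann μ)) (NN (vonNeumann μ)) (NN (vonNeumann μ)) j := by
  have hM := Red_model lam
  have := hM.zfm
  have hv : j (vonNeumann μ) = vonNeumann μ := by
    rw [Red_jV hj hμ (hfix.le.trans hμ), hfix]
  have hp : pow (Red_L lam) (vonNeumann μ) = powerset (vonNeumann μ) :=
    pow_eq fun z hz => Red_mem_of_rank ((subset_vonNeumann.1 hz).trans hμ)
  have hA : powerset (vonNeumann μ) ∈ Red_L lam := by
    rw [← hp]
    exact (inferInstance : ZT (fun M e => pow M (e 0))).mem _ hM (fun _ => vonNeumann μ)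
      fun _ => Red_V_mem hμ
  have hjA : j (powerset (vonNeumann μ)) = powerset (vonNeumann μ) := by
    have h := hj.zt1 hM hM pow (Red_V_mem hμ) (hp ▸ hA)
    rwa [hv, hp] at h
  have hN : NN (vonNeumann μ) = constr (Red_L lam) (powerset (vonNeumann μ)) :=
    constr_congr fun α hα => ⟨fun _ => Red_ord_mem' lam hα, fun _ => trivial⟩
  rw [hN]
  have hsub : constr (Red_L lam) (powerset (vonNeumann μ)) ⊆ Red_L lam :=
    constr_subset hM.powerSet hA
  refine ⟨fun _ h => h, fun x hx => ?_, fun φ e he => ?_⟩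
  · have h := (hj.zd2 hM hM (fun M a b => a ∈ constr M b) (hsub hx) hA).1 hx
    rwa [hjA] at h
  · have h := hj.zd hM hM _ (hR := ZD.satConstr φ) (cons (powerset (vonNeumann μ)) e)
      (cons_mem hA fun i => hsub (he i))
    simp only [cons] at h
    rwa [hjA] at h

end

theorem exists_ctx2 (lam del : Ordinal.{u}) {j : ZFSet.{u} → ZFSet.{u}}
    (hj : Elem (constr Set.univ (vonNeumann (lam + 1))) (constr Set.univ (vonNeumann (lam + 1)))
      (constr Set.univ (vonNeumann (lam + 1))) j) (hdel : del ≤ lam)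
    (hfix : j del.toZFSet = del.toZFSet) (hcrit : ∃ κ < del, j κ.toZFSet ≠ κ.toZFSet) :
    ∃ W v, Ctx j W v := by
  obtain ⟨κ0, h0, hne, hlt⟩ := Red_exists_crit hcrit
  let κ : ℕ → Ordinal.{u} := fun n => (Red_jo j)^[n] κ0
  have hκ : ∀ n, Red_jo j (κ n) = κ (n + 1) := fun n =>
    (Function.iterate_succ_apply' _ n κ0).symm
  have hd : ∀ n, κ n < del := by
    intro n
    induction n with
    | zero => exact h0
    | succ n ih =>
      rw [← hκ, ← (Red_jo_eq_iff hj).2 hfix]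
      exact Red_jo_strictMono hj ih
  have hs : ∀ n, κ n < κ (n + 1) := by
    intro n
    induction n with
    | zero => exact Red_crit_lt hj hne
    | succ n ih =>
      have := Red_jo_strictMono hj ih
      rwa [hκ, hκ] at this
  have hle : ∀ n, κ n ≤ lam := fun n => (hd n).le.trans hdel
  have hμ : (⨆ n, κ n) ≤ lam := Ordinal.iSup_le hle
  have hlt' : ∀ n, κ n < ⨆ n, κ n := fun n => (hs n).trans_le (Ordinal.le_iSup κ (n + 1))
  have hl : Order.IsSuccLimit (⨆ n, κ n) := by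
    refine ⟨not_isMin_of_lt (hlt' 0), ?_⟩
    rw [Order.isSuccPrelimit_iff_succ_lt]
    intro a ha
    obtain ⟨n, hn⟩ := (Ordinal.lt_iSup_iff).1 ha
    exact (Order.succ_le_of_lt hn).trans_lt (hlt' n)
  have hjW : ∀ n, j (vonNeumann (κ n)) = vonNeumann (κ (n + 1)) := fun n => by
    rw [Red_jV hj (hle n) (by rw [hκ]; exact hle _), hκ]
  have hiff : ∀ n, Univ (Red_L lam) (vonNeumann (κ n)) ↔ Gro (vonNeumann (κ n)) := fun n =>
    Red_univ_iff hl (fun a ha => Red_mem_of_rank (ha.trans hμ))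
      (by rw [rank_vonNeumann]; exact (hlt' n).le)
  have hg : ∀ n, Gro (vonNeumann (κ n)) := by
    intro n
    induction n with
    | zero => exact Red_gro_crit hj (hle 0) hne hlt
    | succ n ih =>
      rw [← hiff, ← hjW]
      exact (hj.zd1 (Red_model lam) (Red_model lam) Univ (Red_V_mem (hle n))).1 ((hiff n).2 ih)
  refine ⟨fun n => vonNeumann (κ n), vonNeumann (⨆ n, κ n),
    ⟨isTransitive_vonNeumann _, (hg 0).1 _ (hg 0).2.1, fun n => hg (n + 1),
      fun n => vonNeumann_mem_of_lt (hs n), fun x => ?_⟩, hg 0,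
    Red_elem_NN hj hμ (Red_jo_iSup hj hκ hl hμ), hjW, Red_fix hj (hle 0) hlt⟩
  simp only [mem_vonNeumann]
  exact Ordinal.lt_iSup_iff

theorem exists_ctx (lam : Ordinal.{u}) {j : ZFSet.{u} → ZFSet.{u}}
    (hj : Elem (constr Set.univ (vonNeumann (lam + 1))) (constr Set.univ (vonNeumann (lam + 1)))
      (constr Set.univ (vonNeumann (lam + 1))) j)
    (hfix : j lam.toZFSet = lam.toZFSet) (hcrit : ∃ κ < lam, j κ.toZFSet ≠ κ.toZFSet) :
    ∃ W v, Ctx j W v := exists_ctx2 lam lam hj le_rfl hfix hcrit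

end Pool.Agent.P.MP_37b794_lc.I0
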