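import Pool.Agent.P.MP_37b794_lc.I0.Hull
import Pool.Agent.P.MP_37b794_lc.I0.Coll
import Pool.Agent.P.MP_37b794_lc.I0.Red

/-!
Scott's argument: a model `L(a)` that contains all sets of subsets of `V_κ`, with `a ∈ V_κ`, has
no elementary self-embedding with critical point `κ`.
-/

universe u

set_option synthInstance.maxSize 16384

namespace Pool.Agent.P.MP_37b794_lc.I0

open ZFSet Pool.Agent.Lib.Forcing Pool.Agent.P.MP_af0a18_lc

/-- Substitution of definable terms for all variables of a formula. -/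
theorem zd_sat_subst (φ : Fml) : ∀ (t : ℕ → Set ZFSet.{u} → Env.{u} → ZFSet.{u}),
    (∀ i, ZT (t i)) → ZD (fun M e => Sat M φ (fun i => t i M e)) := by
  induction φ with
  | mem i j => exact fun t ht => @ZD.mem _ _ (ht i) (ht j)
  | eq i j => exact fun t ht => @ZD.eq _ _ (ht i) (ht j)
  | neg φ ih => exact fun t ht => @ZD.not _ (ih t ht)
  | and φ ψ ih1 ih2 => exact fun t ht => @ZD.and _ _ (ih1 t ht) (ih2 t ht)
  | all φ ih =>
    intro t ht
    have h1 := ih (fun i => match i with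
      | 0 => fun _ e => e 0
      | i + 1 => fun M e => t i M (fun k => e (k + 1))) (by
        rintro (_ | i)
        exacts [ZT.var 0, (ht i).shift])
    refine h1.all'.congr fun M _ e _ => forall_congr' fun x => forall_congr' fun _ =>
      iff_of_eq (congrArg _ (funext fun i => ?_))
    cases i <;> rfl

/-- The value of `f` at `ξ`. -/
def vl (f ξ : ZFSet.{u}) : ZFSet.{u} := ⋃₀ sec f ξ

instance ztVl {s t : Set ZFSet.{u} → Env.{u} → ZFSet.{u}} [ZT s] [ZT t] :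
    ZT (fun M e => vl (s M e) (t M e)) := by unfold vl; infer_instance

theorem vl_eq {f ξ x : ZFSet.{u}} (h : ∀ y, pair ξ y ∈ f ↔ y = x) : vl f ξ = x := by
  have : sec f ξ = {x} := by ext y; rw [mem_sec, h, mem_singleton]
  rw [vl, this, sUnion_singleton]

/-- A model `L(a)` with a small well-ordered `a` enumerates each of its sets. -/
theorem Scott_enum {L : Set ZFSet.{u}} (hL : IsZFModel L) {W a : ZFSet.{u}} (hW : Gro W)
    (hsub : ∀ x, x ⊆ W → x ∈ L) (ha : a ∈ W) (hat : a.IsTransitive) (h0 : ∅ ∈ a)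
    (hV : ∀ x ∈ L, x ∈ constr Set.univ a) (hord : ∀ x : ZFSet.{u}, x.IsOrdinal → x ∈ L) :
    G4 L := by
  have := hL.zfm
  have hWm := hW.isZFModel.zfm
  obtain ⟨θ, -, hθ, -, r, -, hr, honto⟩ : ∃ θ ∈ (Set.univ : Set ZFSet.{u}), θ.IsOrdinal ∧
      θ ⊆ Theta a ∧ HasCard Set.univ a θ := by
    have := zfm_univ.{u}.zfm
    obtain ⟨α, -, ho, h⟩ := g4 a trivial
    obtain ⟨μ, -, h1, -, h2⟩ := Surj.hasCard (N := Set.univ) trivial ho trivial h
    refine ⟨μ, trivial, h1, fun ξ hξ => ?_, h2⟩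
    refine (isOrdinal_Theta a).mem_trans hξ (mem_Theta.2 ⟨h1, surj_univ_iff.1 ?_⟩)
    exact h2.surj' trivial trivial
  have hθW : θ ∈ W := by
    have := zfm_univ.{u}.zfm
    exact hW.ord_mem_of_card_le hθ ha
      (surj_univ_iff.1 (HasCard.surj' (N := Set.univ) trivial trivial ⟨r, trivial, hr, honto⟩))
  set κ := ords W with hκ
  have hκo : κ.IsOrdinal := isOrdinal_ords hW.trans
  have hθκ : θ ⊆ κ := fun ξ hξ => mem_sep.2 ⟨hW.mem_trans hθW hξ, hθ.mem hξ⟩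
  let z : ZFSet.{u} := κ.sep fun γ => ∃ ξ ∈ θ, ∃ η ∈ θ, γ = gp (pair ξ η) ∧
    ∃ t s, pair ξ t ∈ r ∧ pair η s ∈ r ∧ t ∈ s
  have hzL : z ∈ L := hsub z fun x hx => (mem_sep.1 (mem_sep.1 hx).1).1
  have hκL : κ ∈ L := hord κ hκo
  let b : ZFSet.{u} := insert z κ
  have hbL : b ∈ L := insert_mem hzL hκL
  have hbt : b.IsTransitive := by
    intro x hx y hy
    rcases mem_insert_iff.1 hx with rfl | hx
    · exact mem_insert_of_mem _ (mem_sep.1 hy).1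
    · exact mem_insert_of_mem _ (hκo.mem_trans hy hx)
  have hb0 : ∅ ∈ b := mem_insert_of_mem _ (mem_sep.2 ⟨hW.empty_mem, isOrdinal_empty⟩)
  obtain ⟨hN, hNo, hbN, -⟩ := constr_facts hbt hb0
  have hcc : constr L b = constr Set.univ b :=
    constr_congr fun α ho => ⟨fun _ => trivial, fun _ => hord α ho⟩
  have hNo' : ∀ x : ZFSet.{u}, x.IsOrdinal → x ∈ constr Set.univ b := fun x hx => by
    simpa only [hx.toZFSet_rank_eq] using hNo x.rank
  have haN : a ∈ constr Set.univ b := by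
    have iN := hN.zfm
    have hzN : z ∈ constr Set.univ b := mem_of_mem hbN (mem_insert _ _)
    have := InM.mk hzN
    obtain ⟨E, hE, -, HE⟩ := exists_pairSep (M := constr Set.univ b)
      (fun ξ η => gp (pair ξ η) ∈ z) (hNo' θ hθ) (hNo' θ hθ)
    have hfn := fn_of_isFunc hr
    have hdom : ∀ x t, pair x t ∈ r → x ∈ θ ∧ t ∈ a := fun x t h => pair_mem_prod.1 (hr.1 h)
    have hrN : r ∈ constr Set.univ b := by
      refine coll hN (hNo' θ hθ) hE hfn (fun w hw => ?_) (fun x hx => (hr.2 x hx).exists)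
        (fun x t h s hs => (honto s (hat _ (hdom x t h).2 hs)).exists) fun x t h y s h' => ?_
      · obtain ⟨x, hx, t, -, rfl⟩ := mem_prod.1 (hr.1 hw)
        exact ⟨x, hx, t, rfl⟩
      · rw [HE]
        have hx := (hdom x t h).1
        have hy := (hdom y s h').1
        constructor
        · rintro ⟨-, -, h1⟩
          obtain ⟨ξ, hξ, η, hη, h2, t', s', h3, h4, h5⟩ := (mem_sep.1 h1).2
          obtain ⟨rfl, rfl⟩ := gp_inj (hθ.mem hx) (hθ.mem hy) (hθ.mem hξ) (hθ.mem hη) h2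
          rwa [hfn _ _ h _ h3, hfn _ _ h' _ h4]
        · intro h1
          refine ⟨hx, hy, mem_sep.2 ⟨mem_sep.2 ⟨?_, isOrdinal_gp _⟩, x, hx, y, hy, rfl, t, s, h, h',
            h1⟩⟩
          exact (tm_gp (M := (W : Set ZFSet.{u}))).mem1
            (hW.pair_mem (hW.mem_trans hθW hx) (hW.mem_trans hθW hy))
    have := InM.mk hrN
    convert sep_mem (fun t => ∃ x, pair x t ∈ r) (sUnion_mem (sUnion_mem hrN)) using 1
    ext t
    rw [mem_sep]
    exact ⟨fun ht => (honto t ht).exists.elim fun x hx => ⟨snd_mem_sUnion hx, x, hx⟩,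
      fun ⟨_, x, hx⟩ => (hdom x t hx).2⟩
  have hVb : L ⊆ constr L b := fun x hx =>
    hcc ▸ (constr_facts hat h0).2.2.2 _ hN hNo haN (hV x hx)
  refine enum_of_constr hL.powerSet hzL hbL hVb fun C h1 h2 _ x hx => ?_
  rcases mem_insert_iff.1 hx with rfl | hx
  · exact h2
  · exact h1 x (mem_of_mem hκL hx) (hκo.mem hx)

/-- Definable choice in a model that enumerates each of its sets. -/
theorem Scott_choice {L : Set ZFSet.{u}} (hL : IsZFModel L) (h4 : G4 L)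
    (R : ZFSet.{u} → ZFSet.{u} → Prop) [hR : Df L (fun e => R (e 0) (e 1))] {κ : ZFSet.{u}}
    (hκ : κ ∈ L) : ∃ g ∈ L, ∀ ξ ∈ κ, (∃ x ∈ L, R x ξ) → R (vl g ξ) ξ := by
  have := hL.zfm
  have hR' : ∀ (s t : Env.{u} → ZFSet.{u}) [Tm L s] [Tm L t], Df L (fun e => R (s e) (t e)) :=
    fun s t _ _ => Df.subst2 hR s t
  obtain ⟨B, hB, HB⟩ := collection hL.powerSet R hκ
  obtain ⟨α, hα, ho, r, hr, hfn, honto⟩ := h4 B hB
  have := InM.mk hα
  have := InM.mk hr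
  obtain ⟨g, hg, -, Hg⟩ := exists_pairSep (M := L) (fun ξ x => R x ξ ∧ ∃ η ∈ α, pair η x ∈ r ∧
    ∀ η' ∈ η, ∀ x', pair η' x' ∈ r → ¬ R x' ξ) hκ (sUnion_mem (sUnion_mem hr))
  refine ⟨g, hg, fun ξ hξ h => ?_⟩
  obtain ⟨x, hx, h1⟩ := HB ξ hξ h
  obtain ⟨η, ⟨hη, y, h2, h3⟩, hmin⟩ := mem_wf.has_min {η | η ∈ α ∧ ∃ x, pair η x ∈ r ∧ R x ξ}
    ((honto x hx).elim fun η h => ⟨η, h.1, x, h.2, h1⟩)
  have h5 : ∀ η' ∈ η, ∀ x', pair η' x' ∈ r → ¬ R x' ξ := fun η' h4 x' h5 h6 =>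
    hmin η' ⟨ho.mem_trans h4 hη, x', h5, h6⟩ h4
  rw [vl_eq (x := y)]
  · exact h3
  intro y'
  rw [Hg]
  refine ⟨?_, fun h => h ▸ ⟨hξ, snd_mem_sUnion h2, h3, η, hη, h2, h5⟩⟩
  rintro ⟨-, -, h6, η', hη', h7, h8⟩
  rcases (ho.mem hη).mem_trichotomous (ho.mem hη') with h | rfl | h
  exacts [(h8 η h y h2 h3).elim, hfn _ _ h7 _ h2, (h5 η' h y' h7 h6).elim]

theorem scott {L : Set ZFSet.{u}} (hL : IsZFModel L) {j : ZFSet.{u} → ZFSet.{u}}
    (hj : Elem L L L j) {W a : ZFSet.{u}} (hW : Gro W) (hsub : ∀ x, x ⊆ powerset W → x ∈ L)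
    (hfix : ∀ x ∈ W, j x = x) (hmove : ords W ∈ j (ords W)) (ha : a ∈ W) (hat : a.IsTransitive)
    (h0 : ∅ ∈ a) (hV : ∀ x ∈ L, x ∈ constr Set.univ a)
    (hord : ∀ x : ZFSet.{u}, x.IsOrdinal → x ∈ L) : False := by
  have := hL.zfm
  have hsub' : ∀ x, x ⊆ W → x ∈ L := fun x hx =>
    hsub x fun y hy => mem_powerset.2 (hW.trans y (hx hy))
  have h4 := Scott_enum hL hW hsub' ha hat h0 hV hord
  set κ := ords W with hκ
  have hκo : κ.IsOrdinal := isOrdinal_ords hW.trans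
  have hκL : κ ∈ L := hord κ hκo
  have hκW : κ ⊆ W := sep_subset
  have iκ := InM.mk hκL
  let H : Set ZFSet.{u} := {x | ∃ f ∈ L, vl (j f) κ = x}
  have hvl : ∀ f ∈ L, ∀ ξ ∈ L, vl f ξ ∈ L := fun f hf ξ hξ =>
    (inferInstance : ZT (fun _ e => vl (e 0) (e 1))).mem L hL (cons f fun _ => ξ)
      (cons_mem hf fun _ => hξ)
  have hHL : H ⊆ L := by
    rintro _ ⟨f, hf, rfl⟩
    exact hvl _ (hj.maps f hf) _ hκL
  -- witnesses
  have hwit : ∀ (φ : Fml) (e : Env.{u}), (∀ i, e i ∈ H) → (∃ x ∈ L, Sat L φ (cons x e)) →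
      ∃ x ∈ H, Sat L φ (cons x e) := by
    intro φ e he hx
    choose f hf hfe using he
    have z1 : ZD.{u} (fun M e => Sat M φ (cons (e 0) fun i => vl (e (i + 2)) (e 1))) :=
      (zd_sat_subst φ (fun i => match i with
        | 0 => fun _ e => e 0
        | i + 1 => fun _ e => vl (e (i + 2)) (e 1)) (by
          rintro (_ | i)
          exacts [ZT.var 0, inferInstance])).congr fun _ _ _ _ =>
        iff_of_eq (congrArg _ (funext fun i => by cases i <;> rfl))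
    obtain ⟨g, hg, Hg⟩ := Scott_choice hL h4 (fun x ξ => Sat L φ (cons x fun i => vl (f i) ξ))
      (hR := (z1.toDf hL).fix2 hf) hκL
    have z2 : ZD.{u} (fun M e => Sat M φ (cons (e 0) fun i => vl (e (i + 1 + 1 + 1 + 1)) (e 1))) :=
      z1.rename (fun i => match i with | 0 => 0 | 1 => 1 | i + 2 => i + 1 + 1 + 1 + 1)
    have z3 : ZD.{u} (fun M e => Sat M φ (cons (vl (e 2) (e 0))
        fun i => vl (e (i + 1 + 1 + 1)) (e 0))) :=
      z2.consTm (inferInstance : ZT (fun _ e => vl (e 2) (e 0)))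
    have z4 : ZD.{u} (fun M e => ∀ ξ ∈ e 0, (∃ x ∈ M, Sat M φ (cons x fun i => vl (e (i + 1 + 1)) ξ)) →
        Sat M φ (cons (vl (e 1) ξ) fun i => vl (e (i + 1 + 1)) ξ)) := inferInstance
    have h1 := (hj.zd hL hL _ (hR := z4) (cons κ (cons g f)) (cons_mem hκL (cons_mem hg hf))).1 Hg
      κ hmove
    have h2 : (fun i => vl (j (f i)) κ) = e := funext hfe
    simp only [cons] at h1
    rw [h2] at h1
    exact ⟨_, ⟨g, hg, rfl⟩, h1 hx⟩
  have hel : ∀ (φ : Fml) (e : Env.{u}), (∀ i, e i ∈ H) → (Sat H φ e ↔ Sat L φ e) := by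
    intro φ
    induction φ with
    | mem i j => exact fun _ _ => Iff.rfl
    | eq i j => exact fun _ _ => Iff.rfl
    | neg φ ih => exact fun e he => not_congr (ih e he)
    | and φ ψ ih1 ih2 => exact fun e he => and_congr (ih1 e he) (ih2 e he)
    | all φ ih =>
      intro e he
      refine ⟨fun h x hx => ?_, fun h x hx => (ih _ (cons_mem hx he)).2 (h x (hHL hx))⟩
      by_contra h'
      obtain ⟨y, hy, h1⟩ := hwit (.neg φ) e he ⟨x, hx, h'⟩
      exact h1 ((ih _ (cons_mem hy he)).1 (h y hy))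
  have hjH : ∀ y ∈ L, j y ∈ H := by
    intro y hy
    refine ⟨κ.prod {y}, prod_mem hκL (singleton_mem hy), ?_⟩
    rw [hj.zt2 hL hL (fun _ a b => a.prod {b}) hκL hy (prod_mem hκL (singleton_mem hy))]
    exact vl_eq fun x => by simp [hmove]
  have hκH : κ ∈ H := by
    have h1 : img (fun x => pair x x) κ ∈ L :=
      (inferInstance : Tm L (fun _ => img (fun x => pair x x) κ)).mem'
    refine ⟨_, h1, ?_⟩
    rw [hj.zt1 hL hL (fun _ a => img (fun x => pair x x) a) hκL h1]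
    refine vl_eq fun x => ?_
    rw [mem_img]
    constructor
    · rintro ⟨y, -, h⟩
      obtain ⟨rfl, rfl⟩ := pair_inj.1 h; rfl
    · rintro rfl; exact ⟨κ, hmove, rfl⟩
  obtain ⟨π, hπ⟩ := exists_collapse H
  obtain ⟨σ, hσ, hσπ, hM⟩ := exists_collapse_elem hL hHL ⟨κ, hκH⟩ hel hπ
  have hWL : ∀ x ∈ W, x ∈ L := fun x hx => hsub' x (hW.trans x hx)
  have hWH : ∀ x ∈ W, x ∈ H := fun x hx => hfix x hx ▸ hjH x (hWL x hx)
  have hπW : ∀ x, x ⊆ W → (∀ y ∈ x, π y = y) → π x = x := by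
    intro x hx h
    ext z
    rw [hπ]
    exact ⟨fun ⟨y, hy, _, h'⟩ => h' ▸ (h y hy).symm ▸ hy, fun hz => ⟨z, hz, hWH z (hx hz), h z hz⟩⟩
  have hπW' : ∀ x, x ∈ W → π x = x := by
    intro x
    induction x using ZFSet.inductionOn with
    | h x ih => exact fun hx => hπW x (hW.trans x hx) fun y hy => ih y hy (hW.mem_trans hx hy)
  have hπκ : π κ = κ := hπW κ hκW fun y hy => hπW' y (hκW hy)
  have hmem : ∀ x ∈ H, ∀ y ∈ H, (π x ∈ π y ↔ x ∈ y) := fun x hx y hy => by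
    rw [← hσ.mem_iff ⟨x, hx, rfl⟩ ⟨y, hy, rfl⟩, hσπ x hx, hσπ y hy]
  have hi : Elem L (π '' H) L (fun x => π (j x)) :=
    ⟨subset_rfl, fun x hx => ⟨_, hjH x hx, rfl⟩, fun φ e he => by
      rw [hj.sat φ e he, hσ.sat φ _ fun i => ⟨_, hjH _ (he i), rfl⟩,
        funext fun i => hσπ _ (hjH _ (he i))]⟩
  have hMo : ∀ x : ZFSet.{u}, x.IsOrdinal → x ∈ π '' H := by
    have key : ∀ x : ZFSet.{u}, x.IsOrdinal → x ⊆ π (j x) := by
      intro x
      induction x using ZFSet.inductionOn with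
      | h x ih =>
        intro hx y hy
        have h1 := (hi.zd1 hL hM (fun _ a => a.IsOrdinal) (hord x hx)).1 hx
        have h2 := (hi.mem_iff (hord y (hx.mem hy)) (hord x hx)).2 hy
        exact (hx.mem hy).mem_of_subset_of_mem h1 (ih y hy (hx.mem hy)) h2
    intro x hx
    have h1 := (hi.zd1 hL hM (fun _ a => a.IsOrdinal) (hord x hx)).1 hx
    rcases (hx.subset_iff_eq_or_mem h1).1 (key x hx) with h | h
    · exact h ▸ hi.maps x (hord x hx)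
    · exact hM.transitive _ (hi.maps x (hord x hx)) x h
  have hLM : L ⊆ π '' H := fun x hx =>
    (constr_facts hat h0).2.2.2 _ hM (fun o => hMo _ (isOrdinal_toZFSet o))
      ⟨a, hWH a ha, hπW' a ha⟩ (hV x hx)
  -- in `L`, `κ` is not an image of a small power set
  have h5 : ∀ γ ∈ κ, ¬ Surj L (pow L (γ.prod γ)) κ := by
    rintro γ hγ ⟨r, -, h1, h2⟩
    have h3 := hW.prod_mem (hκW hγ) (hκW hγ)
    have h4 : κ.card ≤ (powerset (γ.prod γ)).card := surj_univ_iff.1 ⟨r, trivial, h1,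
      fun y hy => (h2 y hy).imp fun x hx => ⟨mem_powerset.2 (mem_pow.1 hx.1).1, hx.2⟩⟩
    exact mem_irrefl κ (mem_sep.2 ⟨hW.ord_mem_of_card_le hκo (hW.powerset_mem h3) h4, hκo⟩)
  have h6 := (hi.zd1 hL hM (fun M κ => ∀ γ ∈ κ, ¬ Surj M (pow M (γ.prod γ)) κ) hκL).1 h5 κ
    (by simpa only [hπκ] using (hmem κ hκH _ (hjH κ hκL)).2 hmove)
  -- the functions on `κ` and the order given by the ultrafilter
  have hκκ : κ.prod κ ⊆ W := fun z hz => by
    obtain ⟨x, hx, y, hy, rfl⟩ := mem_prod.1 hz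
    exact hW.pair_mem (hκW hx) (hκW hy)
  let F : ZFSet.{u} := (powerset (κ.prod κ)).sep fun f => vl (j f) κ ∈ j κ
  have hFs : ∀ f ∈ F, f ⊆ κ.prod κ := fun f hf => mem_powerset.1 (mem_sep.1 hf).1
  have hFL : F ∈ L := hsub F fun f hf => mem_powerset.2 ((hFs f hf).trans hκκ)
  have hfL : ∀ f ∈ F, f ∈ L := fun f hf => mem_of_mem hFL hf
  have hrep : ∀ y ∈ H, y ∈ j κ → ∃ f ∈ F, vl (j f) κ = y := by
    rintro _ ⟨g, hg, rfl⟩ hy
    have := InM.mk hg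
    have z1 : ZT.{u} (fun _ e => img (fun ξ => pair ξ (vl (e 1) ξ))
      ((e 0).sep fun ξ => vl (e 1) ξ ∈ e 0)) := inferInstance
    have h1 := z1.mem L hL (cons κ fun _ => g) (cons_mem hκL fun _ => hg)
    have h2 := hj.zt hL hL _ (ht := z1) (cons κ fun _ => g) (cons_mem hκL fun _ => hg) h1
    simp only [cons] at h1 h2
    have h3 : vl (j (img (fun ξ => pair ξ (vl g ξ)) (κ.sep fun ξ => vl g ξ ∈ κ))) κ =
        vl (j g) κ := by
      rw [h2]
      refine vl_eq fun x => ?_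
      rw [mem_img]
      constructor
      · rintro ⟨y, -, h⟩
        obtain ⟨rfl, rfl⟩ := pair_inj.1 h; rfl
      · rintro rfl; exact ⟨κ, mem_sep.2 ⟨hmove, hy⟩, rfl⟩
    refine ⟨_, mem_sep.2 ⟨mem_powerset.2 fun z hz => ?_, h3 ▸ hy⟩, h3⟩
    obtain ⟨ξ, hξ, rfl⟩ := mem_img.1 hz
    exact pair_mem_prod.2 (mem_sep.1 hξ)
  let U : ZFSet.{u} := (powerset κ).sep fun X => κ ∈ j X
  have hUL : U ∈ L := hsub U fun X hX => mem_powerset.2 ((mem_powerset.1 (mem_sep.1 hX).1).trans hκW)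
  have z2 : ZT.{u} (fun _ e => (e 0).sep fun ξ => vl (e 1) ξ ∈ vl (e 2) ξ) := inferInstance
  have z3 : ZD.{u} (fun _ e => ((e 2).sep fun ξ => vl (e 1) ξ ∈ vl (e 0) ξ) ∈ e 3) := inferInstance
  obtain ⟨E, hE, -, HE⟩ := exists_pairSep (M := L)
    (fun f g => (κ.sep fun ξ => vl f ξ ∈ vl g ξ) ∈ U)
    (h := (z3.toDf hL).fix2 (ε := cons κ fun _ => U) (cons_mem hκL fun _ => hUL)) hFL hFL
  let r : ZFSet.{u} := img (fun f => pair f (π (vl (j f) κ))) F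
  have hr : ∀ f t, pair f t ∈ r ↔ f ∈ F ∧ t = π (vl (j f) κ) := fun f t => pair_mem_graph
  have hfn : Fn r := fun f t h t' h' => ((hr f t).1 h).2.trans ((hr f t').1 h').2.symm
  have hjκo : (j κ).IsOrdinal := (hj.zd1 hL hL (fun _ a => a.IsOrdinal) hκL).1 hκo
  have hrL : r ∈ L := by
    refine coll hL hFL hE hfn (fun w hw => ?_) (fun f hf => ⟨_, (hr f _).2 ⟨hf, rfl⟩⟩)
      (fun f t h s hs => ?_) fun f t h g s h' => ?_
    · obtain ⟨f, hf, rfl⟩ := mem_img.1 hw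
      exact ⟨f, hf, _, rfl⟩
    · obtain ⟨hf, rfl⟩ := (hr f t).1 h
      obtain ⟨y, h1, h2, rfl⟩ := (hπ _ _).1 hs
      obtain ⟨g, hg, rfl⟩ := hrep y h2 (hjκo.mem_trans h1 (mem_sep.1 hf).2)
      exact ⟨g, (hr g _).2 ⟨hg, rfl⟩⟩
    · obtain ⟨hf, rfl⟩ := (hr f t).1 h
      obtain ⟨hg, rfl⟩ := (hr g s).1 h'
      have h1 := z2.mem L hL (cons κ (cons f fun _ => g))
        (cons_mem hκL (cons_mem (hfL f hf) fun _ => hfL g hg))
      have h2 := hj.zt hL hL _ (ht := z2) (cons κ (cons f fun _ => g))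
        (cons_mem hκL (cons_mem (hfL f hf) fun _ => hfL g hg)) h1
      simp only [cons] at h2
      rw [HE, hmem _ ⟨f, hfL f hf, rfl⟩ _ ⟨g, hfL g hg, rfl⟩]
      refine ⟨fun h => ?_, fun h => ⟨hf, hg, mem_sep.2 ⟨mem_powerset.2 sep_subset, ?_⟩⟩⟩
      · have h3 := (mem_sep.1 h.2.2).2
        rw [h2] at h3
        exact (mem_sep.1 h3).2
      · rw [h2]
        exact mem_sep.2 ⟨hmove, h⟩
  refine h6 ⟨r, hLM hrL, hfn, fun t ht => ?_⟩
  obtain ⟨y, h1, h2, rfl⟩ := (hπ _ _).1 ht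
  obtain ⟨g, hg, rfl⟩ := hrep y h2 h1
  exact ⟨g, mem_pow.2 ⟨hFs g hg, hLM (hfL g hg)⟩, (hr g _).2 ⟨hg, rfl⟩⟩

theorem exists_fixed (lam : Ordinal.{u}) {j : ZFSet.{u} → ZFSet.{u}}
    (hj : Elem (constr Set.univ (vonNeumann (lam + 1))) (constr Set.univ (vonNeumann (lam + 1)))
      (constr Set.univ (vonNeumann (lam + 1))) j)
    (hcrit : ∃ κ < lam, j κ.toZFSet ≠ κ.toZFSet) :
    ∃ δ ≤ lam, j δ.toZFSet = δ.toZFSet ∧ ∃ κ < δ, j κ.toZFSet ≠ κ.toZFSet := by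
  have crit : ∀ κ < lam, j κ.toZFSet ≠ κ.toZFSet → (∀ α < κ, j α.toZFSet = α.toZFSet) →
      (∀ x ∈ vonNeumann κ, j x = x) ∧ Gro (vonNeumann κ) ∧ κ.toZFSet ∈ j κ.toZFSet :=
    fun κ h1 h2 h3 => ⟨Red_fix hj h1.le h3, Red_gro_crit hj h1.le h2 h3, by
      rw [Red_j_ord hj]
      exact Ordinal.toZFSet_mem_toZFSet_iff.2 (Red_crit_lt hj h2)⟩
  have hb0 : ∀ α : Ordinal.{u}, ∅ ∈ vonNeumann (α + 1) := fun α => mem_vonNeumann.2 (by simp)
  obtain ⟨hL, hLo, hbL, -⟩ := constr_facts (isTransitive_vonNeumann (lam + 1)) (hb0 lam)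
  set L := constr Set.univ (vonNeumann (lam + 1)) with hLd
  have := hL.zfm
  have hord : ∀ x : ZFSet.{u}, x.IsOrdinal → x ∈ L := fun x hx => by
    simpa only [hx.toZFSet_rank_eq] using hLo x.rank
  have hcc : ∀ a, constr L a = constr Set.univ a := fun a =>
    constr_congr fun α ho => ⟨fun _ => trivial, fun _ => hord α ho⟩
  have hrk : ∀ (x : ZFSet.{u}) (α : Ordinal.{u}), rk x ⊆ α.toZFSet ↔ x ∈ vonNeumann (α + 1) :=
    fun x α => by
      rw [rk, Ordinal.toZFSet_subset_toZFSet_iff, mem_vonNeumann, Order.lt_add_one_iff]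
  let R : Set ZFSet.{u} → ZFSet.{u} → Prop := fun M α => α.IsOrdinal ∧
    ∃ a ∈ M, (∀ x ∈ M, (x ∈ a ↔ rk x ⊆ α)) ∧ ∀ x ∈ M, x ∈ constr M a
  have hR : R L lam.toZFSet := ⟨isOrdinal_toZFSet _, _, hbL, fun x _ => (hrk x lam).symm,
    fun x hx => (hcc _).symm ▸ hx⟩
  obtain ⟨α, hα, hmin⟩ := mem_wf.has_min {α | R L α} ⟨_, hR⟩
  have hαL := hord α hα.1
  have h1 := (hj.zd1 hL hL (fun M α => (α.IsOrdinal ∧ ∃ a ∈ M, (∀ x ∈ M, (x ∈ a ↔ rk x ⊆ α)) ∧
      ∀ x ∈ M, x ∈ constr M a) ∧ ∀ β ∈ α, ¬ (β.IsOrdinal ∧ ∃ a ∈ M,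
        (∀ x ∈ M, (x ∈ a ↔ rk x ⊆ β)) ∧ ∀ x ∈ M, x ∈ constr M a)) hαL).1
    ⟨hα, fun β hβ h => hmin β h hβ⟩
  have hjα : j α = α := by
    rcases h1.1.1.mem_trichotomous hα.1 with h | h | h
    exacts [(hmin _ h1.1 h).elim, h, (h1.2 α h hα).elim]
  obtain ⟨δ, rfl⟩ := isOrdinal_iff_mem_range_toZFSet.1 hα.1
  have hδ : δ ≤ lam := le_of_not_gt fun h => hmin _ hR (Ordinal.toZFSet_mem_toZFSet_iff.2 h)
  obtain ⟨κ, ⟨hκ, hκ'⟩, hκm⟩ := Ordinal.lt_wf.has_min {κ | κ < lam ∧ j κ.toZFSet ≠ κ.toZFSet} hcrit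
  refine ⟨δ, hδ, hjα, κ, lt_of_not_ge fun h => ?_, hκ'⟩
  have hδκ : δ < κ := lt_of_le_of_ne h fun h' => hκ' (h' ▸ hjα)
  obtain ⟨hfix, hW, hmove⟩ := crit κ hκ hκ' fun β hβ => by
    by_contra h'
    exact hκm β ⟨hβ.trans hκ, h'⟩ hβ
  obtain ⟨-, a, haL, ha, hV⟩ := hα
  have hVL : ∀ x ∈ vonNeumann (lam + 1), x ∈ L := fun x hx => mem_of_mem hbL hx
  obtain rfl : a = vonNeumann (δ + 1) := by
    ext x
    exact ⟨fun hx => (hrk x δ).1 ((ha x (mem_of_mem haL hx)).1 hx), fun hx =>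
      (ha x (hVL x (vonNeumann_subset_of_le (by gcongr) hx))).2 ((hrk x δ).2 hx)⟩
  have hoW : ords (vonNeumann κ) = κ.toZFSet := by
    ext x
    rw [ords, mem_sep, mem_vonNeumann, Ordinal.mem_toZFSet_iff]
    exact ⟨fun h => ⟨_, h.1, h.2.toZFSet_rank_eq⟩,
      fun ⟨β, h1, h2⟩ => h2 ▸ ⟨by simpa using h1, isOrdinal_toZFSet β⟩⟩
  refine scott hL hj hW (fun x hx => hVL x ?_) hfix (hoW ▸ hmove) ?_
    (isTransitive_vonNeumann _) (hb0 δ) (fun x hx => hcc _ ▸ hV x hx) hord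
  · rw [vonNeumann_add_one, mem_powerset]
    rw [← vonNeumann_add_one] at hx
    exact hx.trans (vonNeumann_subset_of_le (Order.add_one_le_iff.2 hκ))
  · rw [vonNeumann_add_one]
    exact hW.powerset_mem (vonNeumann_mem_of_lt hδκ)

end Pool.Agent.P.MP_37b794_lc.I0
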