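import Pool.Agent.P.MP_37b794_lc.I0.DL
import Pool.Agent.P.MP_37b794_lc.I0.Ext3
import Pool.Agent.P.MP_37b794_lc.I0.Scott

/-!
The main theorem.
-/

universe u

set_option synthInstance.maxSize 16384

namespace Pool.Agent.P.MP_37b794_lc.I0

open ZFSet Pool.Agent.Lib.Forcing Pool.Agent.P.MP_af0a18_lc

theorem main (lam : Ordinal.{u}) {j : ZFSet.{u} → ZFSet.{u}}
    (hj : Elem (constr Set.univ (vonNeumann (lam + 1))) (constr Set.univ (vonNeumann (lam + 1)))
      (constr Set.univ (vonNeumann (lam + 1))) j)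
    (hcrit : ∃ κ < lam, j κ.toZFSet ≠ κ.toZFSet) : ∃ N : Set ZFSet.{u}, Concl N := by
  obtain ⟨δ, h1, h2, h3⟩ := exists_fixed lam hj hcrit
  obtain ⟨W, v, hc⟩ := exists_ctx2 lam δ hj h1 h2 h3
  obtain ⟨M, σ, hMc, hσ⟩ := exists_countable_isElem.{u}
  have hM := hσ.isZFModel
  have he : Elem M Set.univ M σ := ⟨subset_rfl, fun _ _ => trivial, hσ.elem⟩
  exact concl_of_good hM hMc ((he.zd hM zfm_univ (fun M _ => GoodM M) (fun _ => ∅)
    fun _ => hσ.trans.empty).2 (good_univ hc))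

end Pool.Agent.P.MP_37b794_lc.I0
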