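import Pool.Agent.P.MP_37b794_lc.I0.Gro

/-!
Maps that are elementary on subsets of the union of a tower.
-/

universe u

set_option synthInstance.maxSize 16384

namespace Pool.Agent.P.MP_37b794_lc.I0

open ZFSet Pool.Agent.Lib.Forcing Pool.Agent.P.MP_af0a18_lc

theorem Pres_P {v a : ZFSet.{u}} (ha : a ⊆ v) : a ∈ ((powerset v : ZFSet.{u}) : Set ZFSet.{u}) :=
  mem_powerset.2 ha

theorem Pres_union {v a b : ZFSet.{u}} (ha : a ⊆ v) (hb : b ⊆ v) : a ∪ b ⊆ v :=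
  fun _ hz => (mem_union.1 hz).elim (fun h => ha h) fun h => hb h

theorem Pres_singleton {v a : ZFSet.{u}} (ha : a ∈ v) : ({a} : ZFSet.{u}) ⊆ v :=
  fun _ hz => mem_singleton.1 hz ▸ ha

theorem Pres_iUnion {v : ZFSet.{u}} {f : ℕ → ZFSet.{u}} (hf : ∀ n, f n ⊆ v) : iUnion f ⊆ v :=
  fun _ hz => (mem_iUnion.1 hz).elim fun n h => hf n h

theorem Pres_range {v : ZFSet.{u}} {f : ℕ → ZFSet.{u}} (hf : ∀ n, f n ∈ v) : range f ⊆ v :=
  fun _ hz => (mem_range.1 hz).elim fun n h => h ▸ hf n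

theorem Pres_range_eq (f : ℕ → ZFSet.{u}) :
    range f = iUnion fun n => ({f n} : ZFSet.{u}) := by
  ext z
  simp only [mem_range, mem_iUnion, mem_singleton, eq_comm]

theorem Pres_zd_ex (φ : Fml) :
    ZD.{u} (fun M e => ∃ a ∈ M, a ⊆ e 0 ∧ Sat M φ (cons a fun i => e (i + 1))) := by
  have h1 : ZD.{u} (fun M e => Sat M φ (cons (e 0) fun i => e (i + 1 + 1))) :=
    ((ZD.sat φ).rename (fun i => match i with | 0 => 0 | i + 1 => i + 1 + 1)).congr
      fun _ _ e _ => iff_of_eq (congrArg _ (funext fun i => by cases i <;> rfl))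
  have h2 : ZD.{u} (fun M e => e 0 ⊆ e 1 ∧ Sat M φ (cons (e 0) fun i => e (i + 1 + 1))) :=
    @ZD.and _ _ inferInstance h1
  exact @ZD.exM (fun M a e => a ⊆ e 0 ∧ Sat M φ (cons a fun i => e (i + 1))) h2

namespace Pres
variable {X : Set ZFSet.{u}} {W : ℕ → ZFSet.{u}} {v a b : ZFSet.{u}} {k : ZFSet.{u} → ZFSet.{u}}
  (hk : Pr X v k) (hB : Base X W v)
include hk hB

theorem sub (ha : a ⊆ v) : k a ⊆ v :=
  have _ := hB
  mem_powerset.1 (hk.maps a (mem_powerset.2 ha))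
theorem mem_v (ha : a ∈ v) : k a ∈ v := by
  have h := (hk.elem.mem_iff (Pres_P (hB.tower.sub_of_mem ha)) (Pres_P fun _ h => h)).2 ha
  rwa [hk.fix] at h
theorem mem_iff (ha : a ⊆ v) (hb : b ⊆ v) : k a ∈ k b ↔ a ∈ b :=
  have _ := hB
  hk.elem.mem_iff (Pres_P ha) (Pres_P hb)
theorem inj (ha : a ⊆ v) (hb : b ⊆ v) : k a = k b ↔ a = b :=
  have _ := hB
  hk.elem.inj (Pres_P ha) (Pres_P hb)
theorem subset_iff (ha : a ⊆ v) (hb : b ⊆ v) : k a ⊆ k b ↔ a ⊆ b :=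
  hk.elem.subset_iff hB.model hB.model (Pres_P ha) (Pres_P hb)
theorem map_empty : k ∅ = ∅ :=
  hk.elem.zt hB.model hB.model (fun _ _ => ∅) (fun _ => v) (fun _ => Pres_P fun _ h => h)
    (Pres_P (hB.tower.sub_of_mem hB.tower.empty_mem))
theorem map_nat (n : ℕ) : k (nat n) = nat n :=
  hk.elem.zt hB.model hB.model (fun _ _ => nat n) (fun _ => v) (fun _ => Pres_P fun _ h => h)
    (Pres_P (hB.tower.sub_of_mem (hB.tower.nat_mem n)))
theorem map_omega : k omega = omega :=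
  hk.elem.zt hB.model hB.model (fun _ _ => omega) (fun _ => v) (fun _ => Pres_P fun _ h => h)
    (Pres_P (hB.tower.sub_of_mem hB.tower.omega_mem))
theorem map_inter (ha : a ⊆ v) (hb : b ⊆ v) : k (a ∩ b) = k a ∩ k b :=
  hk.elem.zt2 hB.model hB.model (fun _ a b => a ∩ b) (Pres_P ha) (Pres_P hb)
    (Pres_P fun _ h => ha (mem_inter.1 h).1)
theorem map_union (ha : a ⊆ v) (hb : b ⊆ v) : k (a ∪ b) = k a ∪ k b :=
  hk.elem.zt2 hB.model hB.model (fun _ a b => a ∪ b) (Pres_P ha) (Pres_P hb)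
    (Pres_P (Pres_union ha hb))
theorem map_sdiff (ha : a ⊆ v) (hb : b ⊆ v) : k (a \ b) = k a \ k b :=
  hk.elem.zt2 hB.model hB.model (fun _ a b => a \ b) (Pres_P ha) (Pres_P hb)
    (Pres_P fun _ h => ha (mem_sdiff.1 h).1)
theorem map_sec (ha : a ⊆ v) (hb : b ⊆ v) : k (sec a b) = sec (k a) (k b) :=
  hk.elem.zt2 hB.model hB.model (fun _ => sec) (Pres_P ha) (Pres_P hb)
    (Pres_P (hB.tower.sec_subset ha b))
theorem map_prod (ha : a ⊆ v) (hb : b ⊆ v) : k (a.prod b) = (k a).prod (k b) :=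
  hk.elem.zt2 hB.model hB.model (fun _ a b => a.prod b) (Pres_P ha) (Pres_P hb)
    (Pres_P (hB.tower.prod_subset ha hb))
theorem map_pair (ha : a ∈ v) (hb : b ∈ v) : k (pair a b) = pair (k a) (k b) :=
  hk.elem.zt2 hB.model hB.model (fun _ => pair) (Pres_P (hB.tower.sub_of_mem ha))
    (Pres_P (hB.tower.sub_of_mem hb)) (Pres_P (hB.tower.sub_of_mem (hB.tower.pair_mem ha hb)))
theorem map_powerset (ha : a ∈ v) : k (powerset a) = powerset (k a) := by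
  have h1 := hB.tower.sub_of_mem ha
  have h2 := hB.tower.pow_eq hB.sub h1
  have h := hk.elem.zt1 hB.model hB.model pow (Pres_P h1)
    (h2 ▸ Pres_P (hB.tower.sub_of_mem (hB.tower.powerset_mem ha)))
  rwa [h2, hB.tower.pow_eq hB.sub (hk.sub hB h1)] at h
theorem map_fst (ha : a ∈ v) : k (fst a) = fst (k a) := by
  refine hk.elem.zt1 hB.model hB.model (fun _ => fst) (Pres_P (hB.tower.sub_of_mem ha))
    (Pres_P fun z hz => ?_)
  obtain ⟨-, x, y, rfl, h⟩ := mem_sep.1 hz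
  exact hB.tower.sub_of_mem (hB.tower.pair_mem_iff.1 ha).1 h
theorem map_snd (ha : a ∈ v) : k (snd a) = snd (k a) := by
  refine hk.elem.zt1 hB.model hB.model (fun _ => snd) (Pres_P (hB.tower.sub_of_mem ha))
    (Pres_P fun z hz => ?_)
  obtain ⟨-, x, y, rfl, h⟩ := mem_sep.1 hz
  exact hB.tower.sub_of_mem (hB.tower.pair_mem_iff.1 ha).2 h
theorem map_blk {c d : ZFSet.{u}} (hc : c ∈ v) (hd : d ∈ v) (ha : a ⊆ v) (hb : b ⊆ v) :
    k (blk c d a b) = blk (k c) (k d) (k a) (k b) :=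
  hk.elem.zt4 hB.model hB.model (fun _ => blk) (Pres_P (hB.tower.sub_of_mem hc))
    (Pres_P (hB.tower.sub_of_mem hd)) (Pres_P ha) (Pres_P hb)
    (Pres_P (Pres_union (hB.tower.prod_subset (Pres_singleton hc) ha)
      (hB.tower.prod_subset (Pres_singleton hd) hb)))
theorem map_iUnion {f : ℕ → ZFSet.{u}} (hf : ∀ n, f n ⊆ v) :
    k (iUnion f) = iUnion fun n => k (f n) := by
  have hc : seqc f ⊆ v := hB.tower.seqc_subset hf
  have hu : iUnion f ⊆ v := Pres_iUnion hf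
  have h1 := (hk.elem.zd2 hB.model hB.model
    (fun _ a c => ∀ x ∈ a, ∃ n ∈ omega, x ∈ sec c n) (Pres_P hu) (Pres_P hc)).1 (by
      intro x hx
      obtain ⟨n, hn⟩ := mem_iUnion.1 hx
      exact ⟨nat n, nat_mem_omega n, by rwa [sec_seqc]⟩)
  ext z
  rw [mem_iUnion]
  constructor
  · intro hz
    obtain ⟨m, hm, h⟩ := h1 z hz
    obtain ⟨n, rfl⟩ := mem_omega_iff.1 hm
    refine ⟨n, ?_⟩
    rwa [← hk.map_nat hB n, ← hk.map_sec hB hc (hB.tower.sub_of_mem (hB.tower.nat_mem n)),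
      sec_seqc] at h
  · rintro ⟨n, h⟩
    exact (hk.subset_iff hB (hf n) hu).2 (subset_iUnion f n) h
theorem map_range {f : ℕ → ZFSet.{u}} (hf : ∀ n, f n ∈ v) :
    k (range f) = range fun n => k (f n) := by
  rw [Pres_range_eq, Pres_range_eq, hk.map_iUnion hB fun n => Pres_singleton (hf n)]
  refine congrArg _ (funext fun n => ?_)
  exact hk.elem.zt1 hB.model hB.model (fun _ a => ({a} : ZFSet.{u}))
    (Pres_P (hB.tower.sub_of_mem (hf n))) (Pres_P (Pres_singleton (hf n)))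
theorem map_piOf {Y : ℕ → ZFSet.{u}} (hY : ∀ n, Y n ∈ v) :
    k (PiOf Y) = PiOf fun n => k (Y n) := by
  have hT := hB.tower
  have hP : ∀ n, powerset (Y n) ∈ v := fun n => hT.powerset_mem (hY n)
  have h1 : ∀ n, pair (Y n) (pair (powerset (Y n)) (Y (n + 1))) ∈ v :=
    fun n => hT.pair_mem (hY n) (hT.pair_mem (hP n) (hY _))
  have h2 : ∀ n, pair (powerset (Y n)) (pair (Y (n + 1)) (Y (n + 1))) ∈ v :=
    fun n => hT.pair_mem (hP n) (hT.pair_mem (hY _) (hY _))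
  unfold PiOf
  rw [hk.map_union hB (Pres_range h1) (Pres_range h2), hk.map_range hB h1, hk.map_range hB h2]
  congr 2
  · funext n
    rw [hk.map_pair hB (hY n) (hT.pair_mem (hP n) (hY _)), hk.map_pair hB (hP n) (hY _),
      hk.map_powerset hB (hY n)]
  · funext n
    rw [hk.map_pair hB (hP n) (hT.pair_mem (hY _) (hY _)), hk.map_pair hB (hY _) (hY _),
      hk.map_powerset hB (hY n)]
theorem graph_subset : graph k v ⊆ v := by
  intro z hz
  obtain ⟨x, hx, rfl⟩ := mem_img.1 hz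
  exact hB.tower.pair_mem hx (hk.mem_v hB hx)
theorem app_graph (ha : a ⊆ v) : app (graph k v) a = k a := by
  have hT := hB.tower
  ext z
  rw [mem_app]
  constructor
  · rintro ⟨x, w, h1, h2, h3⟩
    obtain ⟨hx, rfl⟩ := pair_mem_graph.1 h1
    exact (hk.subset_iff hB (hT.sub_of_mem hx) ha).2 h2 h3
  · intro hz
    rw [hT.eq_iUnion ha, hk.map_iUnion hB fun n => hT.sub_of_mem (hT.inter_mem a n)] at hz
    obtain ⟨n, hn⟩ := mem_iUnion.1 hz
    exact ⟨a ∩ W n, _, pair_mem_graph.2 ⟨hT.inter_mem a n, rfl⟩,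
      fun _ h => (mem_inter.1 h).1, hn⟩
theorem gro_iff (ha : a ⊆ v) : Gro (k a) ↔ Gro a := by
  rw [← hB.tower.univ_iff hB.sub ha, ← hB.tower.univ_iff hB.sub (hk.sub hB ha)]
  exact (hk.elem.zd1 hB.model hB.model Univ (Pres_P ha)).symm
theorem trans_iff (ha : a ⊆ v) : (k a).IsTransitive ↔ a.IsTransitive :=
  (hk.elem.zd1 hB.model hB.model (fun _ a => a.IsTransitive) (Pres_P ha)).symm
theorem sq_iff {T T' B s : ZFSet.{u}} (hT : T ⊆ v) (hT' : T' ⊆ v) (hB' : B ⊆ v) (hs : s ⊆ v) :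
    Sq (k T) (k T') (k B) (k s) ↔ Sq T T' B s :=
  (hk.elem.zd4 hB.model hB.model (fun _ => Sq) (Pres_P hT) (Pres_P hT') (Pres_P hB')
    (Pres_P hs)).symm
theorem isBlk_iff {c d r : ZFSet.{u}} (hc : c ∈ v) (hd : d ⊆ v) (hr : r ⊆ v) :
    IsBlk (k c) (powerset (k c)) (k d) (k r) ↔ IsBlk c (powerset c) d r := by
  rw [← hk.map_powerset hB hc]
  exact (hk.elem.zd4 hB.model hB.model (fun _ => IsBlk) (Pres_P (hB.tower.sub_of_mem hc))
    (Pres_P (hB.tower.sub_of_mem (hB.tower.powerset_mem hc))) (Pres_P hd) (Pres_P hr)).symm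
theorem inP_iff (ha : a ⊆ v) (hb : b ⊆ v) : InP (k a) (k b) ↔ InP a b :=
  (hk.elem.zd2 hB.model hB.model (fun _ => InP) (Pres_P ha) (Pres_P hb)).symm
theorem sat (φ : Fml) {e : Env.{u}} (he : ∀ i, e i ⊆ v) :
    Sat X φ (fun i => k (e i)) ↔ Sat X φ e :=
  have _ := hB
  (hk.elem.sat φ e fun i => Pres_P (he i)).symm
theorem sat_ex (φ : Fml) {e : Env.{u}} (he : ∀ i, e i ⊆ v) :
    (∃ a, a ⊆ v ∧ Sat X φ (cons a fun i => k (e i))) ↔ ∃ a, a ⊆ v ∧ Sat X φ (cons a e) := by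
  have h := hk.elem.zd hB.model hB.model _ (hR := Pres_zd_ex φ) (cons v e)
    (cons_mem (Pres_P fun _ h => h) fun i => Pres_P (he i))
  have h1 : (∃ a ∈ X, a ⊆ v ∧ Sat X φ (cons a e)) ↔
      ∃ a ∈ X, a ⊆ k v ∧ Sat X φ (cons a fun i => k (e i)) := h
  rw [hk.fix] at h1
  constructor
  · rintro ⟨a, ha, h2⟩
    obtain ⟨c, -, hc⟩ := h1.2 ⟨a, hB.sub a ha, ha, h2⟩
    exact ⟨c, hc⟩
  · rintro ⟨a, ha, h2⟩
    obtain ⟨c, -, hc⟩ := h1.1 ⟨a, hB.sub a ha, ha, h2⟩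
    exact ⟨c, hc⟩

end Pres

end Pool.Agent.P.MP_37b794_lc.I0
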