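import Pool.Agent.P.MP_37b794_lc.I0.Coll
import Pool.Agent.P.MP_37b794_lc.I0.Pres

/-!
The ideal of null sets and its saturation.
-/

universe u

set_option synthInstance.maxSize 16384

namespace Pool.Agent.P.MP_37b794_lc.I0

open ZFSet Pool.Agent.Lib.Forcing Pool.Agent.P.MP_af0a18_lc

variable {j : ZFSet.{u} → ZFSet.{u}} {W : ℕ → ZFSet.{u}} {v : ZFSet.{u}}

theorem Null_diag (hT : Tower W v) (b : ZFSet.{u} → ZFSet.{u}) (hb : ∀ t, b t ⊆ v) :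
    ∃ a, a ⊆ v ∧ ∀ t ∈ v, sec a t = b t := by
  refine ⟨(v.prod v).sep fun z => snd z ∈ b (fst z), fun z hz => ?_, fun t ht => ?_⟩
  · exact hT.prod_subset (fun _ h => h) (fun _ h => h) (mem_sep.1 hz).1
  · ext s
    rw [mem_sec, mem_sep, fst_pair, snd_pair, pair_mem_prod]
    exact ⟨fun h => h.2, fun h => ⟨⟨ht, hb t h⟩, h⟩⟩

theorem Null_mem_Big {M : Set ZFSet.{u}} {A v μ a β : ZFSet.{u}} :
    β ∈ Big M A v μ a ↔ β ∈ μ ∧ ∀ i ∈ v, ¬ Cod M (sec a i) β ∧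
      (Club M A μ (Psi M A μ (sec a i)) → β ∈ Psi M A μ (sec a i)) := by
  rw [Big, mem_sep]

theorem Null_mem_Psi {M : Set ZFSet.{u}} {A μ g β : ZFSet.{u}} :
    β ∈ Psi M A μ g ↔ β ∈ μ ∧ ∃ a ∈ A, Cod M a β ∧ Cod M (app g a) β := by
  rw [Psi, mem_sep]

theorem null_union (hT : Tower W v) {I S : ZFSet.{u}} (hI : I.card ≤ v.card)
    (Z : ZFSet.{u} → ZFSet.{u}) (hZ : ∀ i ∈ I, Null (NN v) (powerset v) v (Theta v) (Z i))
    (hS : ∀ β ∈ S, ∃ i ∈ I, β ∈ Z i) : Null (NN v) (powerset v) v (Theta v) S := by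
  obtain ⟨g, hg⟩ := card_le_iff_surj.1 hI
  have h0 : ∀ i, ∃ a, a ⊆ v ∧
      (i ∈ I → ∀ β ∈ Z i, β ∉ Big (NN v) (powerset v) v (Theta v) a) := fun i => by
    by_cases hi : i ∈ I
    · obtain ⟨a, ha, H⟩ := hZ i hi
      exact ⟨a, mem_powerset.1 ha, fun _ => H⟩
    · exact ⟨∅, empty_subset _, fun h => (hi h).elim⟩
  choose a' ha1 ha2 using h0
  obtain ⟨a, ha, H⟩ := Null_diag hT (fun z => sec (a' (g (fst z))) (snd z))
    fun z => hT.sec_subset (ha1 _) _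
  refine ⟨a, mem_powerset.2 ha, fun β hβ hB => ?_⟩
  obtain ⟨i, hi, hβi⟩ := hS β hβ
  obtain ⟨t, ht, rfl⟩ := hg i hi
  refine ha2 _ hi β hβi (Null_mem_Big.2 ⟨(Null_mem_Big.1 hB).1, fun s hs => ?_⟩)
  have h1 := (Null_mem_Big.1 hB).2 (pair t s) (hT.pair_mem ht hs)
  rw [H _ (hT.pair_mem ht hs)] at h1
  simpa only [fst_pair, snd_pair] using h1

theorem null_singleton (hT : Tower W v) (ξ : ZFSet.{u}) :
    Null (NN v) (powerset v) v (Theta v) {ξ} := by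
  by_cases hξ : ξ ∈ Theta v
  · obtain ⟨c, hc, hcod⟩ := exists_cod hT hξ
    obtain ⟨a, ha, H⟩ := Null_diag hT (fun _ => c) fun _ => hc
    refine ⟨a, mem_powerset.2 ha, fun β hβ hB => ?_⟩
    obtain rfl := mem_singleton.1 hβ
    have h1 := ((Null_mem_Big.1 hB).2 ∅ hT.empty_mem).1
    rw [H _ hT.empty_mem] at h1
    exact h1 hcod
  · refine ⟨∅, mem_powerset.2 (empty_subset _), fun β hβ hB => ?_⟩
    obtain rfl := mem_singleton.1 hβ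
    exact hξ (Null_mem_Big.1 hB).1

theorem Null_codes (hT : Tower W v) (f : ℕ → ZFSet.{u}) (hf : ∀ n, f n ∈ Theta v) :
    ∃ c, c ⊆ v ∧ ∀ n, Cod (NN v) (sec c (nat n)) (f n) := by
  choose c hc1 hc2 using fun n => exists_cod hT (hf n)
  exact ⟨seqc c, hT.seqc_subset hc1, fun n => by rw [sec_seqc]; exact hc2 n⟩

theorem Null_club_closed (hT : Tower W v) {C β : ZFSet.{u}}
    (hC : Club (NN v) (powerset v) (Theta v) C) (hβ : β ∈ Theta v) (f : ℕ → ZFSet.{u})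
    (hf : ∀ n, f n ∈ Theta v) (hfC : ∀ n, f n ∈ C) (h1 : ∀ n, f n ⊆ β)
    (h2 : ∀ ξ ∈ β, ∃ n, ξ ∈ f n) : β ∈ C := by
  obtain ⟨c, hc, H⟩ := Null_codes hT f hf
  refine hC.2 β hβ c (mem_powerset.2 hc) (fun n hn => ?_) fun ξ hξ => ?_
  · obtain ⟨m, rfl⟩ := mem_omega_iff.1 hn
    exact ⟨f m, hfC m, H m, h1 m⟩
  · obtain ⟨m, hm⟩ := h2 ξ hξ
    exact ⟨nat m, nat_mem_omega m, f m, hfC m, H m, hm⟩

theorem Null_club_intro {M : Set ZFSet.{u}} {A μ C : ZFSet.{u}}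
    (h1 : ∀ α ∈ μ, ∃ β ∈ C, α ∈ β)
    (h2 : ∀ β ∈ μ, ∀ f : ℕ → ZFSet.{u}, (∀ n, f n ∈ C ∧ f n ⊆ β) → (∀ ξ ∈ β, ∃ n, ξ ∈ f n) →
      β ∈ C) : Club M A μ C := by
  refine ⟨h1, fun β hβ c _ k1 k2 => ?_⟩
  choose f hf1 hf2 hf3 using fun n => k1 (nat n) (nat_mem_omega n)
  refine h2 β hβ f (fun n => ⟨hf1 n, hf3 n⟩) fun ξ hξ => ?_
  obtain ⟨n, hn, α, -, hα, hξα⟩ := k2 ξ hξ
  obtain ⟨m, rfl⟩ := mem_omega_iff.1 hn
  exact ⟨m, by rwa [← Cod.unique hα (hf2 m)]⟩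

theorem Null_ord {β : ZFSet.{u}} (hβ : β ∈ Theta v) : β.IsOrdinal := (mem_Theta.1 hβ).1

theorem Null_ub2 (hT : Tower W v) {x y : ZFSet.{u}} (hx : x ∈ Theta v) (hy : y ∈ Theta v) :
    ∃ z ∈ Theta v, x ∈ z ∧ y ∈ z := by
  have hx' := Null_ord hx
  have hy' := Null_ord hy
  rcases hx'.subset_total hy' with h | h
  · refine ⟨insert y y, insert_mem_Theta hT.aleph0_le_v hy, ?_, mem_insert _ _⟩
    exact hx'.mem_of_subset_of_mem (isOrdinal_succ hy') h (mem_insert _ _)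
  · refine ⟨insert x x, insert_mem_Theta hT.aleph0_le_v hx, mem_insert _ _, ?_⟩
    exact hy'.mem_of_subset_of_mem (isOrdinal_succ hx') h (mem_insert _ _)

theorem Null_sup (hT : Tower W v) (f : ℕ → ZFSet.{u}) (hf : ∀ n, f n ∈ Theta v) :
    ∃ β ∈ Theta v, ∀ ξ, ξ ∈ β ↔ ∃ n, ξ ∈ f n := by
  refine ⟨⋃₀ img (sec (seqc f)) omega, sUnion_img_mem_Theta hT.aleph0_le_v
    (by rw [card_omega]; exact hT.aleph0_le_v) fun i hi => ?_, fun ξ => ?_⟩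
  · obtain ⟨m, rfl⟩ := mem_omega_iff.1 hi
    rw [sec_seqc]
    exact hf m
  · rw [mem_sUnion]
    constructor
    · rintro ⟨z, hz, hξ⟩
      obtain ⟨i, hi, rfl⟩ := mem_img.1 hz
      obtain ⟨m, rfl⟩ := mem_omega_iff.1 hi
      rw [sec_seqc] at hξ
      exact ⟨m, hξ⟩
    · rintro ⟨m, hm⟩
      exact ⟨_, mem_img.2 ⟨nat m, nat_mem_omega m, rfl⟩, by rwa [sec_seqc]⟩

theorem Null_empty_mem (v : ZFSet.{u}) : ∅ ∈ Theta v :=
  mem_Theta.2 ⟨isOrdinal_empty, by simp⟩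

theorem not_null_Theta (hT : Tower W v) : ¬ Null (NN v) (powerset v) v (Theta v) (Theta v) := by
  rintro ⟨a, ha, H⟩
  have ha' := mem_powerset.1 ha
  have h0 : ∀ α ∈ Theta v, ∀ i, ∃ γ ∈ Theta v, (∀ δ, Cod (NN v) (sec a i) δ → δ ∈ γ) ∧
      (Club (NN v) (powerset v) (Theta v) (Psi (NN v) (powerset v) (Theta v) (sec a i)) →
        ∃ δ ∈ Psi (NN v) (powerset v) (Theta v) (sec a i), α ∈ δ ∧ δ ∈ γ) := fun α hα i => by
    have k1 : ∃ x ∈ Theta v, ∀ δ, Cod (NN v) (sec a i) δ → δ = x := by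
      by_cases k : ∃ δ, Cod (NN v) (sec a i) δ
      · obtain ⟨δ, hδ⟩ := k
        exact ⟨δ, Cod.mem_Theta hT (hT.sec_subset ha' i) hδ, fun δ' h => Cod.unique h hδ⟩
      · exact ⟨α, hα, fun δ h => (k ⟨δ, h⟩).elim⟩
    have k2 : ∃ y ∈ Theta v,
        Club (NN v) (powerset v) (Theta v) (Psi (NN v) (powerset v) (Theta v) (sec a i)) →
          y ∈ Psi (NN v) (powerset v) (Theta v) (sec a i) ∧ α ∈ y := by
      by_cases k : Club (NN v) (powerset v) (Theta v) (Psi (NN v) (powerset v) (Theta v) (sec a i))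
      · obtain ⟨y, hy, hαy⟩ := k.1 α hα
        exact ⟨y, (Null_mem_Psi.1 hy).1, fun _ => ⟨hy, hαy⟩⟩
      · exact ⟨α, hα, fun h => (k h).elim⟩
    obtain ⟨x, hx, k1⟩ := k1
    obtain ⟨y, hy, k2⟩ := k2
    obtain ⟨z, hz, hxz, hyz⟩ := Null_ub2 hT hx hy
    exact ⟨z, hz, fun δ h => k1 δ h ▸ hxz, fun h => ⟨y, (k2 h).1, (k2 h).2, hyz⟩⟩
  have h1 : ∀ α ∈ Theta v, ∃ γ ∈ Theta v, ∀ i ∈ v, (∀ δ, Cod (NN v) (sec a i) δ → δ ∈ γ) ∧
      (Club (NN v) (powerset v) (Theta v) (Psi (NN v) (powerset v) (Theta v) (sec a i)) →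
        ∃ δ ∈ Psi (NN v) (powerset v) (Theta v) (sec a i), α ∈ δ ∧ δ ∈ γ) := fun α hα => by
    choose h hh1 hh2 hh3 using h0 α hα
    have hsub : ∀ i ∈ v, h i ⊆ (⋃₀ img h v : ZFSet.{u}) := fun i hi z hz =>
      mem_sUnion.2 ⟨_, mem_img.2 ⟨i, hi, rfl⟩, hz⟩
    refine ⟨⋃₀ img h v, sUnion_img_mem_Theta hT.aleph0_le_v le_rfl fun i _ => hh1 i,
      fun i hi => ⟨fun δ hδ => hsub i hi (hh2 i δ hδ), fun hC => ?_⟩⟩
    obtain ⟨δ, k1, k2, k3⟩ := hh3 i hC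
    exact ⟨δ, k1, k2, hsub i hi k3⟩
  choose! F hF1 hF2 using h1
  have hf : ∀ n, F^[n] ∅ ∈ Theta v := fun n => by
    induction n with
    | zero => exact Null_empty_mem v
    | succ n ih => rw [Function.iterate_succ_apply']; exact hF1 _ ih
  obtain ⟨β, hβ, hmem⟩ := Null_sup hT (fun n => F^[n] ∅) hf
  have hup : ∀ n, ∀ δ ∈ F (F^[n] ∅), δ ∈ β := fun n δ hδ =>
    (hmem δ).2 ⟨n + 1, by rw [Function.iterate_succ_apply']; exact hδ⟩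
  refine H β hβ (Null_mem_Big.2 ⟨hβ, fun i hi => ⟨fun hc => ?_, fun hC => ?_⟩⟩)
  · exact mem_irrefl β (hup 0 β ((hF2 _ (hf 0) i hi).1 β hc))
  · choose δ k1 k2 k3 using fun n => (hF2 _ (hf n) i hi).2 hC
    refine Null_club_closed hT hC hβ δ (fun n => (Null_mem_Psi.1 (k1 n)).1) k1
      (fun n => (Null_ord hβ).subset_of_mem (hup n _ (k3 n))) fun ξ hξ => ?_
    obtain ⟨n, hn⟩ := (hmem ξ).1 hξ
    exact ⟨n, (Null_ord (Null_mem_Psi.1 (k1 n)).1).mem_trans hn (k2 n)⟩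

theorem Null_j_ord (hj : Ctx j W v) {x : ZFSet.{u}} (hx : x.IsOrdinal) : (j x).IsOrdinal :=
  (hj.elem.zd1 hj.tower.model_NN hj.tower.model_NN (fun _ a => a.IsOrdinal)
    (hj.tower.ord_mem_NN hx)).1 hx

theorem Null_le_j (hj : Ctx j W v) (x : ZFSet.{u}) : x.IsOrdinal → x ⊆ j x := by
  induction x using ZFSet.inductionOn with
  | h x ih =>
    intro hx y hy
    have hy' := hx.mem hy
    exact hy'.mem_of_subset_of_mem (Null_j_ord hj hx) (ih y hy hy')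
      ((hj.elem.mem_iff (hj.tower.ord_mem_NN hy') (hj.tower.ord_mem_NN hx)).2 hy)

theorem Null_j_mem (hj : Ctx j W v) {x : ZFSet.{u}} (hx : x ∈ Theta v) : j x ∈ Theta v := by
  have h := (hj.elem.mem_iff (hj.tower.ord_mem_NN (Null_ord hx))
    (hj.tower.ord_mem_NN (isOrdinal_Theta v))).2 hx
  rwa [hj.jTheta] at h

theorem Null_j_cod (hj : Ctx j W v) {a β : ZFSet.{u}} (ha : a ⊆ v) (h : Cod (NN v) a β) :
    Cod (NN v) (j a) (j β) :=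
  (hj.elem.zd2 hj.tower.model_NN hj.tower.model_NN Cod (hj.tower.mem_NN ha)
    (hj.tower.ord_mem_NN h.1)).1 h

theorem Null_cont (hj : Ctx j W v) {β : ZFSet.{u}} (hβ : β ∈ Theta v) (f : ℕ → ZFSet.{u})
    (hf : ∀ n, f n ∈ Theta v) (h : ∀ ξ ∈ β, ∃ n, ξ ∈ f n) : ∀ ξ ∈ j β, ∃ n, ξ ∈ j (f n) := by
  have hT := hj.tower
  obtain ⟨c, hc, H⟩ := Null_codes hT f hf
  have k := (hj.elem.zd3 hT.model_NN hT.model_NN
    (fun M c β μ => ∀ ξ ∈ β, ∃ n ∈ omega, ∃ α ∈ μ, Cod M (sec c n) α ∧ ξ ∈ α)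
    (hT.mem_NN hc) (hT.ord_mem_NN (Null_ord hβ)) (hT.ord_mem_NN (isOrdinal_Theta v))).1
    fun ξ hξ => by
      obtain ⟨m, hm⟩ := h ξ hξ
      exact ⟨nat m, nat_mem_omega m, f m, hf m, H m, hm⟩
  intro ξ hξ
  obtain ⟨n, hn, α, -, hα, hξα⟩ := k ξ hξ
  obtain ⟨m, rfl⟩ := mem_omega_iff.1 hn
  have k2 := Null_j_cod hj (hT.sec_subset hc _) (H m)
  rw [hj.pr.map_sec hj.base hc (hT.sub_of_mem (hT.nat_mem m)), hj.pr.map_nat hj.base] at k2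
  exact ⟨m, by rwa [← Cod.unique hα k2]⟩

theorem Null_mem_fix (hj : Ctx j W v) {β : ZFSet.{u}} :
    β ∈ Psi (NN v) (powerset v) (Theta v) (graph j v) ↔ β ∈ Theta v ∧ j β = β := by
  rw [Null_mem_Psi]
  refine and_congr_right fun hβ => ⟨?_, fun h => ?_⟩
  · rintro ⟨a, ha, h1, h2⟩
    rw [hj.pr.app_graph hj.base (mem_powerset.1 ha)] at h2
    exact Cod.unique (Null_j_cod hj (mem_powerset.1 ha) h1) h2
  · obtain ⟨a, ha, h1⟩ := exists_cod hj.tower hβ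
    refine ⟨a, mem_powerset.2 ha, h1, ?_⟩
    rw [hj.pr.app_graph hj.base ha]
    have h2 := Null_j_cod hj ha h1
    rwa [h] at h2

theorem Null_club_fix (hj : Ctx j W v) :
    Club (NN v) (powerset v) (Theta v) (Psi (NN v) (powerset v) (Theta v) (graph j v)) := by
  have hT := hj.tower
  refine Null_club_intro (fun α hα => ?_) fun β hβ f h1 h2 => ?_
  · have hf : ∀ n, j^[n] (insert α α) ∈ Theta v := fun n => by
      induction n with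
      | zero => exact insert_mem_Theta hT.aleph0_le_v hα
      | succ n ih => rw [Function.iterate_succ_apply']; exact Null_j_mem hj ih
    obtain ⟨β, hβ, hmem⟩ := Null_sup hT (fun n => j^[n] (insert α α)) hf
    refine ⟨β, (Null_mem_fix hj).2 ⟨hβ, ?_⟩, (hmem α).2 ⟨0, mem_insert _ _⟩⟩
    refine ZFSet.ext fun ξ => ⟨fun hξ => ?_, fun hξ => Null_le_j hj β (Null_ord hβ) hξ⟩
    obtain ⟨n, hn⟩ := Null_cont hj hβ _ hf (fun ξ hξ => (hmem ξ).1 hξ) ξ hξ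
    exact (hmem ξ).2 ⟨n + 1, by rw [Function.iterate_succ_apply']; exact hn⟩
  · refine (Null_mem_fix hj).2 ⟨hβ, ?_⟩
    refine ZFSet.ext fun ξ => ⟨fun hξ => ?_, fun hξ => Null_le_j hj β (Null_ord hβ) hξ⟩
    obtain ⟨n, hn⟩ := Null_cont hj hβ f (fun n => ((Null_mem_fix hj).1 (h1 n).1).1) h2 ξ hξ
    rw [((Null_mem_fix hj).1 (h1 n).1).2] at hn
    exact (h1 n).2 hn

theorem exists_big_fix (hj : Ctx j W v) :
    ∃ a, a ⊆ v ∧ ∀ β ∈ Big (NN v) (powerset v) v (Theta v) a, j β = β := by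
  obtain ⟨a, ha, H⟩ := Null_diag hj.tower (fun _ => graph j v)
    fun _ => hj.pr.graph_subset hj.base
  refine ⟨a, ha, fun β hβ => ?_⟩
  have h1 := ((Null_mem_Big.1 hβ).2 ∅ hj.tower.empty_mem).2
  rw [H _ hj.tower.empty_mem] at h1
  exact ((Null_mem_fix hj).1 (h1 (Null_club_fix hj))).2

theorem saturated (hj : Ctx j W v) {T : ZFSet.{u}} (hT : T ∈ NN v)
    (h1 : ∀ ξ ∈ ords (W 0), ¬ Null (NN v) (powerset v) v (Theta v) (sec T ξ))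
    (h2 : ∀ ξ β, pair ξ β ∈ T → ∀ η, pair η β ∈ T → ξ = η)
    (h3 : ∀ ξ β, pair ξ β ∈ T → ξ ∈ ords (W 0)) : False := by
  have ht := hj.tower
  have hN := ht.model_NN
  have k0 : ords (W 0) ∈ ords (W 1) := by
    refine mem_sep.2 ⟨?_, isOrdinal_ords (ht.trans 0)⟩
    exact (ht.univ 0).mem_of_subset (ht.mem 0) fun z hz => (mem_sep.1 hz).1
  have k1 := (hj.elem.zd5 hN hN
    (fun M T W0 A v μ => ∀ ξ ∈ ords W0, ¬ Null M A v μ (sec T ξ)) hT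
    (ht.mem_NN (ht.Y_subset 0)) ht.powerset_mem_NN (ht.mem_NN fun _ h => h)
    (ht.ord_mem_NN (isOrdinal_Theta v))).1 h1
  rw [hj.jW, hj.jA, hj.jv, hj.jTheta] at k1
  have k2 := (hj.elem.zd1 hN hN
    (fun _ T => ∀ ξ β, pair ξ β ∈ T → ∀ η, pair η β ∈ T → ξ = η) hT).1 h2
  obtain ⟨a, ha, H⟩ := exists_big_fix hj
  refine k1 _ k0 ⟨a, mem_powerset.2 ha, fun β hβ hB => ?_⟩
  have hβN := ht.ord_mem_NN (Null_ord (Null_mem_Big.1 hB).1)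
  have hfix := H β hB
  have k3 : pair (ords (W 0)) β ∈ j T := mem_sec.1 hβ
  obtain ⟨ξ, hξ⟩ := (hj.elem.zd2 hN hN (fun _ β T => ∃ ξ, pair ξ β ∈ T) hβN hT).2
    ⟨ords (W 0), by rw [hfix]; exact k3⟩
  have hξ0 := h3 ξ β hξ
  have k4 := (hj.elem.zd3 hN hN (fun _ ξ β T => pair ξ β ∈ T)
    (ht.ord_mem_NN (mem_sep.1 hξ0).2) hβN hT).1 hξ
  rw [hfix, hj.fix ξ (mem_sep.1 hξ0).1] at k4
  obtain rfl := k2 _ _ k4 _ k3
  exact mem_irrefl _ hξ0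

end Pool.Agent.P.MP_37b794_lc.I0
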