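import Pool.Agent.P.MP_37b794_lc.I0.Pres

/-!
Inverse limits: threads.
-/

universe u

set_option synthInstance.maxSize 16384

namespace Pool.Agent.P.MP_37b794_lc.I0

open ZFSet Pool.Agent.Lib.Forcing Pool.Agent.P.MP_af0a18_lc

variable {X : Set ZFSet.{u}} {W U : ℕ → ZFSet.{u}} {v : ZFSet.{u}}
  {K K' : ℕ → ZFSet.{u} → ZFSet.{u}}

theorem Push_inter_left (a b : ZFSet.{u}) : a ∩ b ⊆ a := fun _ h => (mem_inter.1 h).1

theorem Push_inter_right (a b : ZFSet.{u}) : a ∩ b ⊆ b := fun _ h => (mem_inter.1 h).2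

theorem Push_trans {a b c : ZFSet.{u}} (h1 : a ⊆ b) (h2 : b ⊆ c) : a ⊆ c := fun _ h => h2 (h1 h)

theorem Push_inter_inter {a b c : ZFSet.{u}} (h : c ⊆ b) : a ∩ b ∩ c = a ∩ c := by
  ext w
  simp only [mem_inter]
  exact ⟨fun hw => ⟨hw.1.1, hw.2⟩, fun hw => ⟨⟨hw.1, h hw.2⟩, hw.2⟩⟩

theorem Push_inter_self {a b : ZFSet.{u}} (h : a ⊆ b) : a ∩ b = a := by
  ext w
  simp only [mem_inter]
  exact ⟨fun hw => hw.1, fun hw => ⟨hw, h hw⟩⟩

theorem ar_sub (hB : Base X W v) (hK : ∀ i, Pr X v (K i)) {b : ℕ → ZFSet.{u}} (hb : ∀ i, b i ⊆ v)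
    (n i : ℕ) : ar K b n i ⊆ v := by
  induction n generalizing i with
  | zero => exact hb i
  | succ n ih => exact Pres.sub (hK i) hB (ih (i + 1))

theorem asm_sub (hB : Base X W v) (hK : ∀ i, Pr X v (K i)) {b : ℕ → ZFSet.{u}} (hb : ∀ i, b i ⊆ v)
    (i : ℕ) : asm K b i ⊆ v := by
  intro w hw
  obtain ⟨n, hn⟩ := mem_iUnion.1 hw
  exact ar_sub hB hK hb n i hn

theorem asm_eq (hB : Base X W v) (hK : ∀ i, Pr X v (K i)) {b : ℕ → ZFSet.{u}} (hb : ∀ i, b i ⊆ v)
    (i : ℕ) : asm K b i = b i ∪ K i (asm K b (i + 1)) := by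
  have h : K i (asm K b (i + 1)) = iUnion fun n => K i (ar K b n (i + 1)) :=
    Pres.map_iUnion (hK i) hB fun n => ar_sub hB hK hb n (i + 1)
  rw [h]
  ext w
  rw [mem_union]
  constructor
  · intro hw
    obtain ⟨n, hn⟩ := mem_iUnion.1 hw
    cases n with
    | zero => exact Or.inl hn
    | succ n => exact Or.inr (mem_iUnion.2 ⟨n, hn⟩)
  · rintro (hw | hw)
    · exact mem_iUnion.2 ⟨0, hw⟩
    · obtain ⟨n, hn⟩ := mem_iUnion.1 hw
      exact mem_iUnion.2 ⟨n + 1, hn⟩

/-- Inclusion of two sequences, proved level by level. -/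
theorem le_lemma (hB : Base X W v) (hK : ∀ i, Pr X v (K i)) (hW : ∀ i m, K i (W m) = W (m + 1))
    {a t : ℕ → ZFSet.{u}} (ha : ∀ i, a i ⊆ v) (ht : ∀ i, t i ⊆ v)
    (h1 : ∀ i, ∀ w ∈ a i, w ∈ t i ∨ (w ∉ W 1 ∧ w ∈ K i (a (i + 1))))
    (h2 : ∀ i, K i (t (i + 1)) ⊆ t i) (i : ℕ) : a i ⊆ t i := by
  have key : ∀ n i, a i ∩ W (n + 1) ⊆ t i := by
    intro n
    induction n with
    | zero =>
      intro i w hw
      obtain ⟨hwa, hwW⟩ := mem_inter.1 hw
      rcases h1 i w hwa with h | h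
      · exact h
      · exact absurd hwW h.1
    | succ n ih =>
      intro i w hw
      obtain ⟨hwa, hwW⟩ := mem_inter.1 hw
      rcases h1 i w hwa with h | h
      · exact h
      · have e : K i (a (i + 1) ∩ W (n + 1)) = K i (a (i + 1)) ∩ W (n + 1 + 1) := by
          rw [Pres.map_inter (hK i) hB (ha _) (hB.tower.Y_subset _), hW]
        have hs : K i (a (i + 1) ∩ W (n + 1)) ⊆ K i (t (i + 1)) :=
          (Pres.subset_iff (hK i) hB (Push_trans (Push_inter_left _ _) (ha _)) (ht _)).2 (ih (i + 1))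
        apply h2 i
        apply hs
        rw [e]
        exact mem_inter.2 ⟨h.2, hwW⟩
  intro w hw
  obtain ⟨n, hn⟩ := (hB.tower.mem_v w).1 (ha i hw)
  exact key n i (mem_inter.2 ⟨hw, hB.tower.mono (Nat.le_succ n) hn⟩)

namespace Adm
variable (hK : Adm X W v K U) (hB : Base X W v)
include hK hB

theorem U_mem_v (i : ℕ) : U i ∈ v := hB.tower.Y_subset 0 (hK.mem i)

theorem Push_U_sub (i : ℕ) : U i ⊆ v := hB.tower.sub_of_mem (hK.U_mem_v hB i)

theorem Push_U_W (i : ℕ) : U i ⊆ W 0 := hB.tower.trans0 _ (hK.mem i)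

theorem Push_U_succ (i : ℕ) : U i ⊆ U (i + 1) := by
  apply hK.trans (i + 1)
  rw [← Pres.mem_iff (hK.step i).pr hB (hK.Push_U_sub hB i) (hK.Push_U_sub hB (i + 1)),
    (hK.step i).top, (hK.step i).fix _ fun _ h => h]
  exact hK.mem i

theorem U_mono {i i' : ℕ} (h : i ≤ i') : U i ⊆ U i' := by
  induction h with
  | refl => exact fun _ h => h
  | step _ ih => exact Push_trans ih (hK.Push_U_succ hB _)

theorem bar_trans : (iUnion U).IsTransitive := by
  have _ := hB
  exact IsTransitive.iUnion hK.trans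

theorem Push_top {x : ZFSet.{u}} (hx : x ⊆ v) (i : ℕ) : K i (x ∩ U (i + 1)) = K i x ∩ W 0 := by
  rw [Pres.map_inter (hK.step i).pr hB hx (hK.Push_U_sub hB _), (hK.step i).top]

theorem Push_lev {x : ZFSet.{u}} (hx : x ⊆ v) (i m : ℕ) :
    K i (x ∩ W m) = K i x ∩ W (m + 1) := by
  rw [Pres.map_inter (hK.step i).pr hB hx (hB.tower.Y_subset _), (hK.step i).shift]

theorem Push_low {x : ZFSet.{u}} (hx : x ⊆ v) (i : ℕ) : K i x ∩ U i = x ∩ U i := by
  have h1 : K i (x ∩ U i) = x ∩ U i := (hK.step i).fix _ (Push_inter_right _ _)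
  rw [Pres.map_inter (hK.step i).pr hB hx (hK.Push_U_sub hB _),
    (hK.step i).fix (U i) fun _ h => h] at h1
  exact h1

theorem Push_cut_sub (a : ZFSet.{u}) (i : ℕ) : a ∩ U i ⊆ v :=
  Push_trans (Push_inter_right _ _) (hK.Push_U_sub hB i)

theorem Push_b_sub (a : ZFSet.{u}) (i : ℕ) : K i (a ∩ U (i + 1)) ⊆ v :=
  Pres.sub (hK.step i).pr hB (hK.Push_cut_sub hB a _)

theorem Push_b_low (a : ZFSet.{u}) (i : ℕ) : K i (a ∩ U (i + 1)) ∩ U i = a ∩ U i := by
  rw [hK.Push_low hB (hK.Push_cut_sub hB a _), Push_inter_inter (hK.Push_U_succ hB i)]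

theorem push_sub (a : ZFSet.{u}) (i : ℕ) : push K U a i ⊆ v :=
  asm_sub hB (fun i => (hK.step i).pr) (hK.Push_b_sub hB a) i

theorem Push_cut_push (a : ZFSet.{u}) (i : ℕ) : a ∩ U i ⊆ push K U a i := by
  intro w hw
  rw [← hK.Push_b_low hB a i] at hw
  exact mem_iUnion.2 ⟨0, (mem_inter.1 hw).1⟩

theorem push_step (a : ZFSet.{u}) (i : ℕ) : K i (push K U a (i + 1)) = push K U a i := by
  have h : push K U a i = K i (a ∩ U (i + 1)) ∪ K i (push K U a (i + 1)) :=
    asm_eq hB (fun i => (hK.step i).pr) (hK.Push_b_sub hB a) i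
  have hs : K i (a ∩ U (i + 1)) ⊆ K i (push K U a (i + 1)) :=
    (Pres.subset_iff (hK.step i).pr hB (hK.Push_cut_sub hB a _) (hK.push_sub hB a _)).2
      (hK.Push_cut_push hB a _)
  rw [h]
  ext w
  rw [mem_union]
  exact ⟨Or.inr, fun hw => hw.elim (fun h => hs h) id⟩

theorem push_inter (a : ZFSet.{u}) (i : ℕ) : push K U a i ∩ U i = a ∩ U i := by
  have key : ∀ n i, ar K (fun i => K i (a ∩ U (i + 1))) n i ∩ U i ⊆ a := by
    intro n
    induction n with
    | zero =>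
      intro i w hw
      have hw' : w ∈ K i (a ∩ U (i + 1)) ∩ U i := hw
      rw [hK.Push_b_low hB a i] at hw'
      exact (mem_inter.1 hw').1
    | succ n ih =>
      intro i w hw
      have hw' : w ∈ K i (ar K (fun i => K i (a ∩ U (i + 1))) n (i + 1)) ∩ U i := hw
      rw [hK.Push_low hB (ar_sub hB (fun i => (hK.step i).pr) (hK.Push_b_sub hB a) n (i + 1))]
        at hw'
      obtain ⟨h1, h2⟩ := mem_inter.1 hw'
      exact ih (i + 1) (mem_inter.2 ⟨h1, hK.Push_U_succ hB i h2⟩)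
  ext w
  constructor
  · intro hw
    obtain ⟨h1, h2⟩ := mem_inter.1 hw
    obtain ⟨n, hn⟩ := mem_iUnion.1 h1
    exact mem_inter.2 ⟨key n i (mem_inter.2 ⟨hn, h2⟩), h2⟩
  · intro hw
    exact mem_inter.2 ⟨hK.Push_cut_push hB a i hw, (mem_inter.1 hw).2⟩

/-- Two threads that start at `n0` and have the same restrictions are equal. -/
theorem Push_uniq {s t : ℕ → ZFSet.{u}} {n0 : ℕ} (hs : ∀ i, s i ⊆ v) (ht : ∀ i, t i ⊆ v)
    (h1 : ∀ i, n0 ≤ i → K i (s (i + 1)) = s i) (h2 : ∀ i, n0 ≤ i → K i (t (i + 1)) = t i)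
    (h3 : ∀ i, n0 ≤ i → s i ∩ U i = t i ∩ U i) (i : ℕ) (hi : n0 ≤ i) : s i = t i := by
  have key : ∀ n i, n0 ≤ i → s i ∩ W n = t i ∩ W n := by
    intro n
    induction n with
    | zero =>
      intro i hi
      rw [← h1 i hi, ← h2 i hi, ← hK.Push_top hB (hs _), ← hK.Push_top hB (ht _),
        h3 (i + 1) (Nat.le_succ_of_le hi)]
    | succ n ih =>
      intro i hi
      rw [← h1 i hi, ← h2 i hi, ← hK.Push_lev hB (hs _), ← hK.Push_lev hB (ht _),
        ih (i + 1) (Nat.le_succ_of_le hi)]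
  ext w
  constructor
  · intro hw
    obtain ⟨n, hn⟩ := (hB.tower.mem_v w).1 (hs i hw)
    have : w ∈ s i ∩ W n := mem_inter.2 ⟨hw, hn⟩
    rw [key n i hi] at this
    exact (mem_inter.1 this).1
  · intro hw
    obtain ⟨n, hn⟩ := (hB.tower.mem_v w).1 (ht i hw)
    have : w ∈ t i ∩ W n := mem_inter.2 ⟨hw, hn⟩
    rw [← key n i hi] at this
    exact (mem_inter.1 this).1

theorem thread_unique {t : ℕ → ZFSet.{u}} {a : ZFSet.{u}} (ht : ∀ i, t i ⊆ v)
    (h1 : ∀ i, K i (t (i + 1)) = t i) (h2 : ∀ i, t i ∩ U i = a ∩ U i) (i : ℕ) :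
    t i = push K U a i :=
  hK.Push_uniq hB (n0 := 0) ht (hK.push_sub hB a) (fun i _ => h1 i)
    (fun i _ => hK.push_step hB a i) (fun i _ => (h2 i).trans (hK.push_inter hB a i).symm) i
    (Nat.zero_le i)

/-- A coherent sequence of restrictions glues. -/
theorem Push_glue {y : ℕ → ZFSet.{u}} (h : ∀ i, y (i + 1) ∩ U i = y i ∩ U i) (i : ℕ) :
    (iUnion fun n => y n ∩ U n) ∩ U i = y i ∩ U i := by
  have key : ∀ {m n : ℕ}, m ≤ n → y n ∩ U m = y m ∩ U m := by
    intro m n hmn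
    induction hmn with
    | refl => rfl
    | @step n hmn ih =>
      rw [← ih, ← Push_inter_inter (a := y n) (hK.U_mono hB hmn), ← h n,
        Push_inter_inter (hK.U_mono hB hmn)]
  ext w
  constructor
  · intro hw
    obtain ⟨h1, h2⟩ := mem_inter.1 hw
    obtain ⟨n, hn⟩ := mem_iUnion.1 h1
    rcases le_total n i with hni | hni
    · rw [← key hni] at hn
      exact mem_inter.2 ⟨(mem_inter.1 hn).1, h2⟩
    · rw [← key hni]
      exact mem_inter.2 ⟨(mem_inter.1 hn).1, h2⟩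
  · intro hw
    exact mem_inter.2 ⟨mem_iUnion.2 ⟨i, hw⟩, (mem_inter.1 hw).2⟩

theorem thread_eq_push {t : ℕ → ZFSet.{u}} (ht : ∀ i, t i ⊆ v)
    (h1 : ∀ i, K i (t (i + 1)) = t i) (i : ℕ) :
    push K U (iUnion fun n => t n ∩ U n) i = t i := by
  refine (hK.thread_unique hB ht h1 (fun i => (hK.Push_glue hB (fun i => ?_) i).symm) i).symm
  rw [← hK.Push_low hB (ht (i + 1)) i, h1 i]

theorem push_bar (a : ZFSet.{u}) (i : ℕ) : push K U (a ∩ iUnion U) i = push K U a i := by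
  refine hK.thread_unique hB (hK.push_sub hB _) (hK.push_step hB _) (fun i => ?_) i
  rw [hK.push_inter hB, Push_inter_inter (subset_iUnion U i)]

theorem push_top (i : ℕ) : push K U (iUnion U) i = v := by
  refine (hK.thread_unique hB (t := fun _ => v) (fun _ _ h => h)
    (fun i => (hK.step i).pr.fix) (fun i => ?_) i).symm
  ext w
  simp only [mem_inter]
  exact ⟨fun hw => ⟨subset_iUnion U i hw.2, hw.2⟩, fun hw => ⟨hK.Push_U_sub hB i hw.2, hw.2⟩⟩

theorem push_congr (hK' : Adm X W v K' U) {a : ZFSet.{u}}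
    (h : ∀ i, K' i (push K U a (i + 1)) = K i (push K U a (i + 1))) (i : ℕ) :
    push K' U a i = push K U a i :=
  (hK'.thread_unique hB (hK.push_sub hB a) (fun i => (h i).trans (hK.push_step hB a i))
    (hK.push_inter hB a) i).symm

theorem push_inj {a b : ZFSet.{u}} (ha : a ⊆ iUnion U) (hb : b ⊆ iUnion U)
    (h : push K U a 0 = push K U b 0) : a = b := by
  have key : ∀ i, push K U a i = push K U b i := by
    intro i
    induction i with
    | zero => exact h
    | succ i ih =>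
      rw [← Pres.inj (hK.step i).pr hB (hK.push_sub hB a _) (hK.push_sub hB b _),
        hK.push_step hB, hK.push_step hB]
      exact ih
  have key2 : ∀ i, a ∩ U i = b ∩ U i := fun i => by
    rw [← hK.push_inter hB a, ← hK.push_inter hB b, key]
  ext w
  constructor
  · intro hw
    obtain ⟨n, hn⟩ := mem_iUnion.1 (ha hw)
    have : w ∈ a ∩ U n := mem_inter.2 ⟨hw, hn⟩
    rw [key2] at this
    exact (mem_inter.1 this).1
  · intro hw
    obtain ⟨n, hn⟩ := mem_iUnion.1 (hb hw)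
    have : w ∈ b ∩ U n := mem_inter.2 ⟨hw, hn⟩
    rw [← key2] at this
    exact (mem_inter.1 this).1

theorem Push_mem_all (a b : ZFSet.{u}) (i : ℕ) :
    push K U a 0 ∈ push K U b 0 ↔ push K U a i ∈ push K U b i := by
  induction i with
  | zero => exact Iff.rfl
  | succ i ih =>
    rw [ih, ← Pres.mem_iff (hK.step i).pr hB (hK.push_sub hB a (i + 1))
      (hK.push_sub hB b (i + 1)), hK.push_step hB, hK.push_step hB]

theorem Push_const {a : ZFSet.{u}} {n : ℕ} (ha : a ⊆ U n) : push K U a n = a :=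
  hK.Push_uniq hB (n0 := n) (t := fun _ => a) (hK.push_sub hB a)
    (fun _ => Push_trans ha (hK.Push_U_sub hB n)) (fun i _ => hK.push_step hB a i)
    (fun i hi => (hK.step i).fix a (Push_trans ha (hK.U_mono hB hi)))
    (fun i _ => hK.push_inter hB a i) n le_rfl

theorem Push_descend (a : ZFSet.{u}) (n i : ℕ) (h : push K U a i ∈ W n) :
    ∃ j, push K U a j ∈ U j := by
  induction n generalizing i with
  | zero =>
    refine ⟨i + 1, ?_⟩
    rw [← Pres.mem_iff (hK.step i).pr hB (hK.push_sub hB a _) (hK.Push_U_sub hB _),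
      hK.push_step hB, (hK.step i).top]
    exact h
  | succ n ih =>
    refine ih (i + 1) ?_
    rw [← Pres.mem_iff (hK.step i).pr hB (hK.push_sub hB a _) (hB.tower.Y_subset _),
      hK.push_step hB, (hK.step i).shift]
    exact h

theorem Push_eq_of_mem {a : ZFSet.{u}} (ha : a ⊆ iUnion U) {j : ℕ} (h : push K U a j ∈ U j) :
    push K U a j = a := by
  have hc : push K U a j ⊆ U j := hK.trans j _ h
  have key : ∀ {i : ℕ}, j ≤ i → push K U a i = push K U a j := by
    intro i hi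
    induction hi with
    | refl => rfl
    | @step i hi ih =>
      rw [← Pres.inj (hK.step i).pr hB (hK.push_sub hB a _) (hK.push_sub hB a _),
        hK.push_step hB, ih, (hK.step i).fix _ (Push_trans hc (hK.U_mono hB hi))]
  ext w
  constructor
  · intro hw
    have : w ∈ push K U a j ∩ U j := mem_inter.2 ⟨hw, hc hw⟩
    rw [hK.push_inter hB] at this
    exact (mem_inter.1 this).1
  · intro hw
    obtain ⟨n, hn⟩ := mem_iUnion.1 (ha hw)
    rw [← key (le_max_left j n)]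
    exact hK.Push_cut_push hB a _ (mem_inter.2 ⟨hw, hK.U_mono hB (le_max_right j n) hn⟩)

theorem push_mem_iff {a b : ZFSet.{u}} (ha : a ⊆ iUnion U) (hb : b ⊆ iUnion U) :
    push K U a 0 ∈ push K U b 0 ↔ a ∈ b := by
  constructor
  · intro h
    obtain ⟨n, hn⟩ := (hB.tower.mem_v _).1 (hK.push_sub hB b 0 h)
    obtain ⟨j, hj⟩ := hK.Push_descend hB a n 0 hn
    have h1 : push K U a j ∈ push K U b j ∩ U j :=
      mem_inter.2 ⟨(hK.Push_mem_all hB a b j).1 h, hj⟩
    rw [hK.push_inter hB, hK.Push_eq_of_mem hB ha hj] at h1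
    exact (mem_inter.1 h1).1
  · intro h
    obtain ⟨n, hn⟩ := mem_iUnion.1 (hb h)
    rw [hK.Push_mem_all hB a b n, hK.Push_const hB (hK.trans n _ hn)]
    exact hK.Push_cut_push hB b n (mem_inter.2 ⟨h, hn⟩)

theorem push_sat (φ : Fml) (e : Env.{u}) (n : ℕ) :
    Sat X φ (fun i => push K U (e i) n) ↔ Sat X φ (fun i => push K U (e i) 0) := by
  induction n with
  | zero => exact Iff.rfl
  | succ n ih =>
    rw [← ih, ← Pres.sat (hK.step n).pr hB φ (e := fun i => push K U (e i) (n + 1))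
      (fun i => hK.push_sub hB _ _)]
    have : (fun i => K n (push K U (e i) (n + 1))) = fun i => push K U (e i) n :=
      funext fun i => hK.push_step hB _ _
    rw [this]

/-- For a coherent sequence `y` of elements of `W 0` there is one set whose thread restricts
to `y`. -/
theorem exists_bar {y : ℕ → ZFSet.{u}} (hy : ∀ i, y i ∈ W 0)
    (h : ∀ i, K i (y (i + 1)) ∩ W 0 = y i) (i : ℕ) :
    push K U (iUnion fun n => y n ∩ U n) i ∩ W 1 = K i (y (i + 1)) := by
  have hyv : ∀ i, y i ⊆ v := fun i => hB.tower.sub_of_mem (hB.tower.Y_subset 0 (hy i))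
  have h1 : ∀ i, y (i + 1) ∩ U i = y i ∩ U i := fun i => by
    rw [← hK.Push_low hB (hyv (i + 1)) i, ← Push_inter_inter (hK.Push_U_W hB i), h i]
  have h2 : ∀ i, push K U (iUnion fun n => y n ∩ U n) i ∩ W 0 = y i := fun i => by
    rw [← hK.push_step hB, ← hK.Push_top hB (hK.push_sub hB _ _), hK.push_inter hB,
      hK.Push_glue hB h1, hK.Push_top hB (hyv _), h i]
  rw [← hK.push_step hB, ← hK.Push_lev hB (hK.push_sub hB _ _) i 0, h2]

end Adm

end Pool.Agent.P.MP_37b794_lc.I0
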