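import Pool.Agent.Lib.Constructible.Choice

/-!
Uniform definability over all transitive models of ZF, without parameters, organised for
instance search. `ZD R`: one formula defines `R M` in every model `M`. `ZT t`: the operation
`t M` maps `M` into `M` and one formula defines its graph.
-/

universe u

set_option synthInstance.maxSize 16384

namespace Pool.Agent.P.MP_37b794_lc.I0

open ZFSet Pool.Agent.Lib.Forcing

/-- One formula defines `R M` over every transitive model `M` of ZF. -/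
class ZD (R : Set ZFSet.{u} → Env.{u} → Prop) : Prop where
  out : ∃ φ : Fml, ∀ M : Set ZFSet.{u}, IsZFModel M → ∀ e : Env.{u}, (∀ i, e i ∈ M) →
    (R M e ↔ Sat M φ e)

/-- Uniformly definable operations. -/
class ZT (t : Set ZFSet.{u} → Env.{u} → ZFSet.{u}) : Prop where
  mem : ∀ M : Set ZFSet.{u}, IsZFModel M → ∀ e : Env.{u}, (∀ i, e i ∈ M) → t M e ∈ M
  df : ZD (fun M e => e 0 = t M (fun i => e (i + 1)))

theorem ZD.congr {R S : Set ZFSet.{u} → Env.{u} → Prop} (h : ZD R)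
    (hRS : ∀ M, IsZFModel M → ∀ e : Env.{u}, (∀ i, e i ∈ M) → (R M e ↔ S M e)) : ZD S := by
  obtain ⟨φ, h⟩ := h.out
  exact ⟨φ, fun M hM e he => (hRS M hM e he).symm.trans (h M hM e he)⟩

theorem ZD.rename {R : Set ZFSet.{u} → Env.{u} → Prop} (h : ZD R) (f : ℕ → ℕ) :
    ZD (fun M e => R M (fun i => e (f i))) := by
  obtain ⟨φ, h⟩ := h.out
  exact ⟨φ.rename f, fun M hM e he => by rw [sat_rename]; exact h M hM _ fun _ => he _⟩

theorem ZD.sat (φ : Fml) : ZD.{u} (fun M e => Sat M φ e) := ⟨φ, fun _ _ _ _ => Iff.rfl⟩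

theorem ZD.ofUDf {R : Set ZFSet.{u} → Env.{u} → Prop} (h : UDf R) : ZD R := by
  obtain ⟨φ, h⟩ := h.out
  exact ⟨φ, fun M hM e he => h M hM.zfm.toTrans e he⟩

/-- A uniformly definable predicate is definable in each model. -/
theorem ZD.toDf {R : Set ZFSet.{u} → Env.{u} → Prop} (h : ZD R) {M : Set ZFSet.{u}}
    (hM : IsZFModel M) : Df M (R M) := by
  obtain ⟨φ, h⟩ := h.out
  have := hM.zfm
  exact (Df.sat φ).congr fun e he => (h M hM e he).symm

theorem ZT.toTm {t : Set ZFSet.{u} → Env.{u} → ZFSet.{u}} (h : ZT t) {M : Set ZFSet.{u}}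
    (hM : IsZFModel M) : Tm M (t M) := ⟨h.mem M hM, h.df.toDf hM⟩

instance ZD.not {R : Set ZFSet.{u} → Env.{u} → Prop} [h : ZD R] : ZD (fun M e => ¬ R M e) := by
  obtain ⟨φ, h⟩ := h.out
  exact ⟨.neg φ, fun M hM e he => not_congr (h M hM e he)⟩

instance ZD.and {R S : Set ZFSet.{u} → Env.{u} → Prop} [h : ZD R] [k : ZD S] :
    ZD (fun M e => R M e ∧ S M e) := by
  obtain ⟨φ, h⟩ := h.out
  obtain ⟨ψ, k⟩ := k.out
  exact ⟨.and φ ψ, fun M hM e he => and_congr (h M hM e he) (k M hM e he)⟩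

theorem ZD.all' {R : Set ZFSet.{u} → Env.{u} → Prop} (h : ZD R) :
    ZD (fun M e => ∀ x ∈ M, R M (cons x e)) := by
  obtain ⟨φ, h⟩ := h.out
  exact ⟨.all φ, fun M hM e he => forall_congr' fun x => forall_congr' fun hx =>
    h M hM _ (cons_mem hx he)⟩

instance ZD.allM {R : Set ZFSet.{u} → ZFSet.{u} → Env.{u} → Prop}
    [h : ZD (fun M e => R M (e 0) (fun i => e (i + 1)))] : ZD (fun M e => ∀ x ∈ M, R M x e) :=
  h.all'

instance ZD.imp {R S : Set ZFSet.{u} → Env.{u} → Prop} [ZD R] [ZD S] :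
    ZD (fun M e => R M e → S M e) :=
  (inferInstance : ZD (fun M e => ¬ (R M e ∧ ¬ S M e))).congr fun _ _ _ _ => by tauto

instance ZD.or {R S : Set ZFSet.{u} → Env.{u} → Prop} [ZD R] [ZD S] :
    ZD (fun M e => R M e ∨ S M e) :=
  (inferInstance : ZD (fun M e => ¬ R M e → S M e)).congr fun _ _ _ _ => by tauto

instance ZD.iff {R S : Set ZFSet.{u} → Env.{u} → Prop} [ZD R] [ZD S] :
    ZD (fun M e => R M e ↔ S M e) :=
  (inferInstance : ZD (fun M e => (R M e → S M e) ∧ (S M e → R M e))).congr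
    fun _ _ _ _ => by tauto

instance ZD.exM {R : Set ZFSet.{u} → ZFSet.{u} → Env.{u} → Prop}
    [ZD (fun M e => R M (e 0) (fun i => e (i + 1)))] : ZD (fun M e => ∃ x ∈ M, R M x e) :=
  (inferInstance : ZD (fun M e => ¬ ∀ x ∈ M, ¬ R M x e)).congr fun _ _ _ _ => by push Not; rfl

instance ZT.var (i : ℕ) : ZT.{u} (fun _ e => e i) :=
  ⟨fun _ _ _ he => he i, ZD.sat (.eq 0 (i + 1))⟩

theorem ZT.rename {t : Set ZFSet.{u} → Env.{u} → ZFSet.{u}} (h : ZT t) (f : ℕ → ℕ) :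
    ZT (fun M e => t M (fun i => e (f i))) :=
  ⟨fun M hM _ he => h.mem M hM _ fun _ => he _, h.df.rename (up f)⟩

theorem ZT.shift {t : Set ZFSet.{u} → Env.{u} → ZFSet.{u}} (h : ZT t) :
    ZT (fun M e => t M (fun i => e (i + 1))) := h.rename (· + 1)

theorem ZD.consTm {R : Set ZFSet.{u} → Env.{u} → Prop} (h : ZD R)
    {s : Set ZFSet.{u} → Env.{u} → ZFSet.{u}} (hs : ZT s) :
    ZD (fun M e => R M (cons (s M e) e)) := by
  have h1 : ZD (fun M e => (e 0 = s M (fun i => e (i + 1))) → R M e) := @ZD.imp _ _ hs.df h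
  refine h1.all'.congr fun M hM e he => ?_
  constructor
  · intro H; exact H _ (hs.mem M hM e he) rfl
  · rintro H x - (rfl : x = s M e); exact H

section subst
variable {s t w v z y : Set ZFSet.{u} → Env.{u} → ZFSet.{u}}

theorem ZD.subst1 {R : Set ZFSet.{u} → ZFSet.{u} → Prop} (h : ZD (fun M e => R M (e 0)))
    (hs : ZT s) : ZD (fun M e => R M (s M e)) := h.consTm hs

theorem ZD.subst2 {R : Set ZFSet.{u} → ZFSet.{u} → ZFSet.{u} → Prop}
    (h : ZD (fun M e => R M (e 0) (e 1))) (hs : ZT s) (ht : ZT t) :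
    ZD (fun M e => R M (s M e) (t M e)) := (h.consTm hs.shift).consTm ht

theorem ZD.subst3 {R : Set ZFSet.{u} → ZFSet.{u} → ZFSet.{u} → ZFSet.{u} → Prop}
    (h : ZD (fun M e => R M (e 0) (e 1) (e 2))) (hs : ZT s) (ht : ZT t) (hw : ZT w) :
    ZD (fun M e => R M (s M e) (t M e) (w M e)) :=
  ((h.consTm hs.shift.shift).consTm ht.shift).consTm hw

theorem ZD.subst4 {R : Set ZFSet.{u} → ZFSet.{u} → ZFSet.{u} → ZFSet.{u} → ZFSet.{u} → Prop}
    (h : ZD (fun M e => R M (e 0) (e 1) (e 2) (e 3))) (hs : ZT s) (ht : ZT t) (hw : ZT w)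
    (hv : ZT v) : ZD (fun M e => R M (s M e) (t M e) (w M e) (v M e)) :=
  (((h.consTm hs.shift.shift.shift).consTm ht.shift.shift).consTm hw.shift).consTm hv

theorem ZD.subst5
    {R : Set ZFSet.{u} → ZFSet.{u} → ZFSet.{u} → ZFSet.{u} → ZFSet.{u} → ZFSet.{u} → Prop}
    (h : ZD (fun M e => R M (e 0) (e 1) (e 2) (e 3) (e 4))) (hs : ZT s) (ht : ZT t) (hw : ZT w)
    (hv : ZT v) (hz : ZT z) : ZD (fun M e => R M (s M e) (t M e) (w M e) (v M e) (z M e)) :=
  ((((h.consTm hs.shift.shift.shift.shift).consTm ht.shift.shift.shift).consTm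
    hw.shift.shift).consTm hv.shift).consTm hz

theorem ZD.subst6 {R : Set ZFSet.{u} → ZFSet.{u} → ZFSet.{u} → ZFSet.{u} → ZFSet.{u} →
      ZFSet.{u} → ZFSet.{u} → Prop}
    (h : ZD (fun M e => R M (e 0) (e 1) (e 2) (e 3) (e 4) (e 5))) (hs : ZT s) (ht : ZT t)
    (hw : ZT w) (hv : ZT v) (hz : ZT z) (hy : ZT y) :
    ZD (fun M e => R M (s M e) (t M e) (w M e) (v M e) (z M e) (y M e)) :=
  (((((h.consTm hs.shift.shift.shift.shift.shift).consTm ht.shift.shift.shift.shift).consTm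
    hw.shift.shift.shift).consTm hv.shift.shift).consTm hz.shift).consTm hy

theorem ZT.subst1 {F : Set ZFSet.{u} → ZFSet.{u} → ZFSet.{u}} (h : ZT (fun M e => F M (e 0)))
    (hs : ZT s) : ZT (fun M e => F M (s M e)) :=
  ⟨fun M hM e he => h.mem M hM (fun _ => s M e) fun _ => hs.mem M hM e he,
    ZD.subst2 (R := fun M a b => a = F M b) h.df (ZT.var 0) hs.shift⟩

theorem ZT.subst2 {F : Set ZFSet.{u} → ZFSet.{u} → ZFSet.{u} → ZFSet.{u}}
    (h : ZT (fun M e => F M (e 0) (e 1))) (hs : ZT s) (ht : ZT t) :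
    ZT (fun M e => F M (s M e) (t M e)) :=
  ⟨fun M hM e he => h.mem M hM (cons (s M e) fun _ => t M e)
      (cons_mem (hs.mem M hM e he) fun _ => ht.mem M hM e he),
    ZD.subst3 (R := fun M a b c => a = F M b c) h.df (ZT.var 0) hs.shift ht.shift⟩

theorem ZT.subst3 {F : Set ZFSet.{u} → ZFSet.{u} → ZFSet.{u} → ZFSet.{u} → ZFSet.{u}}
    (h : ZT (fun M e => F M (e 0) (e 1) (e 2))) (hs : ZT s) (ht : ZT t) (hw : ZT w) :
    ZT (fun M e => F M (s M e) (t M e) (w M e)) :=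
  ⟨fun M hM e he => h.mem M hM (cons (s M e) (cons (t M e) fun _ => w M e))
      (cons_mem (hs.mem M hM e he) (cons_mem (ht.mem M hM e he) fun _ => hw.mem M hM e he)),
    ZD.subst4 (R := fun M a b c d => a = F M b c d) h.df (ZT.var 0) hs.shift ht.shift hw.shift⟩

theorem ZT.subst4 {F : Set ZFSet.{u} → ZFSet.{u} → ZFSet.{u} → ZFSet.{u} → ZFSet.{u} → ZFSet.{u}}
    (h : ZT (fun M e => F M (e 0) (e 1) (e 2) (e 3))) (hs : ZT s) (ht : ZT t) (hw : ZT w)
    (hv : ZT v) : ZT (fun M e => F M (s M e) (t M e) (w M e) (v M e)) :=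
  ⟨fun M hM e he => h.mem M hM (cons (s M e) (cons (t M e) (cons (w M e) fun _ => v M e)))
      (cons_mem (hs.mem M hM e he) (cons_mem (ht.mem M hM e he) (cons_mem (hw.mem M hM e he)
        fun _ => hv.mem M hM e he))),
    ZD.subst5 (R := fun M a b c d f => a = F M b c d f) h.df (ZT.var 0) hs.shift ht.shift
      hw.shift hv.shift⟩

/-- An operation that is definable in every model and has a uniformly definable graph. -/
theorem ZT.ofTm {t : Set ZFSet.{u} → Env.{u} → ZFSet.{u}}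
    (hm : ∀ M, IsZFModel M → Tm M (t M)) (h : ZD (fun M e => e 0 = t M (fun i => e (i + 1)))) :
    ZT t := ⟨fun M hM => (hm M hM).mem, h⟩

instance ZD.mem [hs : ZT s] [ht : ZT t] : ZD (fun M e => s M e ∈ t M e) :=
  ZD.subst2 (R := fun _ a b => a ∈ b) (ZD.sat (.mem 0 1)) hs ht

instance ZD.eq [hs : ZT s] [ht : ZT t] : ZD (fun M e => s M e = t M e) :=
  ZD.subst2 (R := fun _ a b => a = b) (ZD.sat (.eq 0 1)) hs ht

instance ZD.allIn [ht : ZT t] {R : Set ZFSet.{u} → ZFSet.{u} → Env.{u} → Prop}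
    [ZD (fun M e => R M (e 0) (fun i => e (i + 1)))] : ZD (fun M e => ∀ x ∈ t M e, R M x e) :=
  have := ht.shift
  (inferInstance : ZD (fun M e => ∀ x ∈ M, x ∈ t M e → R M x e)).congr fun M hM e he =>
    ⟨fun H x hx => H x (hM.transitive _ (ht.mem M hM e he) x hx) hx, fun H x _ hx => H x hx⟩

instance ZD.exIn [ht : ZT t] {R : Set ZFSet.{u} → ZFSet.{u} → Env.{u} → Prop}
    [ZD (fun M e => R M (e 0) (fun i => e (i + 1)))] : ZD (fun M e => ∃ x ∈ t M e, R M x e) :=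
  (inferInstance : ZD (fun M e => ¬ ∀ x ∈ t M e, ¬ R M x e)).congr
    fun _ _ _ _ => by push Not; rfl

instance ZD.subset [hs : ZT s] [ht : ZT t] : ZD (fun M e => s M e ⊆ t M e) :=
  ZD.subst2 (R := fun _ a b => a ⊆ b)
    ((inferInstance : ZD (fun _ e => ∀ x ∈ e 0, x ∈ e 1)).congr fun _ _ _ _ => Iff.rfl) hs ht

instance ZD.ne [ZT s] [ZT t] : ZD (fun M e => s M e ≠ t M e) :=
  (inferInstance : ZD (fun M e => ¬ s M e = t M e))

instance ZD.notMem [ZT s] [ZT t] : ZD (fun M e => s M e ∉ t M e) :=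
  (inferInstance : ZD (fun M e => ¬ s M e ∈ t M e))

instance ZD.isTransitive [hs : ZT s] : ZD (fun M e => (s M e).IsTransitive) :=
  ZD.subst1 (R := fun _ a => a.IsTransitive)
    ((inferInstance : ZD (fun _ e => ∀ x ∈ e 0, x ⊆ e 0)).congr fun _ _ _ _ => Iff.rfl) hs

instance ZD.isOrdinal [hs : ZT s] : ZD (fun M e => (s M e).IsOrdinal) :=
  ZD.subst1 (R := fun _ a => a.IsOrdinal)
    ((inferInstance : ZD (fun _ e => (e 0).IsTransitive ∧ ∀ x ∈ e 0, x.IsTransitive)).congr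
      fun _ _ _ _ => isOrdinal_iff_forall_mem_isTransitive.symm) hs

instance ZT.empty : ZT.{u} (fun _ _ => ∅) :=
  ⟨fun _ hM _ _ => hM.zfm.toTrans.empty,
    (inferInstance : ZD (fun _ e => ∀ z ∈ e 0, z ≠ z)).congr fun _ _ e _ => by
      rw [ZFSet.eq_empty]; simp⟩

instance ZT.omega : ZT.{u} (fun _ _ => ZFSet.omega) :=
  ⟨fun _ hM _ _ => hM.infinity,
    (ZD.ofUDf (UDf.isOmega 0)).congr fun _ _ _ _ => isOmega_iff⟩

instance ZT.singleton [hs : ZT s] : ZT (fun M e => ({s M e} : ZFSet.{u})) :=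
  ZT.subst1 (F := fun _ a => ({a} : ZFSet.{u}))
    (ZT.ofTm (fun _ hM => have := hM.zfm; inferInstance)
      ((inferInstance : ZD (fun _ e => e 1 ∈ e 0 ∧ ∀ z ∈ e 0, z = e 1)).congr fun _ _ e _ => by
      constructor
      · rintro ⟨h1, h2⟩
        ext z
        rw [mem_singleton]
        exact ⟨h2 z, fun h => h ▸ h1⟩
      · intro h; rw [h]; simp)) hs

instance ZT.insert [hs : ZT s] [ht : ZT t] :
    ZT (fun M e => (insert (s M e) (t M e) : ZFSet.{u})) :=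
  ZT.subst2 (F := fun _ a b => (Insert.insert a b : ZFSet.{u}))
    (ZT.ofTm (fun _ hM => have := hM.zfm; inferInstance)
      ((inferInstance : ZD (fun _ e => e 1 ∈ e 0 ∧ e 2 ⊆ e 0 ∧
        ∀ z ∈ e 0, z = e 1 ∨ z ∈ e 2)).congr fun _ _ e _ => by
      constructor
      · rintro ⟨h1, h2, h3⟩
        ext z
        rw [mem_insert_iff]
        exact ⟨h3 z, fun h => h.elim (fun h => h ▸ h1) (fun h => h2 h)⟩
      · intro h; rw [h]
        exact ⟨mem_insert _ _, fun z hz => mem_insert_of_mem _ hz,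
          fun z hz => mem_insert_iff.1 hz⟩)) hs ht

instance ZT.pair [ZT s] [ZT t] : ZT (fun M e => pair (s M e) (t M e)) :=
  (inferInstance : ZT (fun M e => ({{s M e}, {s M e, t M e}} : ZFSet.{u})))

instance ZT.nat (n : ℕ) : ZT.{u} (fun _ _ => nat n) := by
  induction n with
  | zero => exact ZT.empty
  | succ n ih => exact @ZT.insert _ _ ih ih

instance ZT.sUnion [hs : ZT s] : ZT (fun M e => (⋃₀ (s M e) : ZFSet.{u})) :=
  ZT.subst1 (F := fun _ a => (⋃₀ a : ZFSet.{u}))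
    (ZT.ofTm (fun _ hM => have := hM.zfm; inferInstance)
      ((inferInstance : ZD (fun _ e => (∀ z ∈ e 0, ∃ w ∈ e 1, z ∈ w) ∧
        ∀ w ∈ e 1, w ⊆ e 0)).congr fun _ _ e _ => by
      constructor
      · rintro ⟨h1, h2⟩
        ext z
        rw [mem_sUnion]
        exact ⟨h1 z, fun ⟨w, hw, hz⟩ => h2 w hw hz⟩
      · intro h; rw [h]
        exact ⟨fun z hz => mem_sUnion.1 hz, fun w hw z hz => mem_sUnion.2 ⟨w, hw, hz⟩⟩)) hs

instance ZD.allPair [ht : ZT t] {R : Set ZFSet.{u} → ZFSet.{u} → ZFSet.{u} → Env.{u} → Prop}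
    [ZD (fun M e => R M (e 1) (e 0) (fun i => e (i + 1 + 1)))] :
    ZD (fun M e => ∀ a b, pair a b ∈ t M e → R M a b e) :=
  have := ht.shift.shift
  (inferInstance : ZD (fun M e => ∀ a ∈ M, ∀ b ∈ M, pair a b ∈ t M e → R M a b e)).congr
    fun M hM e he =>
      have := hM.zfm
      ⟨fun H a b h => H a (fst_mem (ht.mem M hM e he) h) b (snd_mem (ht.mem M hM e he) h) h,
        fun H a _ b _ h => H a b h⟩

instance ZD.exPair [ht : ZT t] {R : Set ZFSet.{u} → ZFSet.{u} → ZFSet.{u} → Env.{u} → Prop}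
    [ZD (fun M e => R M (e 1) (e 0) (fun i => e (i + 1 + 1)))] :
    ZD (fun M e => ∃ a b, pair a b ∈ t M e ∧ R M a b e) :=
  (inferInstance : ZD (fun M e => ¬ ∀ a b, pair a b ∈ t M e → ¬ R M a b e)).congr
    fun _ _ _ _ => by push Not; rfl

instance ZD.allSnd [hs : ZT s] [ht : ZT t] {R : Set ZFSet.{u} → ZFSet.{u} → Env.{u} → Prop}
    [ZD (fun M e => R M (e 0) (fun i => e (i + 1)))] :
    ZD (fun M e => ∀ b, pair (s M e) b ∈ t M e → R M b e) :=
  have := ht.shift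
  have := hs.shift
  (inferInstance : ZD (fun M e => ∀ b ∈ M, pair (s M e) b ∈ t M e → R M b e)).congr
    fun M hM e he =>
      have := hM.zfm
      ⟨fun H b h => H b (snd_mem (ht.mem M hM e he) h) h, fun H b _ h => H b h⟩

instance ZD.exSnd [hs : ZT s] [ht : ZT t] {R : Set ZFSet.{u} → ZFSet.{u} → Env.{u} → Prop}
    [ZD (fun M e => R M (e 0) (fun i => e (i + 1)))] :
    ZD (fun M e => ∃ b, pair (s M e) b ∈ t M e ∧ R M b e) :=
  (inferInstance : ZD (fun M e => ¬ ∀ b, pair (s M e) b ∈ t M e → ¬ R M b e)).congr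
    fun _ _ _ _ => by push Not; rfl

instance ZD.allFst [hs : ZT s] [ht : ZT t] {R : Set ZFSet.{u} → ZFSet.{u} → Env.{u} → Prop}
    [ZD (fun M e => R M (e 0) (fun i => e (i + 1)))] :
    ZD (fun M e => ∀ a, pair a (s M e) ∈ t M e → R M a e) :=
  have := ht.shift
  have := hs.shift
  (inferInstance : ZD (fun M e => ∀ a ∈ M, pair a (s M e) ∈ t M e → R M a e)).congr
    fun M hM e he =>
      have := hM.zfm
      ⟨fun H a h => H a (fst_mem (ht.mem M hM e he) h) h, fun H a _ h => H a h⟩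

instance ZD.exFst [hs : ZT s] [ht : ZT t] {R : Set ZFSet.{u} → ZFSet.{u} → Env.{u} → Prop}
    [ZD (fun M e => R M (e 0) (fun i => e (i + 1)))] :
    ZD (fun M e => ∃ a, pair a (s M e) ∈ t M e ∧ R M a e) :=
  (inferInstance : ZD (fun M e => ¬ ∀ a, pair a (s M e) ∈ t M e → ¬ R M a e)).congr
    fun _ _ _ _ => by push Not; rfl

instance ZD.exFst' [ZT s] [ZT t] : ZD (fun M e => ∃ a, pair a (s M e) ∈ t M e) :=
  (inferInstance : ZD (fun M e => ∃ a, pair a (s M e) ∈ t M e ∧ a = a)).congr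
    fun _ _ _ _ => by simp

instance ZD.exSnd' [ZT s] [ZT t] : ZD (fun M e => ∃ a, pair (s M e) a ∈ t M e) :=
  (inferInstance : ZD (fun M e => ∃ a, pair (s M e) a ∈ t M e ∧ a = a)).congr
    fun _ _ _ _ => by simp

instance ZD.exEqPair [ht : ZT t] {R : Set ZFSet.{u} → ZFSet.{u} → ZFSet.{u} → Env.{u} → Prop}
    [ZD (fun M e => R M (e 1) (e 0) (fun i => e (i + 1 + 1)))] :
    ZD (fun M e => ∃ a b, t M e = pair a b ∧ R M a b e) :=
  (inferInstance : ZD (fun M e => ∃ a b, pair a b ∈ ({t M e} : ZFSet.{u}) ∧ R M a b e)).congr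
    fun _ _ _ _ => by simp only [mem_singleton, eq_comm]

instance ZD.allEqPair [ht : ZT t] {R : Set ZFSet.{u} → ZFSet.{u} → ZFSet.{u} → Env.{u} → Prop}
    [ZD (fun M e => R M (e 1) (e 0) (fun i => e (i + 1 + 1)))] :
    ZD (fun M e => ∀ a b, t M e = pair a b → R M a b e) :=
  (inferInstance : ZD (fun M e => ¬ ∃ a b, t M e = pair a b ∧ ¬ R M a b e)).congr
    fun _ _ _ _ => by push Not; rfl

instance ZT.sep [ht : ZT t] {R : Set ZFSet.{u} → ZFSet.{u} → Env.{u} → Prop}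
    [h : ZD (fun M e => R M (e 0) (fun i => e (i + 1)))] :
    ZT (fun M e => (t M e).sep (fun x => R M x e)) := by
  refine ZT.ofTm (fun M hM => ?_) ?_
  · have := hM.zfm
    exact @Tm.sep M _ (t M) (ht.toTm hM) (R M) (h.toDf hM)
  have h1 : ZD (fun M e => R M (e 0) (fun i => e (i + 1 + 1))) :=
    h.rename (fun i => match i with | 0 => 0 | i + 1 => i + 1 + 1)
  have := ht.shift
  have := ht.shift.shift
  refine (inferInstance : ZD (fun M e => (∀ x ∈ e 0, x ∈ t M (fun i => e (i + 1)) ∧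
    R M x (fun i => e (i + 1))) ∧ ∀ x ∈ t M (fun i => e (i + 1)), R M x (fun i => e (i + 1)) →
      x ∈ e 0)).congr fun M _ e _ => ?_
  constructor
  · rintro ⟨h2, h3⟩
    ext x
    rw [mem_sep]
    exact ⟨h2 x, fun hx => h3 x hx.1 hx.2⟩
  · intro h2
    rw [h2]
    exact ⟨fun x hx => mem_sep.1 hx, fun x h3 h4 => mem_sep.2 ⟨h3, h4⟩⟩

instance ZT.img [ht : ZT t] {F : Set ZFSet.{u} → ZFSet.{u} → Env.{u} → ZFSet.{u}}
    [h : ZT (fun M e => F M (e 0) (fun i => e (i + 1)))] :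
    ZT (fun M e => img (fun x => F M x e) (t M e)) := by
  refine ZT.ofTm (fun M hM => ?_) ?_
  · have := hM.zfm
    exact @Tm.img M _ (t M) (ht.toTm hM) (F M) (h.toTm hM)
  have h1 : ZT (fun M e => F M (e 0) (fun i => e (i + 1 + 1))) :=
    h.rename (fun i => match i with | 0 => 0 | i + 1 => i + 1 + 1)
  have h2 : ZT (fun M e => F M (e 0) (fun i => e (i + 1 + 1 + 1))) :=
    h.rename (fun i => match i with | 0 => 0 | i + 1 => i + 1 + 1 + 1)
  have := ht.shift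
  have := ht.shift.shift
  refine (inferInstance : ZD (fun M e => (∀ z ∈ e 0, ∃ x ∈ t M (fun i => e (i + 1)),
    F M x (fun i => e (i + 1)) = z) ∧ ∀ x ∈ t M (fun i => e (i + 1)),
      F M x (fun i => e (i + 1)) ∈ e 0)).congr fun M _ e _ => ?_
  constructor
  · rintro ⟨h2, h3⟩
    ext z
    rw [mem_img]
    exact ⟨h2 z, fun ⟨x, hx, h4⟩ => h4 ▸ h3 x hx⟩
  · intro h2
    rw [h2]
    exact ⟨fun z hz => mem_img.1 hz, fun x hx => mem_img.2 ⟨x, hx, rfl⟩⟩

open Classical in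
instance ZT.ite {p : Set ZFSet.{u} → Env.{u} → Prop} [hp : ZD p] [hs : ZT s] [ht : ZT t] :
    ZT (fun M e => if p M e then s M e else t M e) := by
  constructor
  · intro M hM e he
    split_ifs
    exacts [hs.mem M hM e he, ht.mem M hM e he]
  · have := hs.shift
    have := ht.shift
    have : ZD (fun M e => p M (fun i => e (i + 1))) := hp.rename (· + 1)
    refine (inferInstance : ZD (fun M e =>
      (p M (fun i => e (i + 1)) ∧ e 0 = s M (fun i => e (i + 1))) ∨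
      (¬ p M (fun i => e (i + 1)) ∧ e 0 = t M (fun i => e (i + 1))))).congr fun M _ e _ => ?_
    split_ifs with h <;> simp [h]

instance ZT.union [ZT s] [ZT t] : ZT (fun M e => s M e ∪ t M e) :=
  (inferInstance : ZT (fun M e => (⋃₀ {s M e, t M e} : ZFSet.{u})))

instance ZT.inter [ZT s] [ht : ZT t] : ZT (fun M e => s M e ∩ t M e) :=
  have := ht.shift
  (inferInstance : ZT (fun M e => (s M e).sep (fun x => x ∈ t M e)))

instance ZT.sdiff [ZT s] [ht : ZT t] : ZT (fun M e => s M e \ t M e) :=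
  have := ht.shift
  (inferInstance : ZT (fun M e => (s M e).sep (fun x => ¬ x ∈ t M e)))

instance ZT.prod [hs : ZT s] [ht : ZT t] : ZT (fun M e => (s M e).prod (t M e)) :=
  ZT.subst2 (F := fun _ a b => a.prod b)
    (ZT.ofTm (fun _ hM => have := hM.zfm; inferInstance)
      ((inferInstance : ZD (fun _ e => (∀ z ∈ e 0, ∃ a ∈ e 1, ∃ b ∈ e 2, z = ZFSet.pair a b) ∧
        ∀ a ∈ e 1, ∀ b ∈ e 2, ZFSet.pair a b ∈ e 0)).congr fun _ _ e _ => by
      constructor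
      · rintro ⟨h1, h2⟩
        ext z
        rw [mem_prod]
        exact ⟨h1 z, fun ⟨a, ha, b, hb, h⟩ => h ▸ h2 a ha b hb⟩
      · intro h
        rw [h]
        exact ⟨fun z hz => mem_prod.1 hz, fun a ha b hb => pair_mem_prod.2 ⟨ha, hb⟩⟩)) hs ht

instance ZD.isFunc [hs : ZT s] [ht : ZT t] [hw : ZT w] :
    ZD (fun M e => IsFunc (s M e) (t M e) (w M e)) :=
  ZD.subst3 (R := fun _ => IsFunc) ((inferInstance : ZD (fun _ e => e 2 ⊆ (e 0).prod (e 1) ∧
    ∀ z ∈ e 0, ∃ y, pair z y ∈ e 2 ∧ ∀ y', pair z y' ∈ e 2 → y' = y)).congr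
      fun _ _ _ _ => Iff.rfl) hs ht hw

instance ZT.fst [hs : ZT s] : ZT (fun M e => fst (s M e)) :=
  ZT.subst1 (F := fun _ => Lib.Forcing.fst) (by unfold Lib.Forcing.fst; infer_instance) hs

instance ZT.snd [hs : ZT s] : ZT (fun M e => snd (s M e)) :=
  ZT.subst1 (F := fun _ => Lib.Forcing.snd) (by unfold Lib.Forcing.snd; infer_instance) hs

end subst

/-! Partial elementary maps. -/

/-- `k` is elementary from `M` to `M'` on assignments with values in `B`. -/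
structure Elem (M M' B : Set ZFSet.{u}) (k : ZFSet.{u} → ZFSet.{u}) : Prop where
  sub : B ⊆ M
  maps : ∀ x ∈ B, k x ∈ M'
  sat : ∀ (φ : Fml) (e : Env.{u}), (∀ i, e i ∈ B) → (Sat M φ e ↔ Sat M' φ (fun i => k (e i)))

variable {M M' B : Set ZFSet.{u}} {k : ZFSet.{u} → ZFSet.{u}}

theorem Elem.zd (h : Elem M M' B k) (hM : IsZFModel M) (hM' : IsZFModel M')
    (R : Set ZFSet.{u} → Env.{u} → Prop) [hR : ZD R] (e : Env.{u}) (he : ∀ i, e i ∈ B) :
    R M e ↔ R M' (fun i => k (e i)) := by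
  obtain ⟨φ, hφ⟩ := hR.out
  rw [hφ M hM e fun i => h.sub (he i), hφ M' hM' _ fun i => h.maps _ (he i), h.sat φ e he]

theorem Elem.zt (h : Elem M M' B k) (hM : IsZFModel M) (hM' : IsZFModel M')
    (t : Set ZFSet.{u} → Env.{u} → ZFSet.{u}) [ht : ZT t] (e : Env.{u}) (he : ∀ i, e i ∈ B)
    (hB : t M e ∈ B) : k (t M e) = t M' (fun i => k (e i)) :=
  (h.zd hM hM' _ (hR := ht.df) (cons (t M e) e) (cons_mem hB he)).1 rfl

theorem Elem.mem_iff (h : Elem M M' B k) {x y : ZFSet.{u}} (hx : x ∈ B) (hy : y ∈ B) :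
    k x ∈ k y ↔ x ∈ y :=
  (h.sat (.mem 0 1) (cons x fun _ => y) (cons_mem hx fun _ => hy)).symm

theorem Elem.inj (h : Elem M M' B k) {x y : ZFSet.{u}} (hx : x ∈ B) (hy : y ∈ B) :
    k x = k y ↔ x = y :=
  (h.sat (.eq 0 1) (cons x fun _ => y) (cons_mem hx fun _ => hy)).symm

theorem Elem.mono (h : Elem M M' B k) {B' : Set ZFSet.{u}} (hB : B' ⊆ B) : Elem M M' B' k :=
  ⟨hB.trans h.sub, fun x hx => h.maps x (hB hx), fun φ e he => h.sat φ e fun i => hB (he i)⟩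

theorem Elem.comp {M'' B' : Set ZFSet.{u}} {k' : ZFSet.{u} → ZFSet.{u}} (h' : Elem M' M'' B' k')
    (h : Elem M M' B k) (hB : ∀ x ∈ B, k x ∈ B') : Elem M M'' B (fun x => k' (k x)) :=
  ⟨h.sub, fun x hx => h'.maps _ (hB x hx), fun φ e he =>
    (h.sat φ e he).trans (h'.sat φ _ fun i => hB _ (he i))⟩

theorem Elem.congr (h : Elem M M' B k) {k' : ZFSet.{u} → ZFSet.{u}} (hk : ∀ x ∈ B, k' x = k x) :
    Elem M M' B k' :=
  ⟨h.sub, fun x hx => hk x hx ▸ h.maps x hx, fun φ e he => by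
    rw [h.sat φ e he, funext fun i => hk _ (he i)]⟩

section curried
variable (h : Elem M M' B k) (hM : IsZFModel M) (hM' : IsZFModel M') {a b c d f g : ZFSet.{u}}
include h hM hM'

theorem Elem.zd1 (R : Set ZFSet.{u} → ZFSet.{u} → Prop) [ZD (fun M e => R M (e 0))]
    (ha : a ∈ B) : R M a ↔ R M' (k a) :=
  h.zd hM hM' (fun M e => R M (e 0)) (fun _ => a) fun _ => ha

theorem Elem.zd2 (R : Set ZFSet.{u} → ZFSet.{u} → ZFSet.{u} → Prop)
    [ZD (fun M e => R M (e 0) (e 1))] (ha : a ∈ B) (hb : b ∈ B) :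
    R M a b ↔ R M' (k a) (k b) :=
  h.zd hM hM' (fun M e => R M (e 0) (e 1)) (cons a fun _ => b) (cons_mem ha fun _ => hb)

theorem Elem.zd3 (R : Set ZFSet.{u} → ZFSet.{u} → ZFSet.{u} → ZFSet.{u} → Prop)
    [ZD (fun M e => R M (e 0) (e 1) (e 2))] (ha : a ∈ B) (hb : b ∈ B) (hc : c ∈ B) :
    R M a b c ↔ R M' (k a) (k b) (k c) :=
  h.zd hM hM' (fun M e => R M (e 0) (e 1) (e 2)) (cons a (cons b fun _ => c))
    (cons_mem ha (cons_mem hb fun _ => hc))

theorem Elem.zd4 (R : Set ZFSet.{u} → ZFSet.{u} → ZFSet.{u} → ZFSet.{u} → ZFSet.{u} → Prop)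
    [ZD (fun M e => R M (e 0) (e 1) (e 2) (e 3))] (ha : a ∈ B) (hb : b ∈ B) (hc : c ∈ B)
    (hd : d ∈ B) : R M a b c d ↔ R M' (k a) (k b) (k c) (k d) :=
  h.zd hM hM' (fun M e => R M (e 0) (e 1) (e 2) (e 3)) (cons a (cons b (cons c fun _ => d)))
    (cons_mem ha (cons_mem hb (cons_mem hc fun _ => hd)))

theorem Elem.zd5 (R : Set ZFSet.{u} → ZFSet.{u} → ZFSet.{u} → ZFSet.{u} → ZFSet.{u} →
      ZFSet.{u} → Prop)
    [ZD (fun M e => R M (e 0) (e 1) (e 2) (e 3) (e 4))] (ha : a ∈ B) (hb : b ∈ B) (hc : c ∈ B)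
    (hd : d ∈ B) (hf : f ∈ B) : R M a b c d f ↔ R M' (k a) (k b) (k c) (k d) (k f) :=
  h.zd hM hM' (fun M e => R M (e 0) (e 1) (e 2) (e 3) (e 4))
    (cons a (cons b (cons c (cons d fun _ => f))))
    (cons_mem ha (cons_mem hb (cons_mem hc (cons_mem hd fun _ => hf))))

theorem Elem.zd6 (R : Set ZFSet.{u} → ZFSet.{u} → ZFSet.{u} → ZFSet.{u} → ZFSet.{u} →
      ZFSet.{u} → ZFSet.{u} → Prop)
    [ZD (fun M e => R M (e 0) (e 1) (e 2) (e 3) (e 4) (e 5))] (ha : a ∈ B) (hb : b ∈ B)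
    (hc : c ∈ B) (hd : d ∈ B) (hf : f ∈ B) (hg : g ∈ B) :
    R M a b c d f g ↔ R M' (k a) (k b) (k c) (k d) (k f) (k g) :=
  h.zd hM hM' (fun M e => R M (e 0) (e 1) (e 2) (e 3) (e 4) (e 5))
    (cons a (cons b (cons c (cons d (cons f fun _ => g)))))
    (cons_mem ha (cons_mem hb (cons_mem hc (cons_mem hd (cons_mem hf fun _ => hg)))))

theorem Elem.zt1 (F : Set ZFSet.{u} → ZFSet.{u} → ZFSet.{u}) [ZT (fun M e => F M (e 0))]
    (ha : a ∈ B) (hB : F M a ∈ B) : k (F M a) = F M' (k a) :=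
  h.zt hM hM' (fun M e => F M (e 0)) (fun _ => a) (fun _ => ha) hB

theorem Elem.zt2 (F : Set ZFSet.{u} → ZFSet.{u} → ZFSet.{u} → ZFSet.{u})
    [ZT (fun M e => F M (e 0) (e 1))] (ha : a ∈ B) (hb : b ∈ B) (hB : F M a b ∈ B) :
    k (F M a b) = F M' (k a) (k b) :=
  h.zt hM hM' (fun M e => F M (e 0) (e 1)) (cons a fun _ => b) (cons_mem ha fun _ => hb) hB

theorem Elem.zt3 (F : Set ZFSet.{u} → ZFSet.{u} → ZFSet.{u} → ZFSet.{u} → ZFSet.{u})
    [ZT (fun M e => F M (e 0) (e 1) (e 2))] (ha : a ∈ B) (hb : b ∈ B) (hc : c ∈ B)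
    (hB : F M a b c ∈ B) : k (F M a b c) = F M' (k a) (k b) (k c) :=
  h.zt hM hM' (fun M e => F M (e 0) (e 1) (e 2)) (cons a (cons b fun _ => c))
    (cons_mem ha (cons_mem hb fun _ => hc)) hB

theorem Elem.zt4 (F : Set ZFSet.{u} → ZFSet.{u} → ZFSet.{u} → ZFSet.{u} → ZFSet.{u} → ZFSet.{u})
    [ZT (fun M e => F M (e 0) (e 1) (e 2) (e 3))] (ha : a ∈ B) (hb : b ∈ B) (hc : c ∈ B)
    (hd : d ∈ B) (hB : F M a b c d ∈ B) : k (F M a b c d) = F M' (k a) (k b) (k c) (k d) :=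
  h.zt hM hM' (fun M e => F M (e 0) (e 1) (e 2) (e 3)) (cons a (cons b (cons c fun _ => d)))
    (cons_mem ha (cons_mem hb (cons_mem hc fun _ => hd))) hB

theorem Elem.subset_iff (ha : a ∈ B) (hb : b ∈ B) : k a ⊆ k b ↔ a ⊆ b :=
  (h.zd2 hM hM' (fun _ a b => a ⊆ b) ha hb).symm

end curried

end Pool.Agent.P.MP_37b794_lc.I0
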