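import Pool.Agent.P.MP_37b794_lc.I0.U1

/-!
Uniform definability of recursively defined operations: rank, Gödel pairing, inductive
definitions, the definable power set, the constructible hierarchy, and truth in a set or in an
inner model.
-/

universe u

set_option synthInstance.maxSize 16384

namespace Pool.Agent.P.MP_37b794_lc.I0

open ZFSet Pool.Agent.Lib.Forcing

/-- Recursion along a well-founded relation, with one parameter. -/
theorem zt_recursion (r : ZFSet.{u} → ZFSet.{u} → Prop) (hr : WellFounded r)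
    [hrd : ZD (fun _ e => r (e 0) (e 1))]
    (hT : ∀ M, IsZFModel M → ∀ x ∈ M, ∃ T ∈ M, x ∈ T ∧ ∀ y ∈ T, ∀ z, r z y → z ∈ T)
    (F : ZFSet.{u} → ZFSet.{u} → ZFSet.{u}) (G : ZFSet.{u} → ZFSet.{u} → ZFSet.{u} → ZFSet.{u})
    [hG : ZT (fun _ e => G (e 0) (e 1) (e 2))]
    (H : ∀ c x f, (∀ y, r y x → ∀ z, pair y z ∈ f ↔ z = F c y) → F c x = G c x f) :
    ZT (fun _ e => F (e 0) (e 1)) := by
  have hr' : ∀ (s t : Set ZFSet.{u} → Env.{u} → ZFSet.{u}) [ZT s] [ZT t],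
      ZD (fun M e => r (s M e) (t M e)) :=
    fun s t hs ht => ZD.subst2 (R := fun _ => r) hrd hs ht
  have hG' : ∀ (s t w : Set ZFSet.{u} → Env.{u} → ZFSet.{u}) [ZT s] [ZT t] [ZT w],
      ZT (fun M e => G (s M e) (t M e) (w M e)) :=
    fun s t w hs ht hw => ZT.subst3 (F := fun _ => G) hG hs ht hw
  have tm : ∀ M, IsZFModel M → ∀ c ∈ M, Tm M (fun e => F c (e 0)) := by
    intro M hM c hc
    have := hM.zfm
    have h1 : Df M (fun e => e 3 = G (e 0) (e 1) (e 2)) :=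
      (inferInstance : ZD (fun _ e => e 3 = G (e 0) (e 1) (e 2))).toDf hM
    have := InM.mk hc
    refine @Lib.Forcing.recursion M _ r hr (hrd.toDf hM) (hT M hM) (F c)
      (fun x f z => z = G c x f)
      (Df.subst4 (R := fun a b c d => d = G a b c) h1 (fun _ => c) (fun e => e 0) (fun e => e 1)
        (fun e => e 2)) ?_
    intro x hx f hf h
    rw [H c x f h]
    exact ⟨hG.mem M hM (cons c (cons x fun _ => f)) (cons_mem hc (cons_mem hx fun _ => hf)),
      fun z _ => Iff.rfl⟩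
  refine ⟨fun M hM e he => (tm M hM _ (he 0)).mem1 (he 1), ?_⟩
  refine (inferInstance : ZD (fun M e => ∃ T ∈ M, ∃ f ∈ M, (∀ y ∈ T, ∀ w ∈ M, r w y → w ∈ T) ∧
    (∀ y ∈ T, pair y (G (e 1) y f) ∈ f ∧ ∀ w, pair y w ∈ f → w = G (e 1) y f) ∧ e 2 ∈ T ∧
      pair (e 2) (e 0) ∈ f)).congr fun M hM e he => ?_
  have := hM.zfm
  have hrM : ∀ y ∈ M, ∀ z, r z y → z ∈ M := by
    intro y hy z hz
    obtain ⟨T, hT, h1, h2⟩ := hT M hM y hy
    exact mem_of_mem hT (h2 y h1 z hz)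
  constructor
  · rintro ⟨T, hTM, f, -, h1, h2, h3, h4⟩
    have key : ∀ y, y ∈ T → ∀ z, pair y z ∈ f ↔ z = F (e 1) y := by
      intro y
      induction y using hr.induction with
      | h y ih =>
        intro hy z
        rw [H (e 1) y f fun y' hy' =>
          ih y' hy' (h1 y hy y' (hrM y (mem_of_mem hTM hy) y' hy') hy')]
        exact ⟨(h2 y hy).2 z, fun h => h ▸ (h2 y hy).1⟩
    exact (key _ h3 _).1 h4
  · intro h
    obtain ⟨T, hTM, h1, h2⟩ := hT M hM _ (he 2)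
    have h3 := tm M hM _ (he 1)
    obtain ⟨f, hf, Hf⟩ := exists_image_tm (M := M) (fun y => pair y (F (e 1) y)) hTM
    have h4 : ∀ y ∈ T, ∀ z, pair y z ∈ f ↔ z = F (e 1) y := by
      intro y hy z
      rw [Hf]
      constructor
      · rintro ⟨y', -, h⟩
        obtain ⟨rfl, rfl⟩ := pair_inj.1 h; rfl
      · rintro rfl; exact ⟨y, hy, rfl⟩
    refine ⟨T, hTM, f, hf, fun y hy w _ hw => h2 y hy w hw, fun y hy => ?_, h1,
      (h4 _ h1 _).2 h⟩
    rw [← H (e 1) y f fun y' hy' => h4 y' (h2 y hy y' hy')]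
    exact ⟨(h4 y hy _).2 rfl, fun w hw => (h4 y hy w).1 hw⟩

/-- Recursion on membership, with one parameter. -/
theorem zt_mem_recursion (F : ZFSet.{u} → ZFSet.{u} → ZFSet.{u})
    (G : ZFSet.{u} → ZFSet.{u} → ZFSet.{u} → ZFSet.{u})
    [hG : ZT (fun _ e => G (e 0) (e 1) (e 2))]
    (H : ∀ c x f, (∀ y ∈ x, ∀ z, pair y z ∈ f ↔ z = F c y) → F c x = G c x f) :
    ZT (fun _ e => F (e 0) (e 1)) :=
  zt_recursion (· ∈ ·) mem_wf (fun M hM x hx => by
    have := hM.zfm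
    obtain ⟨T, hT, h1, h2⟩ := exists_trans hx
    exact ⟨T, hT, h2, fun y hy z hz => h1 y hy hz⟩) F G H

theorem snd_mem_sUnion {a b f : ZFSet.{u}} (h : pair a b ∈ f) : b ∈ (⋃₀ ⋃₀ f : ZFSet.{u}) :=
  mem_sUnion.2 ⟨{a, b}, mem_sUnion.2 ⟨_, h, mem_pair.2 (Or.inr rfl)⟩, mem_pair.2 (Or.inr rfl)⟩

theorem fst_mem_sUnion {a b f : ZFSet.{u}} (h : pair a b ∈ f) : a ∈ (⋃₀ ⋃₀ f : ZFSet.{u}) :=
  mem_sUnion.2 ⟨{a, b}, mem_sUnion.2 ⟨_, h, mem_pair.2 (Or.inr rfl)⟩, mem_pair.2 (Or.inl rfl)⟩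

section
variable {s t w v z : Set ZFSet.{u} → Env.{u} → ZFSet.{u}}

instance ZT.rk [hs : ZT s] : ZT (fun M e => rk (s M e)) := by
  have h := zt_mem_recursion.{u} (fun _ x => Lib.Forcing.rk x)
    (fun _ x f => ⋃₀ Lib.Forcing.img (fun v => Insert.insert v v)
      ((⋃₀ ⋃₀ f).sep fun v => ∃ y ∈ x, ZFSet.pair y v ∈ f)) (by
      intro _ x f H
      ext w
      simp only [mem_rk, mem_sUnion, mem_img, mem_sep]
      constructor
      · rintro ⟨y, hy, h⟩
        have h3 := (H y hy _).2 rfl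
        exact ⟨_, ⟨_, ⟨by simpa only [mem_sUnion] using snd_mem_sUnion h3, y, hy, h3⟩, rfl⟩, h⟩
      · rintro ⟨_, ⟨v, ⟨-, y, hy, h3⟩, rfl⟩, h⟩
        exact ⟨y, hy, (H y hy v).1 h3 ▸ h⟩)
  exact ZT.subst2 (F := fun _ _ x => Lib.Forcing.rk x) h hs hs

instance ZD.pairLt [hs : ZT s] [ht : ZT t] : ZD (fun M e => PairLt (s M e) (t M e)) :=
  ZD.subst2 (R := fun _ => PairLt) (by unfold PairLt; infer_instance) hs ht

instance ZT.gp [hs : ZT s] : ZT (fun M e => gp (s M e)) := by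
  have h := zt_recursion.{u} PairLt pairLt_wf (by
      intro M hM x hx
      have := hM.zfm
      refine ⟨_, insert_mem hx (prod_mem (rk_mem hx) (rk_mem hx)), mem_insert _ _,
        fun y hy z hz => ?_⟩
      refine mem_insert_of_mem _ ?_
      rcases mem_insert_iff.1 hy with rfl | hy
      · exact hz.mem_prod'
      · obtain ⟨α, hα, β, hβ, rfl⟩ := mem_prod.1 hy
        exact hz.mem_prod (isOrdinal_rk _) hα hβ) (fun _ x => Lib.Forcing.gp x)
    (fun _ x f => (⋃₀ ⋃₀ f).sep fun w => ∃ y, ZFSet.pair y w ∈ f ∧ PairLt y x) (by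
      intro _ x f H
      ext w
      simp only [mem_gp, mem_sep]
      constructor
      · rintro ⟨y, h, rfl⟩
        have h3 := (H y h _).2 rfl
        exact ⟨snd_mem_sUnion h3, y, h3, h⟩
      · rintro ⟨-, y, h2, h⟩
        exact ⟨y, h, ((H y h w).1 h2).symm⟩)
  exact ZT.subst2 (F := fun _ _ x => Lib.Forcing.gp x) h hs hs

/-- Inductive definitions with one parameter. -/
theorem ZD.gen (A : ZFSet.{u} → ZFSet.{u} → Prop)
    (S : ZFSet.{u} → ZFSet.{u} → ZFSet.{u} → ZFSet.{u} → Prop)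
    [hA : ZD (fun _ e => A (e 0) (e 1))] [hS : ZD (fun _ e => S (e 0) (e 1) (e 2) (e 3))] :
    ZD (fun M e => Gen M (A (e 1)) (S (e 1)) (e 0)) := by
  have hA' : ∀ (s t : Set ZFSet.{u} → Env.{u} → ZFSet.{u}) [ZT s] [ZT t],
      ZD (fun M e => A (s M e) (t M e)) := fun s t hs ht => ZD.subst2 (R := fun _ => A) hA hs ht
  have hS' : ∀ (s t w v : Set ZFSet.{u} → Env.{u} → ZFSet.{u}) [ZT s] [ZT t] [ZT w] [ZT v],
      ZD (fun M e => S (s M e) (t M e) (w M e) (v M e)) :=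
    fun s t w v hs ht hw hv => ZD.subst4 (R := fun _ => S) hS hs ht hw hv
  refine (inferInstance : ZD (fun M e => ∃ C ∈ M, (∀ k w, pair k w ∈ C → A (e 1) w ∨
    ∃ k1 ∈ k, ∃ a, pair k1 a ∈ C ∧ ∃ k2 ∈ k, ∃ b, pair k2 b ∈ C ∧ S (e 1) w a b) ∧
      ∃ k, pair k (e 0) ∈ C)).congr fun M hM e _ => ?_
  have := hM.zfm
  generalize e 0 = z
  generalize e 1 = c
  constructor
  · rintro ⟨C, hC, H, k, hk⟩
    induction k using ZFSet.inductionOn generalizing z with
    | h k ih =>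
      rcases H k z hk with h | ⟨k1, h1, a, ha, k2, h2, b, hb, h⟩
      · exact .ax (snd_mem hC hk) h
      · exact .step (snd_mem hC hk) (ih k1 h1 a ha) (ih k2 h2 b hb) h
  · intro h
    induction h with
    | @ax z hz h =>
      refine ⟨{pair ∅ z}, singleton_mem (pair_mem Trans.empty hz), fun k w hw => Or.inl ?_,
        ∅, mem_singleton.2 rfl⟩
      rwa [(pair_inj.1 (mem_singleton.1 hw)).2]
    | @step z a b hz _ _ h ih1 ih2 =>
      obtain ⟨C1, hC1, H1, k1, hk1⟩ := ih1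
      obtain ⟨C2, hC2, H2, k2, hk2⟩ := ih2
      refine ⟨insert (pair {k1, k2} z) (C1 ∪ C2), insert_mem
        (pair_mem (upair_mem (fst_mem hC1 hk1) (fst_mem hC2 hk2)) hz) (union_mem hC1 hC2),
        fun k w hw => ?_, _, mem_insert _ _⟩
      have l1 : ∀ x, x ∈ C1 → x ∈ (insert (pair {k1, k2} z) (C1 ∪ C2) : ZFSet.{u}) :=
        fun x hx => mem_insert_of_mem _ (mem_union.2 (Or.inl hx))
      have l2 : ∀ x, x ∈ C2 → x ∈ (insert (pair {k1, k2} z) (C1 ∪ C2) : ZFSet.{u}) :=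
        fun x hx => mem_insert_of_mem _ (mem_union.2 (Or.inr hx))
      rcases mem_insert_iff.1 hw with hw | hw
      · obtain ⟨rfl, rfl⟩ := pair_inj.1 hw
        exact Or.inr ⟨k1, mem_pair.2 (Or.inl rfl), a, l1 _ hk1, k2, mem_pair.2 (Or.inr rfl), b,
          l2 _ hk2, h⟩
      · rcases mem_union.1 hw with hw | hw
        · exact (H1 k w hw).imp_right fun ⟨j1, h1, a, ha, j2, h2, b, hb, h⟩ =>
            ⟨j1, h1, a, l1 _ ha, j2, h2, b, l1 _ hb, h⟩
        · exact (H2 k w hw).imp_right fun ⟨j1, h1, a, ha, j2, h2, b, hb, h⟩ =>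
            ⟨j1, h1, a, l2 _ ha, j2, h2, b, l2 _ hb, h⟩

instance ZT.opExt [hs : ZT s] [ht : ZT t] [hw : ZT w] :
    ZT (fun M e => opExt (s M e) (t M e) (w M e)) :=
  ZT.subst3 (F := fun _ => Lib.Forcing.opExt) (by unfold Lib.Forcing.opExt; infer_instance) hs ht hw

instance ZT.opMem [hs : ZT s] [ht : ZT t] [hw : ZT w] :
    ZT (fun M e => opMem (s M e) (t M e) (w M e)) :=
  ZT.subst3 (F := fun _ => Lib.Forcing.opMem) (by unfold Lib.Forcing.opMem; infer_instance) hs ht hw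

instance ZT.opEq [hs : ZT s] [ht : ZT t] [hw : ZT w] :
    ZT (fun M e => opEq (s M e) (t M e) (w M e)) :=
  ZT.subst3 (F := fun _ => Lib.Forcing.opEq) (by unfold Lib.Forcing.opEq; infer_instance) hs ht hw

instance ZT.opAll [hs : ZT s] [ht : ZT t] [hw : ZT w] [hv : ZT v] :
    ZT (fun M e => opAll (s M e) (t M e) (w M e) (v M e)) :=
  ZT.subst4 (F := fun _ => Lib.Forcing.opAll) (by unfold Lib.Forcing.opAll; infer_instance)
    hs ht hw hv

instance ZT.opSec [hs : ZT s] [ht : ZT t] [hw : ZT w] [hv : ZT v] :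
    ZT (fun M e => opSec (s M e) (t M e) (w M e) (v M e)) :=
  ZT.subst4 (F := fun _ => Lib.Forcing.opSec) (by unfold Lib.Forcing.opSec; infer_instance)
    hs ht hw hv

/-- `z` is the triple (arity, set of all tuples, relation) of a definable relation on `X`. -/
def DZ (X z : ZFSet.{u}) : Prop := ∃ n R, Der X n R ∧ z = pair (nat n) (pair (tups X n) R)

instance ZD.dz [hs : ZT s] [ht : ZT t] : ZD (fun M e => DZ (s M e) (t M e)) := by
  have h1 := @ZD.gen.{u} (fun _ z => z = ZFSet.pair ∅ (ZFSet.pair {∅} {∅})) DStep inferInstance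
    (by unfold DStep; infer_instance)
  have h2 : ZD.{u} (fun _ e => DZ (e 1) (e 0)) := h1.congr fun M hM e he => by
    have := hM.zfm
    exact gen_iff_der (he 1)
  exact ZD.subst2 (R := fun _ a b => DZ b a) h2 ht hs

theorem DZ.mem_model {M : Set ZFSet.{u}} (hM : IsZFModel M) {X z : ZFSet.{u}} (hX : X ∈ M)
    (h : DZ X z) : z ∈ M := by
  have := hM.zfm
  obtain ⟨n, R, h1, rfl⟩ := h
  exact pair_mem (nat_mem n) (pair_mem (tups_mem hX n) (h1.mem_model hX))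

theorem zd_mem_defPow : ZD.{u} (fun _ e => e 0 ∈ defPow (e 1)) := by
  refine (inferInstance : ZD (fun M e => (∃ x ∈ e 1, x = x) ∧ ∃ n ∈ M, ∃ U ∈ M, ∃ R0 ∈ M,
    ∃ U' ∈ M, ∃ R ∈ M, DZ (e 1) (pair n (pair U R0)) ∧ DZ (e 1) (pair (insert n n) (pair U' R)) ∧
      ∃ s ∈ U, e 0 = opSec (e 1) s R n)).congr fun M hM e he => ?_
  have := hM.zfm
  rw [mem_defPow_iff]
  refine and_congr (by simp) ⟨?_, ?_⟩
  · rintro ⟨_, -, _, -, _, -, _, -, _, -, ⟨n, R0, -, h7⟩, ⟨n', R, h6, h8⟩, h5⟩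
    simp only [pair_inj] at h7 h8
    obtain ⟨rfl, rfl, rfl⟩ := h7
    obtain ⟨h8, rfl, rfl⟩ := h8
    obtain rfl := (nat_inj (m := n + 1)).1 h8
    exact ⟨n, _, h6, h5⟩
  · rintro ⟨n, R, h3, h4⟩
    exact ⟨_, nat_mem n, _, tups_mem (he 1) n, _, tups_mem (he 1) n, _, tups_mem (he 1) (n + 1),
      _, h3.mem_model (he 1), ⟨n, _, Der.top _ n, rfl⟩, ⟨n + 1, _, h3, rfl⟩, h4⟩

instance ZT.defPow [hs : ZT s] : ZT (fun M e => defPow (s M e)) := by
  have h1 : ∀ (s t : Set ZFSet.{u} → Env.{u} → ZFSet.{u}) [ZT s] [ZT t],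
      ZD (fun M e => s M e ∈ Lib.Forcing.defPow (t M e)) :=
    fun s t hs ht => ZD.subst2 (R := fun _ a b => a ∈ Lib.Forcing.defPow b) zd_mem_defPow hs ht
  refine ZT.subst1 (F := fun _ => Lib.Forcing.defPow) (ZT.ofTm (fun M hM => ?_) ?_) hs
  · have := hM.zfm
    exact tm_defPow hM.powerSet
  · refine (inferInstance : ZD (fun M e => ∀ Y ∈ M,
      (Y ∈ e 0 ↔ Y ∈ Lib.Forcing.defPow (e 1)))).congr
      fun M hM e he => ⟨fun h => ?_, fun h Y _ => h ▸ Iff.rfl⟩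
    have := hM.zfm
    ext Y
    exact ⟨fun hY => (h Y (mem_of_mem (he 0) hY)).1 hY,
      fun hY => (h Y (mem_model_of_mem_defPow (he 1) hY)).2 hY⟩

instance ZT.level [hs : ZT s] [ht : ZT t] : ZT (fun M e => level (s M e) (t M e)) := by
  have h := zt_mem_recursion.{u} Lib.Forcing.level
    (fun b x f => b ∪ ⋃₀ Lib.Forcing.img (fun v => Lib.Forcing.defPow v)
      ((⋃₀ ⋃₀ f).sep fun v => ∃ y ∈ x, ZFSet.pair y v ∈ f)) (by
      intro b x f H
      ext w
      simp only [mem_level, mem_union, mem_sUnion, mem_img, mem_sep]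
      refine or_congr_right ⟨?_, ?_⟩
      · rintro ⟨β, hβ, h⟩
        have h3 := (H β hβ _).2 rfl
        exact ⟨_, ⟨_, ⟨by simpa only [mem_sUnion] using snd_mem_sUnion h3, β, hβ, h3⟩, rfl⟩, h⟩
      · rintro ⟨_, ⟨v, ⟨-, β, hβ, h3⟩, rfl⟩, h⟩
        exact ⟨β, hβ, (H β hβ v).1 h3 ▸ h⟩)
  exact ZT.subst2 (F := fun _ => Lib.Forcing.level) h hs ht

instance ZD.memConstr [hs : ZT s] [ht : ZT t] : ZD (fun M e => s M e ∈ constr M (t M e)) :=
  ZD.subst2 (R := fun M a b => a ∈ constr M b)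
    (inferInstance : ZD (fun M e => ∃ α ∈ M, α.IsOrdinal ∧ e 0 ∈ level (e 1) α)) hs ht

instance ZD.allConstr [ht : ZT t] {R : Set ZFSet.{u} → ZFSet.{u} → Env.{u} → Prop}
    [ZD (fun M e => R M (e 0) (fun i => e (i + 1)))] :
    ZD (fun M e => ∀ x ∈ constr M (t M e), R M x e) :=
  have := ht.shift
  (inferInstance : ZD (fun M e => ∀ x ∈ M, x ∈ constr M (t M e) → R M x e)).congr
    fun M hM e he =>
      have := hM.zfm
      ⟨fun H x hx => H x (constr_subset hM.powerSet (ht.mem M hM e he) hx) hx,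
        fun H x _ hx => H x hx⟩

end

/-- Truth in the set `e 0` of a formula at the assignment `e 1, e 2, ...`. -/
theorem ZD.satSet (φ : Fml) :
    ZD.{u} (fun _ e => Sat (e 0 : Set ZFSet.{u}) φ (fun i => e (i + 1))) := by
  induction φ with
  | mem i j => exact ZD.sat (.mem (i + 1) (j + 1))
  | eq i j => exact ZD.sat (.eq (i + 1) (j + 1))
  | neg φ ih => exact @ZD.not _ ih
  | and φ ψ ih1 ih2 => exact @ZD.and _ _ ih1 ih2
  | all φ ih =>
    have h1 := ih.rename (fun i => match i with | 0 => 1 | 1 => 0 | i + 2 => i + 2)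
    have h2 : ZD.{u} (fun _ e => Sat (e 1 : Set ZFSet.{u}) φ (cons (e 0) fun i => e (i + 1 + 1))) :=
      h1.congr fun _ _ e _ => iff_of_eq (congrArg _ (funext fun i => by cases i <;> rfl))
    exact @ZD.allIn (fun _ e => e 0) _
      (fun _ x e => Sat (e 0 : Set ZFSet.{u}) φ (cons x fun i => e (i + 1))) h2

/-- Truth in the inner model `L(e 0)` of a formula at the assignment `e 1, e 2, ...`. -/
theorem ZD.satConstr (φ : Fml) :
    ZD.{u} (fun M e => Sat (constr M (e 0)) φ (fun i => e (i + 1))) := by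
  induction φ with
  | mem i j => exact ZD.sat (.mem (i + 1) (j + 1))
  | eq i j => exact ZD.sat (.eq (i + 1) (j + 1))
  | neg φ ih => exact @ZD.not _ ih
  | and φ ψ ih1 ih2 => exact @ZD.and _ _ ih1 ih2
  | all φ ih =>
    have h1 := ih.rename (fun i => match i with | 0 => 1 | 1 => 0 | i + 2 => i + 2)
    have h2 : ZD.{u} (fun M e => Sat (constr M (e 1)) φ (cons (e 0) fun i => e (i + 1 + 1))) :=
      h1.congr fun _ _ e _ => iff_of_eq (congrArg _ (funext fun i => by cases i <;> rfl))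
    exact @ZD.allConstr (fun _ e => e 0) _
      (fun M x e => Sat (constr M (e 0)) φ (cons x fun i => e (i + 1))) h2

end Pool.Agent.P.MP_37b794_lc.I0
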